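import Pool.Agent.Lib.Ctm.Ord

/-!
# A universal `Σ_1` relation, uniformly definable in all transitive models
-/

namespace Pool.Agent.Lib.Ctm

open Pool.Agent.Lib.Forcing ZFSet

/-- the class of all transitive models of ZF -/
def AllTM : Set (Set Z) := {M | TM M}

instance : MK AllTM := ⟨fun _ h => h⟩

/-- codes of formulas, hereditarily finite sets -/
noncomputable def code : Fml → Z
  | .fmem i j => pair ((0 : Ordinal).toZFSet) (pair ((i : Ordinal).toZFSet) ((j : Ordinal).toZFSet))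
  | .feq i j => pair ((1 : Ordinal).toZFSet) (pair ((i : Ordinal).toZFSet) ((j : Ordinal).toZFSet))
  | .fneg φ => pair ((2 : Ordinal).toZFSet) (code φ)
  | .fand φ ψ => pair ((3 : Ordinal).toZFSet) (pair (code φ) (code ψ))
  | .fall φ => pair ((4 : Ordinal).toZFSet) (code φ)

/-- the natural number `n` as a set -/
noncomputable def nz (n : ℕ) : Z := (n : Ordinal).toZFSet

theorem nz_mem_om (n : ℕ) : nz n ∈ om := mem_om.2 ⟨n, rfl⟩

theorem nz_inj {m n : ℕ} (h : nz m = nz n) : m = n := by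
  have := congrArg rank h
  rw [nz, nz, Ordinal.rank_toZFSet, Ordinal.rank_toZFSet] at this
  exact_mod_cast this

theorem nz_succ (n : ℕ) : nz (n + 1) = insert (nz n) (nz n) := by
  rw [nz, Nat.cast_add, Nat.cast_one, Ordinal.toZFSet_add_one]; rfl

theorem code_fmem (i j : ℕ) : code (.fmem i j) = pair (nz 0) (pair (nz i) (nz j)) := by
  simp [code, nz]

theorem code_feq (i j : ℕ) : code (.feq i j) = pair (nz 1) (pair (nz i) (nz j)) := by
  simp [code, nz]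

theorem code_fneg (φ : Fml) : code (.fneg φ) = pair (nz 2) (code φ) := by
  simp [code, nz]

theorem code_fand (φ ψ : Fml) : code (.fand φ ψ) = pair (nz 3) (pair (code φ) (code ψ)) := by
  simp [code, nz]

theorem code_fall (φ : Fml) : code (.fall φ) = pair (nz 4) (code φ) := by
  simp [code, nz]

theorem rk_mem_om {x : Z} : rk x ∈ om ↔ rank x < Ordinal.omega0 := by
  rw [om, rk, Ordinal.toZFSet_mem_toZFSet_iff]

theorem rank_pair_lt {x y : Z} (hx : rank x < Ordinal.omega0) (hy : rank y < Ordinal.omega0) :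
    rank (pair x y) < Ordinal.omega0 := by
  have hl : Order.IsSuccLimit Ordinal.omega0 := Ordinal.isSuccLimit_omega0
  rw [pair, rank_pair, rank_singleton, rank_pair]
  refine max_lt ?_ ?_
  · exact hl.succ_lt (hl.succ_lt hx)
  · exact hl.succ_lt (max_lt (hl.succ_lt hx) (hl.succ_lt hy))

theorem rank_nz (n : ℕ) : rank (nz n) < Ordinal.omega0 := by
  rw [nz, Ordinal.rank_toZFSet]; exact Ordinal.natCast_lt_omega0 n

theorem rk_code (φ : Fml) : rk (code φ) ∈ om := by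
  rw [rk_mem_om]
  induction φ with
  | fmem i j =>
    rw [code_fmem]; exact rank_pair_lt (rank_nz _) (rank_pair_lt (rank_nz _) (rank_nz _))
  | feq i j =>
    rw [code_feq]; exact rank_pair_lt (rank_nz _) (rank_pair_lt (rank_nz _) (rank_nz _))
  | fneg φ ih => rw [code_fneg]; exact rank_pair_lt (rank_nz _) ih
  | fand φ ψ ih1 ih2 => rw [code_fand]; exact rank_pair_lt (rank_nz _) (rank_pair_lt ih1 ih2)
  | fall φ ih => rw [code_fall]; exact rank_pair_lt (rank_nz _) ih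

theorem TM.nz_mem {M : Set Z} (hM : TM M) (n : ℕ) : nz n ∈ M :=
  hM.trans _ hM.om_mem _ (nz_mem_om n)

theorem TM.code_mem {M : Set Z} (hM : TM M) (φ : Fml) : code φ ∈ M := by
  induction φ with
  | fmem i j =>
    rw [code_fmem]; exact hM.pair_mem (hM.nz_mem _) (hM.pair_mem (hM.nz_mem _) (hM.nz_mem _))
  | feq i j =>
    rw [code_feq]; exact hM.pair_mem (hM.nz_mem _) (hM.pair_mem (hM.nz_mem _) (hM.nz_mem _))
  | fneg φ ih => rw [code_fneg]; exact hM.pair_mem (hM.nz_mem _) ih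
  | fand φ ψ ih1 ih2 => rw [code_fand]; exact hM.pair_mem (hM.nz_mem _) (hM.pair_mem ih1 ih2)
  | fall φ ih => rw [code_fall]; exact hM.pair_mem (hM.nz_mem _) ih

/-! ## assignments as sets -/

/-- the set coding an assignment -/
noncomputable def enc (v : ℕ → Z) : Z := ZFSet.range (fun n : ℕ => pair (nz n) (v n))

theorem mem_enc {v : ℕ → Z} {z : Z} : z ∈ enc v ↔ ∃ n, z = pair (nz n) (v n) := by
  rw [enc, mem_range]
  constructor
  · rintro ⟨n, h⟩; exact ⟨n, h.symm⟩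
  · rintro ⟨n, rfl⟩; exact ⟨n, rfl⟩

theorem ap_enc (v : ℕ → Z) (n : ℕ) : ap (enc v) (nz n) = v n := by
  refine ap_eq (mem_enc.2 ⟨n, rfl⟩) fun z hz => ?_
  obtain ⟨m, hm⟩ := mem_enc.1 hz
  obtain ⟨h1, h2⟩ := pair_inj.1 hm
  rw [h2, nz_inj h1]

/-- the code of the assignment `y, f 0, f 1, ...` -/
noncomputable def cf (y f : Z) : Z :=
  insert (pair ∅ y) (img (fun n => pair (insert n n) (ap f n)) om)

theorem nz_zero : nz 0 = ∅ := by simp [nz]

theorem cf_enc (y : Z) (v : ℕ → Z) : cf y (enc v) = enc (cons y v) := by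
  ext z
  rw [cf, mem_insert_iff, mem_img, mem_enc]
  constructor
  · rintro (rfl | ⟨n, hn, rfl⟩)
    · exact ⟨0, by rw [nz_zero]; rfl⟩
    · obtain ⟨m, rfl⟩ := mem_om.1 hn
      refine ⟨m + 1, ?_⟩
      change pair (insert (nz m) (nz m)) (ap (enc v) (nz m)) = _
      rw [ap_enc, nz_succ]; rfl
  · rintro ⟨n, rfl⟩
    cases n with
    | zero => left; rw [nz_zero]; rfl
    | succ n =>
      right
      refine ⟨nz n, nz_mem_om n, ?_⟩
      rw [ap_enc, nz_succ]; rfl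

/-- the code of the assignment constantly equal to `z` -/
noncomputable def kf (z : Z) : Z := img (fun n => pair n z) om

theorem kf_enc (z : Z) : kf z = enc (fun _ => z) := by
  ext w
  rw [kf, mem_img, mem_enc]
  constructor
  · rintro ⟨n, hn, rfl⟩
    obtain ⟨m, rfl⟩ := mem_om.1 hn
    exact ⟨m, rfl⟩
  · rintro ⟨n, rfl⟩; exact ⟨nz n, nz_mem_om n, rfl⟩

section

variable {K : Set (Set Z)} [MK K] {s t : Set Z → (ℕ → Z) → Z}

protected theorem T.cf (hs : T K s) (ht : T K t) : T K (fun M v => Ctm.cf (s M v) (t M v)) := by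
  refine T.insert (T.pair T.empty hs) ?_
  exact T.img (f := fun M n v => ZFSet.pair (insert n n) (Ctm.ap (t M v) n)) T.om
    (T.pair (T.insert T.v0 T.v0) (T.ap ht.tail T.v0))

protected theorem T.kf (hs : T K s) : T K (fun M v => Ctm.kf (s M v)) :=
  T.img (f := fun M n v => ZFSet.pair n (s M v)) T.om (T.pair T.v0 hs.tail)

protected theorem T.nz (n : ℕ) : T K (fun _ _ => Ctm.nz n) :=
  T.const fun M hM => (MK.tm M hM).nz_mem n

end

/-! ## the satisfaction set -/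

/-- the defining condition -/
def Cs (t x g f : Z) : Prop :=
  (∃ i ∈ om, ∃ j ∈ om, x = pair (nz 0) (pair i j) ∧ ap f i ∈ ap f j) ∨
  (∃ i ∈ om, ∃ j ∈ om, x = pair (nz 1) (pair i j) ∧ ap f i = ap f j) ∨
  (∃ c ∈ tc x, x = pair (nz 2) c ∧ f ∉ ap g c) ∨
  (∃ c ∈ tc x, ∃ d ∈ tc x, x = pair (nz 3) (pair c d) ∧ f ∈ ap g c ∧ f ∈ ap g d) ∨
  (∃ c ∈ tc x, x = pair (nz 4) c ∧ ∀ y ∈ t, cf y f ∈ ap g c)

theorem Cs.def : D AllTM (fun _ v => Cs (v 0) (v 1) (v 2) (v 3)) := by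
  refine D.or ?_ (D.or ?_ (D.or ?_ (D.or ?_ ?_)))
  · refine D.bex (R := fun _ i v => ∃ j ∈ om, v 1 = ZFSet.pair (nz 0) (ZFSet.pair i j) ∧
      Ctm.ap (v 3) i ∈ Ctm.ap (v 3) j) T.om ?_
    refine D.bex (R := fun _ j v => v 2 = ZFSet.pair (nz 0) (ZFSet.pair (v 0) j) ∧
      Ctm.ap (v 4) (v 0) ∈ Ctm.ap (v 4) j) T.om ?_
    exact (D.eq T.v3 (T.pair (T.nz 0) (T.pair T.v1 T.v0))).and
      (D.mem (T.ap T.v5 T.v1) (T.ap T.v5 T.v0))
  · refine D.bex (R := fun _ i v => ∃ j ∈ om, v 1 = ZFSet.pair (nz 1) (ZFSet.pair i j) ∧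
      Ctm.ap (v 3) i = Ctm.ap (v 3) j) T.om ?_
    refine D.bex (R := fun _ j v => v 2 = ZFSet.pair (nz 1) (ZFSet.pair (v 0) j) ∧
      Ctm.ap (v 4) (v 0) = Ctm.ap (v 4) j) T.om ?_
    exact (D.eq T.v3 (T.pair (T.nz 1) (T.pair T.v1 T.v0))).and
      (D.eq (T.ap T.v5 T.v1) (T.ap T.v5 T.v0))
  · refine D.bex (R := fun _ c v => v 1 = ZFSet.pair (nz 2) c ∧ v 3 ∉ Ctm.ap (v 2) c)
      T.v1.tc ?_
    exact (D.eq T.v2 (T.pair (T.nz 2) T.v0)).and (D.mem T.v4 (T.ap T.v3 T.v0)).neg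
  · refine D.bex (R := fun _ c v => ∃ d ∈ tc (v 1), v 1 = ZFSet.pair (nz 3) (ZFSet.pair c d) ∧
      v 3 ∈ Ctm.ap (v 2) c ∧ v 3 ∈ Ctm.ap (v 2) d) T.v1.tc ?_
    refine D.bex (R := fun _ d v => v 2 = ZFSet.pair (nz 3) (ZFSet.pair (v 0) d) ∧
      v 4 ∈ Ctm.ap (v 3) (v 0) ∧ v 4 ∈ Ctm.ap (v 3) d) T.v2.tc ?_
    exact (D.eq T.v3 (T.pair (T.nz 3) (T.pair T.v1 T.v0))).and
      ((D.mem T.v5 (T.ap T.v4 T.v1)).and (D.mem T.v5 (T.ap T.v4 T.v0)))
  · refine D.bex (R := fun _ c v => v 1 = ZFSet.pair (nz 4) c ∧ ∀ y ∈ v 0,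
      Ctm.cf y (v 3) ∈ Ctm.ap (v 2) c) T.v1.tc ?_
    refine (D.eq T.v2 (T.pair (T.nz 4) T.v0)).and ?_
    refine D.ball (R := fun _ y v => Ctm.cf y (v 4) ∈ Ctm.ap (v 3) (v 0)) T.v1 ?_
    exact D.mem (T.cf T.v0 T.v5) (T.ap T.v4 T.v1)

/-- the set of assignments satisfying the formula with code `c` in `t` -/
noncomputable def Ss (M : Set Z) (t c : Z) : Z :=
  recF (fun x g => ZFSet.sep (fun f => Cs t x g f) (pw M (ZFSet.prod om t))) c

theorem Ss.def : T AllTM (fun M v => Ss M (v 0) (v 1)) := by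
  refine T.recur (G := fun M x g v => ZFSet.sep (fun f => Cs (v 0) x g f)
    (Ctm.pw M (ZFSet.prod om (v 0)))) ?_ T.v1
  refine T.sep (R := fun M f v => Cs (v 2) (v 0) (v 1) f)
    (T.pw (T.prod T.om T.v2)) ?_
  exact Cs.def.ren (fun i => if i = 0 then 3 else if i = 1 then 1 else if i = 2 then 2 else 0)

theorem mem_Ss {M : Set Z} {t c f : Z} : f ∈ Ss M t c ↔ f ∈ pw M (ZFSet.prod om t) ∧
    Cs t c (gr (Ss M t) (tc c)) f := by
  rw [Ss, recF_eq, mem_sep]; rfl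

theorem mem_tc_pair {x y : Z} : y ∈ tc (pair x y) := by
  refine mem_tc.2 ⟨{x, y}, by simp [pair], Or.inr (mem_tc_of_mem (by simp))⟩

theorem mem_tc_pair_pair {x y z : Z} : y ∈ tc (pair x (pair y z)) := by
  have h1 : pair y z ∈ tc (pair x (pair y z)) := mem_tc_pair
  have h2 : y ∈ tc (pair y z) := mem_tc.2 ⟨{y, z}, by simp [pair], Or.inr (mem_tc_of_mem (by simp))⟩
  exact tc_subset_of_mem h1 h2

theorem mem_tc_pair_pair' {x y z : Z} : z ∈ tc (pair x (pair y z)) := by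
  have h1 : pair y z ∈ tc (pair x (pair y z)) := mem_tc_pair
  exact tc_subset_of_mem h1 mem_tc_pair

theorem enc_sub {v : ℕ → Z} {t : Z} (hv : ∀ i, v i ∈ t) : enc v ⊆ ZFSet.prod om t := by
  intro z hz
  obtain ⟨n, rfl⟩ := mem_enc.1 hz
  exact pair_mem_prod.2 ⟨nz_mem_om n, hv n⟩

theorem ne_nz {m n : ℕ} (h : m ≠ n) {x y : Z} : pair (nz m) x ≠ pair (nz n) y := fun h1 =>
  h (nz_inj (pair_inj.1 h1).1)

theorem TM.cf_mem {M : Set Z} (hM : TM M) {y f : Z} (hy : y ∈ M) (hf : f ∈ M) : cf y f ∈ M :=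
  (T.cf (K := AllTM) T.v0 T.v1).mem M hM (cons y (fun _ => f)) (In.cons (fun _ => hf) hy)

theorem TM.kf_mem {M : Set Z} (hM : TM M) {z : Z} (hz : z ∈ M) : kf z ∈ M :=
  (T.kf (K := AllTM) T.v0).mem M hM (fun _ => z) (fun _ => hz)

theorem Ss_iff {M : Set Z} (hM : TM M) {t : Z} (ht : t ∈ M) (φ : Fml) :
    ∀ v : ℕ → Z, (∀ i, v i ∈ t) → enc v ∈ M →
      (enc v ∈ Ss M t (code φ) ↔ SatC (t : Set Z) φ v) := by
  induction φ with
  | fmem i j =>
    intro v hv he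
    rw [mem_Ss, and_iff_right (mem_pw.2 ⟨he, enc_sub hv⟩), code_fmem]
    constructor
    · rintro (⟨i', hi, j', hj, h1, h2⟩ | ⟨i', hi, j', hj, h1, h2⟩ | ⟨c, hc, h1, h2⟩ |
        ⟨c, hc, d, hd, h1, h2⟩ | ⟨c, hc, h1, h2⟩)
      · obtain ⟨_, h3⟩ := pair_inj.1 h1
        obtain ⟨rfl, rfl⟩ := pair_inj.1 h3
        rw [ap_enc, ap_enc] at h2
        exact h2
      all_goals exact absurd h1 (ne_nz (by decide))
    · intro h
      refine Or.inl ⟨nz i, nz_mem_om i, nz j, nz_mem_om j, rfl, ?_⟩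
      rw [ap_enc, ap_enc]; exact h
  | feq i j =>
    intro v hv he
    rw [mem_Ss, and_iff_right (mem_pw.2 ⟨he, enc_sub hv⟩), code_feq]
    constructor
    · rintro (⟨i', hi, j', hj, h1, h2⟩ | ⟨i', hi, j', hj, h1, h2⟩ | ⟨c, hc, h1, h2⟩ |
        ⟨c, hc, d, hd, h1, h2⟩ | ⟨c, hc, h1, h2⟩)
      · exact absurd h1 (ne_nz (by decide))
      · obtain ⟨_, h3⟩ := pair_inj.1 h1
        obtain ⟨rfl, rfl⟩ := pair_inj.1 h3
        rw [ap_enc, ap_enc] at h2
        exact h2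
      all_goals exact absurd h1 (ne_nz (by decide))
    · intro h
      refine Or.inr (Or.inl ⟨nz i, nz_mem_om i, nz j, nz_mem_om j, rfl, ?_⟩)
      rw [ap_enc, ap_enc]; exact h
  | fneg φ ih =>
    intro v hv he
    rw [mem_Ss, and_iff_right (mem_pw.2 ⟨he, enc_sub hv⟩), code_fneg]
    have hm : code φ ∈ tc (pair (nz 2) (code φ)) := mem_tc_pair
    constructor
    · rintro (⟨i', hi, j', hj, h1, h2⟩ | ⟨i', hi, j', hj, h1, h2⟩ | ⟨c, hc, h1, h2⟩ |
        ⟨c, hc, d, hd, h1, h2⟩ | ⟨c, hc, h1, h2⟩)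
      · exact absurd h1 (ne_nz (by decide))
      · exact absurd h1 (ne_nz (by decide))
      · obtain ⟨_, rfl⟩ := pair_inj.1 h1
        rw [ap_gr hm, ih v hv he] at h2
        exact h2
      all_goals exact absurd h1 (ne_nz (by decide))
    · intro h
      refine Or.inr (Or.inr (Or.inl ⟨code φ, hm, rfl, ?_⟩))
      rw [ap_gr hm, ih v hv he]; exact h
  | fand φ ψ ih1 ih2 =>
    intro v hv he
    rw [mem_Ss, and_iff_right (mem_pw.2 ⟨he, enc_sub hv⟩), code_fand]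
    have hm : code φ ∈ tc (pair (nz 3) (pair (code φ) (code ψ))) := mem_tc_pair_pair
    have hm' : code ψ ∈ tc (pair (nz 3) (pair (code φ) (code ψ))) := mem_tc_pair_pair'
    constructor
    · rintro (⟨i', hi, j', hj, h1, h2⟩ | ⟨i', hi, j', hj, h1, h2⟩ | ⟨c, hc, h1, h2⟩ |
        ⟨c, hc, d, hd, h1, h2⟩ | ⟨c, hc, h1, h2⟩)
      · exact absurd h1 (ne_nz (by decide))
      · exact absurd h1 (ne_nz (by decide))
      · exact absurd h1 (ne_nz (by decide))
      · obtain ⟨_, h3⟩ := pair_inj.1 h1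
        obtain ⟨rfl, rfl⟩ := pair_inj.1 h3
        rw [ap_gr hm, ap_gr hm', ih1 v hv he, ih2 v hv he] at h2
        exact h2
      · exact absurd h1 (ne_nz (by decide))
    · intro h
      refine Or.inr (Or.inr (Or.inr (Or.inl ⟨code φ, hm, code ψ, hm', rfl, ?_⟩)))
      rw [ap_gr hm, ap_gr hm', ih1 v hv he, ih2 v hv he]; exact h
  | fall φ ih =>
    intro v hv he
    rw [mem_Ss, and_iff_right (mem_pw.2 ⟨he, enc_sub hv⟩), code_fall]
    have hm : code φ ∈ tc (pair (nz 4) (code φ)) := mem_tc_pair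
    have key : ∀ y ∈ t, (cf y (enc v) ∈ ap (gr (Ss M t) (tc (pair (nz 4) (code φ)))) (code φ) ↔
        SatC (t : Set Z) φ (cons y v)) := by
      intro y hy
      have hy' : y ∈ M := hM.trans _ ht _ hy
      have hc : enc (cons y v) ∈ M := by
        rw [← cf_enc]; exact hM.cf_mem hy' he
      rw [ap_gr hm, cf_enc, ih (cons y v) ?_ hc]
      intro i; cases i with
      | zero => exact hy
      | succ n => exact hv n
    constructor
    · rintro (⟨i', hi, j', hj, h1, h2⟩ | ⟨i', hi, j', hj, h1, h2⟩ | ⟨c, hc, h1, h2⟩ |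
        ⟨c, hc, d, hd, h1, h2⟩ | ⟨c, hc, h1, h2⟩)
      · exact absurd h1 (ne_nz (by decide))
      · exact absurd h1 (ne_nz (by decide))
      · exact absurd h1 (ne_nz (by decide))
      · exact absurd h1 (ne_nz (by decide))
      · obtain ⟨_, rfl⟩ := pair_inj.1 h1
        intro y hy
        exact (key y hy).1 (h2 y hy)
    · intro h
      refine Or.inr (Or.inr (Or.inr (Or.inr ⟨code φ, hm, rfl, fun y hy => ?_⟩)))
      exact (key y hy).2 (h y hy)

/-- satisfaction in a transitive set is uniformly definable -/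
theorem exists_uni : ∃ Uni : Set Z → Z → Z → Z → Prop,
    D AllTM (fun M v => Uni M (v 0) (v 1) (v 2)) ∧
    ∀ M, TM M → ∀ ψ : Fml, ∀ y ∈ M, ∀ z ∈ M, Uni M (code ψ) y z ↔
      ∃ t ∈ M, t.IsTransitive ∧ y ∈ t ∧ z ∈ t ∧ ∃ x ∈ t,
        SatC (t : Set Z) ψ (cons x (cons y (fun _ => z))) := by
  refine ⟨fun M c y z => ∃ t ∈ M, t.IsTransitive ∧ y ∈ t ∧ z ∈ t ∧ ∃ x ∈ t,
    cf x (cf y (kf z)) ∈ Ss M t c, ?_, ?_⟩
  · refine D.ex (R := fun M t v => t.IsTransitive ∧ v 1 ∈ t ∧ v 2 ∈ t ∧ ∃ x ∈ t,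
      Ctm.cf x (Ctm.cf (v 1) (Ctm.kf (v 2))) ∈ Ss M t (v 0)) ?_
    refine (D.isTransitive T.v0).and ((D.mem T.v2 T.v0).and ((D.mem T.v3 T.v0).and ?_))
    refine D.bex (R := fun M x v =>
      Ctm.cf x (Ctm.cf (v 2) (Ctm.kf (v 3))) ∈ Ss M (v 0) (v 1)) T.v0 ?_
    refine D.mem (T.cf T.v0 (T.cf T.v3 (T.kf T.v4))) ?_
    exact T2.app (f := fun M t c => Ss M t c) Ss.def T.v1 T.v2
  · intro M hM ψ y hy z hz
    refine exists_congr fun t => and_congr_right fun ht => and_congr_right fun h1 =>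
      and_congr_right fun h2 => and_congr_right fun h3 => exists_congr fun x =>
      and_congr_right fun hx => ?_
    have hx' : x ∈ M := hM.trans _ ht _ hx
    have hmem := hM.cf_mem hx' (hM.cf_mem hy (hM.kf_mem hz))
    rw [kf_enc, cf_enc, cf_enc] at hmem ⊢
    refine Ss_iff hM ht ψ _ ?_ hmem
    intro i
    match i with
    | 0 => exact hx
    | 1 => exact h2
    | n + 2 => exact h3

/-- absoluteness of `Δ_0` formulas for transitive classes -/
theorem delta0_abs {M T : Set Z} (hTM : T ⊆ M) (hT : ∀ x ∈ T, ∀ y ∈ x, y ∈ T) {ψ : Fml}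
    (hψ : Delta0 ψ) : ∀ v : ℕ → Z, (∀ i, v i ∈ T) → (SatC T ψ v ↔ SatC M ψ v) := by
  induction hψ with
  | dmem i j => intro v _; rfl
  | deq i j => intro v _; rfl
  | dneg φ _ ih => intro v hv; exact not_congr (ih v hv)
  | dand φ ψ _ _ ih1 ih2 => intro v hv; exact and_congr (ih1 v hv) (ih2 v hv)
  | dball j φ _ ih =>
    intro v hv
    have e : ∀ x ∈ T, ∀ i, cons x v i ∈ T := by
      intro x hx i
      cases i with
      | zero => exact hx
      | succ n => exact hv n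
    constructor
    · intro h x hx
      rintro ⟨h1, h2⟩
      have hxT : x ∈ T := hT _ (hv j) x h1
      exact h x hxT ⟨h1, fun h3 => h2 ((ih _ (e x hxT)).1 h3)⟩
    · intro h x hx
      rintro ⟨h1, h2⟩
      exact h x (hTM hx) ⟨h1, fun h3 => h2 ((ih _ (e x hx)).2 h3)⟩

theorem exists_uni' : ∃ Uni : Set Z → Z → Z → Z → Prop,
    D AllTM (fun M v => Uni M (v 0) (v 1) (v 2)) ∧
    (∀ M, TM M → ∀ ψ : Fml, Delta0 ψ → ∀ y ∈ M, ∀ z ∈ M, Uni M (code ψ) y z ↔
      ∃ x ∈ M, SatC M ψ (cons x (cons y (fun _ => z)))) ∧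
    (∀ M M', TM M → TM M' → M ⊆ M' → ∀ ψ : Fml, ∀ y ∈ M, ∀ z ∈ M,
      Uni M (code ψ) y z → Uni M' (code ψ) y z) := by
  obtain ⟨Uni, h1, h2⟩ := exists_uni
  refine ⟨Uni, h1, ?_, ?_⟩
  · intro M hM ψ hψ y hy z hz
    rw [h2 M hM ψ y hy z hz]
    have ab : ∀ t ∈ M, t.IsTransitive → ∀ v : ℕ → Z, (∀ i, v i ∈ t) →
        (SatC (t : Set Z) ψ v ↔ SatC M ψ v) := by
      intro t ht htr v hv
      refine delta0_abs (fun x hx => hM.trans _ ht _ hx) (fun x hx y hy => htr x hx hy) hψ v hv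
    constructor
    · rintro ⟨t, ht, htr, hyt, hzt, x, hxt, h⟩
      refine ⟨x, hM.trans _ ht _ hxt, (ab t ht htr _ ?_).1 h⟩
      intro i
      match i with
      | 0 => exact hxt
      | 1 => exact hyt
      | n + 2 => exact hzt
    · rintro ⟨x, hx, h⟩
      have hs : (insert x {y, z} : Z) ∈ M := hM.insert_mem hx (hM.upair_mem hy hz)
      refine ⟨tc (insert x {y, z} : Z), hM.tc_mem hs, tc_trans _, mem_tc_of_mem (by simp),
        mem_tc_of_mem (by simp), x, mem_tc_of_mem (by simp), ?_⟩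
      refine (ab _ (hM.tc_mem hs) (tc_trans _) _ ?_).2 h
      intro i
      match i with
      | 0 => exact mem_tc_of_mem (by simp)
      | 1 => exact mem_tc_of_mem (by simp)
      | n + 2 => exact mem_tc_of_mem (by simp)
  · intro M M' hM hM' hsub ψ y hy z hz
    rw [h2 M hM ψ y hy z hz, h2 M' hM' ψ y (hsub hy) z (hsub hz)]
    rintro ⟨t, ht, h⟩
    exact ⟨t, hsub ht, h⟩

end Pool.Agent.Lib.Ctm
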