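import Pool.Agent.Lib.Ctm.Ext
import Pool.Agent.Lib.Ctm.Univ

/-!
# Existence of generic filters and the forcing theorem in semantic form
-/

namespace Pool.Agent.Lib.Ctm

open Pool.Agent.Lib.Forcing ZFSet

/-- the conditions as a type -/
structure Cnd (P : Z) where
  /-- the condition -/
  c : Z
  mem : c ∈ P

theorem exists_gen {N : Set Z} (hc : N.Countable) {P L o : Z} (hF : PO N P L o) {p : Z}
    (hp : p ∈ P) : ∃ G, Gen N P L G ∧ p ∈ G := by
  classical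
  let pre : Preorder (Cnd P) :=
    { le := fun a b => Le P L b.c a.c
      lt := fun a b => Le P L b.c a.c ∧ ¬ Le P L a.c b.c
      le_refl := fun a => hF.le_refl a.mem
      le_trans := fun a b c h1 h2 => hF.le_trans h2 h1
      lt_iff_le_not_ge := fun a b => Iff.rfl }
  let ι := {S : N // ∀ p ∈ P, ∃ q, Le P L q p ∧ q ∈ S.1}
  have _ : Countable N := hc.to_subtype
  have _ : Countable ι := Subtype.countable
  let _ : Encodable ι := Encodable.ofCountable ι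
  let 𝒟 : ι → Order.Cofinal (Cnd P) := fun i =>
    { carrier := {x : Cnd P | x.c ∈ i.1.1}
      isCofinal := by
        rintro ⟨x, hx⟩
        obtain ⟨q, hq, hqS⟩ := i.2 x hx
        exact ⟨⟨q, hq.1⟩, hqS, hq⟩ }
  let I := Order.idealOfCofinals (⟨p, hp⟩ : Cnd P) 𝒟
  refine ⟨{x | ∃ h : x ∈ P, (⟨x, h⟩ : Cnd P) ∈ I}, ⟨?_, ?_, ?_, ?_⟩, hp,
    Order.mem_idealOfCofinals _ _⟩
  · rintro x ⟨h, _⟩; exact h
  · rintro x ⟨h, hx⟩ q hq
    exact ⟨hq.2.1, I.lower (show (⟨q, hq.2.1⟩ : Cnd P) ≤ ⟨x, h⟩ from hq) hx⟩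
  · rintro x ⟨h, hx⟩ y ⟨h', hy⟩
    obtain ⟨z, hz, h1, h2⟩ := I.directed _ hx _ hy
    exact ⟨z.c, ⟨z.mem, hz⟩, h1, h2⟩
  · intro S hS hd
    obtain ⟨x, hx, hxI⟩ := Order.cofinal_meets_idealOfCofinals (⟨p, hp⟩ : Cnd P) 𝒟 ⟨⟨S, hS⟩, hd⟩
    exact ⟨x.c, ⟨x.mem, hxI⟩, hx⟩

/-- replacing variables by parameters -/
protected theorem D.param {K : Set (Set Z)} {R : Set Z → (ℕ → Z) → Prop} (h : D K R) {w : ℕ → Z}
    (hw : ∀ M ∈ K, In M w) (f : ℕ → ℕ) : D K (fun M v => R M (fun i => mix v w (f i))) := by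
  obtain ⟨φ, u, hu, h⟩ := h
  refine ⟨φ.ren (fun n => if n % 2 = 0 then (if f (n / 2) % 2 = 0 then f (n / 2) else
    4 * (f (n / 2) / 2) + 1) else 4 * (n / 2) + 3), mix w u, fun M hM => (hw M hM).mix (hu M hM),
    ?_⟩
  intro M hM v hv
  change R M _ ↔ _
  rw [h M hM _ (fun i => (hv.mix (hw M hM)) _), satC_ren]
  have : mix (fun i => mix v w (f i)) u = fun i => mix v (mix w u) (if i % 2 = 0 then
      (if f (i / 2) % 2 = 0 then f (i / 2) else 4 * (f (i / 2) / 2) + 1) else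
      4 * (i / 2) + 3) := by
    funext n
    by_cases hn : n % 2 = 0
    · by_cases hf : f (n / 2) % 2 = 0
      · simp [mix, hn, hf]
      · have h1 : (4 * (f (n / 2) / 2) + 1) % 2 = 1 := by omega
        have h2 : (4 * (f (n / 2) / 2) + 1) / 2 = 2 * (f (n / 2) / 2) := by omega
        simp [mix, hn, hf, h1, h2]
    · have h1 : (4 * (n / 2) + 3) % 2 = 1 := by omega
      have h2 : (4 * (n / 2) + 3) / 2 = 2 * (n / 2) + 1 := by omega
      have h3 : (2 * (n / 2) + 1) % 2 = 1 := by omega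
      have h4 : (2 * (n / 2) + 1) / 2 = n / 2 := by omega
      simp [mix, hn, h1, h2, h3, h4]
  rw [this]

/-- `p` forces `R` (semantically) -/
def Fc (N : Set Z) (P L : Z) (R : Set Z → (ℕ → Z) → Prop) (p : Z) (v : ℕ → Z) : Prop :=
  ∀ G, Gen N P L G → p ∈ G → R (NG N G) (fun i => val G (v i))

section FT

variable {N : Set Z} {P L o : Z} (hN : TM N) (hc : N.Countable) (hF : PO N P L o)

include hN hF

theorem fc_aux {R : Set Z → (ℕ → Z) → Prop} (h : D AllTM R) : ∃ (φ : Fml) (w : ℕ → Z), In N w ∧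
    ∀ G, Gen N P L G → o ∈ G → ∀ v, In N v → (R (NG N G) (fun i => val G (v i)) ↔
      ∃ p ∈ G, NF N P L φ (mix v w) p) := by
  obtain ⟨φ, w, hw, h⟩ := h
  have hwN : In N w := hw N hN
  refine ⟨φ, fun i => chk o (w i), fun i => chk_mem hN hF (hwN i), ?_⟩
  intro G hG ho v hv
  have hE := NG_tm hN hF hG ho
  rw [h _ hE _ (fun i => val_mem_NG (hv i)), ← truth hN hF hG φ _
    (hv.mix (fun i => chk_mem hN hF (hwN i)))]
  have : mix (fun i => val G (v i)) w = fun i => val G (mix v (fun i => chk o (w i)) i) := by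
    funext n
    by_cases hn : n % 2 = 0
    · simp [mix, hn]
    · simp [mix, hn, val_chk ho]
  rw [this]

include hc

theorem fc_aux2 {R : Set Z → (ℕ → Z) → Prop} (h : D AllTM R) : ∃ (φ : Fml) (w : ℕ → Z), In N w ∧
    (∀ G, Gen N P L G → o ∈ G → ∀ v, In N v → (R (NG N G) (fun i => val G (v i)) ↔
      ∃ p ∈ G, NF N P L φ (mix v w) p)) ∧
    ∀ p ∈ P, ∀ v, In N v → (Fc N P L R p v ↔ NF N P L φ (mix v w) p) := by
  obtain ⟨φ, w, hw, h1⟩ := fc_aux hN hF h
  refine ⟨φ, w, hw, h1, ?_⟩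
  intro p hp v hv
  constructor
  · intro h2
    by_contra h3
    have h5 : ∃ q, Le P L q p ∧ ∀ r, Le P L r q → ¬ NF N P L φ (mix v w) r := by
      by_contra h5
      push Not at h5
      exact h3 (NF.dense hF φ h5)
    obtain ⟨q, hq, h5⟩ := h5
    obtain ⟨G, hG, hqG⟩ := exists_gen hc hF hq.1
    have hpG : p ∈ G := hG.up q hqG p hq
    have ho : o ∈ G := Gen.top_mem hF hG hpG
    obtain ⟨r, hr, h6⟩ := (h1 G hG ho v hv).1 (h2 G hG hpG)
    obtain ⟨s, _, hs1, hs2⟩ := hG.dir q hqG r hr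
    exact h5 s hs1 (NF.mono hF φ h6 hs2)
  · intro h2 G hG hpG
    have ho : o ∈ G := Gen.top_mem hF hG hpG
    exact (h1 G hG ho v hv).2 ⟨p, hpG, h2⟩

/-- definability of semantic forcing -/
theorem D.fc {R : Set Z → (ℕ → Z) → Prop} (h : D AllTM R) :
    D {N} (fun _ v => v 0 ∈ P ∧ Fc N P L R (v 0) (tl v)) := by
  have _i := hN.sing
  obtain ⟨φ, w, hw, _, h2⟩ := fc_aux2 hN hc hF h
  have h3 := (D.nf hF.P_mem hF.L_mem φ).param (w := w) (by rintro _ rfl; exact hw)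
    (fun n => if n = 0 then 0 else if n % 2 = 1 then n + 1 else n - 1)
  refine h3.congr ?_
  rintro _ rfl v hv
  have e : (fun i => mix v w (if i = 0 then 0 else if i % 2 = 1 then i + 1 else i - 1)) =
      cons (v 0) (mix (tl v) w) := by
    funext n
    rcases n with _ | n
    · simp [mix]
    · by_cases hn : (n + 1) % 2 = 1
      · obtain ⟨m, rfl⟩ : ∃ m, n = 2 * m := ⟨n / 2, by omega⟩
        have h1 : (2 * m + 1 + 1) % 2 = 0 := by omega
        have h2 : (2 * m + 1 + 1) / 2 = m + 1 := by omega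
        simp [mix, hn, h1, h2, tl]
      · obtain ⟨m, rfl⟩ : ∃ m, n = 2 * m + 1 := ⟨n / 2, by omega⟩
        have h1 : (2 * m + 1) % 2 = 1 := by omega
        have h2 : (2 * m + 1) / 2 = m := by omega
        have h3 : (2 * m + 1 + 1) % 2 = 0 := by omega
        simp [mix, h1, h2, h3]
  rw [e]
  exact and_congr_right fun hp => h2 _ hp _ hv.tail

/-- what holds in the extension is forced -/
theorem fc_truth {R : Set Z → (ℕ → Z) → Prop} (h : D AllTM R) {G : Set Z} (hG : Gen N P L G)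
    (ho : o ∈ G) {v : ℕ → Z} (hv : In N v) (hR : R (NG N G) (fun i => val G (v i))) :
    ∃ p ∈ G, Fc N P L R p v := by
  obtain ⟨φ, w, hw, h1, h2⟩ := fc_aux2 hN hc hF h
  obtain ⟨p, hp, h3⟩ := (h1 G hG ho v hv).1 hR
  exact ⟨p, hp, (h2 p (hG.sub p hp) v hv).2 h3⟩

omit hN hc hF in
theorem Fc.mono {R : Set Z → (ℕ → Z) → Prop} {p q : Z} {v : ℕ → Z} (h : Fc N P L R p v)
    (hq : Le P L q p) : Fc N P L R q v := fun G hG hqG => h G hG (hG.up q hqG p hq)

/-- if `R` is not forced by `p` then its negation is forced below `p` -/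
theorem Fc.exists_neg {R : Set Z → (ℕ → Z) → Prop} (h : D AllTM R) {p : Z}
    {v : ℕ → Z} (hv : In N v) (hn : ¬ Fc N P L R p v) :
    ∃ q, Le P L q p ∧ Fc N P L (fun M v => ¬ R M v) q v := by
  rw [Fc] at hn
  push Not at hn
  obtain ⟨G, hG, hpG, hR⟩ := hn
  obtain ⟨q, hq, h1⟩ := fc_truth hN hc hF h.neg hG (Gen.top_mem hF hG hpG) hv hR
  obtain ⟨r, hr, hr1, hr2⟩ := hG.dir p hpG q hq
  exact ⟨r, hr1, Fc.mono h1 hr2⟩

end FT

end Pool.Agent.Lib.Ctm
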