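import Pool.Agent.Lib.Ctm.Poset
import Pool.Agent.Lib.Ctm.FT

/-!
# The generic sequence
-/

namespace Pool.Agent.Lib.Ctm

open Pool.Agent.Lib.Forcing ZFSet

/-- `b` is in the generic sequence -/
def InG (G : Set Z) (b : Z) : Prop := ∃ s f, pair s f ∈ G ∧ b ∈ s

/-- `a`, `b` are consecutive elements of the generic sequence -/
def Nx (G : Set Z) (a b : Z) : Prop := InG G a ∧ InG G b ∧ a ∈ b ∧ ∀ x, InG G x → ¬ (a ∈ x ∧ x ∈ b)

section GenS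

variable {N : Set Z} (hN : TC N) {G : Set Z} (hG : Gen N (PP N) (LL N) G)

include hG

theorem Gen.isS {s f : Z} (h : pair s f ∈ G) : IsS N s := (mem_PP.1 (hG.sub _ h)).1

theorem Gen.isFp {s f : Z} (h : pair s f ∈ G) : IsFp N f := (mem_PP.1 (hG.sub _ h)).2

theorem Gen.dir2 {s f s' f' : Z} (h : pair s f ∈ G) (h' : pair s' f' ∈ G) :
    ∃ s'' f'', pair s'' f'' ∈ G ∧ LeP N s'' f'' s f ∧ LeP N s'' f'' s' f' := by
  obtain ⟨r, hr, h1, h2⟩ := hG.dir _ h _ h'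
  obtain ⟨s'', f'', rfl, _⟩ := exists_of_mem_PP (hG.sub r hr)
  exact ⟨s'', f'', hr, (le_PP.1 h1).2.2, (le_PP.1 h2).2.2⟩

protected theorem InG.dl {b : Z} (h : InG G b) : b ∈ dl N := by
  obtain ⟨s, f, h1, h2⟩ := h
  exact (hG.isS h1).2.1 h2

/-- elements of the generic sequence below an element of `s` are in `s` -/
theorem InG.mem_of_mem {x b s f : Z} (hx : InG G x) (h : pair s f ∈ G) (hb : b ∈ s)
    (hxb : x ∈ b) : x ∈ s := by
  obtain ⟨s', f', h1, h2⟩ := hx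
  obtain ⟨s'', f'', h3, h4, h5⟩ := hG.dir2 h h1
  by_contra hxs
  exact ZFSet.mem_asymm hxb (h4.1.2 x (h5.1.1 h2) hxs b hb)

theorem InG.empty {s f : Z} (h : pair s f ∈ G) : InG G ∅ := ⟨s, f, h, (hG.isS h).2.2.1⟩

include hN

/-- every pair of consecutive elements is relevant for all conditions in the filter -/
theorem Nx.rel {a b s f : Z} (h : Nx G a b) (hs : pair s f ∈ G) : Rel s a b := by
  obtain ⟨s', f', h1, h2⟩ := h.2.1
  obtain ⟨s'', f'', h3, h4, h5⟩ := hG.dir2 hs h1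
  have hb : b ∈ s'' := h5.1.1 h2
  have ha : a ∈ s'' := InG.mem_of_mem hG h.1 h3 hb h.2.2.1
  refine Rel.mono hN (hG.isS h3) ⟨h.2.2.1, h.2.1.dl hG⟩ h4.1 (Or.inl ⟨ha, hb, ?_⟩)
  exact fun x hx => h.2.2.2 x ⟨s'', f'', h3, hx⟩

omit hN in
theorem Nx.pr {a b : Z} (h : Nx G a b) : Pr N a b := ⟨h.2.2.1, h.2.1.dl hG⟩

/-- predecessors in the generic sequence -/
theorem InG.pred {b : Z} (h : InG G b) (hb : b ≠ ∅) : ∃ a, Nx G a b := by
  obtain ⟨s, f, h1, h2⟩ := h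
  have hs := hG.isS h1
  have hbo := dl_ord hN (hs.2.1 h2)
  have _i := hN.sing
  have hbN := dl_N hN (hs.2.1 h2)
  have ht : ZFSet.sep (fun x => x ∈ b) s ∈ N :=
    hN.toTM.sep_memD hs.1 (R := fun x => x ∈ b) (D.mem T.v0 (hN.toTM.cst hbN))
  obtain ⟨m, hm, hmax⟩ := hs.2.2.2 _ ht ZFSet.sep_subset (by
    intro h0
    have : (∅ : Z) ∈ ZFSet.sep (fun x => x ∈ b) s := by
      refine mem_sep.2 ⟨hs.2.2.1, ?_⟩
      rcases IsOrdinal.mem_trichotomous isOrdinal_empty hbo with h | h | h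
      · exact h
      · exact absurd h.symm hb
      · exact absurd h (notMem_empty _)
    rw [h0] at this
    exact notMem_empty _ this)
  rw [mem_sep] at hm
  refine ⟨m, ⟨s, f, h1, hm.1⟩, ⟨s, f, h1, h2⟩, hm.2, ?_⟩
  rintro x hx ⟨h3, h4⟩
  have hxs := hx.mem_of_mem hG h1 h2 h4
  exact ZFSet.mem_irrefl _ (hmax x (mem_sep.2 ⟨hxs, h4⟩) h3)

/-- the generic sequence is cofinal in `δ` -/
theorem InG.cofinal {p : Z} (hp : p ∈ G) {x : Z} (hx : x ∈ dl N) : ∃ b, InG G b ∧ x ∈ b := by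
  have _i := hN.sing
  have hxN := dl_N hN hx
  obtain ⟨q, hq, _, s, f, rfl, b, hb, hxb⟩ := Gen.belowD hN.toTM (PO_PP hN) hG
    (R := fun q => ∃ s f, q = pair s f ∧ ∃ b ∈ s, x ∈ b) (by
    refine hN.toTM.sep_memD (PP_mem hN) (R := fun q => ∃ s f, q = pair s f ∧ ∃ b ∈ s, x ∈ b) ?_
    refine D.expair (R := fun _ s f _ => ∃ b ∈ s, x ∈ b) T.v0 ?_
    exact D.bex (R := fun _ b _ => x ∈ b) T.v1 (D.mem (hN.toTM.cst hxN) T.v0)) hp (by
    intro q hq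
    obtain ⟨s, f, rfl, hs, hf⟩ := exists_of_mem_PP hq.1
    obtain ⟨b, hb, hxb, h1, h2, h3⟩ := exists_ext hN hs hf hx
    exact ⟨_, h3, _, _, rfl, b, mem_insert _ _, hxb⟩)
  exact ⟨b, ⟨s, f, hq, hb⟩, hxb⟩

end GenS

end Pool.Agent.Lib.Ctm
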