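import Pool.Agent.Lib.Ctm.Poset

/-!
# Low conditions and their construction from a sequence of subsets of `Y(x)`
-/

namespace Pool.Agent.Lib.Ctm

open Pool.Agent.Lib.Forcing ZFSet

/-- `a`, `c` are consecutive elements of `s` -/
def Adj (s a c : Z) : Prop := a ∈ s ∧ c ∈ s ∧ ∀ y ∈ s, ¬ (a ∈ y ∧ y ∈ c)

/-- low conditions extending `f` at the consecutive pairs of `s` -/
def LQ (N : Set Z) (s f l : Z) : Prop := IsFp N l ∧
  (∀ u ∈ l, ∃ a c z, u = pair (pair a c) z ∧ Pr N a c ∧ Adj s a c) ∧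
  ∀ a c, Pr N a c → Adj s a c → Ex (comp l (pair a c)) (comp f (pair a c))

/-- the order of low conditions -/
def LE2 (N : Set Z) (s l' l : Z) : Prop :=
  ∀ a c, Pr N a c → Adj s a c → Ex (comp l' (pair a c)) (comp l (pair a c))

/-- the restriction of `f` to the consecutive pairs of `s` -/
noncomputable def lo0 (N : Set Z) (s f : Z) : Z :=
  ZFSet.sep (fun u => ∃ i z, u = pair i z ∧ ∃ a c, i = pair a c ∧ (Pr N a c ∧ Adj s a c)) f

/-- codes of subsets of `Y`, and decoding -/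
noncomputable def cdd (l : Z) : Z := insert ∅ (img (fun z => {z}) l)

noncomputable def dec (A : Z) : Z := ZFSet.sep (fun z => {z} ∈ A) (⋃₀ A : Z)

theorem dec_cdd (l : Z) : dec (cdd l) = l := by
  have key : ∀ z : Z, ({z} : Z) ∈ cdd l ↔ z ∈ l := by
    intro z
    rw [cdd, mem_insert_iff, mem_img]
    constructor
    · rintro (h | ⟨y, hy, h⟩)
      · exfalso
        have : z ∈ ({z} : Z) := mem_singleton.2 rfl
        rw [h] at this
        exact notMem_empty _ this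
      · rw [ZFSet.singleton_injective h]; exact hy
    · intro h; exact Or.inr ⟨z, h, rfl⟩
  ext z
  rw [dec, mem_sep, key]
  constructor
  · exact fun h => h.2
  · intro h
    exact ⟨mem_sUnion.2 ⟨{z}, (key z).2 h, mem_singleton.2 rfl⟩, h⟩

/-- the low condition computed from the first `k` values of the component `c` -/
noncomputable def lo (N : Set Z) (s f c : Z) (k : Z) : Z :=
  recF (fun k g => lo0 N s f ∪ ZFSet.sep (fun u => ∃ j ∈ k, u ∈ dec (comp c j) ∧
    LQ N s f (dec (comp c j)) ∧ LE2 N s (dec (comp c j)) (ap g j)) (VM N (kap N))) k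

protected theorem T.cdd {K : Set (Set Z)} [MK K] {s : Set Z → (ℕ → Z) → Z} (hs : T K s) :
    T K (fun M v => Ctm.cdd (s M v)) :=
  T.insert T.empty (T.img (f := fun _ z _ => ({z} : Z)) hs (T.singleton T.v0))

protected theorem T.dec {K : Set (Set Z)} [MK K] {s : Set Z → (ℕ → Z) → Z} (hs : T K s) :
    T K (fun M v => Ctm.dec (s M v)) :=
  T.sep (R := fun M z v => ({z} : Z) ∈ s M v) hs.sUnion (D.mem (T.singleton T.v0) hs.tail)

protected theorem D.adj {K : Set (Set Z)} [MK K] {s t u : Set Z → (ℕ → Z) → Z}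
    (hs : T K s) (ht : T K t) (hu : T K u) : D K (fun M v => Adj (s M v) (t M v) (u M v)) := by
  refine (D.mem ht hs).and ((D.mem hu hs).and ?_)
  exact D.ball (R := fun M x v => ¬ (t M v ∈ x ∧ x ∈ u M v)) hs
    ((D.mem ht.tail T.v0).and (D.mem T.v0 hu.tail)).neg

section DefLo

variable {N : Set Z} [MK ({N} : Set (Set Z))] {s t u q : Set Z → (ℕ → Z) → Z}

protected theorem D.le2 (hs : T {N} s) (ht : T {N} t) (hu : T {N} u) :
    D {N} (fun M v => LE2 N (s M v) (t M v) (u M v)) := by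
  have h : D {N} (fun M v => ∀ b ∈ Ctm.dl N, ∀ a ∈ b,
      Adj (s M v) a b → Ex (Ctm.comp (t M v) (ZFSet.pair a b))
        (Ctm.comp (u M v) (ZFSet.pair a b))) := by
    refine D.ball (R := fun M b v => ∀ a ∈ b, Adj (s M v) a b →
      Ex (Ctm.comp (t M v) (ZFSet.pair a b)) (Ctm.comp (u M v) (ZFSet.pair a b))) T.dl ?_
    refine D.ball (R := fun M a v => Adj (s M (tl v)) a (v 0) →
      Ex (Ctm.comp (t M (tl v)) (ZFSet.pair a (v 0)))
        (Ctm.comp (u M (tl v)) (ZFSet.pair a (v 0)))) T.v0 ?_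
    exact (D.adj hs.tail.tail T.v0 T.v1).imp (D.isEx (T.comp ht.tail.tail (T.pair T.v0 T.v1))
      (T.comp hu.tail.tail (T.pair T.v0 T.v1)))
  refine h.congr ?_
  intro M hM v hv
  constructor
  · intro h2; exact fun b hb a ha => h2 a b ⟨ha, hb⟩
  · intro h2; exact fun a b hab => h2 b hab.2 a hab.1

protected theorem D.lowIdx (hs : T {N} s) (hu : T {N} u) :
    D {N} (fun M v => ∃ i z, u M v = ZFSet.pair i z ∧ ∃ a c, i = ZFSet.pair a c ∧
      (Pr N a c ∧ Adj (s M v) a c)) := by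
  refine D.expair (R := fun M i z v => ∃ a c, i = ZFSet.pair a c ∧
      (Pr N a c ∧ Adj (s M v) a c)) hu ?_
  refine D.expair (R := fun M a c v => Pr N a c ∧ Adj (s M (tl (tl v))) a c) T.v1 ?_
  exact (D.pr T.v1 T.v0).and (D.adj hs.tail.tail.tail.tail T.v1 T.v0)

protected theorem D.lq (hs : T {N} s) (ht : T {N} t) (hu : T {N} u) :
    D {N} (fun M v => LQ N (s M v) (t M v) (u M v)) := by
  refine (D.isFp hu).and (D.and ?_ (D.le2 hs hu ht))
  have h : D {N} (fun M v => ∀ x ∈ u M v, ∃ i z, x = ZFSet.pair i z ∧ ∃ a c, i = ZFSet.pair a c ∧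
      (Pr N a c ∧ Adj (s M v) a c)) :=
    D.ball (R := fun M x v => ∃ i z, x = ZFSet.pair i z ∧ ∃ a c, i = ZFSet.pair a c ∧
      (Pr N a c ∧ Adj (s M v) a c)) hu (D.lowIdx hs.tail T.v0)
  refine h.congr fun M _ v _ => ?_
  refine forall_congr' fun x => imp_congr_right fun _ => ?_
  constructor
  · rintro ⟨a, c, z, h1, h2, h3⟩; exact ⟨_, z, h1, a, c, rfl, h2, h3⟩
  · rintro ⟨_, z, h1, a, c, rfl, h2, h3⟩; exact ⟨a, c, z, h1, h2, h3⟩

theorem T.lo0 (hs : T {N} s) (ht : T {N} t) : T {N} (fun M v => Ctm.lo0 N (s M v) (t M v)) :=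
  T.sep (R := fun M x v => ∃ i z, x = ZFSet.pair i z ∧ ∃ a c, i = ZFSet.pair a c ∧
      (Pr N a c ∧ Adj (s M v) a c)) ht (D.lowIdx hs.tail T.v0)

end DefLo

theorem T.lo {N : Set Z} [MK ({N} : Set (Set Z))] {s t u q : Set Z → (ℕ → Z) → Z}
    (hs : T {N} s) (ht : T {N} t) (hu : T {N} u) (hq : T {N} q) :
    T {N} (fun M v => Ctm.lo N (s M v) (t M v) (u M v) (q M v)) := by
  refine T.recur (G := fun M k g v => Ctm.lo0 N (s M v) (t M v) ∪ ZFSet.sep (fun x => ∃ j ∈ k,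
    x ∈ Ctm.dec (Ctm.comp (u M v) j) ∧ LQ N (s M v) (t M v) (Ctm.dec (Ctm.comp (u M v) j)) ∧
    LE2 N (s M v) (Ctm.dec (Ctm.comp (u M v) j)) (Ctm.ap g j)) (Ctm.VM N (Ctm.kap N))) ?_ hq
  refine T.union (T.lo0 hs.tail.tail ht.tail.tail) ?_
  refine T.sep (R := fun M x v => ∃ j ∈ v 0,
    x ∈ Ctm.dec (Ctm.comp (u M (tl (tl v))) j) ∧
    LQ N (s M (tl (tl v))) (t M (tl (tl v))) (Ctm.dec (Ctm.comp (u M (tl (tl v))) j)) ∧
    LE2 N (s M (tl (tl v))) (Ctm.dec (Ctm.comp (u M (tl (tl v))) j)) (Ctm.ap (v 1) j))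
    (T.VMN T.kap) ?_
  refine D.bex (R := fun M j v =>
    v 0 ∈ Ctm.dec (Ctm.comp (u M (tl (tl (tl v)))) j) ∧
    LQ N (s M (tl (tl (tl v)))) (t M (tl (tl (tl v)))) (Ctm.dec (Ctm.comp (u M (tl (tl (tl v)))) j)) ∧
    LE2 N (s M (tl (tl (tl v)))) (Ctm.dec (Ctm.comp (u M (tl (tl (tl v)))) j)) (Ctm.ap (v 2) j))
    T.v1 ?_
  have hd : T {N} (fun M v => Ctm.dec (Ctm.comp (u M (tl (tl (tl (tl v))))) (v 0))) :=
    T.dec (T.comp hu.tail.tail.tail.tail T.v0)
  refine (D.mem T.v1 hd).and ((D.lq hs.tail.tail.tail.tail ht.tail.tail.tail.tail hd).and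
    (D.le2 hs.tail.tail.tail.tail hd (T.ap T.v3 T.v0)))

theorem lo_eq (N : Set Z) (s f c k : Z) : lo N s f c k =
    lo0 N s f ∪ ZFSet.sep (fun u => ∃ j ∈ k, u ∈ dec (comp c j) ∧
      LQ N s f (dec (comp c j)) ∧ LE2 N s (dec (comp c j)) (lo N s f c j)) (VM N (kap N)) := by
  have h1 : lo N s f c k = lo0 N s f ∪ ZFSet.sep (fun u => ∃ j ∈ k, u ∈ dec (comp c j) ∧
    LQ N s f (dec (comp c j)) ∧ LE2 N s (dec (comp c j))
      (ap (gr (lo N s f c) (tc k)) j)) (VM N (kap N)) := recF_eq _ k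
  rw [h1]
  congr 1
  ext u
  rw [mem_sep, mem_sep]
  refine and_congr_right fun _ => exists_congr fun j => and_congr_right fun hj => ?_
  rw [ap_gr (mem_tc_of_mem hj)]

theorem LE2.refl (N : Set Z) (s l : Z) : LE2 N s l l := fun _ _ _ _ => Ex.refl _

theorem LE2.trans {N : Set Z} {s l l' l'' : Z} (h : LE2 N s l'' l') (h' : LE2 N s l' l) :
    LE2 N s l'' l := fun a c h1 h2 => (h a c h1 h2).trans (h' a c h1 h2)

theorem LE2.subset {N : Set Z} {s f l l' : Z} (h : LE2 N s l' l) (hl : LQ N s f l) :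
    l ⊆ l' := by
  intro u hu
  obtain ⟨a, c, z, rfl, h1, h2⟩ := hl.2.1 u hu
  exact mem_comp.1 ((h a c h1 h2).1 (mem_comp.2 hu))

theorem lo_zero (N : Set Z) (s f c : Z) : lo N s f c ∅ = lo0 N s f := by
  rw [lo_eq]
  ext u
  rw [mem_union, mem_sep]
  constructor
  · rintro (h | ⟨_, j, hj, _⟩)
    · exact h
    · exact absurd hj (notMem_empty _)
  · exact Or.inl

theorem lo_succ_of_not {N : Set Z} {s f c k : Z}
    (h : ¬ (LQ N s f (dec (comp c k)) ∧ LE2 N s (dec (comp c k)) (lo N s f c k))) :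
    lo N s f c (insert k k) = lo N s f c k := by
  rw [lo_eq N s f c (insert k k), lo_eq N s f c k]
  ext u
  rw [mem_union, mem_union, mem_sep, mem_sep]
  refine or_congr Iff.rfl (and_congr_right fun _ => ?_)
  constructor
  · rintro ⟨j, hj, h1, h2, h3⟩
    rcases mem_insert_iff.1 hj with rfl | hj
    · exact absurd ⟨h2, h3⟩ h
    · exact ⟨j, hj, h1, h2, h3⟩
  · rintro ⟨j, hj, h1⟩; exact ⟨j, mem_insert_of_mem _ hj, h1⟩

theorem lo_succ_of {N : Set Z} {s f c k : Z} (hk : LQ N s f (lo N s f c k))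
    (h1 : LQ N s f (dec (comp c k))) (h2 : LE2 N s (dec (comp c k)) (lo N s f c k)) :
    lo N s f c (insert k k) = dec (comp c k) := by
  have hsub := h2.subset hk
  ext u
  rw [lo_eq N s f c (insert k k), mem_union, mem_sep]
  constructor
  · rintro (h | ⟨hV, j, hj, h3, h4, h5⟩)
    · apply hsub
      rw [lo_eq, mem_union]; exact Or.inl h
    · rcases mem_insert_iff.1 hj with rfl | hj
      · exact h3
      · apply hsub
        rw [lo_eq, mem_union, mem_sep]; exact Or.inr ⟨hV, j, hj, h3, h4, h5⟩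
  · intro h
    exact Or.inr ⟨h1.1.2.1 h, k, mem_insert _ _, h, h1, h2⟩

section Facts

variable {N : Set Z} (hN : TC N) {s f : Z} (hs : s ∈ N) (hsd : s ⊆ dl N) (hf : IsFp N f)

include hN hs hsd hf

omit hsd in
theorem lo0_LQ : LQ N s f (lo0 N s f) := by
  have hcomp : ∀ a c, Pr N a c → Adj s a c → comp (lo0 N s f) (pair a c) = comp f (pair a c) := by
    intro a c h1 h2
    ext z
    rw [mem_comp, mem_comp, lo0, mem_sep]
    exact ⟨fun h => h.1, fun h => ⟨h, _, z, rfl, a, c, rfl, h1, h2⟩⟩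
  refine ⟨⟨?_, ?_, ?_⟩, ?_, ?_⟩
  · have _i := hN.sing
    exact (T.lo0 (N := N) T.v0 (hN.toTM.cst hf.1)).mem N rfl (fun _ => s) (fun _ => hs)
  · intro u hu
    exact hf.2.1 (mem_sep.1 hu).1
  · intro a b hab
    by_cases h : Adj s a b
    · rw [hcomp a b hab h]; exact hf.2.2 a b hab
    · have : comp (lo0 N s f) (pair a b) = ∅ := by
        rw [ZFSet.eq_empty]
        intro z hz
        rw [mem_comp, lo0, mem_sep] at hz
        obtain ⟨_, i, z', h1, a', c', rfl, _, h3⟩ := hz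
        obtain ⟨h4, _⟩ := pair_inj.1 h1
        obtain ⟨rfl, rfl⟩ := pair_inj.1 h4
        exact h h3
      rw [this]
      exact IsC.empty (empty_mem_chp hN (dl_N hN (hab.left hN)))
  · intro u hu
    obtain ⟨_, i, z, rfl, a, c, rfl, h1, h2⟩ := mem_sep.1 hu
    exact ⟨a, c, z, rfl, h1, h2⟩
  · intro a c h1 h2
    rw [hcomp a c h1 h2]; exact Ex.refl _

omit hsd in
theorem lo_LQ' {c : Z} : ∀ k ∈ om, LQ N s f (lo N s f c k) := by
  apply om_induction
  · rw [lo_zero]; exact lo0_LQ hN hs hf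
  · intro k _ hk
    by_cases h : LQ N s f (dec (comp c k)) ∧ LE2 N s (dec (comp c k)) (lo N s f c k)
    · rw [lo_succ_of hk h.1 h.2]; exact h.1
    · rw [lo_succ_of_not h]; exact hk

theorem lo_LQ {c : Z} (hc : c ∈ N) {k : Z} (hk : k ∈ om) : LQ N s f (lo N s f c k) :=
  lo_LQ' hN hs hf k hk

omit hsd in
theorem lo_le_succ {c k : Z} (hk : k ∈ om) :
    LE2 N s (lo N s f c (insert k k)) (lo N s f c k) := by
  by_cases h : LQ N s f (dec (comp c k)) ∧ LE2 N s (dec (comp c k)) (lo N s f c k)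
  · rw [lo_succ_of (lo_LQ' hN hs hf k hk) h.1 h.2]; exact h.2
  · rw [lo_succ_of_not h]; exact LE2.refl _ _ _

theorem lo_mono {c : Z} (hc : c ∈ N) {k k' : Z} (hk : k ∈ om) (hk' : k' ∈ om) (h : k ⊆ k') :
    LE2 N s (lo N s f c k') (lo N s f c k) := by
  have key : ∀ k' ∈ om, k ⊆ k' → LE2 N s (lo N s f c k') (lo N s f c k) := by
    apply om_induction
    · intro h
      have : k = ∅ := by
        rw [ZFSet.eq_empty]; intro y hy; exact notMem_empty _ (h hy)
      rw [this]; exact LE2.refl _ _ _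
    · intro m hm ih h
      have ho : (insert m m : Z).IsOrdinal := isOrdinal_om.mem (succ_mem_om hm)
      rcases IsOrdinal.mem_trichotomous (isOrdinal_om.mem hk) ho with h1 | h1 | h1
      · have h2 : k ⊆ m := by
          rcases mem_insert_iff.1 h1 with h3 | h3
          · rw [h3]
          · exact (isOrdinal_om.mem hm).subset_of_mem h3
        exact (lo_le_succ hN hs hf hm).trans (ih h2)
      · rw [h1]; exact LE2.refl _ _ _
      · exact absurd (h h1) (ZFSet.mem_irrefl _)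
  exact key k' hk' h

theorem lo_congr {c c' : Z} (hc : c ∈ N) (hc' : c' ∈ N) {k : Z} (hk : k ∈ om)
    (h : ∀ j ∈ k, comp c' j = comp c j) : lo N s f c' k = lo N s f c k := by
  have key : ∀ k ∈ om, (∀ j ∈ k, comp c' j = comp c j) → lo N s f c' k = lo N s f c k := by
    apply om_induction
    · intro _; rw [lo_zero, lo_zero]
    · intro m hm ih h
      have h1 := ih fun j hj => h j (mem_insert_of_mem _ hj)
      have h2 := h m (mem_insert _ _)
      by_cases h3 : LQ N s f (dec (comp c m)) ∧ LE2 N s (dec (comp c m)) (lo N s f c m)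
      · rw [lo_succ_of (lo_LQ' hN hs hf m hm) h3.1 h3.2]
        rw [← h2, ← h1] at h3
        rw [lo_succ_of (lo_LQ' hN hs hf m hm) h3.1 h3.2, h2]
      · rw [lo_succ_of_not h3]
        rw [← h2, ← h1] at h3
        rw [lo_succ_of_not h3, h1]
  exact key k hk h

/-- coding a stronger low condition `l` at the next place `k` -/
theorem lo_step {c c' l : Z} (hc : c ∈ N) (hc' : c' ∈ N) {k : Z} (hk : k ∈ om)
    (h : ∀ j ∈ k, comp c' j = comp c j) (hl : LQ N s f l) (hle : LE2 N s l (lo N s f c k))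
    (hck : comp c' k = cdd l) : lo N s f c' (insert k k) = l := by
  have h1 : dec (comp c' k) = l := by rw [hck, dec_cdd]
  rw [← lo_congr hN hs hsd hf hc hc' hk h] at hle
  rw [← h1] at hl hle
  rw [lo_succ_of (lo_LQ' hN hs hf k hk) hl hle, h1]

end Facts

end Pool.Agent.Lib.Ctm
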