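import Pool.Agent.Lib.Ctm.Choice

/-!
# Surjections and Hartogs numbers inside a transitive model
-/

namespace Pool.Agent.Lib.Ctm

open Pool.Agent.Lib.Forcing ZFSet

/-! ## components of ordered pairs -/

/-- first component of an ordered pair -/
noncomputable def cFst (p : Z) : Z :=
  ⋃₀ (ZFSet.sep (fun x => ∃ y ∈ (⋃₀ p : Z), p = pair x y) (⋃₀ p : Z))

/-- second component of an ordered pair -/
noncomputable def cSnd (p : Z) : Z :=
  ⋃₀ (ZFSet.sep (fun y => ∃ x ∈ (⋃₀ p : Z), p = pair x y) (⋃₀ p : Z))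

theorem left_mem_sUnion_pair (x y : Z) : x ∈ (⋃₀ (pair x y) : Z) :=
  mem_sUnion.2 ⟨{x, y}, by simp [pair], by simp⟩

theorem right_mem_sUnion_pair (x y : Z) : y ∈ (⋃₀ (pair x y) : Z) :=
  mem_sUnion.2 ⟨{x, y}, by simp [pair], by simp⟩

@[simp] theorem cFst_pair (x y : Z) : cFst (pair x y) = x := by
  have : ZFSet.sep (fun x' => ∃ y' ∈ (⋃₀ (pair x y) : Z), pair x y = pair x' y')
      (⋃₀ (pair x y) : Z) = {x} := by
    ext z
    rw [mem_sep, mem_singleton]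
    constructor
    · rintro ⟨_, y', _, h⟩
      exact (pair_inj.1 h).1.symm
    · rintro rfl
      exact ⟨left_mem_sUnion_pair _ _, y, right_mem_sUnion_pair _ _, rfl⟩
  rw [cFst, this, sUnion_singleton]

@[simp] theorem cSnd_pair (x y : Z) : cSnd (pair x y) = y := by
  have : ZFSet.sep (fun y' => ∃ x' ∈ (⋃₀ (pair x y) : Z), pair x y = pair x' y')
      (⋃₀ (pair x y) : Z) = {y} := by
    ext z
    rw [mem_sep, mem_singleton]
    constructor
    · rintro ⟨_, y', _, h⟩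
      exact (pair_inj.1 h).2.symm
    · rintro rfl
      exact ⟨right_mem_sUnion_pair _ _, x, left_mem_sUnion_pair _ _, rfl⟩
  rw [cSnd, this, sUnion_singleton]

section TT

variable {K : Set (Set Z)} [MK K] {s t : Set Z → (ℕ → Z) → Z}

protected theorem T.cFst (hs : T K s) : T K (fun M v => Ctm.cFst (s M v)) := by
  refine T.sUnion (T.sep (R := fun M x v => ∃ y ∈ (⋃₀ (s M v) : Z), s M v = ZFSet.pair x y)
    hs.sUnion ?_)
  exact D.bex (R := fun M y v => s M (tl v) = ZFSet.pair (v 0) y) hs.tail.sUnion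
    (D.eq hs.tail.tail (T.pair T.v1 T.v0))

protected theorem T.cSnd (hs : T K s) : T K (fun M v => Ctm.cSnd (s M v)) := by
  refine T.sUnion (T.sep (R := fun M y v => ∃ x ∈ (⋃₀ (s M v) : Z), s M v = ZFSet.pair x y)
    hs.sUnion ?_)
  exact D.bex (R := fun M x v => s M (tl v) = ZFSet.pair x (v 0)) hs.tail.sUnion
    (D.eq hs.tail.tail (T.pair T.v0 T.v1))

end TT

/-! ## definability in one model -/

theorem TM.cst {M : Set Z} (_ : TM M) {a : Z} (ha : a ∈ M) : T {M} (fun _ _ => a) :=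
  T.const (by rintro _ rfl; exact ha)

theorem TM.gr_mem' {M : Set Z} (hM : TM M) {a : Z} (ha : a ∈ M) {f : Z → Z}
    (h : T {M} (fun _ v => f (v 0))) : gr f a ∈ M := by
  have _i := hM.sing
  exact (T.graph (f := fun _ z _ => f z) (hM.cst ha) h).mem M rfl (fun _ => ∅)
    (fun _ => hM.empty_mem)

theorem TM.img_mem' {M : Set Z} (hM : TM M) {a : Z} (ha : a ∈ M) {f : Z → Z}
    (h : T {M} (fun _ v => f (v 0))) : img f a ∈ M := by
  have _i := hM.sing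
  exact (T.img (f := fun _ z _ => f z) (hM.cst ha) h).mem M rfl (fun _ => ∅)
    (fun _ => hM.empty_mem)

theorem TM.sep_memD {M : Set Z} (hM : TM M) {a : Z} (ha : a ∈ M) {R : Z → Prop}
    (h : D {M} (fun _ v => R (v 0))) : ZFSet.sep R a ∈ M := by
  have _i := hM.sing
  exact D.sep_mem (K := {M}) (R := fun _ z _ => R z) h rfl (v := fun _ => ∅)
    (fun _ => hM.empty_mem) ha

theorem TM.prod_mem {M : Set Z} (hM : TM M) {a b : Z} (ha : a ∈ M) (hb : b ∈ M) :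
    ZFSet.prod a b ∈ M := by
  have _i := hM.sing
  exact (T.prod (hM.cst ha) (hM.cst hb)).mem M rfl (fun _ => ∅) (fun _ => hM.empty_mem)

theorem TM.pw_mem {M : Set Z} (hM : TM M) {a : Z} (ha : a ∈ M) : pw M a ∈ M :=
  hM.powerset_mem ha

/-- `a` is mapped onto a superset of `b` by a function of `M` -/
def Cov (M : Set Z) (a b : Z) : Prop := ∃ h ∈ M, ∀ y ∈ b, ∃ x ∈ a, ap h x = y

theorem Cov.mono {M : Set Z} {a b a' b' : Z} (h : Cov M a b) (ha : a ⊆ a') (hb : b' ⊆ b) :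
    Cov M a' b' := by
  obtain ⟨g, hg, h⟩ := h
  refine ⟨g, hg, fun y hy => ?_⟩
  obtain ⟨x, hx, e⟩ := h y (hb hy)
  exact ⟨x, ha hx, e⟩

/-- a definable function gives a covering (use `T.graph` to prove `gr f a ∈ M`) -/
theorem Cov.of_gr {M : Set Z} {a b : Z} {f : Z → Z} (hf : gr f a ∈ M)
    (h : ∀ y ∈ b, ∃ x ∈ a, f x = y) : Cov M a b := by
  refine ⟨_, hf, fun y hy => ?_⟩
  obtain ⟨x, hx, e⟩ := h y hy
  exact ⟨x, hx, by rw [ap_gr hx, e]⟩

theorem Cov.refl {M : Set Z} (hM : TM M) {a : Z} (ha : a ∈ M) : Cov M a a := by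
  have _i := hM.sing
  exact Cov.of_gr (f := fun x => x) (hM.gr_mem' ha T.v0) fun y hy => ⟨y, hy, rfl⟩

theorem Cov.trans {M : Set Z} (hM : TM M) {a b c : Z} (ha : a ∈ M) (h1 : Cov M a b)
    (h2 : Cov M b c) : Cov M a c := by
  have _i := hM.sing
  obtain ⟨g, hg, h1⟩ := h1
  obtain ⟨k, hk, h2⟩ := h2
  refine Cov.of_gr (f := fun x => ap k (ap g x))
    (hM.gr_mem' ha (T.ap (hM.cst hk) (T.ap (hM.cst hg) T.v0))) fun z hz => ?_
  obtain ⟨y, hy, rfl⟩ := h2 z hz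
  obtain ⟨x, hx, rfl⟩ := h1 y hy
  exact ⟨x, hx, rfl⟩

/-- an injective function from `b` to `a` gives a covering of `b` by `a` -/
theorem Cov.of_inj {M : Set Z} (hM : TM M) {a b h : Z} (hb : b ∈ M) (hh : h ∈ M)
    (hm : ∀ x ∈ b, ap h x ∈ a) (hi : ∀ x ∈ b, ∀ y ∈ b, ap h x = ap h y → x = y) :
    Cov M a b := by
  obtain ⟨g, hg, e⟩ := hM.inv hb hh hi
  exact ⟨g, hg, fun y hy => ⟨ap h y, hm y hy, e y hy⟩⟩

theorem Cov.prod {M : Set Z} (hM : TM M) {a b c d : Z} (ha : a ∈ M) (hc : c ∈ M)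
    (h1 : Cov M a b) (h2 : Cov M c d) : Cov M (ZFSet.prod a c) (ZFSet.prod b d) := by
  have _i := hM.sing
  obtain ⟨g, hg, h1⟩ := h1
  obtain ⟨k, hk, h2⟩ := h2
  refine Cov.of_gr (f := fun p => pair (ap g (cFst p)) (ap k (cSnd p)))
    (hM.gr_mem' (hM.prod_mem ha hc) (T.pair (T.ap (hM.cst hg) T.v0.cFst)
      (T.ap (hM.cst hk) T.v0.cSnd))) fun z hz => ?_
  obtain ⟨u, hu, w, hw, rfl⟩ := mem_prod.1 hz
  obtain ⟨x, hx, rfl⟩ := h1 u hu
  obtain ⟨y, hy, rfl⟩ := h2 w hw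
  exact ⟨pair x y, pair_mem_prod.2 ⟨hx, hy⟩, by simp⟩

/-- the subsets of `Y` cover `Y` -/
theorem Cov.pw_self {M : Set Z} (hM : TM M) {Y : Z} (hY : Y ∈ M) : Cov M (pw M Y) Y := by
  have _i := hM.sing
  refine Cov.of_gr (f := fun x => ⋃₀ x) (hM.gr_mem' (hM.pw_mem hY) (T.sUnion T.v0))
    fun y hy => ⟨{y}, ?_, sUnion_singleton⟩
  rw [mem_pw]
  refine ⟨hM.singleton_mem (hM.trans _ hY _ hy), fun z hz => ?_⟩
  rw [mem_singleton] at hz
  exact hz ▸ hy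

/-- if `Y` is closed under ordered pairs and contains `∅`, `{∅}`, then the set of subsets of `Y`
covers its own square -/
theorem Cov.pw_sq {M : Set Z} (hM : TM M) {Y : Z} (hY : Y ∈ M) (h0 : (∅ : Z) ∈ Y)
    (h1 : ({∅} : Z) ∈ Y) (hp : ∀ x ∈ Y, ∀ y ∈ Y, pair x y ∈ Y) :
    Cov M (pw M Y) (ZFSet.prod (pw M Y) (pw M Y)) := by
  have _i := hM.sing
  have hne : (∅ : Z) ≠ {∅} := by
    intro h
    have : (∅ : Z) ∈ ({∅} : Z) := mem_singleton.2 rfl
    rw [← h] at this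
    exact notMem_empty _ this
  have t0 : T {M} (fun _ _ => (∅ : Z)) := hM.cst (hM.trans _ hY _ h0)
  have t1 : T {M} (fun _ _ => ({∅} : Z)) := hM.cst (hM.trans _ hY _ h1)
  refine Cov.of_gr (f := fun s => pair (ZFSet.sep (fun y => pair ∅ y ∈ s) Y)
    (ZFSet.sep (fun y => pair {∅} y ∈ s) Y)) (hM.gr_mem' (hM.pw_mem hY) ?_) fun z hz => ?_
  · refine T.pair (T.sep (R := fun _ y v => pair ∅ y ∈ v 0) (hM.cst hY) ?_)
      (T.sep (R := fun _ y v => pair {∅} y ∈ v 0) (hM.cst hY) ?_)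
    · exact D.mem (T.pair t0 T.v0) T.v1
    · exact D.mem (T.pair t1 T.v0) T.v1
  · obtain ⟨A, hA, B, hB, rfl⟩ := mem_prod.1 hz
    rw [mem_pw] at hA hB
    refine ⟨img (fun y => pair ∅ y) A ∪ img (fun y => pair {∅} y) B, ?_, ?_⟩
    · rw [mem_pw]
      refine ⟨hM.union_mem (hM.img_mem' hA.1 (T.pair t0 T.v0))
        (hM.img_mem' hB.1 (T.pair t1 T.v0)), fun w hw => ?_⟩
      rw [mem_union, mem_img, mem_img] at hw
      rcases hw with ⟨y, hy, rfl⟩ | ⟨y, hy, rfl⟩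
      · exact hp _ h0 _ (hA.2 hy)
      · exact hp _ h1 _ (hB.2 hy)
    · congr 1
      · ext y
        rw [mem_sep, mem_union, mem_img, mem_img]
        constructor
        · rintro ⟨_, ⟨y', hy', e⟩ | ⟨y', hy', e⟩⟩
          · rw [(pair_inj.1 e).2]
            exact hy'
          · exact absurd (pair_inj.1 e).1 hne
        · exact fun hy => ⟨hA.2 hy, Or.inl ⟨y, hy, rfl⟩⟩
      · ext y
        rw [mem_sep, mem_union, mem_img, mem_img]
        constructor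
        · rintro ⟨_, ⟨y', hy', e⟩ | ⟨y', hy', e⟩⟩
          · exact absurd (pair_inj.1 e).1.symm hne
          · rw [(pair_inj.1 e).2]
            exact hy'
        · exact fun hy => ⟨hB.2 hy, Or.inr ⟨y, hy, rfl⟩⟩

protected theorem D.cov {K : Set (Set Z)} [MK K] {s t : Set Z → (ℕ → Z) → Z} (hs : T K s)
    (ht : T K t) : D K (fun M v => Cov M (s M v) (t M v)) := by
  refine D.ex (R := fun M h v => ∀ y ∈ t M v, ∃ x ∈ s M v, Ctm.ap h x = y) ?_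
  refine D.ball (R := fun M y v => ∃ x ∈ s M (tl v), Ctm.ap (v 0) x = y) ht.tail ?_
  exact D.bex (R := fun M x v => Ctm.ap (v 1) x = v 0) hs.tail.tail (D.eq (T.ap T.v2 T.v0) T.v1)

/-! ## the Hartogs number -/

/-- `r` describes the ordinal `a` as a prewellordering of a subset of `X` -/
def Cd (M : Set Z) (X r a : Z) : Prop :=
  a.IsOrdinal ∧ ∃ h ∈ M, (∀ y ∈ a, ∃ x ∈ X, ap h x = y) ∧
    ∀ x ∈ X, ∀ y ∈ X, (pair x y ∈ r ↔ (ap h x ∈ a ∧ ap h y ∈ a ∧ ap h x ⊆ ap h y))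

theorem ord_mem_iff {a b : Z} (ha : a.IsOrdinal) (hb : b.IsOrdinal) :
    a ∈ b ↔ a ⊆ b ∧ ¬ b ⊆ a := by
  constructor
  · intro h
    exact ⟨hb.isTransitive.subset_of_mem h, fun h' => mem_irrefl a (h' h)⟩
  · rintro ⟨h1, h2⟩
    rcases IsOrdinal.mem_trichotomous ha hb with h | h | h
    · exact h
    · subst h
      exact absurd (fun _ hz => hz) h2
    · exact absurd (ha.isTransitive.subset_of_mem h) h2

theorem Cd.aux {X r a a' h h' : Z} (ha : a.IsOrdinal) (ha' : a'.IsOrdinal)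
    (hc : ∀ y ∈ a, ∃ x ∈ X, ap h x = y) (hc' : ∀ y ∈ a', ∃ x ∈ X, ap h' x = y)
    (hr : ∀ x ∈ X, ∀ y ∈ X, (pair x y ∈ r ↔ (ap h x ∈ a ∧ ap h y ∈ a ∧ ap h x ⊆ ap h y)))
    (hr' : ∀ x ∈ X, ∀ y ∈ X, (pair x y ∈ r ↔ (ap h' x ∈ a' ∧ ap h' y ∈ a' ∧
      ap h' x ⊆ ap h' y))) :
    ∀ u : Z, ∀ x ∈ X, u ∈ a → ap h x = u → ap h' x = u := by
  have field : ∀ x ∈ X, ap h x ∈ a ↔ ap h' x ∈ a' := by
    intro x hx
    have h1 := hr x hx x hx
    have h2 := hr' x hx x hx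
    constructor
    · intro h3
      exact (h2.1 (h1.2 ⟨h3, h3, fun _ h => h⟩)).1
    · intro h3
      exact (h1.1 (h2.2 ⟨h3, h3, fun _ h => h⟩)).1
  have lt : ∀ x ∈ X, ∀ y ∈ X, ap h x ∈ a → ap h y ∈ a → (ap h x ∈ ap h y ↔ ap h' x ∈ ap h' y) := by
    intro x hx y hy h1 h2
    have h1' := (field x hx).1 h1
    have h2' := (field y hy).1 h2
    rw [ord_mem_iff (ha.mem h1) (ha.mem h2), ord_mem_iff (ha'.mem h1') (ha'.mem h2')]
    have e1 : ap h x ⊆ ap h y ↔ ap h' x ⊆ ap h' y :=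
      ⟨fun e => ((hr' x hx y hy).1 ((hr x hx y hy).2 ⟨h1, h2, e⟩)).2.2,
        fun e => ((hr x hx y hy).1 ((hr' x hx y hy).2 ⟨h1', h2', e⟩)).2.2⟩
    have e2 : ap h y ⊆ ap h x ↔ ap h' y ⊆ ap h' x :=
      ⟨fun e => ((hr' y hy x hx).1 ((hr y hy x hx).2 ⟨h2, h1, e⟩)).2.2,
        fun e => ((hr y hy x hx).1 ((hr' y hy x hx).2 ⟨h2', h1', e⟩)).2.2⟩
    rw [e1, e2]
  intro u
  induction u using ZFSet.inductionOn with
  | _ u ih =>
    rintro x hx hu rfl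
    have hu' := (field x hx).1 hu
    ext z
    constructor
    · intro hz
      have hz' : z ∈ a' := ha'.mem_trans hz hu'
      obtain ⟨w, hw, rfl⟩ := hc' z hz'
      have h1 : ap h w ∈ a := (field w hw).2 hz'
      have h2 : ap h w ∈ ap h x := (lt w hw x hx h1 hu).2 hz
      rw [ih _ h2 w hw h1 rfl]
      exact h2
    · intro hz
      have hz' : z ∈ a := ha.mem_trans hz hu
      obtain ⟨w, hw, rfl⟩ := hc z hz'
      have h2 : ap h' w ∈ ap h' x := (lt w hw x hx hz' hu).1 hz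
      rw [ih _ hz w hw hz' rfl] at h2
      exact h2

theorem Cd.unique {M : Set Z} {X r a a' : Z} (h : Cd M X r a) (h' : Cd M X r a') : a = a' := by
  have key : ∀ {a a' : Z}, Cd M X r a → Cd M X r a' → a ⊆ a' := by
    rintro a a' ⟨ha, g, _, hc, hr⟩ ⟨ha', g', _, hc', hr'⟩ z hz
    obtain ⟨x, hx, rfl⟩ := hc z hz
    have h1 := Cd.aux ha ha' hc hc' hr hr' _ x hx hz rfl
    rw [← h1]
    have h2 := (hr x hx x hx).2 ⟨hz, hz, fun _ h => h⟩
    exact ((hr' x hx x hx).1 h2).1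
  exact subset_antisymm (key h h') (key h' h)

theorem Cov.cd {M : Set Z} (hM : TM M) {X a : Z} (hX : X ∈ M) (ha : a ∈ M) (ho : a.IsOrdinal)
    (h : Cov M X a) : ∃ r ∈ pw M (ZFSet.prod X X), Cd M X r a := by
  have _i := hM.sing
  obtain ⟨h, hh, hc⟩ := h
  have th := hM.cst hh
  refine ⟨ZFSet.sep (fun p => ap h (cFst p) ∈ a ∧ ap h (cSnd p) ∈ a ∧
    ap h (cFst p) ⊆ ap h (cSnd p)) (ZFSet.prod X X), ?_, ho, h, hh, hc, ?_⟩
  · rw [mem_pw]
    refine ⟨hM.sep_memD (hM.prod_mem hX hX) ?_, fun z hz => (mem_sep.1 hz).1⟩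
    exact (D.mem (T.ap th T.v0.cFst) (hM.cst ha)).and ((D.mem (T.ap th T.v0.cSnd) (hM.cst ha)).and
      (D.subset (T.ap th T.v0.cFst) (T.ap th T.v0.cSnd)))
  · intro x hx y hy
    rw [mem_sep, cFst_pair, cSnd_pair, pair_mem_prod]
    exact and_iff_right ⟨hx, hy⟩

protected theorem D.cd {K : Set (Set Z)} [MK K] {q s t : Set Z → (ℕ → Z) → Z} (hq : T K q)
    (hs : T K s) (ht : T K t) : D K (fun M v => Cd M (q M v) (s M v) (t M v)) := by
  refine (D.isOrdinal ht).and ?_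
  refine D.ex (R := fun M h v => (∀ y ∈ t M v, ∃ x ∈ q M v, Ctm.ap h x = y) ∧
    ∀ x ∈ q M v, ∀ y ∈ q M v, (ZFSet.pair x y ∈ s M v ↔ (Ctm.ap h x ∈ t M v ∧
      Ctm.ap h y ∈ t M v ∧ Ctm.ap h x ⊆ Ctm.ap h y))) ?_
  refine D.and ?_ ?_
  · refine D.ball (R := fun M y v => ∃ x ∈ q M (tl v), Ctm.ap (v 0) x = y) ht.tail ?_
    exact D.bex (R := fun M x v => Ctm.ap (v 1) x = v 0) hq.tail.tail
      (D.eq (T.ap T.v2 T.v0) T.v1)
  · refine D.ball (R := fun M x v => ∀ y ∈ q M (tl v), (ZFSet.pair x y ∈ s M (tl v) ↔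
      (Ctm.ap (v 0) x ∈ t M (tl v) ∧ Ctm.ap (v 0) y ∈ t M (tl v) ∧
        Ctm.ap (v 0) x ⊆ Ctm.ap (v 0) y))) hq.tail ?_
    refine D.ball (R := fun M y v => (ZFSet.pair (v 0) y ∈ s M (tl (tl v)) ↔
      (Ctm.ap (v 1) (v 0) ∈ t M (tl (tl v)) ∧ Ctm.ap (v 1) y ∈ t M (tl (tl v)) ∧
        Ctm.ap (v 1) (v 0) ⊆ Ctm.ap (v 1) y))) hq.tail.tail ?_
    refine D.iff (D.mem (T.pair T.v1 T.v0) hs.tail.tail.tail) ?_
    exact (D.mem (T.ap T.v2 T.v1) ht.tail.tail.tail).and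
      ((D.mem (T.ap T.v2 T.v0) ht.tail.tail.tail).and
        (D.subset (T.ap T.v2 T.v1) (T.ap T.v2 T.v0)))

theorem exists_hart {M : Set Z} (hM : TM M) {X : Z} (hX : X ∈ M) :
    ∃ s ∈ M, ∀ a, a ∈ s ↔ a ∈ M ∧ a.IsOrdinal ∧ Cov M X a := by
  have _i := hM.sing
  have tX := hM.cst hX
  have hx0 : ZFSet.sep (fun r => ∃ a ∈ M, Cd M X r a) (pw M (ZFSet.prod X X)) ∈ M := by
    refine hM.sep_memD (hM.pw_mem (hM.prod_mem hX hX)) ?_
    refine D.congr (D.ex (K := {M}) (R := fun N a v => Cd N X (v 0) a)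
      (D.cd tX T.v1 T.v0)) ?_
    rintro N rfl v _
    exact Iff.rfl
  obtain ⟨w, hw, h⟩ := D.repl (K := {M}) (R := fun N r a _ => Cd N X r a)
    (D.cd tX T.v0 T.v1) (M := M) rfl (v := fun _ => ∅) (fun _ => hM.empty_mem) hx0 (by
      intro r hr
      obtain ⟨_, a, ha, hc⟩ := mem_sep.1 hr
      exact ⟨a, ⟨ha, hc⟩, fun b hb => hb.2.unique hc⟩)
  refine ⟨w, hw, fun a => ?_⟩
  rw [h]
  constructor
  · rintro ⟨r, _, ha, hc⟩
    obtain ⟨ho, g, hg, hs, _⟩ := hc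
    exact ⟨ha, ho, g, hg, hs⟩
  · rintro ⟨ha, ho, hc⟩
    obtain ⟨r, hr, hcd⟩ := hc.cd hM hX ha ho
    exact ⟨r, mem_sep.2 ⟨hr, a, ha, hcd⟩, ha, hcd⟩

open Classical in
/-- the Hartogs number (in the form of Lindenbaum): the set of all ordinals covered by `X` -/
noncomputable def hart (M : Set Z) (X : Z) : Z :=
  if h : ∃ s : Z, ∀ a, a ∈ s ↔ a ∈ M ∧ a.IsOrdinal ∧ Cov M X a then h.choose else ∅

theorem mem_hart {M : Set Z} (hM : TM M) {X : Z} (hX : X ∈ M) {a : Z} :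
    a ∈ hart M X ↔ a ∈ M ∧ a.IsOrdinal ∧ Cov M X a := by
  have h : ∃ s : Z, ∀ a, a ∈ s ↔ a ∈ M ∧ a.IsOrdinal ∧ Cov M X a := by
    obtain ⟨s, _, hs⟩ := exists_hart hM hX
    exact ⟨s, hs⟩
  rw [hart, dif_pos h]
  exact h.choose_spec a

theorem hart_mem {M : Set Z} (hM : TM M) {X : Z} (hX : X ∈ M) : hart M X ∈ M := by
  obtain ⟨s, hs, h⟩ := exists_hart hM hX
  have : hart M X = s := by
    ext a
    rw [mem_hart hM hX, h]
  rw [this]
  exact hs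

theorem isOrdinal_hart {M : Set Z} (hM : TM M) {X : Z} (hX : X ∈ M) : (hart M X).IsOrdinal := by
  rw [isOrdinal_iff_forall_mem_isOrdinal]
  constructor
  · intro a ha b hb
    rw [mem_hart hM hX] at ha ⊢
    exact ⟨hM.trans _ ha.1 _ hb, ha.2.1.mem hb, ha.2.2.mono (fun _ h => h)
      (ha.2.1.isTransitive.subset_of_mem hb)⟩
  · intro a ha
    exact ((mem_hart hM hX).1 ha).2.1

protected theorem T.hart {K : Set (Set Z)} [MK K] {s : Set Z → (ℕ → Z) → Z} (hs : T K s) :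
    T K (fun M v => hart M (s M v)) := by
  refine T.of_mem (fun M hM v hv => hart_mem (MK.tm M hM) (hs.mem M hM v hv)) ?_
  refine ((D.isOrdinal T.v0).and (D.cov hs.tail T.v0)).congr fun M hM v hv => ?_
  rw [mem_hart (MK.tm M hM) (hs.mem M hM _ hv.tail)]
  exact and_iff_right (hv 0)

theorem not_cov_hart {M : Set Z} (hM : TM M) {X : Z} (hX : X ∈ M) : ¬ Cov M X (hart M X) := by
  intro h
  exact mem_irrefl _ ((mem_hart hM hX).2 ⟨hart_mem hM hX, isOrdinal_hart hM hX, h⟩)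

theorem hart_mono {M : Set Z} (hM : TM M) {X Y : Z} (hX : X ∈ M) (hY : Y ∈ M)
    (h : Cov M X Y) : hart M Y ⊆ hart M X := by
  intro a ha
  rw [mem_hart hM hY] at ha
  exact (mem_hart hM hX).2 ⟨ha.1, ha.2.1, h.trans hM hX ha.2.2⟩

/-- the Hartogs number is a limit ordinal -/
theorem succ_mem_hart {M : Set Z} (hM : TM M) {X : Z} (hX : X ∈ M)
    (hXX : Cov M X (ZFSet.prod X X)) (h2 : ∃ x ∈ X, ∃ y ∈ X, x ≠ y) {a : Z}
    (ha : a ∈ hart M X) : insert a a ∈ hart M X := by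
  have _i := hM.sing
  obtain ⟨ha, ho, h, hh, hc⟩ := (mem_hart hM hX).1 ha
  obtain ⟨x0, hx0, y0, hy0, hne⟩ := h2
  refine (mem_hart hM hX).2 ⟨hM.insert_mem ha ha, isOrdinal_succ ho, hXX.trans hM hX ?_⟩
  have t0 := hM.cst (hM.trans _ hX _ hx0)
  refine Cov.of_gr (f := fun p => ZFSet.sep (fun _ => cSnd p = x0) (ap h (cFst p)) ∪
    ZFSet.sep (fun _ => cSnd p ≠ x0) a) (hM.gr_mem' (hM.prod_mem hX hX) ?_) fun z hz => ?_
  · refine T.union (T.sep (R := fun _ _ v => Ctm.cSnd (v 0) = x0)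
      (T.ap (hM.cst hh) T.v0.cFst) ?_) (T.sep (R := fun _ _ v => Ctm.cSnd (v 0) ≠ x0)
        (hM.cst ha) ?_)
    · exact D.eq T.v1.cSnd t0
    · exact (D.eq T.v1.cSnd t0).neg
  · rcases mem_insert_iff.1 hz with rfl | hz
    · refine ⟨pair x0 y0, pair_mem_prod.2 ⟨hx0, hy0⟩, ?_⟩
      ext w
      simp [hne.symm]
    · obtain ⟨x, hx, rfl⟩ := hc z hz
      refine ⟨pair x x0, pair_mem_prod.2 ⟨hx, hx0⟩, ?_⟩
      ext w
      simp

/-- regularity of the Hartogs number -/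
theorem TC.hart_sup {M : Set Z} (hM : TC M) {X : Z} (hX : X ∈ M)
    (hXX : Cov M X (ZFSet.prod X X)) {I g : Z} (hI : I ∈ M) (hIX : Cov M X I) (hg : g ∈ M)
    (h : ∀ i ∈ I, ap g i ∈ hart M X) : (⋃₀ (img (ap g) I) : Z) ∈ hart M X := by
  have hT := hM.toTM
  have _i := hT.sing
  have h' : ∀ i ∈ I, ap g i ∈ M ∧ (ap g i).IsOrdinal ∧ Cov M X (ap g i) :=
    fun i hi => (mem_hart hT hX).1 (h i hi)
  have tX := hT.cst hX
  have tg := hT.cst hg
  refine (mem_hart hT hX).2 ⟨hT.sUnion_mem (hT.img_mem' hI (T.ap tg T.v0)), ?_,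
    hXX.trans hT hX ?_⟩
  · rw [isOrdinal_iff_forall_mem_isOrdinal]
    constructor
    · refine IsTransitive.sUnion' fun a ha => ?_
      obtain ⟨i, hi, rfl⟩ := mem_img.1 ha
      exact (h' i hi).2.1.isTransitive
    · intro b hb
      obtain ⟨a, ha, hba⟩ := mem_sUnion.1 hb
      obtain ⟨i, hi, rfl⟩ := mem_img.1 ha
      exact (h' i hi).2.1.mem hba
  · -- the set of the coverings
    have hP : D {M} (fun _ v => ∀ y ∈ ap g (v 0), ∃ x ∈ X, ap (v 1) x = y) := by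
      refine D.ball (R := fun _ y v => ∃ x ∈ X, Ctm.ap (v 1) x = y) (T.ap tg T.v0) ?_
      exact D.bex (R := fun _ x v => Ctm.ap (v 2) x = v 0) tX (D.eq (T.ap T.v3 T.v0) T.v1)
    obtain ⟨b, hb, hbo, hcov⟩ := D.coll (K := {M})
      (R := fun _ i k _ => ∀ y ∈ ap g i, ∃ x ∈ X, ap k x = y) hP (M := M) rfl
      (v := fun _ => ∅) (fun _ => hT.empty_mem) hI (by
        intro i hi
        obtain ⟨k, hk, hk'⟩ := (h' i hi).2.2
        exact ⟨k, hk, hk'⟩)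
    have hV := hT.VM_mem hb
    obtain ⟨c, hc, hc1, _⟩ := hM.choice hV
    obtain ⟨k, hk, hk'⟩ := hIX
    have tk := hT.cst hk
    have tc' := hT.cst hc
    have tV := hT.cst hV
    -- the chosen covering
    have tS : T {M} (fun _ v => ZFSet.sep (fun k => ∀ y ∈ ap g (v 0), ∃ x ∈ X, ap k x = y)
        (VM M b)) := by
      refine T.sep (R := fun _ k v => ∀ y ∈ ap g (v 0), ∃ x ∈ X, ap k x = y) tV ?_
      refine D.ball (R := fun _ y v => ∃ x ∈ X, Ctm.ap (v 0) x = y) (T.ap tg T.v1) ?_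
      exact D.bex (R := fun _ x v => Ctm.ap (v 1) x = v 0) tX (D.eq (T.ap T.v2 T.v0) T.v1)
    have tF : T {M} (fun _ v => ap (ap c (ZFSet.sep (fun l => ∀ y ∈ ap g (ap k (cFst (v 0))),
        ∃ x ∈ X, ap l x = y) (VM M b))) (cSnd (v 0))) := by
      refine T.ap (T.ap tc' ?_) T.v0.cSnd
      exact T.subst (t := fun _ v => ap k (cFst (v 0)))
        (f := fun _ i _ => ZFSet.sep (fun l => ∀ y ∈ ap g i, ∃ x ∈ X, ap l x = y) (VM M b))
        tS (T.ap tk T.v0.cFst)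
    refine Cov.of_gr (f := fun p => ap (ap c (ZFSet.sep (fun l => ∀ y ∈ ap g (ap k (cFst p)),
        ∃ x ∈ X, ap l x = y) (VM M b))) (cSnd p)) (hT.gr_mem' (hT.prod_mem hX hX) tF)
        fun y hy => ?_
    obtain ⟨a, ha, hya⟩ := mem_sUnion.1 hy
    obtain ⟨i, hi, rfl⟩ := mem_img.1 ha
    obtain ⟨x, hx, rfl⟩ := hk' i hi
    have hS : ZFSet.sep (fun l => ∀ y ∈ ap g (ap k x), ∃ x ∈ X, ap l x = y) (VM M b) ∈ M :=
      tS.mem M rfl (fun _ => ap k x) (fun _ => hT.trans _ hI _ hi)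
    have h3 := hc1 _ hS (fun z hz => (mem_sep.1 hz).1) (by
      intro he
      obtain ⟨l, hl, hl'⟩ := hcov _ hi
      have : l ∈ ZFSet.sep (fun l => ∀ y ∈ ap g (ap k x), ∃ x ∈ X, ap l x = y) (VM M b) :=
        mem_sep.2 ⟨hl, hl'⟩
      rw [he] at this
      exact notMem_empty _ this)
    obtain ⟨x', hx', e⟩ := (mem_sep.1 h3).2 y hya
    exact ⟨pair x x', pair_mem_prod.2 ⟨hx, hx'⟩, by rw [cFst_pair, cSnd_pair]; exact e⟩

end Pool.Agent.Lib.Ctm
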