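import Pool.Agent.Lib.Ctm.FT
import Pool.Agent.Lib.Ctm.Card

/-!
# Projections of posets
-/

namespace Pool.Agent.Lib.Ctm

open Pool.Agent.Lib.Forcing ZFSet

/-- the recursion step for the value of a name, with the filter given by a set -/
noncomputable def valStep (h x f : Z) : Z :=
  img (fun y => ap f y) (ZFSet.sep (fun y => ∃ p ∈ h, pair y p ∈ x) (tc x))

theorem val_eq_recF {H : Set Z} {h : Z} (hH : ∀ z, z ∈ h ↔ z ∈ H) :
    ∀ x : Z, val H x = recF (valStep h) x := by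
  have key : ∀ o : Ordinal, ∀ x : Z, rank x = o → val H x = recF (valStep h) x := by
    intro o
    induction o using WellFoundedLT.induction with
    | _ o ih =>
      intro x hx
      rw [recF_eq, valStep]
      ext z
      rw [mem_val, mem_img]
      constructor
      · rintro ⟨y, p, hp, hy, rfl⟩
        refine ⟨y, mem_sep.2 ⟨mem_tc_of_pair hy, p, (hH p).2 hp, hy⟩, ?_⟩
        rw [ap_gr (mem_tc_of_pair hy)]
        exact ih (rank y) (hx ▸ rank_lt_of_pair hy) y rfl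
      · rintro ⟨y, hy, rfl⟩
        obtain ⟨hy1, p, hp, hy2⟩ := mem_sep.1 hy
        refine ⟨y, p, (hH p).1 hp, hy2, ?_⟩
        rw [ap_gr hy1]
        exact (ih (rank y) (hx ▸ rank_lt_of_pair hy2) y rfl).symm
  exact fun x => key _ x rfl

protected theorem T.valRec {K : Set (Set Z)} [MK K] {h : Z} (hh : ∀ M ∈ K, h ∈ M)
    {t : Set Z → (ℕ → Z) → Z} (ht : T K t) : T K (fun M v => recF (valStep h) (t M v)) := by
  refine T.recur (G := fun _ x f _ => valStep h x f) ?_ ht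
  refine T.img (f := fun _ y v => Ctm.ap (v 1) y) ?_ (T.ap T.v2 T.v0)
  refine T.sep (R := fun _ y v => ∃ p ∈ h, ZFSet.pair y p ∈ v 0) T.v0.tc ?_
  exact D.bex (R := fun _ p v => ZFSet.pair (v 0) p ∈ v 1) (T.const hh)
    (D.mem (T.pair T.v1 T.v0) T.v2)

/-- If the set `h` of the transitive model `M ⊇ N` has the elements of the filter `H`, then the
extension by `H` is included in `M`. -/
theorem NG_subset {N M : Set Z} (hM : TM M) (hNM : N ⊆ M) {H : Set Z} {h : Z} (hh : h ∈ M)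
    (hH : ∀ z, z ∈ h ↔ z ∈ H) : NG N H ⊆ M := by
  rintro _ ⟨x, hx, rfl⟩
  have _i := hM.sing
  rw [val_eq_recF hH x]
  exact (T.valRec (K := {M}) (by rintro _ rfl; exact hh) T.v0).mem M rfl (fun _ => x)
    (fun _ => hNM hx)

/-- A projection `π` from the conditions below `q` to the conditions below `p` gives generic
filters: from a filter `G` containing `q` a filter `H` containing `p` with a smaller extension. -/
theorem proj_gen {N : Set Z} (hN : TM N) {P L o : Z} (hF : PO N P L o) {p q π : Z} (hp : p ∈ P)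
    (hq : q ∈ P) (hπ : π ∈ N) (h1 : ∀ x, Le P L x q → Le P L (ap π x) p)
    (h2 : ∀ x y, Le P L x y → Le P L y q → Le P L (ap π x) (ap π y))
    (h3 : ∀ x r, Le P L x q → Le P L r (ap π x) → ∃ x', Le P L x' x ∧ Le P L (ap π x') r)
    {G : Set Z} (hG : Gen N P L G) (hqG : q ∈ G) :
    ∃ H, Gen N P L H ∧ p ∈ H ∧ NG N H ⊆ NG N G := by
  have ho : o ∈ G := Gen.top_mem hF hG hqG
  have hqN : q ∈ N := hN.trans _ hF.P_mem _ hq
  refine ⟨{r | ∃ x ∈ G, Le P L x q ∧ Le P L (ap π x) r}, ⟨?_, ?_, ?_, ?_⟩,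
    ⟨q, hqG, hF.le_refl hq, h1 q (hF.le_refl hq)⟩, ?_⟩
  · rintro r ⟨x, _, _, h⟩
    exact h.2.1
  · rintro r ⟨x, hx, hxq, h⟩ s hs
    exact ⟨x, hx, hxq, hF.le_trans h hs⟩
  · rintro r ⟨x, hx, hxq, h⟩ s ⟨y, hy, hyq, h'⟩
    obtain ⟨z, hz, hzx, hzy⟩ := hG.dir x hx y hy
    have hzq := hF.le_trans hzx hxq
    exact ⟨ap π z, ⟨z, hz, hzq, hF.le_refl (h1 z hzq).1⟩, hF.le_trans (h2 z x hzx hxq) h,
      hF.le_trans (h2 z y hzy hyq) h'⟩
  · intro S hS hd
    have hP' : ∀ M ∈ ({N} : Set (Set Z)), P ∈ M := by rintro _ rfl; exact hF.P_mem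
    have hL' : ∀ M ∈ ({N} : Set (Set Z)), L ∈ M := by rintro _ rfl; exact hF.L_mem
    have _i := hN.sing
    obtain ⟨x, hx, hxq, d, hd1, hd2⟩ := Gen.belowD hN hF hG
      (R := fun x => ∃ d ∈ S, Le P L (ap π x) d) (by
      refine hN.sep_memD hF.P_mem (R := fun x => ∃ d ∈ S, Le P L (ap π x) d) ?_
      exact D.bex (R := fun _ d v => Le P L (ap π (v 0)) d) (hN.cst hS)
        (D.le hP' hL' (T.ap (hN.cst hπ) T.v1) T.v0)) hqG (by
      intro y hy
      obtain ⟨d, hd1, hd2⟩ := hd _ (h1 y hy).1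
      obtain ⟨x', hx', h⟩ := h3 y d hy hd1
      exact ⟨x', hx', d, hd2, h⟩)
    exact ⟨d, ⟨x, hx, hxq, hd2⟩, hd1⟩
  · have hM : TM (NG N G) := NG_tm hN hF hG ho
    have hsub : N ⊆ NG N G := N_sub_NG hN hF ho
    have hP' : ∀ M ∈ ({NG N G} : Set (Set Z)), P ∈ M := by rintro _ rfl; exact hsub hF.P_mem
    have hL' : ∀ M ∈ ({NG N G} : Set (Set Z)), L ∈ M := by rintro _ rfl; exact hsub hF.L_mem
    have _i := hM.sing
    refine NG_subset hM hsub
      (h := ZFSet.sep (fun r => ∃ x ∈ val G (gset P o), Le P L x q ∧ Le P L (ap π x) r) P) ?_ ?_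
    · refine hM.sep_memD (hsub hF.P_mem)
        (R := fun r => ∃ x ∈ val G (gset P o), Le P L x q ∧ Le P L (ap π x) r) ?_
      exact D.bex (R := fun _ x v => Le P L x q ∧ Le P L (ap π x) (v 0))
        (hM.cst (gset_mem hN hF))
        ((D.le hP' hL' T.v0 (hM.cst (hsub hqN))).and
          (D.le hP' hL' (T.ap (hM.cst (hsub hπ)) T.v0) T.v1))
    · intro z
      rw [mem_sep]
      constructor
      · rintro ⟨_, x, hx, h⟩
        exact ⟨x, (mem_val_gset hG ho).1 hx, h⟩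
      · rintro ⟨x, hx, h, h'⟩
        exact ⟨h'.2.1, x, (mem_val_gset hG ho).2 hx, h, h'⟩

end Pool.Agent.Lib.Ctm
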