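import Pool.Agent.Lib.Ctm.OW
import Pool.Agent.Lib.Ctm.Lo
import Pool.Agent.Lib.Ctm.Proj
import Pool.Agent.Lib.Ctm.GenS

/-!
# Absorption
-/

namespace Pool.Agent.Lib.Ctm

open Pool.Agent.Lib.Forcing ZFSet

open Classical in
/-- the components of the projected condition -/
noncomputable def pc (N : Set Z) (s' f x f' i : Z) : Z :=
  if Adj s' (cFst i) (cSnd i) then
    comp (lo N s' f (comp f' (pair ∅ x)) (dm (comp f' (pair ∅ x)))) i
  else (if x ⊆ cFst i then ow (comp f i) (comp f' i) else ∅)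

open Classical in
/-- the components of the lifted condition -/
noncomputable def lc (x c0 f' fr i : Z) : Z :=
  if i = pair ∅ x then c0
  else (if x ⊆ cFst i then ow (comp f' i) (comp fr i) else comp f' i)

theorem D.adjA {K : Set (Set Z)} [MK K] {s t u : Set Z → (ℕ → Z) → Z} (hs : T K s) (ht : T K t)
    (hu : T K u) : D K (fun M v => Adj (s M v) (t M v) (u M v)) := by
  refine (D.mem ht hs).and ((D.mem hu hs).and ?_)
  exact D.ball (R := fun M x v => ¬ (t M v ∈ x ∧ x ∈ u M v)) hs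
    ((D.mem ht.tail T.v0).and (D.mem T.v0 hu.tail)).neg

section Def

variable {N : Set Z} (hN : TC N) [MK ({N} : Set (Set Z))]

include hN

theorem T.pc {s' f x : Z} (hs' : s' ∈ N) (hf : f ∈ N) (hx : x ∈ N)
    {t u : Set Z → (ℕ → Z) → Z} (ht : T {N} t) (hu : T {N} u) :
    T {N} (fun M v => Ctm.pc N s' f x (t M v) (u M v)) := by
  have ts := hN.toTM.cst hs'
  have tf := hN.toTM.cst hf
  have tx := hN.toTM.cst hx
  have tc0 : T {N} (fun M v => Ctm.comp (t M v) (ZFSet.pair ∅ x)) := T.comp ht (T.pair T.empty tx)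
  exact T.ite (R := fun M v => Adj s' (Ctm.cFst (u M v)) (Ctm.cSnd (u M v)))
    (D.adjA ts hu.cFst hu.cSnd) (T.comp (T.lo ts tf tc0 tc0.dm) hu)
    (T.ite (R := fun M v => x ⊆ Ctm.cFst (u M v)) (D.subset tx hu.cFst)
      (T.ow (T.comp tf hu) (T.comp ht hu)) T.empty)

theorem T.lc {x c0 f' fr : Z} (hx : x ∈ N) (hc0 : c0 ∈ N) (hf' : f' ∈ N) (hfr : fr ∈ N)
    {u : Set Z → (ℕ → Z) → Z} (hu : T {N} u) :
    T {N} (fun M v => Ctm.lc x c0 f' fr (u M v)) := by
  have tx := hN.toTM.cst hx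
  have tf' := hN.toTM.cst hf'
  have tfr := hN.toTM.cst hfr
  exact T.ite (R := fun M v => u M v = ZFSet.pair ∅ x) (D.eq hu (T.pair T.empty tx))
    (hN.toTM.cst hc0)
    (T.ite (R := fun M v => x ⊆ Ctm.cFst (u M v)) (D.subset tx hu.cFst)
      (T.ow (T.comp tf' hu) (T.comp tfr hu)) (T.comp tf' hu))

end Def

section Comb

variable {N : Set Z}

theorem Ex.comp_eq {c c' j : Z} (h : Ex c' c) (hj : j ∈ dm c) : comp c' j = comp c j := by
  ext z
  rw [mem_comp, mem_comp]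
  exact ⟨fun hz => h.2 j hj z hz, fun hz => h.1 hz⟩

theorem tcase {t x z : Z} (ht : EE t {∅, x}) (hz : z ∈ t) : z = ∅ ∨ z = x ∨ x ∈ z := by
  by_cases h : z ∈ ({∅, x} : Z)
  · rcases ZFSet.mem_pair.1 h with h | h
    · exact Or.inl h
    · exact Or.inr (Or.inl h)
  · exact Or.inr (Or.inr (ht.2 z hz h x (by simp)))

theorem x_mem_of_EE {t x : Z} (ht : EE t {∅, x}) : x ∈ t := ht.1 (by simp)

variable (hN : TC N)

include hN

theorem isS_union {s t : Z} (hs : IsS N s) (ht : IsS N t) : IsS N (s ∪ t) := by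
  refine ⟨hN.union_mem hs.1 ht.1, ?_, mem_union.2 (Or.inl hs.2.2.1), ?_⟩
  · intro z hz
    rcases mem_union.1 hz with h | h
    · exact hs.2.1 h
    · exact ht.2.1 h
  · intro w hw hws hne
    have _i := hN.sing
    have tw := hN.toTM.cst hw
    have h1 : w ∩ s ∈ N :=
      (T.inter tw (hN.toTM.cst hs.1)).mem N rfl (fun _ => ∅) (fun _ => hN.empty_mem)
    have h2 : w ∩ t ∈ N :=
      (T.inter tw (hN.toTM.cst ht.1)).mem N rfl (fun _ => ∅) (fun _ => hN.empty_mem)
    by_cases e1 : w ∩ s = ∅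
    · have hwt : w ⊆ t := by
        intro z hz
        rcases mem_union.1 (hws hz) with h | h
        · have : z ∈ w ∩ s := ZFSet.mem_inter.2 ⟨hz, h⟩
          rw [e1] at this
          exact absurd this (notMem_empty _)
        · exact h
      exact ht.2.2.2 w hw hwt hne
    · obtain ⟨m1, hm1, hm1'⟩ := hs.2.2.2 _ h1 (fun z hz => (ZFSet.mem_inter.1 hz).2) e1
      by_cases e2 : w ∩ t = ∅
      · have hwt : w ⊆ s := by
          intro z hz
          rcases mem_union.1 (hws hz) with h | h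
          · exact h
          · have : z ∈ w ∩ t := ZFSet.mem_inter.2 ⟨hz, h⟩
            rw [e2] at this
            exact absurd this (notMem_empty _)
        exact hs.2.2.2 w hw hwt hne
      · obtain ⟨m2, hm2, hm2'⟩ := ht.2.2.2 _ h2 (fun z hz => (ZFSet.mem_inter.1 hz).2) e2
        have o1 := dl_ord hN (hs.2.1 (ZFSet.mem_inter.1 hm1).2)
        have o2 := dl_ord hN (ht.2.1 (ZFSet.mem_inter.1 hm2).2)
        rcases IsOrdinal.subset_total o1 o2 with h | h
        · refine ⟨m2, (ZFSet.mem_inter.1 hm2).1, fun z hz => ?_⟩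
          rcases mem_union.1 (hws hz) with h3 | h3
          · exact fun u hu => h (hm1' z (ZFSet.mem_inter.2 ⟨hz, h3⟩) hu)
          · exact hm2' z (ZFSet.mem_inter.2 ⟨hz, h3⟩)
        · refine ⟨m1, (ZFSet.mem_inter.1 hm1).1, fun z hz => ?_⟩
          rcases mem_union.1 (hws hz) with h3 | h3
          · exact hm1' z (ZFSet.mem_inter.2 ⟨hz, h3⟩)
          · exact fun u hu => h (hm2' z (ZFSet.mem_inter.2 ⟨hz, h3⟩) hu)

variable {s f x : Z} (hs : IsS N s) (hx : x ∈ dl N) (hsx : ∀ y ∈ s, y ∈ x)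

include hs hx hsx

theorem isS_ins : IsS N (insert x s) :=
  isS_insert hN hs hx fun y hy => (dl_ord hN hx).subset_of_mem (hsx y hy)

/-- low pairs -/
theorem adj_low {a c : Z} (hpr : Pr N a c) (h : Adj (insert x s) a c) : c ⊆ x ∧ ¬ x ⊆ a := by
  have hcx : c ⊆ x := by
    rcases mem_insert_iff.1 h.2.1 with h1 | h1
    · rw [h1]
    · exact (dl_ord hN hx).subset_of_mem (hsx c h1)
  exact ⟨hcx, fun h2 => ZFSet.mem_irrefl _ (h2 (hcx hpr.1))⟩

/-- relevant pairs are low or high -/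
theorem rel_cases {t a c : Z} (ht : IsS N t) (hE : EE t {∅, x}) (hpr : Pr N a c)
    (hr : Rel (s ∪ t) a c) : Adj (insert x s) a c ∨ x ⊆ a := by
  have hxt := x_mem_of_EE hE
  have hxu : x ∈ s ∪ t := mem_union.2 (Or.inr hxt)
  rcases hr with ⟨ha, hc, hcons⟩ | hr
  · rcases IsOrdinal.mem_or_subset (dl_ord hN (hpr.left hN)) (dl_ord hN hx) with h | h
    · left
      have hcx : c ⊆ x := by
        rcases IsOrdinal.mem_or_subset (dl_ord hN hx) (dl_ord hN hpr.2) with h1 | h1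
        · exact absurd ⟨h, h1⟩ (hcons x hxu)
        · exact h1
      have key : ∀ z ∈ s ∪ t, z ⊆ x → z ∈ (insert x s : Z) := by
        intro z hz hzx
        rcases mem_union.1 hz with h1 | h1
        · exact mem_insert_of_mem _ h1
        · rcases tcase hE h1 with h2 | h2 | h2
          · rw [h2]; exact mem_insert_of_mem _ hs.2.2.1
          · rw [h2]; exact mem_insert _ _
          · exact absurd (hzx h2) (ZFSet.mem_irrefl _)
      refine ⟨key a ha ((dl_ord hN hx).subset_of_mem h), key c hc hcx, fun y hy => ?_⟩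
      refine hcons y ?_
      rcases mem_insert_iff.1 hy with rfl | hy
      · exact hxu
      · exact mem_union.2 (Or.inl hy)
    · exact Or.inr h
  · exact Or.inr (hr x hxu)

/-- low pairs are relevant for every end extension -/
theorem adj_rel {t r a c : Z} (hE : EE t {∅, x}) (hr : EE r (s ∪ t)) (hpr : Pr N a c)
    (h : Adj (insert x s) a c) : Rel r a c := by
  have hxt := x_mem_of_EE hE
  have hxu : x ∈ s ∪ t := mem_union.2 (Or.inr hxt)
  have hcx := (adj_low hN hs hx hsx hpr h).1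
  have key : ∀ z ∈ (insert x s : Z), z ∈ r := by
    intro z hz
    rcases mem_insert_iff.1 hz with rfl | hz
    · exact hr.1 hxu
    · exact hr.1 (mem_union.2 (Or.inl hz))
  refine Or.inl ⟨key a h.1, key c h.2.1, ?_⟩
  rintro z hz ⟨h1, h2⟩
  have hzx : z ∈ x := hcx h2
  by_cases hzu : z ∈ s ∪ t
  · rcases mem_union.1 hzu with h3 | h3
    · exact h.2.2 z (mem_insert_of_mem _ h3) ⟨h1, h2⟩
    · rcases tcase hE h3 with h4 | h4 | h4
      · rw [h4] at h1
        exact notMem_empty _ h1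
      · rw [h4] at hzx
        exact ZFSet.mem_irrefl _ hzx
      · exact ZFSet.mem_asymm h4 hzx
  · exact ZFSet.mem_asymm (hr.2 z hz hzu x hxu) hzx

/-- high relevant pairs -/
theorem high_rel {t a c : Z} (hpr : Pr N a c) (hxa : x ⊆ a) (hr : Rel (s ∪ t) a c) :
    Rel t a c := by
  rcases hr with ⟨ha, hc, hcons⟩ | hr
  · have has : a ∉ s := fun h => ZFSet.mem_irrefl _ (hxa (hsx a h))
    have hcs : c ∉ s := fun h => ZFSet.mem_asymm (hxa (hsx c h)) hpr.1
    refine Or.inl ⟨(mem_union.1 ha).resolve_left has, (mem_union.1 hc).resolve_left hcs, ?_⟩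
    exact fun z hz => hcons z (mem_union.2 (Or.inr hz))
  · exact Or.inr fun z hz => hr z (mem_union.2 (Or.inr hz))

omit hN hs hx hsx in
theorem low_rel {t : Z} (hE : EE t {∅, x}) : Rel t ∅ x := by
  refine Or.inl ⟨hE.1 (by simp), x_mem_of_EE hE, ?_⟩
  rintro z hz ⟨h1, h2⟩
  rcases tcase hE hz with h | h | h
  · rw [h] at h1; exact notMem_empty _ h1
  · rw [h] at h2; exact ZFSet.mem_irrefl _ h2
  · exact ZFSet.mem_asymm h h2

theorem pr_zero : Pr N ∅ x := ⟨hsx ∅ hs.2.2.1, hx⟩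

variable (hf : IsFp N f)

include hf

/-- the coding component has a finite domain -/
theorem dm_om {f' : Z} (hf' : IsFp N f') : dm (comp f' (pair ∅ x)) ∈ om := by
  have h := (hf'.2.2 ∅ x (pr_zero hN hs hx hsx)).1
  rwa [chp_empty] at h

theorem comp_N {f' i : Z} (hf' : f' ∈ N) (hi : i ∈ N) : comp f' i ∈ N := by
  have _i := hN.sing
  exact (T.comp (hN.toTM.cst hf') (hN.toTM.cst hi)).mem N rfl (fun _ => ∅)
    (fun _ => hN.empty_mem)

theorem lo_LQ2 {f' : Z} (hf' : IsFp N f') : LQ N (insert x s) f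
    (lo N (insert x s) f (comp f' (pair ∅ x)) (dm (comp f' (pair ∅ x)))) := by
  have hi := isS_ins hN hs hx hsx
  exact lo_LQ hN hi.1 hi.2.1 hf
    (comp_N hN hs hx hsx hf hf'.1 (hN.pair_mem hN.empty_mem (dl_N hN hx)))
    (dm_om hN hs hx hsx hf hf')

omit hN hs hx hsx hf in
theorem pc_adj {s' f' a c : Z} (h : Adj s' a c) : pc N s' f x f' (pair a c) =
    comp (lo N s' f (comp f' (pair ∅ x)) (dm (comp f' (pair ∅ x)))) (pair a c) := by
  rw [pc, cFst_pair, cSnd_pair, if_pos h]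

theorem pc_high {f' a c : Z} (hpr : Pr N a c) (h : x ⊆ a) : pc N (insert x s) f x f' (pair a c) =
    ow (comp f (pair a c)) (comp f' (pair a c)) := by
  rw [pc, cFst_pair, cSnd_pair, if_neg fun h' => (adj_low hN hs hx hsx hpr h').2 h, if_pos h]

theorem pc_isC {f' : Z} (hf' : IsFp N f') {a c : Z} (hpr : Pr N a c) :
    IsC (chp N a) (YY N c) (pc N (insert x s) f x f' (pair a c)) := by
  have haN := dl_N hN (hpr.left hN)
  by_cases h : Adj (insert x s) a c
  · rw [pc_adj h]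
    exact (lo_LQ2 hN hs hx hsx hf hf').1.2.2 a c hpr
  · by_cases h' : x ⊆ a
    · rw [pc_high hN hs hx hsx hf hpr h']
      exact IsC.ow (isOrdinal_chp hN haN) (hf.2.2 a c hpr) (hf'.2.2 a c hpr)
    · rw [pc, cFst_pair, cSnd_pair, if_neg h, if_neg h']
      exact IsC.empty (empty_mem_chp hN haN)

theorem pi_mem : gr (fun y => pair (s ∪ cFst y) (mkf N (pc N (insert x s) f x (cSnd y)))) (PP N)
    ∈ N := by
  have _i := hN.sing
  have hi := isS_ins hN hs hx hsx
  refine hN.toTM.gr_mem' (PP_mem hN) ?_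
  refine T.pair (T.union (hN.toTM.cst hs.1) T.v0.cFst) ?_
  exact T.mkf (c := fun _ i v => Ctm.pc N (insert x s) f x (cSnd (v 0)) i)
    (T.pc hN hi.1 hf.1 (dl_N hN hx) (t := fun _ v => cSnd (v 1)) (u := fun _ v => v 0)
      T.v1.cSnd T.v0)

theorem mkf_pc_Fp {f' : Z} (hf' : IsFp N f') : IsFp N (mkf N (pc N (insert x s) f x f')) := by
  have _i := hN.sing
  have hi := isS_ins hN hs hx hsx
  refine isFp_mkf hN ?_ fun a c hpr => pc_isC hN hs hx hsx hf hf' hpr
  exact (T.mkf (c := fun _ i _ => Ctm.pc N (insert x s) f x f' i)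
    (T.pc hN hi.1 hf.1 (dl_N hN hx) (t := fun _ _ => f') (u := fun _ v => v 0)
      (hN.toTM.cst hf'.1) T.v0)).mem N rfl (fun _ => ∅) (fun _ => hN.empty_mem)

theorem comp_mkf_pc {f' : Z} (hf' : IsFp N f') {a c : Z} (hpr : Pr N a c) :
    comp (mkf N (pc N (insert x s) f x f')) (pair a c) = pc N (insert x s) f x f' (pair a c) :=
  comp_mkf hN hpr (pc_isC hN hs hx hsx hf hf' hpr)

/-- the projected condition is below the given one -/
theorem pi_le {t f' : Z} (ht : IsS N t) (hf' : IsFp N f') (hE : EE t {∅, x}) :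
    Le (PP N) (LL N) (pair (s ∪ t) (mkf N (pc N (insert x s) f x f'))) (pair s f) := by
  refine le_PP.2 ⟨⟨isS_union hN hs ht, mkf_pc_Fp hN hs hx hsx hf hf'⟩, ⟨hs, hf⟩, ⟨?_, ?_⟩, ?_⟩
  · exact fun z hz => mem_union.2 (Or.inl hz)
  · intro z hz hzs y hy
    rcases tcase hE ((mem_union.1 hz).resolve_left hzs) with h | h | h
    · exact absurd (h ▸ hs.2.2.1) hzs
    · rw [h]; exact hsx y hy
    · exact (dl_ord hN (ht.2.1 ((mem_union.1 hz).resolve_left hzs))).mem_trans (hsx y hy) h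
  · intro a c hpr hr
    rw [comp_mkf_pc hN hs hx hsx hf hf' hpr]
    rcases rel_cases hN hs hx hsx ht hE hpr hr with h | h
    · rw [pc_adj h]
      exact (lo_LQ2 hN hs hx hsx hf hf').2.2 a c hpr h
    · rw [pc_high hN hs hx hsx hf hpr h]
      exact Ex.ow_left (hf.2.2 a c hpr) _

/-- the projection is monotone -/
theorem pi_mono {t1 f1 t2 f2 : Z} (ht1 : IsS N t1) (hf1 : IsFp N f1) (ht2 : IsS N t2)
    (hf2 : IsFp N f2) (hle : LeP N t1 f1 t2 f2) (hE : EE t2 {∅, x}) :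
    Le (PP N) (LL N) (pair (s ∪ t1) (mkf N (pc N (insert x s) f x f1)))
      (pair (s ∪ t2) (mkf N (pc N (insert x s) f x f2))) := by
  have hE1 : EE t1 {∅, x} := EE.trans hle.1 hE
  have hi := isS_ins hN hs hx hsx
  have hxt2 := x_mem_of_EE hE
  refine le_PP.2 ⟨⟨isS_union hN hs ht1, mkf_pc_Fp hN hs hx hsx hf hf1⟩,
    ⟨isS_union hN hs ht2, mkf_pc_Fp hN hs hx hsx hf hf2⟩, ⟨?_, ?_⟩, ?_⟩
  · intro z hz
    rcases mem_union.1 hz with h | h
    · exact mem_union.2 (Or.inl h)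
    · exact mem_union.2 (Or.inr (hle.1.1 h))
  · intro z hz hzu y hy
    have hz1 : z ∈ t1 := (mem_union.1 hz).resolve_left fun h => hzu (mem_union.2 (Or.inl h))
    have hz2 : z ∉ t2 := fun h => hzu (mem_union.2 (Or.inr h))
    rcases mem_union.1 hy with h | h
    · exact (dl_ord hN (ht1.2.1 hz1)).mem_trans (hsx y h) (hle.1.2 z hz1 hz2 x hxt2)
    · exact hle.1.2 z hz1 hz2 y h
  · intro a c hpr hr
    rw [comp_mkf_pc hN hs hx hsx hf hf1 hpr, comp_mkf_pc hN hs hx hsx hf hf2 hpr]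
    rcases rel_cases hN hs hx hsx ht1 hE1 hpr hr with h | h
    · rw [pc_adj h, pc_adj h]
      have hex : Ex (comp f1 (pair ∅ x)) (comp f2 (pair ∅ x)) :=
        hle.2 ∅ x (pr_zero hN hs hx hsx) (low_rel hE1)
      have hpN := hN.pair_mem hN.empty_mem (dl_N hN hx)
      have hc1 := comp_N hN hs hx hsx hf hf1.1 hpN
      have hc2 := comp_N hN hs hx hsx hf hf2.1 hpN
      have h1 := dm_om hN hs hx hsx hf hf1
      have h2 := dm_om hN hs hx hsx hf hf2
      rw [← lo_congr hN hi.1 hi.2.1 hf hc2 hc1 h2 fun j hj => hex.comp_eq hj]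
      exact lo_mono hN hi.1 hi.2.1 hf hc1 h2 h1 (dm_mono hex.1) a c hpr h
    · rw [pc_high hN hs hx hsx hf hpr h, pc_high hN hs hx hsx hf hpr h]
      exact Ex.ow_mono (hf.2.2 a c hpr) (hf2.2.2 a c hpr) (hf1.2.2 a c hpr)
        (hle.2 a c hpr (high_rel hN hs hx hsx hpr h hr))

/-! ### lifting -/

omit hN hs hx hsx hf in
/-- the extended coding component -/
theorem ext_comp {c0 l Y : Z} (h0 : IsC om Y c0) (hl : ∀ z ∈ l, ({z} : Z) ∈ Y) (hY : ∅ ∈ Y) :
    let c0' := c0 ∪ img (fun u => pair (dm c0) u) (cdd l)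
    Ex c0' c0 ∧ IsC om Y c0' ∧ dm c0' = insert (dm c0) (dm c0) ∧
      (∀ j ∈ dm c0, comp c0' j = comp c0 j) ∧ comp c0' (dm c0) = cdd l := by
  intro c0'
  have hmem : ∀ m u, pair m u ∈ c0' ↔ pair m u ∈ c0 ∨ (m = dm c0 ∧ u ∈ cdd l) := by
    intro m u
    rw [mem_union, mem_img]
    refine or_congr Iff.rfl ?_
    constructor
    · rintro ⟨u', hu', h⟩
      obtain ⟨h1, h2⟩ := pair_inj.1 h
      exact ⟨h1, h2 ▸ hu'⟩
    · rintro ⟨rfl, h⟩
      exact ⟨u, h, rfl⟩
  have hc : ∅ ∈ cdd l := by rw [cdd]; exact mem_insert _ _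
  have hcY : ∀ u ∈ cdd l, u ∈ Y := by
    intro u hu
    rw [cdd, mem_insert_iff, mem_img] at hu
    rcases hu with rfl | ⟨z, hz, rfl⟩
    · exact hY
    · exact hl z hz
  have hn : ∀ u, pair (dm c0) u ∉ c0 := by
    intro u hu
    exact ZFSet.mem_irrefl _ (pair_mem_prod.1 (h0.2 hu)).1
  have hdm : dm c0' = insert (dm c0) (dm c0) := by
    ext m
    rw [mem_dm, hmem, mem_insert_iff, mem_dm]
    constructor
    · rintro (h | h)
      · exact Or.inr h
      · exact Or.inl h.1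
    · rintro (h | h)
      · exact Or.inr ⟨h, hc⟩
      · exact Or.inl h
  refine ⟨⟨fun z hz => mem_union.2 (Or.inl hz), ?_⟩, ⟨?_, ?_⟩, hdm, ?_, ?_⟩
  · intro m hm y hy
    rcases (hmem m y).1 hy with h | h
    · exact h
    · rw [h.1] at hm
      exact absurd hm (ZFSet.mem_irrefl _)
  · rw [hdm]; exact succ_mem_om h0.1
  · intro z hz
    rcases mem_union.1 hz with h | h
    · obtain ⟨m, hm, y, hy, rfl⟩ := mem_prod.1 (h0.2 h)
      rw [hdm]
      exact pair_mem_prod.2 ⟨mem_insert_of_mem _ hm, hy⟩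
    · obtain ⟨u, hu, rfl⟩ := mem_img.1 h
      rw [hdm]
      exact pair_mem_prod.2 ⟨mem_insert _ _, hcY u hu⟩
  · intro j hj
    ext z
    rw [mem_comp, mem_comp, hmem]
    refine or_iff_left ?_
    rintro ⟨rfl, -⟩
    exact ZFSet.mem_irrefl _ hj
  · ext z
    rw [mem_comp, hmem]
    exact ⟨fun h => (h.resolve_left (hn z)).2, fun h => Or.inr ⟨rfl, h⟩⟩

omit hN hs hx hsx hf in
theorem mem_lo0 {s' g u : Z} : u ∈ lo0 N s' g ↔ u ∈ g ∧ ∃ i z, u = pair i z ∧
    ∃ a c, i = pair a c ∧ (Pr N a c ∧ Adj s' a c) := by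
  rw [lo0, mem_sep]

omit hN hs hx hsx hf in
theorem comp_lo0 {s' g a c : Z} (hpr : Pr N a c) (h : Adj s' a c) :
    comp (lo0 N s' g) (pair a c) = comp g (pair a c) := by
  ext z
  rw [mem_comp, mem_comp, mem_lo0]
  exact ⟨fun h => h.1, fun h' => ⟨h', _, _, rfl, _, _, rfl, hpr, h⟩⟩

omit hs hx hsx hf in
theorem lo0_mem {s' g : Z} (hs' : s' ∈ N) (hg : g ∈ N) : lo0 N s' g ∈ N := by
  have _i := hN.sing
  refine hN.toTM.sep_memD hg (R := fun u => ∃ i z, u = pair i z ∧ ∃ a c, i = pair a c ∧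
    (Pr N a c ∧ Adj s' a c)) ?_
  refine D.expair (R := fun _ i _ _ => ∃ a c, i = pair a c ∧ (Pr N a c ∧ Adj s' a c)) T.v0 ?_
  refine D.expair (R := fun _ a c _ => Pr N a c ∧ Adj s' a c) T.v1 ?_
  exact (D.pr T.v1 T.v0).and (D.adjA (hN.toTM.cst hs') T.v1 T.v0)

omit hs hx hsx hf in
theorem lo0_Fp {s' g : Z} (hs' : s' ∈ N) (hg : IsFp N g) : IsFp N (lo0 N s' g) := by
  refine ⟨lo0_mem hN hs' hg.1, fun u hu => hg.2.1 (mem_lo0.1 hu).1, fun a c hpr => ?_⟩
  by_cases h : Adj s' a c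
  · rw [comp_lo0 hpr h]; exact hg.2.2 a c hpr
  · have : comp (lo0 N s' g) (pair a c) = ∅ := by
      rw [ZFSet.eq_empty]
      intro z hz
      obtain ⟨_, i, z', h1, a', c', rfl, _, h2⟩ := mem_lo0.1 (mem_comp.1 hz)
      obtain ⟨rfl, rfl⟩ := pair_inj.1 (pair_inj.1 h1).1
      exact h h2
    rw [this]
    exact IsC.empty (empty_mem_chp hN (dl_N hN (hpr.left hN)))

/-- lifting an extension of the projected condition -/
theorem pi_lift {t f' tr fr : Z} (ht : IsS N t) (hf' : IsFp N f') (hE : EE t {∅, x})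
    (htr : IsS N tr) (hfr : IsFp N fr)
    (hle : LeP N tr fr (s ∪ t) (mkf N (pc N (insert x s) f x f'))) :
    ∃ t' f'', IsS N t' ∧ IsFp N f'' ∧ LeP N t' f'' t f' ∧
      Le (PP N) (LL N) (pair (s ∪ t') (mkf N (pc N (insert x s) f x f''))) (pair tr fr) := by
  have _i := hN.sing
  have hi := isS_ins hN hs hx hsx
  have hxN := dl_N hN hx
  have hxo := dl_ord hN hx
  have hxt := x_mem_of_EE hE
  have hxu : x ∈ s ∪ t := mem_union.2 (Or.inr hxt)
  have hpN := hN.pair_mem hN.empty_mem hxN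
  have hp0 := pr_zero hN hs hx hsx
  -- the low part
  have hlFp := lo0_Fp hN hi.1 hfr
  have hlo := lo_LQ2 hN hs hx hsx hf hf'
  have hex : ∀ a c, Pr N a c → Adj (insert x s) a c → Ex (comp (lo0 N (insert x s) fr) (pair a c))
      (comp (lo N (insert x s) f (comp f' (pair ∅ x)) (dm (comp f' (pair ∅ x))))
        (pair a c)) := by
    intro a c hpr h
    rw [comp_lo0 hpr h]
    have h1 := hle.2 a c hpr (adj_rel hN hs hx hsx hE hle.1 hpr h)
    rwa [comp_mkf_pc hN hs hx hsx hf hf' hpr, pc_adj h] at h1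
  have hlLQ : LQ N (insert x s) f (lo0 N (insert x s) fr) := by
    refine ⟨hlFp, ?_, fun a c hpr h => (hex a c hpr h).trans (hlo.2.2 a c hpr h)⟩
    intro u hu
    obtain ⟨_, i, z, rfl, a, c, rfl, h1, h2⟩ := mem_lo0.1 hu
    exact ⟨a, c, z, rfl, h1, h2⟩
  have hlY : ∀ z ∈ lo0 N (insert x s) fr, ({z} : Z) ∈ YY N x := by
    intro u hu
    obtain ⟨hu', i, z, rfl, a, c, rfl, h1, h2⟩ := mem_lo0.1 hu
    refine YY_singleton hN hxN ?_
    have hcN := dl_N hN h1.2
    refine YY_mono hN hcN hxN (adj_low hN hs hx hsx h1 h2).1 (elem_mem_YY hN h1 ?_)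
    exact (hfr.2.2 a c h1).sub hN (dl_N hN (h1.left hN)) (mem_comp.2 hu')
  have h0 : IsC om (YY N x) (comp f' (pair ∅ x)) := by
    have := hf'.2.2 ∅ x hp0
    rwa [chp_empty] at this
  obtain ⟨e1, e2, e3, e4, e5⟩ := ext_comp h0 hlY (empty_mem_YY hN hxN)
  set c0 := comp f' (pair ∅ x) with hc0
  set c0' := c0 ∪ img (fun u => pair (dm c0) u) (cdd (lo0 N (insert x s) fr)) with hc0'
  have hc0N : c0 ∈ N := comp_N hN hs hx hsx hf hf'.1 hpN
  have hc0N' : c0' ∈ N := by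
    refine hN.union_mem hc0N (hN.toTM.img_mem' ?_ ?_)
    · exact (T.cdd (hN.toTM.cst hlFp.1)).mem N rfl (fun _ => ∅) (fun _ => hN.empty_mem)
    · exact T.pair (T.dm (hN.toTM.cst hc0N)) T.v0
  have hstep : lo N (insert x s) f c0' (dm c0') = lo0 N (insert x s) fr := by
    rw [e3]
    exact lo_step hN hi.1 hi.2.1 hf hc0N hc0N' h0.1 e4 hlLQ hex e5
  -- the new second component
  have hlcC : ∀ a c, Pr N a c → IsC (chp N a) (YY N c) (lc x c0' f' fr (pair a c)) := by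
    intro a c hpr
    rw [lc, cFst_pair]
    split_ifs with h1 h2
    · obtain ⟨rfl, rfl⟩ := pair_inj.1 h1
      rw [chp_empty]; exact e2
    · exact IsC.ow (isOrdinal_chp hN (dl_N hN (hpr.left hN))) (hf'.2.2 a c hpr)
        (hfr.2.2 a c hpr)
    · exact hf'.2.2 a c hpr
  have hf2 : IsFp N (mkf N (lc x c0' f' fr)) := by
    refine isFp_mkf hN ?_ hlcC
    exact (T.mkf (c := fun _ i _ => Ctm.lc x c0' f' fr i)
      (T.lc hN hxN hc0N' hf'.1 hfr.1 (u := fun _ v => v 0) T.v0)).mem N rfl (fun _ => ∅)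
        (fun _ => hN.empty_mem)
  have hcomp : ∀ a c, Pr N a c → comp (mkf N (lc x c0' f' fr)) (pair a c) =
      lc x c0' f' fr (pair a c) := fun a c hpr => comp_mkf hN hpr (hlcC a c hpr)
  have hx0 : x ≠ ∅ := by
    rintro rfl
    exact notMem_empty _ (hsx ∅ hs.2.2.1)
  have hlc_high : ∀ a c, x ⊆ a → lc x c0' f' fr (pair a c) =
      ow (comp f' (pair a c)) (comp fr (pair a c)) := by
    intro a c hxa
    rw [lc, cFst_pair, if_neg, if_pos hxa]
    intro h
    rw [(pair_inj.1 h).1] at hxa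
    apply hx0
    rw [ZFSet.eq_empty]
    exact fun y hy => notMem_empty _ (hxa hy)
  -- the new first component
  set t' := insert ∅ (ZFSet.sep (fun z => x ⊆ z) tr) with ht'
  have hmem : ∀ z, z ∈ t' ↔ z = ∅ ∨ (z ∈ tr ∧ x ⊆ z) := by
    intro z
    rw [ht', mem_insert_iff, mem_sep]
  have hsub : t' ⊆ tr := by
    intro z hz
    rcases (hmem z).1 hz with rfl | h
    · exact htr.2.2.1
    · exact h.1
  have ht'S : IsS N t' := by
    refine ⟨?_, fun z hz => htr.2.1 (hsub hz), (hmem _).2 (Or.inl rfl), ?_⟩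
    · refine hN.insert_mem hN.empty_mem (hN.toTM.sep_memD htr.1 (R := fun z => x ⊆ z) ?_)
      exact D.subset (hN.toTM.cst hxN) T.v0
    · exact fun w hw hwt hne => htr.2.2.2 w hw (fun z hz => hsub (hwt hz)) hne
  have habove : ∀ z ∈ tr, z ∉ s ∪ t → x ∈ z := fun z hz hzu => hle.1.2 z hz hzu x hxu
  have hst' : s ∪ t' = tr := by
    ext z
    rw [mem_union]
    constructor
    · rintro (h | h)
      · exact hle.1.1 (mem_union.2 (Or.inl h))
      · exact hsub h
    · intro h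
      by_cases hzu : z ∈ s ∪ t
      · rcases mem_union.1 hzu with h1 | h1
        · exact Or.inl h1
        · rcases tcase hE h1 with h2 | h2 | h2
          · exact Or.inr ((hmem z).2 (Or.inl h2))
          · exact Or.inr ((hmem z).2 (Or.inr ⟨h, h2 ▸ fun _ h => h⟩))
          · exact Or.inr ((hmem z).2 (Or.inr ⟨h, (dl_ord hN (htr.2.1 h)).subset_of_mem h2⟩))
      · exact Or.inr ((hmem z).2 (Or.inr ⟨h,
          (dl_ord hN (htr.2.1 h)).subset_of_mem (habove z h hzu)⟩))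
  have hEt : EE t' t := by
    constructor
    · intro z hz
      have hztr : z ∈ tr := hle.1.1 (mem_union.2 (Or.inr hz))
      rcases tcase hE hz with h2 | h2 | h2
      · exact (hmem z).2 (Or.inl h2)
      · exact (hmem z).2 (Or.inr ⟨hztr, h2 ▸ fun _ h => h⟩)
      · exact (hmem z).2 (Or.inr ⟨hztr, (dl_ord hN (htr.2.1 hztr)).subset_of_mem h2⟩)
    · intro z hz hzt y hy
      rcases (hmem z).1 hz with rfl | ⟨h1, h2⟩
      · exact absurd ht.2.2.1 hzt
      · have hzs : z ∉ s := fun h => ZFSet.mem_irrefl _ (h2 (hsx z h))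
        refine hle.1.2 z h1 (fun h => ?_) y (mem_union.2 (Or.inr hy))
        rcases mem_union.1 h with h | h
        · exact hzs h
        · exact hzt h
  refine ⟨t', mkf N (lc x c0' f' fr), ht'S, hf2, ⟨hEt, ?_⟩, ?_⟩
  · intro a c hpr _
    rw [hcomp a c hpr]
    by_cases h1 : pair a c = pair ∅ x
    · obtain ⟨rfl, rfl⟩ := pair_inj.1 h1
      rw [lc, if_pos rfl]
      exact e1
    · by_cases h2 : x ⊆ a
      · rw [hlc_high a c h2]
        exact Ex.ow_left (hf'.2.2 a c hpr) _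
      · rw [lc, cFst_pair, if_neg h1, if_neg h2]
        exact Ex.refl _
  · have hE' : EE t' {∅, x} := EE.trans hEt hE
    refine le_PP.2 ⟨⟨isS_union hN hs ht'S, mkf_pc_Fp hN hs hx hsx hf hf2⟩, ⟨htr, hfr⟩, ⟨?_, ?_⟩⟩
    · rw [hst']; exact EE.refl tr
    · intro a c hpr hr
      rw [comp_mkf_pc hN hs hx hsx hf hf2 hpr]
      rcases rel_cases hN hs hx hsx ht'S hE' hpr hr with h | h
      · rw [pc_adj h, hcomp ∅ x hp0]
        have : lc x c0' f' fr (pair ∅ x) = c0' := by rw [lc, if_pos rfl]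
        rw [this, hstep, comp_lo0 hpr h]
        exact Ex.refl _
      · rw [pc_high hN hs hx hsx hf hpr h, hcomp a c hpr, hlc_high a c h]
        rw [hst'] at hr
        have h1 := hle.2 a c hpr hr
        rw [comp_mkf_pc hN hs hx hsx hf hf' hpr, pc_high hN hs hx hsx hf hpr h] at h1
        rw [ow_lift (isOrdinal_chp hN (dl_N hN (hpr.left hN))) (hf.2.2 a c hpr)
          (hf'.2.2 a c hpr) (hfr.2.2 a c hpr) h1]
        exact Ex.refl _

end Comb

/-- Every extension by a filter containing `({0, x}, ∅)` includes an extension by a filter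
containing the given condition `(s, f)`, if all elements of `s` are less than `x`. -/
theorem absorb {N : Set Z} (hN : TC N) {s f : Z} (hp : pair s f ∈ PP N) {x : Z}
    (hx : x ∈ dl N) (hsx : ∀ y ∈ s, y ∈ x) {G : Set Z} (hG : Gen N (PP N) (LL N) G)
    (hq : pair {∅, x} ∅ ∈ G) :
    ∃ H, Gen N (PP N) (LL N) H ∧ pair s f ∈ H ∧ NG N H ⊆ NG N G := by
  obtain ⟨hs, hf⟩ := mem_PP.1 hp
  have hap : ∀ t f', pair t f' ∈ PP N → ap (gr (fun y => pair (s ∪ cFst y)
      (mkf N (pc N (insert x s) f x (cSnd y)))) (PP N)) (pair t f') =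
      pair (s ∪ t) (mkf N (pc N (insert x s) f x f')) := by
    intro t f' h
    rw [ap_gr h, cFst_pair, cSnd_pair]
  refine proj_gen hN.toTM (PO_PP hN) hp (hG.sub _ hq) (pi_mem hN hs hx hsx hf) ?_ ?_ ?_ hG hq
  · intro y hy
    obtain ⟨t, f', rfl, ht, hf'⟩ := exists_of_mem_PP hy.1
    rw [hap t f' hy.1]
    exact pi_le hN hs hx hsx hf ht hf' (le_PP.1 hy).2.2.1
  · intro y1 y2 hy hy2
    obtain ⟨t1, f1, rfl, ht1, hf1⟩ := exists_of_mem_PP hy.1
    obtain ⟨t2, f2, rfl, ht2, hf2⟩ := exists_of_mem_PP hy.2.1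
    rw [hap t1 f1 hy.1, hap t2 f2 hy.2.1]
    exact pi_mono hN hs hx hsx hf ht1 hf1 ht2 hf2 (le_PP.1 hy).2.2 (le_PP.1 hy2).2.2.1
  · intro y r hy hr
    obtain ⟨t, f', rfl, ht, hf'⟩ := exists_of_mem_PP hy.1
    obtain ⟨tr, fr, rfl, htr, hfr⟩ := exists_of_mem_PP hr.1
    rw [hap t f' hy.1] at hr
    obtain ⟨t', f'', h1, h2, h3, h4⟩ := pi_lift hN hs hx hsx hf ht hf' (le_PP.1 hy).2.2.1 htr hfr
      (le_PP.1 hr).2.2
    have h5 : pair t' f'' ∈ PP N := mem_PP.2 ⟨h1, h2⟩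
    refine ⟨pair t' f'', le_PP.2 ⟨⟨h1, h2⟩, ⟨ht, hf'⟩, h3⟩, ?_⟩
    rw [hap t' f'' h5]
    exact h4

end Pool.Agent.Lib.Ctm
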