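import Pool.Agent.Lib.Ctm.GenS

/-!
# Collapsing between consecutive elements of the generic sequence
-/

namespace Pool.Agent.Lib.Ctm

open Pool.Agent.Lib.Forcing ZFSet

/-- `c` decides the value `X` at the argument `m` -/
def CDec (N : Set Z) (X c m : Z) : Prop :=
  m ∈ dm c ∧ ∀ y ∈ N, pair m y ∈ c ↔ (y = ∅ ∨ ∃ z ∈ X, y = {z})

/-- the component with a new value `X` at the argument `dm c` -/
noncomputable def cnew (X c : Z) : Z :=
  c ∪ ZFSet.prod {dm c} (insert ∅ (img (fun z => {z}) X))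

theorem mem_cnew {X c m y : Z} :
    pair m y ∈ cnew X c ↔ pair m y ∈ c ∨ (m = dm c ∧ (y = ∅ ∨ ∃ z ∈ X, y = {z})) := by
  rw [cnew, mem_union, pair_mem_prod, mem_singleton, mem_insert_iff, mem_img]

theorem mem_dm_cnew {X c m : Z} : m ∈ dm (cnew X c) ↔ m ∈ dm c ∨ m = dm c := by
  rw [mem_dm, mem_cnew, mem_dm]
  simp

theorem dm_cnew (X c : Z) : dm (cnew X c) = insert (dm c) (dm c) := by
  ext m
  rw [mem_dm_cnew, mem_insert_iff, or_comm]

theorem isC_cnew {N : Set Z} (hN : TC N) {a b X c : Z} (ha : a ∈ N) (hb : b ∈ N)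
    (hX : X ⊆ YY N b) (hc : IsC (chp N a) (YY N b) c) : IsC (chp N a) (YY N b) (cnew X c) := by
  refine ⟨?_, ?_⟩
  · rw [dm_cnew]
    exact chp_limit hN ha _ hc.1
  · intro u hu
    rw [cnew, mem_union] at hu
    rw [dm_cnew]
    rcases hu with hu | hu
    · obtain ⟨m, hm, y, hy, rfl⟩ := mem_prod.1 (hc.2 hu)
      exact pair_mem_prod.2 ⟨mem_insert_of_mem _ hm, hy⟩
    · obtain ⟨m, hm, y, hy, rfl⟩ := mem_prod.1 hu
      rw [mem_singleton] at hm
      refine pair_mem_prod.2 ⟨by rw [hm]; exact mem_insert _ _, ?_⟩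
      rcases mem_insert_iff.1 hy with rfl | hy
      · exact empty_mem_YY hN hb
      · obtain ⟨z, hz, rfl⟩ := mem_img.1 hy
        exact YY_singleton hN hb (hX hz)

theorem ex_cnew (X c : Z) : Ex (cnew X c) c := by
  refine ⟨fun u hu => mem_union.2 (Or.inl hu), fun m hm y hy => ?_⟩
  rcases mem_cnew.1 hy with h | ⟨h, _⟩
  · exact h
  · rw [h] at hm
    exact absurd hm (ZFSet.mem_irrefl _)

theorem cdec_cnew {N : Set Z} (X : Z) {c : Z} (hc : ∀ y, pair (dm c) y ∉ c) :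
    CDec N X (cnew X c) (dm c) := by
  refine ⟨mem_dm_cnew.2 (Or.inr rfl), fun y _ => ?_⟩
  rw [mem_cnew]
  constructor
  · rintro (h | h)
    · exact absurd h (hc y)
    · exact h.2
  · exact fun h => Or.inr ⟨rfl, h⟩

protected theorem T.cnew {K : Set (Set Z)} [MK K] {s t : Set Z → (ℕ → Z) → Z} (hs : T K s)
    (ht : T K t) : T K (fun M v => Ctm.cnew (s M v) (t M v)) :=
  T.union ht (T.prod ht.dm.singleton (T.insert T.empty
    (T.img (f := fun _ z _ => {z}) hs T.v0.singleton)))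

protected theorem D.cdec {N : Set Z} [MK ({N} : Set (Set Z))] {s t u : Set Z → (ℕ → Z) → Z}
    (hs : T {N} s) (ht : T {N} t) (hu : T {N} u) :
    D {N} (fun M v => CDec N (s M v) (t M v) (u M v)) := by
  have h : D {N} (fun M v => u M v ∈ Ctm.dm (t M v) ∧ ∀ y ∈ M, ZFSet.pair (u M v) y ∈ t M v ↔
      (y = ∅ ∨ ∃ z ∈ s M v, y = {z})) := by
    refine (D.mem hu ht.dm).and ?_
    refine D.all (R := fun M y v => ZFSet.pair (u M v) y ∈ t M v ↔
      (y = ∅ ∨ ∃ z ∈ s M v, y = {z})) ?_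
    refine (D.mem (T.pair hu.tail T.v0) ht.tail).iff ((D.eq T.v0 T.empty).or ?_)
    exact D.bex (R := fun _ z v => v 0 = {z}) hs.tail (D.eq T.v1 T.v0.singleton)
  refine h.congr ?_
  rintro M hM v hv
  have := Set.mem_singleton_iff.1 hM
  subst this
  rfl

/-- density of the conditions which give the value `X` to some argument of the component `(a, b)` -/
theorem exists_cdec {N : Set Z} (hN : TC N) {a b s f X : Z} (hab : Pr N a b)
    (hf : IsFp N f) (hX : X ∈ XX N b) : ∃ f', IsFp N f' ∧ LeP N s f' s f ∧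
      ∃ m, CDec N X (comp f' (pair a b)) m := by
  classical
  have _i := hN.sing
  have hbN := dl_N hN hab.2
  have haN := dl_N hN (hab.left hN)
  obtain ⟨hXN, hXY⟩ := mem_pw.1 hX
  set c : Z → Z := fun i => if i = pair a b then cnew X (comp f i) else comp f i with hcdef
  have hcT : T {N} (fun _ v => c (v 0)) := by
    exact T.ite (R := fun _ v => v 0 = ZFSet.pair a b) (D.eq T.v0 (T.pair (hN.toTM.cst haN)
      (hN.toTM.cst hbN))) (T.cnew (hN.toTM.cst hXN) (T.comp (hN.toTM.cst hf.1) T.v0))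
      (T.comp (hN.toTM.cst hf.1) T.v0)
  have hmN : mkf N c ∈ N :=
    (T.mkf (c := fun _ i _ => c i) hcT).mem N rfl (fun _ => ∅) (fun _ => hN.empty_mem)
  have hcC : ∀ a' b', Pr N a' b' → IsC (chp N a') (YY N b') (c (pair a' b')) := by
    intro a' b' h'
    simp only [hcdef]
    split
    · rename_i he
      obtain ⟨rfl, rfl⟩ := pair_inj.1 he
      exact isC_cnew hN haN hbN hXY (hf.2.2 _ _ hab)
    · exact hf.2.2 _ _ h'
  refine ⟨mkf N c, isFp_mkf hN hmN hcC, ⟨EE.refl s, ?_⟩, dm (comp f (pair a b)), ?_⟩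
  · intro a' b' h' _
    rw [comp_mkf hN h' (hcC _ _ h')]
    simp only [hcdef]
    split
    · exact ex_cnew _ _
    · exact Ex.refl _
  · rw [comp_mkf hN hab (hcC _ _ hab)]
    simp only [hcdef, if_true]
    refine cdec_cnew X fun y hy => ?_
    exact ZFSet.mem_irrefl _ (pair_mem_prod.1 ((hf.2.2 a b hab).2 hy)).1

/-- `X(b)` is covered by `χ'(a)` in the extension when `a`, `b` are consecutive elements of the
generic sequence -/
theorem collapse {N : Set Z} (hN : TC N) {G : Set Z} (hG : Gen N (PP N) (LL N) G) {a b : Z}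
    (h : Nx G a b) : Cov (NG N G) (chp N a) (XX N b) := by
  have _i := hN.sing
  have hab := h.pr hG
  have hbN := dl_N hN hab.2
  have haN := dl_N hN (hab.left hN)
  obtain ⟨s1, f1, h1, hb1⟩ := h.2.1
  have ho : topc ∈ G := Gen.top_mem (PO_PP hN) hG h1
  have hNG : TM (NG N G) := NG_tm hN.toTM (PO_PP hN) hG ho
  have _j := hNG.sing
  have hsub : N ⊆ NG N G := N_sub_NG hN.toTM (PO_PP hN) ho
  -- the generic object at `(a, b)`
  set g := val G (gset (PP N) topc) with hg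
  have hgN : g ∈ NG N G := gset_mem hN.toTM (PO_PP hN)
  have hgm : ∀ z, z ∈ g ↔ z ∈ G := fun z => mem_val_gset hG ho
  set F := ZFSet.sep (fun u => ∃ s f, pair s f ∈ g ∧ pair (pair a b) u ∈ f)
    (ZFSet.prod (chp N a) (YY N b)) with hF
  have hFm : F ∈ NG N G := by
    refine hNG.sep_memD (hNG.prod_mem (hsub (chp_mem hN haN)) (hsub (YY_mem hN hbN))) ?_
    refine D.exp (R := fun _ _ f v => ZFSet.pair (ZFSet.pair a b) (v 0) ∈ f) (hNG.cst hgN) ?_
    exact D.mem (T.pair (T.pair (hNG.cst (hsub haN)) (hNG.cst (hsub hbN))) T.v2) T.v1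
  set hf : Z → Z := fun m => ZFSet.sep (fun z => pair m {z} ∈ F) (YY N b) with hhf
  have hfm : gr hf (chp N a) ∈ NG N G := by
    refine hNG.gr_mem' (hsub (chp_mem hN haN)) ?_
    refine T.sep (R := fun _ z v => ZFSet.pair (v 0) {z} ∈ F) (hNG.cst (hsub (YY_mem hN hbN))) ?_
    exact D.mem (T.pair T.v1 T.v0.singleton) (hNG.cst hFm)
  refine Cov.of_gr hfm fun X hX => ?_
  obtain ⟨hXN, hXY⟩ := mem_pw.1 hX
  -- genericity
  obtain ⟨r, hr, -, s, f, rfl, m, hm⟩ := Gen.belowD hN.toTM (PO_PP hN) hG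
    (R := fun q => ∃ s f, q = pair s f ∧ ∃ m, CDec N X (comp f (pair a b)) m) (by
      refine hN.toTM.sep_memD (PP_mem hN)
        (R := fun q => ∃ s f, q = pair s f ∧ ∃ m, CDec N X (comp f (pair a b)) m) ?_
      have h2 : D {N} (fun _ v => ∃ s f, v 0 = ZFSet.pair s f ∧
          ∃ m ∈ Ctm.dm (Ctm.comp f (ZFSet.pair a b)), CDec N X (Ctm.comp f (ZFSet.pair a b)) m) := by
        refine D.expair (R := fun _ s f _ => ∃ m ∈ Ctm.dm (Ctm.comp f (ZFSet.pair a b)),
          CDec N X (Ctm.comp f (ZFSet.pair a b)) m) T.v0 ?_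
        have hpc : T {N} (fun _ _ => ZFSet.pair a b) :=
          T.pair (hN.toTM.cst haN) (hN.toTM.cst hbN)
        refine D.bex (R := fun _ m v => CDec N X (Ctm.comp (v 0) (ZFSet.pair a b)) m)
          (T.dm (T.comp T.v0 hpc)) ?_
        exact D.cdec (hN.toTM.cst hXN) (T.comp T.v1 hpc) T.v0
      refine h2.congr fun M _ v _ => ?_
      refine exists_congr fun s => exists_congr fun f => and_congr_right fun _ => ?_
      exact exists_congr fun m => ⟨fun h => ⟨h.1, h⟩, fun h => h.2⟩)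
    h1 (by
      intro q hq
      obtain ⟨s, f, rfl, hs, hf'⟩ := exists_of_mem_PP hq.1
      obtain ⟨f', hf1, hf2, hf3⟩ := exists_cdec hN (s := s) hab hf' hX
      exact ⟨pair s f', le_PP.2 ⟨⟨hs, hf1⟩, ⟨hs, hf'⟩, hf2⟩, s, f', rfl, hf3⟩)
  have hC := (hG.isFp hr).2.2 a b hab
  refine ⟨m, (isOrdinal_chp hN haN).mem_trans hm.1 hC.1, ?_⟩
  ext z
  simp only [hhf]
  rw [mem_sep, hF, mem_sep]
  constructor
  · rintro ⟨hz, -, s', f', h3, h4⟩
    rw [hgm] at h3
    obtain ⟨s'', f'', h5, h6, h7⟩ := hG.dir2 hr h3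
    have hrel := h.rel hN hG h5
    have h8 := (h7.2 a b hab hrel).1 (mem_comp.2 h4)
    have h9 := (h6.2 a b hab hrel).2 m hm.1 _ h8
    rcases (hm.2 {z} (hN.singleton_mem (hN.trans _ (YY_mem hN hbN) _ hz))).1 h9 with h10 | ⟨z', hz', h10⟩
    · exact absurd (h10 ▸ mem_singleton.2 rfl : z ∈ (∅ : Z)) (notMem_empty _)
    · rw [ZFSet.singleton_injective h10]
      exact hz'
  · intro hz
    have hzY := hXY hz
    have h3 : pair m {z} ∈ comp f (pair a b) :=
      (hm.2 {z} (hN.singleton_mem (hN.trans _ (YY_mem hN hbN) _ hzY))).2 (Or.inr ⟨z, hz, rfl⟩)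
    exact ⟨hzY, hC.sub hN haN h3, s, f, (hgm _).2 hr, mem_comp.1 h3⟩

end Pool.Agent.Lib.Ctm
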