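import Pool.Agent.Lib.Ctm.Decide

/-!
# Preservation of the cardinals of the generic sequence
-/

namespace Pool.Agent.Lib.Ctm

open Pool.Agent.Lib.Forcing ZFSet

/-- the assignment of the names -/
private def nmz (h a c x : Z) (i : ℕ) : Z :=
  if i = 0 then h else if i = 1 then a else if i = 2 then c else x

/-- the relation which is forced -/
private def RB (_ : Set Z) (v : ℕ → Z) : Prop :=
  ∀ η ∈ v 1, ∀ ζ ∈ v 2, ap (v 0) η = ζ → ζ ∈ v 3

private theorem RB_def : D AllTM RB := by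
  refine D.ball (R := fun _ η v => ∀ ζ ∈ v 2, Ctm.ap (v 0) η = ζ → ζ ∈ v 3) T.v1 ?_
  refine D.ball (R := fun _ ζ v => Ctm.ap (v 1) (v 0) = ζ → ζ ∈ v 4) T.v3 ?_
  exact (D.eq (T.ap T.v2 T.v1) T.v0).imp (D.mem T.v0 T.v5)

/-- `χ(b)` is not covered by a smaller ordinal in the extension, for `b ≠ 0` in the generic
sequence -/
theorem preserve {N : Set Z} (hN : TC N) (hc : N.Countable) {G : Set Z}
    (hG : Gen N (PP N) (LL N) G) {b : Z} (hb : InG G b) (hb0 : b ≠ ∅) {a : Z}
    (ha : a ∈ chi N b) : ¬ Cov (NG N G) a (chi N b) := by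
  rintro ⟨_, ⟨h, hh, rfl⟩, hg⟩
  have hbd : b ∈ dl N := hb.dl hG
  have hbN : b ∈ N := dl_N hN hbd
  have hcN : chi N b ∈ N := chi_mem hN hbN
  have haN : a ∈ N := hN.trans _ hcN _ ha
  obtain ⟨s, f, hp, hbs⟩ := hb
  have hF := PO_PP hN
  have _i := hN.sing
  have hoN : ∀ M ∈ ({N} : Set (Set Z)), topc ∈ M := by rintro _ rfl; exact o_mem_N hN.toTM hF
  have hnm : ∀ x ∈ N, In N (nmz h (chk topc a) (chk topc (chi N b)) x) := by
    intro x hx i
    unfold nmz
    split
    · exact hh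
    split
    · exact chk_mem hN.toTM hF haN
    split
    · exact chk_mem hN.toTM hF hcN
    · exact hx
  -- meaning of the forced relation
  have hRB : ∀ H : Set Z, topc ∈ H → ∀ B : Z,
      (RB (NG N H) (fun i => val H (nmz h (chk topc a) (chk topc (chi N b)) (chk topc B) i)) ↔
        ∀ η ∈ a, ∀ ζ ∈ chi N b, ap (val H h) η = ζ → ζ ∈ B) := by
    intro H hH B
    simp only [RB, nmz, if_true, if_false, OfNat.ofNat_ne_zero, OfNat.ofNat_ne_one, one_ne_zero,
      show (3 : ℕ) ≠ 2 by decide, val_chk hH]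
  -- definability
  have hfc := D.fc hN.toTM hc hF RB_def
  have h1 : D {N} (fun _ v => v 2 ∈ PP N ∧
      Fc N (PP N) (LL N) RB (v 2) (nmz h (chk topc a) (chk topc (chi N b)) (v 0))) := by
    have h2 := hfc.param (w := nmz h (chk topc a) (chk topc (chi N b)) ∅)
      (by rintro _ rfl; exact hnm ∅ hN.empty_mem)
      (fun n => if n = 0 then 4 else if n = 1 then 1 else if n = 2 then 3 else
        if n = 3 then 5 else 0)
    refine h2.congr fun M _ v _ => ?_
    have e : tl (fun i => mix v (nmz h (chk topc a) (chk topc (chi N b)) ∅)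
        (if i = 0 then 4 else if i = 1 then 1 else if i = 2 then 3 else
        if i = 3 then 5 else 0)) = nmz h (chk topc a) (chk topc (chi N b)) (v 0) := by
      funext i
      match i with
      | 0 => simp [tl, mix, nmz]
      | 1 => simp [tl, mix, nmz]
      | 2 => simp [tl, mix, nmz]
      | n + 3 => simp [tl, mix, nmz]
    have e2 : mix v (nmz h (chk topc a) (chk topc (chi N b)) ∅) 4 = v 2 := by simp [mix]
    simp only [e, if_true, e2]
  have h3 : D {N} (fun _ v => v 1 ∈ PP N ∧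
      Fc N (PP N) (LL N) RB (v 1) (nmz h (chk topc a) (chk topc (chi N b))
        (chk topc (v 0)))) :=
    D.subst (t := fun _ v => chk topc (v 0)) (R := fun _ x v => v 1 ∈ PP N ∧
      Fc N (PP N) (LL N) RB (v 1) (nmz h (chk topc a) (chk topc (chi N b)) x)) h1
      (T.chk hoN T.v0)
  have h4 : ZFSet.sep (fun q => ∃ B ∈ N, Cov N (XX N b) B ∧ (q ∈ PP N ∧
      Fc N (PP N) (LL N) RB q (nmz h (chk topc a) (chk topc (chi N b)) (chk topc B)))) (PP N)
      ∈ N := by
    refine hN.toTM.sep_memD (PP_mem hN) (R := fun q => ∃ B ∈ N, Cov N (XX N b) B ∧ (q ∈ PP N ∧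
      Fc N (PP N) (LL N) RB q (nmz h (chk topc a) (chk topc (chi N b)) (chk topc B)))) ?_
    have h5 : D {N} (fun M v => ∃ B ∈ M, Cov M (XX N b) B ∧ (v 0 ∈ PP N ∧
      Fc N (PP N) (LL N) RB (v 0) (nmz h (chk topc a) (chk topc (chi N b)) (chk topc B)))) :=
      D.ex (R := fun M B v => Cov M (XX N b) B ∧ (v 0 ∈ PP N ∧
        Fc N (PP N) (LL N) RB (v 0) (nmz h (chk topc a) (chk topc (chi N b)) (chk topc B))))
        ((D.cov (hN.toTM.cst (XX_mem hN hbN)) T.v0).and h3)
    refine h5.congr ?_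
    rintro _ rfl v _
    exact Iff.rfl
  obtain ⟨q, hq, -, B, hBN, hBc, hqP, hqF⟩ := Gen.belowD hN.toTM hF hG h4 hp (by
    intro q hq
    obtain ⟨s', f', rfl, hs', hf'⟩ := exists_of_mem_PP hq.1
    have hbs' : b ∈ s' := (le_PP.1 hq).2.2.1.1 hbs
    obtain ⟨f'', B, hle, hBN, hBc, hB⟩ := decide_values hN hc hbd hb0 hq.1 hbs' hh ha
    refine ⟨_, hle, B, hBN, hBc, hle.1, ?_⟩
    intro H hH hqH
    exact (hRB H (Gen.top_mem hF hH hqH) B).2 (hB H hH hqH))
  have h6 := (hRB G (Gen.top_mem hF hG hp) B).1 (hqF G hG hq)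
  refine not_cov_chi hN hbN (hBc.mono (fun _ hz => hz) ?_)
  intro y hy
  obtain ⟨x, hx, hxy⟩ := hg y hy
  exact h6 x hx y hy hxy

end Pool.Agent.Lib.Ctm
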