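import Pool.Agent.Lib.Ctm.Bridge
import Pool.Agent.Lib.Ctm.Preserve
import Pool.Agent.Lib.Ctm.Collapse

/-!
# `κ` is `ω_ω` in the generic extension
-/

namespace Pool.Agent.Lib.Ctm

open Pool.Agent.Lib.Forcing ZFSet

/-- coverings stay coverings in a larger model -/
theorem Cov.up_al {N M : Set Z} (h : N ⊆ M) {a b : Z} (hc : Cov N a b) : Cov M a b := by
  obtain ⟨g, hg, h1⟩ := hc
  exact ⟨g, h hg, h1⟩

section Alephs

variable {N : Set Z} (hN : TC N) {G : Set Z} (hG : Gen N (PP N) (LL N) G)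

include hN hG

theorem top_mem_al {p : Z} (hp : p ∈ G) : topc ∈ G :=
  Gen.top_mem (PO_PP hN) hG hp

theorem NG_tm_al {p : Z} (hp : p ∈ G) : TM (NG N G) :=
  NG_tm hN.toTM (PO_PP hN) hG (top_mem_al hN hG hp)

theorem N_sub_NG_al {p : Z} (hp : p ∈ G) : N ⊆ NG N G :=
  N_sub_NG hN.toTM (PO_PP hN) (top_mem_al hN hG hp)

/-- all ordinals below `χ(b)` are covered by `χ'(a)` for consecutive `a`, `b` -/
theorem cov_chp_al {a b z : Z} (h : Nx G a b) (hz : z ∈ chi N b) : Cov (NG N G) (chp N a) z := by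
  obtain ⟨s, f, hp, _⟩ := h.1
  have hM := NG_tm_al hN hG hp
  have hs := N_sub_NG_al hN hG hp
  have haN : a ∈ N := dl_N hN (h.1.dl hG)
  have hbN : b ∈ N := dl_N hN (h.2.1.dl hG)
  have h1 := (mem_chi hN hbN).1 hz
  exact (collapse hN hG h).trans hM (hs (chp_mem hN haN)) (h1.2.2.up_al hs)

theorem InG.ord_al {b : Z} (h : InG G b) : b.IsOrdinal := dl_ord hN (h.dl hG)

theorem InG.memN_al {b : Z} (h : InG G b) : b ∈ N := dl_N hN (h.dl hG)

/-- the cardinals of the generic sequence are cofinal in `κ` -/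
theorem exists_InG_chi_al {p : Z} (hp : p ∈ G) {m : Z} (hm : m ∈ kap N) :
    ∃ b, InG G b ∧ b ≠ ∅ ∧ m ∈ chi N b := by
  obtain ⟨b, hb, h1⟩ := mem_kap.1 hm
  obtain ⟨b', h2, h3⟩ := InG.cofinal hN hG hp hb
  refine ⟨b', h2, ?_, ?_⟩
  · rintro rfl
    exact notMem_empty _ h3
  · exact chi_mono hN (dl_N hN hb) (h2.memN_al hN hG)
      ((h2.ord_al hN hG).subset_of_mem h3) h1

/-- `κ` is not covered by a smaller ordinal -/
theorem not_cov_kap_al (hc : N.Countable) {p : Z} (hp : p ∈ G) {m : Z} (hm : m ∈ kap N) :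
    ¬ Cov (NG N G) m (kap N) := by
  intro h
  obtain ⟨b, h1, h2, h3⟩ := exists_InG_chi_al hN hG hp hm
  exact preserve hN hc hG h1 h2 h3 (h.mono (fun _ h => h) (chi_subset_kap (h1.dl hG)))

end Alephs

/-- `κ` is the least uncountable limit cardinal of the extension -/
theorem isAlephOmega_kap {N : Set Z} (hN : TC N) (hc : N.Countable) {G : Set Z}
    (hG : Gen N (PP N) (LL N) G) (hne : G.Nonempty) (hk : kap N ∈ NG N G) :
    IsAlephOmega (fun x y : NG N G => x.1 ∈ y.1) ⟨kap N, hk⟩ := by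
  obtain ⟨p, hp⟩ := hne
  have hM := NG_tm_al hN hG hp
  have hs := N_sub_NG_al hN hG hp
  have hko := isOrdinal_kap hN
  refine ⟨⟨?_, ?_⟩, ?_, ?_⟩
  · rw [isCard_iff hM]
    exact ⟨hko, fun m hm => not_cov_kap_al hN hG hc hp hm⟩
  · rintro ⟨m, hmM⟩ hm
    obtain ⟨b, h1, h2, h3⟩ := exists_InG_chi_al hN hG hp hm
    have hbN := h1.memN_al hN hG
    refine ⟨⟨chi N b, hs (chi_mem hN hbN)⟩, chi_mem_kap hN (h1.dl hG), h3, ?_⟩
    rw [isCard_iff hM]
    exact ⟨isOrdinal_chi hN hbN, fun a ha => preserve hN hc hG h1 h2 ha⟩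
  · rw [isUncountable_iff hM]
    refine not_cov_kap_al hN hG hc hp ?_
    exact mem_kap.2 ⟨∅, empty_mem_dl hN, om_mem_chi hN hN.empty_mem⟩
  · rintro ⟨k, hkM⟩ hkk ⟨⟨h1, h2⟩, h3⟩
    have hkk' : k ∈ kap N := hkk
    rw [isCard_iff hM] at h1
    rw [isUncountable_iff hM] at h3
    obtain ⟨hko', h1⟩ := h1
    have hko'' : k.IsOrdinal := hko'
    obtain ⟨b0, hb0⟩ := exists_InG_chi_al hN hG hp hkk'
    obtain ⟨b, ⟨hb1, hb2, hb3⟩, hmin⟩ := exists_min
      (fun b => InG G b ∧ b ≠ ∅ ∧ k ∈ chi N b) hb0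
    obtain ⟨a, hab⟩ := hb1.pred hN hG hb2
    by_cases ha0 : a = ∅
    · subst ha0
      have h4 := cov_chp_al hN hG hab hb3
      rw [chp_empty] at h4
      exact h3 h4
    · have haN := hab.1.memN_al hN hG
      have h4 : k ∉ chi N a := fun h => hmin a hab.2.2.1 ⟨hab.1, ha0, h⟩
      have h5 : k = chi N a := by
        rcases IsOrdinal.mem_trichotomous hko'' (isOrdinal_chi hN haN) with h | h | h
        · exact absurd h h4
        · exact h
        · exfalso
          have h6 := cov_chp_al hN hG hab hb3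
          rw [chp_of_ne N ha0] at h6
          exact h1 _ h h6
      obtain ⟨a', haa⟩ := hab.1.pred hN hG ha0
      have ha'N := haa.1.memN_al hN hG
      have h7 : chp N a' ∈ chi N a := by
        by_cases ha'0 : a' = ∅
        · rw [ha'0, chp_empty]
          exact om_mem_chi hN haN
        · rw [chp_of_ne N ha'0]
          exact chi_mem_chi hN haN haa.2.2.1
      obtain ⟨⟨c, hcM⟩, hc1, hc2, hc3⟩ := h2 ⟨chp N a', hs (chp_mem hN ha'N)⟩ (by
        show chp N a' ∈ k
        rw [h5]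
        exact h7)
      rw [isCard_iff hM] at hc3
      have hc1' : c ∈ chi N a := by
        rw [← h5]
        exact hc1
      exact hc3.2 _ hc2 (cov_chp_al hN hG haa hc1')

/-- ordinals below `χ(b)` are countable in the extension when `b` is the second element of the
generic sequence -/
theorem cov_om {N : Set Z} (hN : TC N) {G : Set Z} (hG : Gen N (PP N) (LL N) G) {b : Z}
    (hb : Nx G ∅ b) {a : Z} (ha : a ∈ chi N b) : Cov (NG N G) om a := by
  have h := cov_chp_al hN hG hb ha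
  rw [chp_empty] at h
  exact h

end Pool.Agent.Lib.Ctm
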