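import Pool.Agent.Lib.Forcing.Syntax

/-!
# Transitive models of ZFC inside `ZFSet`

Satisfaction with quantifiers restricted to a class `M` of sets, and the consequences of the
axioms for transitive models.
-/

namespace Pool.Agent.Lib.Ctm

open Pool.Agent.Lib.Forcing ZFSet

/-- the sets in which all models of this development live -/
abbrev Z := ZFSet.{0}

/-- satisfaction of a formula in `(M, ∈)` -/
def SatC (M : Set Z) : Fml → (ℕ → Z) → Prop
  | .fmem i j, v => v i ∈ v j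
  | .feq i j, v => v i = v j
  | .fneg φ, v => ¬ SatC M φ v
  | .fand φ ψ, v => SatC M φ v ∧ SatC M ψ v
  | .fall φ, v => ∀ x ∈ M, SatC M φ (cons x v)

theorem satC_iff {M : Set Z} (φ : Fml) : ∀ v : ℕ → M,
    Sat (fun x y : M => x.1 ∈ y.1) φ v ↔ SatC M φ (fun i => (v i).1) := by
  induction φ with
  | fmem i j => intro v; rfl
  | feq i j => intro v; exact Subtype.ext_iff
  | fneg φ ih => intro v; exact not_congr (ih v)
  | fand φ ψ ih1 ih2 => intro v; exact and_congr (ih1 v) (ih2 v)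
  | fall φ ih =>
    intro v
    have e : ∀ x : M, (fun i => (cons x v i).1) = cons x.1 (fun i => (v i).1) := by
      intro x; funext i; cases i <;> rfl
    constructor
    · intro h x hx
      have := (ih _).1 (h ⟨x, hx⟩)
      rwa [e] at this
    · intro h x
      rw [ih, e]
      exact h x.1 x.2

theorem satC_ren {M : Set Z} (φ : Fml) : ∀ {f : ℕ → ℕ} {v : ℕ → Z},
    SatC M (φ.ren f) v ↔ SatC M φ (fun i => v (f i)) := by
  induction φ with
  | fmem i j => intro f v; rfl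
  | feq i j => intro f v; rfl
  | fneg φ ih => intro f v; exact not_congr ih
  | fand φ ψ ih1 ih2 => intro f v; exact and_congr ih1 ih2
  | fall φ ih =>
    intro f v
    refine forall_congr' fun x => imp_congr_right fun _ => ?_
    rw [ih]
    have : (fun i => cons x v (liftRen f i)) = cons x (fun i => v (f i)) := by
      funext i; cases i <;> rfl
    rw [this]

theorem satC_congr {M : Set Z} (φ : Fml) :
    ∀ {v w : ℕ → Z}, (∀ i, i < φ.bd → v i = w i) → (SatC M φ v ↔ SatC M φ w) := by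
  induction φ with
  | fmem i j =>
    intro v w h
    have h1 := h i (by simp [Fml.bd])
    have h2 := h j (by simp [Fml.bd])
    simp only [SatC, h1, h2]
  | feq i j =>
    intro v w h
    have h1 := h i (by simp [Fml.bd])
    have h2 := h j (by simp [Fml.bd])
    simp only [SatC, h1, h2]
  | fneg φ ih => intro v w h; exact not_congr (ih h)
  | fand φ ψ ih1 ih2 =>
    intro v w h
    exact and_congr (ih1 (fun i hi => h i (lt_of_lt_of_le hi (le_max_left _ _))))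
      (ih2 (fun i hi => h i (lt_of_lt_of_le hi (le_max_right _ _))))
  | fall φ ih =>
    intro v w h
    refine forall_congr' fun x => imp_congr_right fun _ => ih ?_
    intro i hi
    cases i with
    | zero => rfl
    | succ n => exact h n (by simp only [Fml.bd]; omega)

/-- `(M, E)` is a model of ZF (the axioms of `IsZFC` without choice) -/
structure IsZF (M : Type*) (E : M → M → Prop) : Prop where
  extensionality : ∀ x y, (∀ z, E z x ↔ E z y) → x = y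
  foundation : ∀ x, (∃ y, E y x) → ∃ y, E y x ∧ ∀ z, E z y → ¬ E z x
  pairing : ∀ x y, ∃ z, ∀ w, E w z ↔ w = x ∨ w = y
  union : ∀ x, ∃ y, ∀ z, E z y ↔ ∃ w, E w x ∧ E z w
  powerset : ∀ x, ∃ y, ∀ z, E z y ↔ ∀ w, E w z → E w x
  infinity : ∃ x, (∃ e, (∀ z, ¬ E z e) ∧ E e x) ∧
    ∀ y, E y x → ∃ z, E z x ∧ ∀ w, E w z ↔ E w y ∨ w = y
  separation : ∀ (φ : Fml) (v : ℕ → M) (x : M), ∃ y, ∀ z, E z y ↔ E z x ∧ Sat E φ (cons z v)
  replacement : ∀ (φ : Fml) (v : ℕ → M) (x : M),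
    (∀ y, E y x → ∃! z, Sat E φ (cons y (cons z v))) →
    ∃ w, ∀ z, E z w ↔ ∃ y, E y x ∧ Sat E φ (cons y (cons z v))

/-- the axiom of choice in `(M, E)` -/
def HasAC (M : Type*) (E : M → M → Prop) : Prop :=
  ∀ x, (∀ y, E y x → ∃ z, E z y) →
    (∀ y y', E y x → E y' x → y ≠ y' → ∀ z, ¬ (E z y ∧ E z y')) →
    ∃ c, ∀ y, E y x → ∃! z, E z c ∧ E z y

theorem isZFC_iff (M : Type*) (E : M → M → Prop) : IsZFC M E ↔ IsZF M E ∧ HasAC M E :=
  ⟨fun h => ⟨⟨h.1, h.2, h.3, h.4, h.5, h.6, h.7, h.8⟩, h.9⟩,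
    fun h => ⟨h.1.1, h.1.2, h.1.3, h.1.4, h.1.5, h.1.6, h.1.7, h.1.8, h.2⟩⟩

/-- `M` is a transitive model of ZF -/
structure TM (M : Set Z) : Prop where
  trans : ∀ x ∈ M, ∀ y ∈ x, y ∈ M
  zf : IsZF M (fun x y => x.1 ∈ y.1)

/-- `M` is a transitive model of ZFC -/
structure TC (M : Set Z) : Prop extends TM M where
  ac : HasAC M (fun x y => x.1 ∈ y.1)

theorem TC.zfc {M : Set Z} (h : TC M) : IsZFC M (fun x y => x.1 ∈ y.1) :=
  (isZFC_iff _ _).2 ⟨h.zf, h.ac⟩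

theorem TC.of {M : Set Z} (h : ∀ x ∈ M, ∀ y ∈ x, y ∈ M) (h' : IsZFC M (fun x y => x.1 ∈ y.1)) :
    TC M := ⟨⟨h, ((isZFC_iff _ _).1 h').1⟩, ((isZFC_iff _ _).1 h').2⟩

/-- all values of the assignment are in `M` -/
abbrev In (M : Set Z) (v : ℕ → Z) : Prop := ∀ i, v i ∈ M

protected theorem In.cons {M : Set Z} {v : ℕ → Z} {x : Z} (hv : In M v) (hx : x ∈ M) :
    In M (Forcing.cons x v) := by
  intro i; cases i with
  | zero => exact hx
  | succ n => exact hv n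

theorem sub_cons {M : Set Z} {v : ℕ → Z} {hv : ∀ i, v i ∈ M} {z : Z} {hz : z ∈ M} :
    (fun i => (cons (⟨z, hz⟩ : M) (fun i => ⟨v i, hv i⟩) i).1) = cons z v := by
  funext i; cases i <;> rfl

/-- the shifted assignment -/
def tl (v : ℕ → Z) : ℕ → Z := fun n => v (n + 1)

protected theorem In.tail {M : Set Z} {v : ℕ → Z} (hv : In M v) : In M (tl v) := fun i => hv (i + 1)

@[simp] theorem tl_cons (x : Z) (v : ℕ → Z) : tl (cons x v) = v := rfl

@[simp] theorem cons_tl (v : ℕ → Z) : cons (v 0) (tl v) = v := by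
  funext i; cases i <;> rfl

@[simp] theorem tl_apply (v : ℕ → Z) (n : ℕ) : tl v n = v (n + 1) := rfl

namespace TM

variable {M : Set Z} (hM : TM M)

include hM

theorem sep_mem' (φ : Fml) {v : ℕ → Z} (hv : In M v) {x : Z} (hx : x ∈ M) :
    ZFSet.sep (fun z => SatC M φ (Forcing.cons z v)) x ∈ M := by
  obtain ⟨y, hy⟩ := hM.zf.separation φ (fun i => ⟨v i, hv i⟩) ⟨x, hx⟩
  have : ZFSet.sep (fun z => SatC M φ (Forcing.cons z v)) x = y.1 := by
    ext z
    rw [ZFSet.mem_sep]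
    constructor
    · rintro ⟨h1, h2⟩
      have hz := hM.trans x hx z h1
      refine (hy ⟨z, hz⟩).2 ⟨h1, ?_⟩
      rw [satC_iff, sub_cons]
      exact h2
    · intro h
      have hz := hM.trans y.1 y.2 z h
      obtain ⟨h1, h2⟩ := (hy ⟨z, hz⟩).1 h
      refine ⟨h1, ?_⟩
      rw [satC_iff, sub_cons] at h2
      exact h2
  rw [this]
  exact y.2

theorem repl' (φ : Fml) {v : ℕ → Z} (hv : In M v) {x : Z} (hx : x ∈ M)
    (h : ∀ y ∈ x, ∃! z, z ∈ M ∧ SatC M φ (Forcing.cons y (Forcing.cons z v))) :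
    ∃ w ∈ M, ∀ z, z ∈ w ↔ ∃ y ∈ x, z ∈ M ∧ SatC M φ (Forcing.cons y (Forcing.cons z v)) := by
  have e : ∀ (y z : M), Sat (fun x y : M => x.1 ∈ y.1) φ
      (Forcing.cons y (Forcing.cons z (fun i => ⟨v i, hv i⟩))) ↔
      SatC M φ (Forcing.cons y.1 (Forcing.cons z.1 v)) := by
    intro y z
    rw [satC_iff]
    have : (fun i => ((Forcing.cons y (Forcing.cons z (fun i => (⟨v i, hv i⟩ : M)))) i).1) =
        Forcing.cons y.1 (Forcing.cons z.1 v) := by
      funext i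
      match i with
      | 0 => rfl
      | 1 => rfl
      | n + 2 => rfl
    rw [this]
  obtain ⟨w, hw⟩ := hM.zf.replacement φ (fun i => ⟨v i, hv i⟩) ⟨x, hx⟩ (by
    rintro ⟨y, hy⟩ hyx
    obtain ⟨z, ⟨hz, h1⟩, h2⟩ := h y hyx
    refine ⟨⟨z, hz⟩, (e _ _).2 h1, ?_⟩
    rintro ⟨z', hz'⟩ h3
    exact Subtype.ext (h2 z' ⟨hz', (e _ _).1 h3⟩))
  refine ⟨w.1, w.2, fun z => ?_⟩
  constructor
  · intro hz
    have hzM := hM.trans w.1 w.2 z hz
    obtain ⟨y, h1, h2⟩ := (hw ⟨z, hzM⟩).1 hz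
    exact ⟨y.1, h1, hzM, (e _ _).1 h2⟩
  · rintro ⟨y, h1, h2, h3⟩
    have hy := hM.trans x hx y h1
    exact (hw ⟨z, h2⟩).2 ⟨⟨y, hy⟩, h1, (e ⟨y, hy⟩ ⟨z, h2⟩).2 h3⟩

theorem upair_mem {x y : Z} (hx : x ∈ M) (hy : y ∈ M) : ({x, y} : Z) ∈ M := by
  obtain ⟨z, hz⟩ := hM.zf.pairing ⟨x, hx⟩ ⟨y, hy⟩
  have : ({x, y} : Z) = z.1 := by
    ext w
    rw [ZFSet.mem_pair]
    constructor
    · rintro (rfl | rfl)
      · exact (hz ⟨w, hx⟩).2 (Or.inl rfl)
      · exact (hz ⟨w, hy⟩).2 (Or.inr rfl)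
    · intro h
      rcases (hz ⟨w, hM.trans z.1 z.2 w h⟩).1 h with h | h
      · exact Or.inl (congrArg Subtype.val h)
      · exact Or.inr (congrArg Subtype.val h)
  rw [this]; exact z.2

theorem singleton_mem {x : Z} (hx : x ∈ M) : ({x} : Z) ∈ M := by
  have := hM.upair_mem hx hx
  rwa [ZFSet.pair_eq_singleton] at this

theorem pair_mem {x y : Z} (hx : x ∈ M) (hy : y ∈ M) : pair x y ∈ M :=
  hM.upair_mem (hM.singleton_mem hx) (hM.upair_mem hx hy)

theorem sUnion_mem {x : Z} (hx : x ∈ M) : (⋃₀ x : Z) ∈ M := by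
  obtain ⟨z, hz⟩ := hM.zf.union ⟨x, hx⟩
  have : (⋃₀ x : Z) = z.1 := by
    ext w
    rw [ZFSet.mem_sUnion]
    constructor
    · rintro ⟨y, h1, h2⟩
      have hy := hM.trans x hx y h1
      exact (hz ⟨w, hM.trans y hy w h2⟩).2 ⟨⟨y, hy⟩, h1, h2⟩
    · intro h
      obtain ⟨y, h1, h2⟩ := (hz ⟨w, hM.trans z.1 z.2 w h⟩).1 h
      exact ⟨y.1, h1, h2⟩
  rw [this]; exact z.2

theorem union_mem {x y : Z} (hx : x ∈ M) (hy : y ∈ M) : x ∪ y ∈ M := by
  have := hM.sUnion_mem (hM.upair_mem hx hy)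
  rwa [ZFSet.sUnion_pair] at this

theorem insert_mem {x y : Z} (hx : x ∈ M) (hy : y ∈ M) : insert x y ∈ M := by
  rw [ZFSet.insert_eq]; exact hM.union_mem (hM.singleton_mem hx) hy

/-- elements of an ordered pair -/
theorem of_pair_mem {x y : Z} (h : pair x y ∈ M) : x ∈ M ∧ y ∈ M := by
  have h1 : ({x, y} : Z) ∈ M := hM.trans _ h _ (by simp [pair])
  exact ⟨hM.trans _ h1 _ (by simp), hM.trans _ h1 _ (by simp)⟩

theorem of_pair_mem_mem {x y r : Z} (hr : r ∈ M) (h : pair x y ∈ r) : x ∈ M ∧ y ∈ M :=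
  hM.of_pair_mem (hM.trans _ hr _ h)

theorem powerset_mem {x : Z} (hx : x ∈ M) :
    ZFSet.sep (fun z => z ∈ M) (powerset x) ∈ M := by
  obtain ⟨z, hz⟩ := hM.zf.powerset ⟨x, hx⟩
  have : ZFSet.sep (fun z => z ∈ M) (powerset x) = z.1 := by
    ext w
    rw [ZFSet.mem_sep, ZFSet.mem_powerset]
    constructor
    · rintro ⟨h1, h2⟩
      exact (hz ⟨w, h2⟩).2 fun u hu => h1 hu
    · intro h
      have hw := hM.trans z.1 z.2 w h
      refine ⟨fun u hu => ?_, hw⟩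
      exact (hz ⟨w, hw⟩).1 h ⟨u, hM.trans w hw u hu⟩ hu
  rw [this]; exact z.2

end TM

end Pool.Agent.Lib.Ctm
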