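import Pool.Agent.Lib.Ctm.Stmt
import Pool.Agent.Lib.Ctm.Card

/-!
# The notions of `Stmt` in a transitive model
-/

namespace Pool.Agent.Lib.Ctm

open Pool.Agent.Lib.Forcing

/-- the least element `x` of `m` with `ap h x = y` -/
noncomputable def lst (h m y : Z) : Z :=
  ZFSet.sUnion (ZFSet.sep (fun x => ap h x = y ∧ ∀ u ∈ x, ¬ ap h u = y) m)

theorem lst_eq {h m y x : Z} (hm : m.IsOrdinal) (hx : x ∈ m) (e : ap h x = y)
    (hl : ∀ u ∈ x, ¬ ap h u = y) : lst h m y = x := by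
  have : ZFSet.sep (fun x => ap h x = y ∧ ∀ u ∈ x, ¬ ap h u = y) m = {x} := by
    ext z
    rw [ZFSet.mem_sep, ZFSet.mem_singleton]
    constructor
    · rintro ⟨h1, h2, h3⟩
      rcases (hm.mem h1).mem_trichotomous (hm.mem hx) with h4 | h4 | h4
      · exact absurd h2 (hl z h4)
      · exact h4
      · exact absurd e (h3 x h4)
    · rintro rfl
      exact ⟨hx, e, hl⟩
  rw [lst, this, ZFSet.sUnion_singleton]

theorem lst_spec {h m y : Z} (hm : m.IsOrdinal) (hx : ∃ x ∈ m, ap h x = y) :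
    lst h m y ∈ m ∧ ap h (lst h m y) = y := by
  obtain ⟨x, hx, e⟩ := hx
  obtain ⟨u, ⟨h1, h2⟩, h3⟩ := exists_min (fun x => x ∈ m ∧ ap h x = y) ⟨hx, e⟩
  have h4 : lst h m y = u := lst_eq hm h1 h2 fun w hw h5 =>
    h3 w hw ⟨hm.mem_trans hw h1, h5⟩
  rw [h4]
  exact ⟨h1, h2⟩

protected theorem T.lst {K : Set (Set Z)} [MK K] {s t r : Set Z → (ℕ → Z) → Z}
    (hs : T K s) (ht : T K t) (hr : T K r) :
    T K (fun M v => Ctm.lst (s M v) (t M v) (r M v)) := by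
  refine T.sUnion (T.sep (R := fun M x v => ap (s M v) x = r M v ∧
    ∀ u ∈ x, ¬ ap (s M v) u = r M v) ht ?_)
  refine D.and (D.eq (T.ap hs.tail T.v0) hr.tail) ?_
  exact D.ball (R := fun M u v => ¬ ap (s M (tl v)) u = r M (tl v)) T.v0
    (D.eq (T.ap hs.tail.tail T.v0) hr.tail.tail).neg

section Bridge

variable {M : Set Z} (hM : TM M)

include hM

theorem isTrans_iff (k : M) :
    Forcing.IsTrans (fun x y : M => x.1 ∈ y.1) k ↔ ZFSet.IsTransitive k.1 := by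
  constructor
  · intro h x hx y hy
    have hxM := hM.trans _ k.2 _ hx
    exact h ⟨x, hxM⟩ hx ⟨y, hM.trans _ hxM _ hy⟩ hy
  · intro h x hx y hy
    exact h x.1 hx hy

theorem isOrdinal_iff (k : M) :
    Forcing.IsOrdinal (fun x y : M => x.1 ∈ y.1) k ↔ ZFSet.IsOrdinal k.1 := by
  rw [ZFSet.isOrdinal_iff_forall_mem_isTransitive, Forcing.IsOrdinal, isTrans_iff hM]
  refine and_congr_right fun _ => ?_
  constructor
  · intro h x hx
    exact (isTrans_iff hM ⟨x, hM.trans _ k.2 _ hx⟩).1 (h _ hx)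
  · intro h x hx
    exact (isTrans_iff hM x).2 (h x.1 hx)

theorem isUPair_iff (z x y : M) :
    Forcing.IsUPair (fun x y : M => x.1 ∈ y.1) z x y ↔ z.1 = {x.1, y.1} := by
  constructor
  · intro h
    ext w
    rw [ZFSet.mem_pair]
    constructor
    · intro hw
      rcases (h ⟨w, hM.trans _ z.2 _ hw⟩).1 hw with h1 | h1
      · exact Or.inl (congrArg Subtype.val h1)
      · exact Or.inr (congrArg Subtype.val h1)
    · rintro (rfl | rfl)
      · exact (h x).2 (Or.inl rfl)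
      · exact (h y).2 (Or.inr rfl)
  · intro h w
    show w.1 ∈ z.1 ↔ _
    rw [h, ZFSet.mem_pair, Subtype.ext_iff, Subtype.ext_iff]

theorem isOPair_iff (z x y : M) :
    Forcing.IsOPair (fun x y : M => x.1 ∈ y.1) z x y ↔ z.1 = ZFSet.pair x.1 y.1 := by
  constructor
  · rintro ⟨a, b, h1, h2, h3⟩
    rw [isUPair_iff hM] at h1 h2 h3
    rw [h3, h1, h2, ZFSet.pair, ZFSet.pair_eq_singleton]
  · intro h
    refine ⟨⟨{x.1}, hM.singleton_mem x.2⟩, ⟨{x.1, y.1}, hM.upair_mem x.2 y.2⟩, ?_, ?_, ?_⟩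
    · rw [isUPair_iff hM, ZFSet.pair_eq_singleton]
    · rw [isUPair_iff hM]
    · rw [isUPair_iff hM]
      exact h

theorem isApp_iff (f x y : M) :
    Forcing.IsApp (fun x y : M => x.1 ∈ y.1) f x y ↔ ZFSet.pair x.1 y.1 ∈ f.1 := by
  constructor
  · rintro ⟨z, hz, h⟩
    rw [isOPair_iff hM] at h
    rw [← h]
    exact hz
  · intro h
    refine ⟨⟨_, hM.pair_mem x.2 y.2⟩, h, ?_⟩
    rw [isOPair_iff hM]

/-- injections of `k` into an ordinal `m` correspond to coverings of `k` by `m` -/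
theorem hasInj_iff {k m : M} (hm : ZFSet.IsOrdinal m.1) :
    HasInj (fun x y : M => x.1 ∈ y.1) k m ↔ Cov M m.1 k.1 := by
  constructor
  · rintro ⟨f, ⟨h1, h2⟩, h3⟩
    have key : ∀ x (hx : x ∈ k.1), ∃ y ∈ m.1, ap f.1 x = y ∧ ZFSet.pair x y ∈ f.1 := by
      intro x hx
      have hxM := hM.trans _ k.2 _ hx
      obtain ⟨y, ⟨h4, h5⟩, h6⟩ := h2 ⟨x, hxM⟩ hx
      rw [isApp_iff hM] at h5
      refine ⟨y.1, h4, ap_eq h5 fun z' hz' => ?_, h5⟩
      have hz'M := (hM.of_pair_mem_mem f.2 hz').2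
      obtain ⟨a, b, _, hb, hab⟩ := h1 ⟨_, hM.trans _ f.2 _ hz'⟩ hz'
      rw [isOPair_iff hM] at hab
      obtain ⟨_, e2⟩ := ZFSet.pair_inj.1 hab
      have hzm : z' ∈ m.1 := by rw [e2]; exact hb
      have := h6 ⟨z', hz'M⟩ ⟨hzm, (isApp_iff hM _ _ _).2 hz'⟩
      exact congrArg Subtype.val this
    refine Cov.of_inj hM k.2 f.2 (fun x hx => ?_) fun x hx y hy e => ?_
    · obtain ⟨y, h4, h5, _⟩ := key x hx
      rw [h5]; exact h4
    · obtain ⟨x', h4, h5, h6⟩ := key x hx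
      obtain ⟨y', h7, h8, h9⟩ := key y hy
      have e' : x' = y' := by rw [← h5, ← h8]; exact e
      subst e'
      have := h3 ⟨x, hM.trans _ k.2 _ hx⟩ ⟨y, hM.trans _ k.2 _ hy⟩
        ⟨x', hM.trans _ m.2 _ h4⟩ ((isApp_iff hM _ _ _).2 h6) ((isApp_iff hM _ _ _).2 h9)
      exact congrArg Subtype.val this
  · rintro ⟨h, hh, h1⟩
    have _i := hM.sing
    have h2 : gr (fun y => lst h m.1 y) k.1 ∈ M :=
      hM.gr_mem' k.2 (T.lst (hM.cst hh) (hM.cst m.2) T.v0)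
    have h3 : ∀ y ∈ k.1, lst h m.1 y ∈ m.1 ∧ ap h (lst h m.1 y) = y := fun y hy =>
      lst_spec hm (h1 y hy)
    refine ⟨⟨_, h2⟩, ⟨fun z hz => ?_, fun x hx => ?_⟩, fun x x' y h4 h5 => ?_⟩
    · obtain ⟨y, hy, e⟩ := mem_gr.1 hz
      refine ⟨⟨y, hM.trans _ k.2 _ hy⟩, ⟨lst h m.1 y, hM.trans _ m.2 _ (h3 y hy).1⟩, hy,
        (h3 y hy).1, ?_⟩
      rw [isOPair_iff hM]
      exact e
    · refine ⟨⟨lst h m.1 x.1, hM.trans _ m.2 _ (h3 x.1 hx).1⟩, ⟨(h3 x.1 hx).1, ?_⟩, ?_⟩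
      · rw [isApp_iff hM]
        exact pair_mem_gr.2 ⟨hx, rfl⟩
      · rintro y ⟨_, h5⟩
        rw [isApp_iff hM] at h5
        exact Subtype.ext (pair_mem_gr.1 h5).2
    · rw [isApp_iff hM] at h4 h5
      obtain ⟨h6, h7⟩ := pair_mem_gr.1 h4
      obtain ⟨h8, h9⟩ := pair_mem_gr.1 h5
      apply Subtype.ext
      rw [← (h3 x.1 h6).2, ← (h3 x'.1 h8).2, ← h7, ← h9]

theorem isCard_iff (k : M) : IsCard (fun x y : M => x.1 ∈ y.1) k ↔
    ZFSet.IsOrdinal k.1 ∧ ∀ m ∈ k.1, ¬ Cov M m k.1 := by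
  rw [IsCard, isOrdinal_iff hM]
  refine and_congr_right fun hk => ?_
  constructor
  · intro h m hm hc
    exact h ⟨m, hM.trans _ k.2 _ hm⟩ hm ((hasInj_iff hM (hk.mem hm)).2 hc)
  · intro h m hm hc
    exact h m.1 hm ((hasInj_iff hM (hk.mem hm)).1 hc)

theorem isLimitOrd_iff (w : M) : IsLimitOrd (fun x y : M => x.1 ∈ y.1) w ↔
    ZFSet.IsOrdinal w.1 ∧ (∃ x, x ∈ w.1) ∧ ∀ x ∈ w.1, ∃ y ∈ w.1, x ∈ y := by
  rw [IsLimitOrd, isOrdinal_iff hM]
  refine and_congr_right fun hk => and_congr ?_ ?_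
  · constructor
    · rintro ⟨x, hx⟩
      exact ⟨x.1, hx⟩
    · rintro ⟨x, hx⟩
      exact ⟨⟨x, hM.trans _ w.2 _ hx⟩, hx⟩
  · constructor
    · intro h x hx
      obtain ⟨y, hy, hxy⟩ := h ⟨x, hM.trans _ w.2 _ hx⟩ hx
      exact ⟨y.1, hy, hxy⟩
    · intro h x hx
      obtain ⟨y, hy, hxy⟩ := h x.1 hx
      exact ⟨⟨y, hM.trans _ w.2 _ hy⟩, hy, hxy⟩

omit hM in
theorem om_subset_of_limit {w : Z} (h : ZFSet.IsOrdinal w ∧ (∃ x, x ∈ w) ∧
    ∀ x ∈ w, ∃ y ∈ w, x ∈ y) : om ⊆ w := by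
  obtain ⟨h1, ⟨x, hx⟩, h2⟩ := h
  refine fun z hz => om_induction (p := fun z => z ∈ w) ?_ (fun y _ hy => ?_) z hz
  · exact ZFSet.isOrdinal_empty.mem_of_subset_of_mem h1 (ZFSet.empty_subset x) hx
  · obtain ⟨u, hu, hyu⟩ := h2 y hy
    refine (ZFSet.isOrdinal_succ (h1.mem hy)).mem_of_subset_of_mem h1 (y := u) ?_ hu
    intro t ht
    rcases ZFSet.mem_insert_iff.1 ht with rfl | ht
    · exact hyu
    · exact (h1.mem hu).mem_trans ht hyu

omit hM in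
theorem limit_om : ZFSet.IsOrdinal om ∧ (∃ x, x ∈ om) ∧ ∀ x ∈ om, ∃ y ∈ om, x ∈ y :=
  ⟨isOrdinal_om, ⟨_, empty_mem_om⟩, fun x hx => ⟨_, succ_mem_om hx, ZFSet.mem_insert x x⟩⟩

theorem isOmega_iff (w : M) : IsOmega (fun x y : M => x.1 ∈ y.1) w ↔ w.1 = om := by
  rw [IsOmega, isLimitOrd_iff hM]
  constructor
  · rintro ⟨h1, h2⟩
    rcases isOrdinal_om.eq_or_mem_of_subset h1.1 (om_subset_of_limit h1) with h3 | h3
    · exact h3.symm
    · exact absurd ((isLimitOrd_iff hM ⟨om, hM.om_mem⟩).2 limit_om) (h2 ⟨om, hM.om_mem⟩ h3)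
  · intro e
    refine ⟨by rw [e]; exact limit_om, fun x hx h => ?_⟩
    rw [isLimitOrd_iff hM] at h
    have h1 : x.1 ∈ w.1 := hx
    rw [e] at h1
    exact ZFSet.mem_irrefl _ (om_subset_of_limit h h1)

theorem isUncountable_iff (x : M) :
    IsUncountable (fun x y : M => x.1 ∈ y.1) x ↔ ¬ Cov M om x.1 := by
  have h0 : (⟨om, hM.om_mem⟩ : M).1 = om := rfl
  constructor
  · intro h hc
    exact h ⟨om, hM.om_mem⟩ ((isOmega_iff hM _).2 h0) ((hasInj_iff hM (m := ⟨om, hM.om_mem⟩)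
      isOrdinal_om).2 hc)
  · intro h w hw hi
    rw [isOmega_iff hM] at hw
    have := (hasInj_iff hM (m := w) (by rw [hw]; exact isOrdinal_om)).1 hi
    rw [hw] at this
    exact h this

end Bridge

end Pool.Agent.Lib.Ctm
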