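import Pool.Agent.Lib.Ctm.Poset

/-!
# Unions of chains of high second components
-/

namespace Pool.Agent.Lib.Ctm

open Pool.Agent.Lib.Forcing ZFSet

/-- high second components for `b`: all components have an index `(a, c)` with `b ⊆ a` -/
def IsH (N : Set Z) (b e : Z) : Prop := e ∈ N ∧ e ⊆ VM N (kap N) ∧
  (∀ u ∈ e, ∃ a c z, u = pair (pair a c) z ∧ Pr N a c ∧ b ⊆ a) ∧
  ∀ a c, Pr N a c → b ⊆ a → IsC (chp N a) (YY N c) (comp e (pair a c))

/-- `e'` extends `e` at all high indices -/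
def Exh (N : Set Z) (b e' e : Z) : Prop := ∀ a c, Pr N a c → b ⊆ a →
  Ex (comp e' (pair a c)) (comp e (pair a c))

theorem Exh.refl (N : Set Z) (b e : Z) : Exh N b e e := fun _ _ _ _ => Ex.refl _

theorem Exh.trans {N : Set Z} {b e e' e'' : Z} (h : Exh N b e'' e') (h' : Exh N b e' e) :
    Exh N b e'' e := fun a c h1 h2 => (h a c h1 h2).trans (h' a c h1 h2)

theorem D.isH {N : Set Z} [MK ({N} : Set (Set Z))] {s t : Set Z → (ℕ → Z) → Z}
    (hs : T {N} s) (ht : T {N} t) : D {N} (fun M v => IsH N (s M v) (t M v)) := by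
  have h : D {N} (fun M v => t M v ⊆ VM N (Ctm.kap N) ∧
      (∀ u ∈ t M v, ∃ i z, u = ZFSet.pair i z ∧
        ∃ a c, i = ZFSet.pair a c ∧ Pr N a c ∧ s M v ⊆ a) ∧
      ∀ c ∈ Ctm.dl N, ∀ a ∈ c, s M v ⊆ a → IsC (Ctm.chp N a) (Ctm.YY N c)
        (Ctm.comp (t M v) (ZFSet.pair a c))) := by
    refine (D.subset ht (T.VMN T.kap)).and (D.and ?_ ?_)
    · refine D.ball (R := fun M u v => ∃ i z, u = ZFSet.pair i z ∧
        ∃ a c, i = ZFSet.pair a c ∧ Pr N a c ∧ s M v ⊆ a) ht ?_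
      refine D.expair (R := fun M i z v =>
        ∃ a c, i = ZFSet.pair a c ∧ Pr N a c ∧ s M (tl v) ⊆ a) T.v0 ?_
      exact D.expair (R := fun M a c v => Pr N a c ∧ s M (tl (tl (tl v))) ⊆ a) T.v1
        ((D.pr T.v1 T.v0).and (D.subset hs.tail.tail.tail.tail.tail T.v1))
    · refine D.ball (R := fun M c v => ∀ a ∈ c, s M v ⊆ a → IsC (Ctm.chp N a) (Ctm.YY N c)
        (Ctm.comp (t M v) (ZFSet.pair a c))) T.dl ?_
      refine D.ball (R := fun M a v => s M (tl v) ⊆ a → IsC (Ctm.chp N a) (Ctm.YY N (v 0))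
        (Ctm.comp (t M (tl v)) (ZFSet.pair a (v 0)))) T.v0 ?_
      exact (D.subset hs.tail.tail T.v0).imp
        (D.isC (T.chp T.v0) (T.YY T.v1) (T.comp ht.tail.tail (T.pair T.v0 T.v1)))
  refine h.congr ?_
  intro M hM v hv
  have htN : t M v ∈ N := by
    have h1 := Set.mem_singleton_iff.1 hM
    subst h1
    exact ht.mem M rfl v hv
  constructor
  · rintro ⟨_, h1, h2, h3⟩
    refine ⟨h1, fun u hu => ?_, fun c hc a ha hsa => h3 a c ⟨ha, hc⟩ hsa⟩
    obtain ⟨a, c, z, e, h4, h5⟩ := h2 u hu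
    exact ⟨_, z, e, a, c, rfl, h4, h5⟩
  · rintro ⟨h1, h2, h3⟩
    refine ⟨htN, h1, fun u hu => ?_, fun a c hac hsa => h3 c hac.2 a hac.1 hsa⟩
    obtain ⟨i, z, e, a, c, e', h4, h5⟩ := h2 u hu
    exact ⟨a, c, z, by rw [e, e'], h4, h5⟩

theorem D.exh {N : Set Z} [MK ({N} : Set (Set Z))] {s t u : Set Z → (ℕ → Z) → Z}
    (hs : T {N} s) (ht : T {N} t) (hu : T {N} u) :
    D {N} (fun M v => Exh N (s M v) (t M v) (u M v)) := by
  have h : D {N} (fun M v => ∀ c ∈ Ctm.dl N, ∀ a ∈ c, s M v ⊆ a →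
      Ex (Ctm.comp (t M v) (ZFSet.pair a c)) (Ctm.comp (u M v) (ZFSet.pair a c))) := by
    refine D.ball (R := fun M c v => ∀ a ∈ c, s M v ⊆ a →
      Ex (Ctm.comp (t M v) (ZFSet.pair a c)) (Ctm.comp (u M v) (ZFSet.pair a c))) T.dl ?_
    refine D.ball (R := fun M a v => s M (tl v) ⊆ a →
      Ex (Ctm.comp (t M (tl v)) (ZFSet.pair a (v 0)))
        (Ctm.comp (u M (tl v)) (ZFSet.pair a (v 0)))) T.v0 ?_
    exact (D.subset hs.tail.tail T.v0).imp (D.isEx (T.comp ht.tail.tail (T.pair T.v0 T.v1))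
      (T.comp hu.tail.tail (T.pair T.v0 T.v1)))
  refine h.congr ?_
  intro M hM v hv
  exact ⟨fun h c hc a ha hsa => h a c ⟨ha, hc⟩ hsa, fun h a c hac hsa => h c hac.2 a hac.1 hsa⟩

/-- for high components an extension is a superset -/
theorem Exh.subset {N : Set Z} {b e e' : Z} (he : IsH N b e) (h : Exh N b e' e) : e ⊆ e' := by
  intro u hu
  obtain ⟨a, c, z, rfl, h1, h2⟩ := he.2.2.1 u hu
  exact mem_comp.1 ((h a c h1 h2).1 (mem_comp.2 hu))

/-- elements of the union -/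
theorem mem_chain_union {e0 I g u : Z} : u ∈ e0 ∪ ⋃₀ (img (ap g) I) ↔
    u ∈ e0 ∨ ∃ i ∈ I, u ∈ ap g i := by
  rw [mem_union, mem_sUnion]
  refine or_congr Iff.rfl ?_
  constructor
  · rintro ⟨w, hw, hu⟩
    obtain ⟨i, hi, rfl⟩ := mem_img.1 hw
    exact ⟨i, hi, hu⟩
  · rintro ⟨i, hi, hu⟩; exact ⟨_, mem_img.2 ⟨i, hi, rfl⟩, hu⟩

/-- components of the union -/
theorem mem_comp_chain_union {e0 I g p z : Z} : z ∈ comp (e0 ∪ ⋃₀ (img (ap g) I)) p ↔
    z ∈ comp e0 p ∨ ∃ i ∈ I, z ∈ comp (ap g i) p := by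
  rw [mem_comp, mem_chain_union, mem_comp]
  simp only [mem_comp]

/-- domains of the components of the union -/
theorem dm_comp_chain_union {e0 I g p : Z} : dm (comp (e0 ∪ ⋃₀ (img (ap g) I)) p) =
    dm (comp e0 p) ∪ ⋃₀ (img (ap (gr (fun i => dm (comp (ap g i) p)) I)) I) := by
  ext m
  rw [mem_dm, mem_comp_chain_union, mem_union, mem_dm, mem_sUnion]
  refine or_congr Iff.rfl ?_
  constructor
  · rintro ⟨i, hi, h⟩
    exact ⟨_, mem_img.2 ⟨i, hi, rfl⟩, by rw [ap_gr hi]; exact mem_dm.2 h⟩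
  · rintro ⟨w, hw, h⟩
    obtain ⟨i, hi, rfl⟩ := mem_img.1 hw
    rw [ap_gr hi] at h
    exact ⟨i, hi, mem_dm.1 h⟩

/-- the union of two elements of an ordinal is an element -/
theorem union_mem_ord {o x y : Z} (ho : o.IsOrdinal) (hx : x ∈ o) (hy : y ∈ o) : x ∪ y ∈ o := by
  rcases IsOrdinal.subset_total (ho.mem hx) (ho.mem hy) with h | h
  · have : x ∪ y = y := by
      ext z
      rw [mem_union]
      exact ⟨fun h1 => h1.elim (fun h2 => h h2) id, Or.inr⟩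
    rw [this]; exact hy
  · have : x ∪ y = x := by
      ext z
      rw [mem_union]
      exact ⟨fun h1 => h1.elim id (fun h2 => h h2), Or.inl⟩
    rw [this]; exact hx

/-- unions of chains: `e0` and the `ap g i` (`i ∈ I`) form a chain with least element `e0`, and
`I` is covered by `X(b)` -/
theorem chain_union {N : Set Z} (hN : TC N) {b : Z} (hb : b ∈ dl N) (hb0 : b ≠ ∅) {e0 I g : Z}
    (h0 : IsH N b e0) (hI : I ∈ N) (hIX : Cov N (XX N b) I) (hg : g ∈ N)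
    (hH : ∀ i ∈ I, IsH N b (ap g i)) (h1 : ∀ i ∈ I, Exh N b (ap g i) e0)
    (hch : ∀ i ∈ I, ∀ j ∈ I, Exh N b (ap g i) (ap g j) ∨ Exh N b (ap g j) (ap g i)) :
    IsH N b (e0 ∪ ⋃₀ (img (ap g) I)) ∧ Exh N b (e0 ∪ ⋃₀ (img (ap g) I)) e0 ∧
      ∀ i ∈ I, Exh N b (e0 ∪ ⋃₀ (img (ap g) I)) (ap g i) := by
  have _i := hN.sing
  have hT := hN.toTM
  have tg := hT.cst hg
  have hbN := dl_N hN hb
  refine ⟨⟨hT.union_mem h0.1 (hT.sUnion_mem (hT.img_mem' hI (T.ap tg T.v0))), ?_, ?_, ?_⟩, ?_, ?_⟩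
  · intro u hu
    rcases mem_chain_union.1 hu with hu | ⟨i, hi, hu⟩
    · exact h0.2.1 hu
    · exact (hH i hi).2.1 hu
  · intro u hu
    rcases mem_chain_union.1 hu with hu | ⟨i, hi, hu⟩
    · exact h0.2.2.1 u hu
    · exact (hH i hi).2.2.1 u hu
  · intro a c hac hba
    have haN := dl_N hN (hac.left hN)
    have hcN := dl_N hN hac.2
    have ha0 : a ≠ ∅ := by
      rintro rfl
      exact hb0 (by
        rw [ZFSet.eq_empty]; intro y hy
        exact notMem_empty _ (hba hy))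
    have hp : pair a c ∈ N := hT.pair_mem haN hcN
    refine ⟨?_, ?_⟩
    · rw [dm_comp_chain_union]
      refine union_mem_ord (isOrdinal_chp hN haN) (h0.2.2.2 a c hac hba).1 ?_
      rw [chp_of_ne N ha0]
      refine chi_sup hN haN hI (hIX.mono (XX_mono hN hbN haN hba) (fun _ h => h)) ?_ ?_
      · exact hT.gr_mem' hI (T.dm (T.comp (T.ap tg T.v0) (hT.cst hp)))
      · intro i hi
        rw [ap_gr hi, ← chp_of_ne N ha0]
        exact ((hH i hi).2.2.2 a c hac hba).1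
    · intro z hz
      rcases mem_comp_chain_union.1 hz with hz | ⟨i, hi, hz⟩
      · obtain ⟨m, hm, y, hy, rfl⟩ := mem_prod.1 ((h0.2.2.2 a c hac hba).2 hz)
        exact pair_mem_prod.2 ⟨mem_dm.2 (mem_comp_chain_union.2 (Or.inl (mem_dm.1 hm))), hy⟩
      · obtain ⟨m, hm, y, hy, rfl⟩ := mem_prod.1 (((hH i hi).2.2.2 a c hac hba).2 hz)
        exact pair_mem_prod.2 ⟨mem_dm.2 (mem_comp_chain_union.2 (Or.inr ⟨i, hi, mem_dm.1 hm⟩)),
          hy⟩
  · intro a c hac hba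
    refine ⟨fun z hz => mem_comp_chain_union.2 (Or.inl hz), fun m hm y hy => ?_⟩
    rcases mem_comp_chain_union.1 hy with hy | ⟨i, hi, hy⟩
    · exact hy
    · exact (h1 i hi a c hac hba).2 m hm y hy
  · intro i hi a c hac hba
    refine ⟨fun z hz => mem_comp_chain_union.2 (Or.inr ⟨i, hi, hz⟩), fun m hm y hy => ?_⟩
    rcases mem_comp_chain_union.1 hy with hy | ⟨j, hj, hy⟩
    · exact (h1 i hi a c hac hba).1 hy
    · rcases hch i hi j hj with h | h
      · exact (h a c hac hba).1 hy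
      · exact (h a c hac hba).2 m hm y hy

end Pool.Agent.Lib.Ctm
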