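import Pool.Agent.Lib.Ctm.Ord

/-!
# Choice functions and well-orderings inside a transitive model of ZFC
-/

namespace Pool.Agent.Lib.Ctm

open Pool.Agent.Lib.Forcing ZFSet

/-- the family of the sets `{x} × x`, `x` a nonempty subset of `a` in `M` -/
noncomputable def chFam (M : Set Z) (a : Z) : Z :=
  img (fun x => ZFSet.prod {x} x) (ZFSet.sep (fun x => x ≠ ∅) (pw M a))

theorem TM.chFam_mem {M : Set Z} (hM : TM M) {a : Z} (ha : a ∈ M) : chFam M a ∈ M := by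
  have _i := hM.sing
  have h : T {M} (fun M v => Ctm.img (fun x => ZFSet.prod {x} x)
      (ZFSet.sep (fun x => x ≠ ∅) (Ctm.pw M (v 0)))) := by
    refine T.img (f := fun _ x _ => ZFSet.prod {x} x) ?_ ?_
    · refine T.sep (R := fun _ x _ => x ≠ ∅) (T.pw T.v0) ?_
      exact (D.eq T.v0 T.empty).neg
    · exact T.prod (T.singleton T.v0) T.v0
  exact h.mem M rfl (fun _ => a) (fun _ => ha)

theorem TM.mem_chFam {M : Set Z} {a y : Z} :
    y ∈ chFam M a ↔ ∃ x, x ∈ M ∧ x ⊆ a ∧ x ≠ ∅ ∧ y = ZFSet.prod {x} x := by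
  rw [chFam, mem_img]
  constructor
  · rintro ⟨x, hx, rfl⟩
    rw [mem_sep, mem_pw] at hx
    exact ⟨x, hx.1.1, hx.1.2, hx.2, rfl⟩
  · rintro ⟨x, h1, h2, h3, rfl⟩
    exact ⟨x, mem_sep.2 ⟨mem_pw.2 ⟨h1, h2⟩, h3⟩, rfl⟩

/-- a choice function for the nonempty subsets of `a` -/
theorem TC.choice {M : Set Z} (hM : TC M) {a : Z} (ha : a ∈ M) :
    ∃ c ∈ M, (∀ x ∈ M, x ⊆ a → x ≠ ∅ → ap c x ∈ x) ∧ ap c ∅ = ∅ := by
  have hF := hM.chFam_mem ha
  have hne : ∀ x : Z, x ≠ ∅ → ∃ z, z ∈ x := by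
    intro x hx
    by_contra h
    exact hx ((ZFSet.eq_empty x).2 fun y hy => h ⟨y, hy⟩)
  obtain ⟨C, hC⟩ := hM.ac ⟨chFam M a, hF⟩ (by
    rintro ⟨y, hyM⟩ hy
    obtain ⟨x, h1, h2, h3, rfl⟩ := TM.mem_chFam.1 hy
    obtain ⟨z, hz⟩ := hne x h3
    have hp : pair x z ∈ ZFSet.prod {x} x := pair_mem_prod.2 ⟨mem_singleton.2 rfl, hz⟩
    exact ⟨⟨pair x z, hM.pair_mem h1 (hM.trans _ h1 _ hz)⟩, hp⟩) (by
    rintro ⟨y, hyM⟩ ⟨y', hyM'⟩ hy hy' hyy' ⟨z, hz⟩ ⟨h4, h5⟩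
    obtain ⟨x, h1, h2, h3, rfl⟩ := TM.mem_chFam.1 hy
    obtain ⟨x', h1', h2', h3', rfl⟩ := TM.mem_chFam.1 hy'
    obtain ⟨p, hp, q, hq, rfl⟩ := mem_prod.1 h4
    obtain ⟨p', hp', q', hq', h6⟩ := mem_prod.1 h5
    obtain ⟨rfl, rfl⟩ := pair_inj.1 h6
    rw [mem_singleton] at hp hp'
    subst hp
    subst hp'
    exact hyy' rfl)
  have hU := hM.sUnion_mem hF
  have hc : C.1 ∩ (⋃₀ (chFam M a) : Z) ∈ M := by
    have _i := hM.toTM.sing
    have h : T {M} (fun _ v => v 0 ∩ v 1) := T.inter T.v0 T.v1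
    exact h.mem M rfl (cons C.1 (fun _ => ⋃₀ (chFam M a))) (In.cons (fun _ => hU) C.2)
  have key : ∀ x z, pair x z ∈ C.1 ∩ (⋃₀ (chFam M a) : Z) →
      x ∈ M ∧ x ⊆ a ∧ x ≠ ∅ ∧ z ∈ x ∧ pair x z ∈ C.1 := by
    intro x z h
    rw [mem_inter, mem_sUnion] at h
    obtain ⟨h1, y, hy, h2⟩ := h
    obtain ⟨x', h3, h4, h5, rfl⟩ := TM.mem_chFam.1 hy
    rw [pair_mem_prod, mem_singleton] at h2
    obtain ⟨rfl, h6⟩ := h2
    exact ⟨h3, h4, h5, h6, h1⟩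
  refine ⟨_, hc, ?_, ?_⟩
  · intro x hx hxa hx0
    have hy : ZFSet.prod {x} x ∈ chFam M a := TM.mem_chFam.2 ⟨x, hx, hxa, hx0, rfl⟩
    obtain ⟨z, ⟨h1, h2⟩, h3⟩ := hC ⟨ZFSet.prod {x} x, hM.trans _ hF _ hy⟩ hy
    obtain ⟨p, hp, q, hq, h4⟩ := mem_prod.1 h2
    rw [mem_singleton] at hp
    subst hp
    have h5 : ap (C.1 ∩ (⋃₀ (chFam M a) : Z)) p = q := by
      refine ap_eq ?_ ?_
      · rw [← h4, mem_inter, mem_sUnion]
        exact ⟨h1, _, hy, h2⟩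
      · intro q' hq'
        obtain ⟨k1, k2, k3, k4, k5⟩ := key _ _ hq'
        have := h3 ⟨pair p q', hM.pair_mem k1 (hM.trans _ k1 _ k4)⟩
          ⟨k5, pair_mem_prod.2 ⟨mem_singleton.2 rfl, k4⟩⟩
        have h6 := congrArg Subtype.val this
        rw [h4] at h6
        exact (pair_inj.1 h6).2
    rw [h5]
    exact hq
  · rw [ap]
    have : ZFSet.sep (fun z => pair ∅ z ∈ C.1 ∩ (⋃₀ (chFam M a) : Z))
        (⋃₀ (⋃₀ (C.1 ∩ (⋃₀ (chFam M a) : Z)) : Z)) = ∅ := by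
      rw [ZFSet.eq_empty]
      intro z hz
      rw [mem_sep] at hz
      exact (key _ _ hz.2).2.2.1 rfl
    rw [this, sUnion_empty]

/-- `F` of the proof of the well-ordering theorem -/
noncomputable def woF (c a : Z) : Z → Z := recF (fun x f => ap c (a \ img (ap f) x))

theorem woF_eq (c a x : Z) : woF c a x = ap c (a \ img (woF c a) x) := by
  rw [woF, recF_eq]
  congr 2
  ext z
  rw [mem_img, mem_img]
  refine exists_congr fun y => and_congr_right fun hy => ?_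
  rw [ap_gr (mem_tc_of_mem hy)]

theorem T.woF {K : Set (Set Z)} [MK K] {c a : Z} (hc : ∀ M ∈ K, c ∈ M) (ha : ∀ M ∈ K, a ∈ M)
    {s : Set Z → (ℕ → Z) → Z} (hs : T K s) : T K (fun M v => woF c a (s M v)) := by
  refine T.recur (G := fun _ x f _ => Ctm.ap c (a \ Ctm.img (Ctm.ap f) x)) ?_ hs
  refine T.ap (T.const hc) (T.sdiff (T.const ha) ?_)
  exact T.img (f := fun _ y v => Ctm.ap (v 1) y) T.v0 (T.ap T.v2 T.v0)

/-- the well-ordering theorem: a bijection `w` between an ordinal `b` and `a` -/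
theorem TC.wo {M : Set Z} (hM : TC M) {a : Z} (ha : a ∈ M) :
    ∃ b ∈ M, b.IsOrdinal ∧ ∃ w ∈ M, (∀ x ∈ b, ap w x ∈ a) ∧ (∀ y ∈ a, ∃ x ∈ b, ap w x = y) ∧
      (∀ x ∈ b, ∀ y ∈ b, ap w x = ap w y → x = y) := by
  have _i := hM.toTM.sing
  obtain ⟨c, hc, hc1, hc2⟩ := hM.choice ha
  have hcK : ∀ N ∈ ({M} : Set (Set Z)), c ∈ N := by rintro _ rfl; exact hc
  have haK : ∀ N ∈ ({M} : Set (Set Z)), a ∈ N := by rintro _ rfl; exact ha
  have hmem : ∀ x ∈ M, woF c a x ∈ M := fun x hx =>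
    (T.woF (K := {M}) hcK haK T.v0).mem M rfl (fun _ => x) (fun _ => hx)
  have hrem : ∀ x ∈ M, a \ img (woF c a) x ∈ M := by
    intro x hx
    have h : T {M} (fun _ v => a \ Ctm.img (Ctm.woF c a) (v 0)) := by
      refine T.sdiff (T.const haK) ?_
      exact T.img (f := fun _ y _ => Ctm.woF c a y) T.v0 (T.woF hcK haK T.v0)
    exact h.mem M rfl (fun _ => x) (fun _ => hx)
  have hval : ∀ x ∈ M, a \ img (woF c a) x ≠ ∅ →
      woF c a x ∈ a ∧ ∀ y ∈ x, woF c a x ≠ woF c a y := by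
    intro x hx hne
    have h1 := hc1 _ (hrem x hx) (fun z hz => (mem_sdiff.1 hz).1) hne
    rw [← woF_eq, mem_sdiff, mem_img] at h1
    exact ⟨h1.1, fun y hy h => h1.2 ⟨y, hy, h⟩⟩
  -- injectivity
  have hinj : ∀ x ∈ M, ∀ y ∈ M, x.IsOrdinal → y.IsOrdinal → a \ img (woF c a) x ≠ ∅ →
      a \ img (woF c a) y ≠ ∅ → woF c a x = woF c a y → x = y := by
    intro x hx y hy hxo hyo hx0 hy0 he
    rcases IsOrdinal.mem_trichotomous hxo hyo with h | h | h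
    · exact absurd he.symm ((hval y hy hy0).2 x h)
    · exact h
    · exact absurd he ((hval x hx hx0).2 y h)
  have hex : ∃ b, b ∈ M ∧ b.IsOrdinal ∧ a \ img (woF c a) b = ∅ := by
    by_contra hno
    have hno' : ∀ b ∈ M, b.IsOrdinal → a \ img (woF c a) b ≠ ∅ :=
      fun b hb ho h => hno ⟨b, hb, ho, h⟩
    have hD0 : D {M} (fun _ v => (v 1).IsOrdinal ∧ Ctm.woF c a (v 1) = v 0) :=
      (D.isOrdinal T.v1).and (D.eq (T.woF hcK haK T.v1) T.v0)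
    have hx : ZFSet.sep (fun z => ∃ b ∈ M, b.IsOrdinal ∧ woF c a b = z) a ∈ M := by
      have h : D {M} (fun M v => ∃ b ∈ M, b.IsOrdinal ∧ Ctm.woF c a b = v 0) := by
        refine D.ex (R := fun _ b v => b.IsOrdinal ∧ Ctm.woF c a b = v 0) ?_
        exact (D.isOrdinal T.v0).and (D.eq (T.woF hcK haK T.v0) T.v1)
      exact D.sep_mem (R := fun M z _ => ∃ b ∈ M, b.IsOrdinal ∧ Ctm.woF c a b = z) h
        (M := M) rfl (v := fun _ => ∅) (fun _ => hM.toTM.empty_mem) ha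
    obtain ⟨w, hw, h1⟩ := D.repl (K := {M}) (R := fun _ z b _ => b.IsOrdinal ∧ Ctm.woF c a b = z)
      hD0 (M := M) rfl (v := fun _ => ∅) (fun _ => hM.toTM.empty_mem) hx (by
        intro z hz
        obtain ⟨hz1, b, hb, ho, hbz⟩ := mem_sep.1 hz
        refine ⟨b, ⟨hb, ho, hbz⟩, ?_⟩
        rintro b' ⟨hb', ho', hbz'⟩
        exact hinj b' hb' b hb ho' ho (hno' b' hb' ho') (hno' b hb ho) (hbz'.trans hbz.symm))
    have h2 : rk w ∈ w := by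
      rw [h1]
      have h3 := hM.rk_mem hw
      have h4 := hval (rk w) h3 (hno' _ h3 (isOrdinal_rk w))
      exact ⟨woF c a (rk w), mem_sep.2 ⟨h4.1, rk w, h3, isOrdinal_rk w, rfl⟩, h3,
        isOrdinal_rk w, rfl⟩
    have h5 := rank_lt_of_mem h2
    have h6 : rk (rk w) = rk w := rk_of_ord (isOrdinal_rk w)
    have h7 : rk (rk w) ∈ rk w := rk_mem_rk.2 h5
    rw [h6] at h7
    exact mem_irrefl _ h7
  obtain ⟨b, ⟨hb, hbo, hb0⟩, hmin⟩ := exists_min (fun b => b ∈ M ∧ b.IsOrdinal ∧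
    a \ img (woF c a) b = ∅) hex.choose_spec
  have hne : ∀ x ∈ b, a \ img (woF c a) x ≠ ∅ := fun x hx h =>
    hmin x hx ⟨hM.trans _ hb _ hx, hbo.mem hx, h⟩
  refine ⟨b, hb, hbo, gr (woF c a) b, ?_, ?_, ?_, ?_⟩
  · have h : T {M} (fun _ v => Ctm.gr (Ctm.woF c a) (v 0)) :=
      T.graph (f := fun _ y _ => Ctm.woF c a y) T.v0 (T.woF hcK haK T.v0)
    exact h.mem M rfl (fun _ => b) (fun _ => hb)
  · intro x hx
    rw [ap_gr hx]
    exact (hval x (hM.trans _ hb _ hx) (hne x hx)).1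
  · intro y hy
    have h1 : y ∈ img (woF c a) b := by
      by_contra h
      have : y ∈ a \ img (woF c a) b := mem_sdiff.2 ⟨hy, h⟩
      rw [hb0] at this
      exact notMem_empty _ this
    obtain ⟨x, hx, rfl⟩ := mem_img.1 h1
    exact ⟨x, hx, ap_gr hx⟩
  · intro x hx y hy h
    rw [ap_gr hx, ap_gr hy] at h
    exact hinj x (hM.trans _ hb _ hx) y (hM.trans _ hb _ hy) (hbo.mem hx) (hbo.mem hy)
      (hne x hx) (hne y hy) h

/-- inverse of an injective function -/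
theorem TM.inv {M : Set Z} (hM : TM M) {a h : Z} (ha : a ∈ M) (hh : h ∈ M)
    (hi : ∀ x ∈ a, ∀ y ∈ a, ap h x = ap h y → x = y) :
    ∃ g ∈ M, ∀ x ∈ a, ap g (ap h x) = x := by
  have _i := hM.sing
  have hK : ∀ N ∈ ({M} : Set (Set Z)), h ∈ N := by rintro _ rfl; exact hh
  refine ⟨img (fun x => pair (ap h x) x) a, ?_, ?_⟩
  · have hT : T {M} (fun _ v => Ctm.img (fun x => ZFSet.pair (Ctm.ap h x) x) (v 0)) :=
      T.img (f := fun _ x _ => ZFSet.pair (Ctm.ap h x) x) T.v0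
        (T.pair (T.ap (T.const hK) T.v0) T.v0)
    exact hT.mem M rfl (fun _ => a) (fun _ => ha)
  · intro x hx
    refine ap_eq (mem_img.2 ⟨x, hx, rfl⟩) ?_
    intro z hz
    obtain ⟨y, hy, h1⟩ := mem_img.1 hz
    obtain ⟨h2, h3⟩ := pair_inj.1 h1
    rw [h3]
    exact (hi x hx y hy h2).symm

end Pool.Agent.Lib.Ctm
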