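import Pool.Agent.Lib.Ctm.Chain
import Pool.Agent.Lib.Ctm.GenS

/-!
# The decision lemma
-/

namespace Pool.Agent.Lib.Ctm

open Pool.Agent.Lib.Forcing ZFSet

/-- the second component with the components of `l` below `b`, of `e` above `b`, and no other -/
noncomputable def cmb (N : Set Z) (b l e : Z) : Z :=
  ZFSet.sep (fun u => ∃ i z, u = pair i z ∧ ∃ a c, i = pair a c ∧ (Pr N a c ∧
    ((c ⊆ b ∧ pair i z ∈ l) ∨ (b ⊆ a ∧ pair i z ∈ e)))) (VM N (kap N))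

theorem pair_mem_cmb {N : Set Z} {b l e a c z : Z} :
    pair (pair a c) z ∈ cmb N b l e ↔ pair (pair a c) z ∈ VM N (kap N) ∧ Pr N a c ∧
      ((c ⊆ b ∧ pair (pair a c) z ∈ l) ∨ (b ⊆ a ∧ pair (pair a c) z ∈ e)) := by
  rw [cmb, mem_sep]
  refine and_congr_right fun _ => ?_
  constructor
  · rintro ⟨i, z', h1, a', c', h2, h3⟩
    obtain ⟨rfl, rfl⟩ := pair_inj.1 h1
    obtain ⟨rfl, rfl⟩ := pair_inj.1 h2
    exact h3
  · intro h
    exact ⟨_, _, rfl, _, _, rfl, h⟩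

theorem exists_of_mem_cmb {N : Set Z} {b l e u : Z} (h : u ∈ cmb N b l e) :
    ∃ a c z, u = pair (pair a c) z ∧ u ∈ VM N (kap N) ∧ Pr N a c ∧
      ((c ⊆ b ∧ u ∈ l) ∨ (b ⊆ a ∧ u ∈ e)) := by
  obtain ⟨h0, i, z, rfl, a, c, rfl, h1, h2⟩ := mem_sep.1 h
  exact ⟨a, c, z, rfl, h0, h1, h2⟩

protected theorem T.cmb {N : Set Z} [MK ({N} : Set (Set Z))] {s t q : Set Z → (ℕ → Z) → Z}
    (hs : T {N} s) (ht : T {N} t) (hq : T {N} q) :
    T {N} (fun M v => Ctm.cmb N (s M v) (t M v) (q M v)) := by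
  refine T.sep (R := fun M u v => ∃ i z, u = ZFSet.pair i z ∧ ∃ a c, i = ZFSet.pair a c ∧
    (Pr N a c ∧ ((c ⊆ s M v ∧ ZFSet.pair i z ∈ t M v) ∨
      (s M v ⊆ a ∧ ZFSet.pair i z ∈ q M v)))) (T.VMN T.kap) ?_
  refine D.expair (R := fun M i z v => ∃ a c, i = ZFSet.pair a c ∧
    (Pr N a c ∧ ((c ⊆ s M (tl v) ∧ ZFSet.pair i z ∈ t M (tl v)) ∨
      (s M (tl v) ⊆ a ∧ ZFSet.pair i z ∈ q M (tl v))))) T.v0 ?_
  refine D.expair (R := fun M a c v => Pr N a c ∧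
    ((c ⊆ s M (tl (tl (tl v))) ∧ ZFSet.pair (v 1) (v 0) ∈ t M (tl (tl (tl v)))) ∨
      (s M (tl (tl (tl v))) ⊆ a ∧ ZFSet.pair (v 1) (v 0) ∈ q M (tl (tl (tl v)))))) T.v1 ?_
  refine (D.pr T.v1 T.v0).and (((D.subset T.v0 ?_).and (D.mem (T.pair T.v3 T.v2) ?_)).or
    ((D.subset ?_ T.v1).and (D.mem (T.pair T.v3 T.v2) ?_)))
  · exact hs.tail.tail.tail.tail.tail
  · exact ht.tail.tail.tail.tail.tail
  · exact hs.tail.tail.tail.tail.tail
  · exact hq.tail.tail.tail.tail.tail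

section Cmb

variable {N : Set Z} (hN : TC N)

include hN

theorem cmb_mem {b l e : Z} (hb : b ∈ N) (hl : l ∈ N) (he : e ∈ N) : cmb N b l e ∈ N := by
  have _i := hN.sing
  exact (T.cmb (hN.toTM.cst hb) (hN.toTM.cst hl) (hN.toTM.cst he)).mem N rfl (fun _ => ∅)
    (fun _ => hN.empty_mem)

/-- coded elements of conditions -/
theorem IsC.code_mem {a c x z : Z} (h : Pr N a c) (hx : IsC (chp N a) (YY N c) x) (hz : z ∈ x) :
    pair (pair a c) z ∈ VM N (kap N) :=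
  YY_subset_V hN h.2 (elem_mem_YY hN h (hx.sub hN (dl_N hN (h.left hN)) hz))

theorem comp_cmb_low {b l e a c : Z} (h : Pr N a c) (hcb : c ⊆ b)
    (hc : IsC (chp N a) (YY N c) (comp l (pair a c))) :
    comp (cmb N b l e) (pair a c) = comp l (pair a c) := by
  ext z
  rw [mem_comp, pair_mem_cmb]
  constructor
  · rintro ⟨_, _, ⟨_, h1⟩ | ⟨h1, _⟩⟩
    · exact mem_comp.2 h1
    · exact absurd (h1 (hcb h.1)) (ZFSet.mem_irrefl a)
  · intro hz
    exact ⟨hc.code_mem hN h hz, h, Or.inl ⟨hcb, mem_comp.1 hz⟩⟩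

theorem comp_cmb_high {b l e a c : Z} (h : Pr N a c) (hba : b ⊆ a)
    (hc : IsC (chp N a) (YY N c) (comp e (pair a c))) :
    comp (cmb N b l e) (pair a c) = comp e (pair a c) := by
  ext z
  rw [mem_comp, pair_mem_cmb]
  constructor
  · rintro ⟨_, _, ⟨h1, _⟩ | ⟨_, h1⟩⟩
    · exact absurd (hba (h1 h.1)) (ZFSet.mem_irrefl a)
    · exact mem_comp.2 h1
  · intro hz
    exact ⟨hc.code_mem hN h hz, h, Or.inr ⟨hba, mem_comp.1 hz⟩⟩

omit hN in
theorem comp_cmb_mid {b l e a c : Z} (h1 : ¬ c ⊆ b) (h2 : ¬ b ⊆ a) :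
    comp (cmb N b l e) (pair a c) = ∅ := by
  rw [ZFSet.eq_empty]
  intro z hz
  rw [mem_comp, pair_mem_cmb] at hz
  rcases hz.2.2 with h | h
  · exact h1 h.1
  · exact h2 h.1

theorem isFp_cmb {b l e : Z} (hb : b ∈ N) (hl : l ∈ N) (he : e ∈ N)
    (h1 : ∀ a c, Pr N a c → c ⊆ b → IsC (chp N a) (YY N c) (comp l (pair a c)))
    (h2 : ∀ a c, Pr N a c → b ⊆ a → IsC (chp N a) (YY N c) (comp e (pair a c))) :
    IsFp N (cmb N b l e) := by
  refine ⟨cmb_mem hN hb hl he, ZFSet.sep_subset, fun a c h => ?_⟩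
  by_cases hcb : c ⊆ b
  · rw [comp_cmb_low hN h hcb (h1 a c h hcb)]
    exact h1 a c h hcb
  · by_cases hba : b ⊆ a
    · rw [comp_cmb_high hN h hba (h2 a c h hba)]
      exact h2 a c h hba
    · rw [comp_cmb_mid hcb hba]
      exact IsC.empty (empty_mem_chp hN (dl_N hN (h.left hN)))

/-- the high part of a second component -/
theorem isH_high {b f : Z} (hb : b ∈ N) (hf : IsFp N f) : IsH N b (cmb N b ∅ f) := by
  refine ⟨cmb_mem hN hb hN.empty_mem hf.1, ZFSet.sep_subset, ?_, ?_⟩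
  · intro u hu
    obtain ⟨a, c, z, rfl, _, h1, ⟨_, h2⟩ | ⟨h2, _⟩⟩ := exists_of_mem_cmb hu
    · exact absurd h2 (notMem_empty _)
    · exact ⟨a, c, z, rfl, h1, h2⟩
  · intro a c h hba
    rw [comp_cmb_high hN h hba (hf.2.2 a c h)]
    exact hf.2.2 a c h

/-- the low part of a second component -/
theorem low_mem {b f : Z} (hb : b ∈ N) (hf : IsFp N f) : cmb N b f ∅ ∈ pw N (YY N b) := by
  rw [mem_pw]
  refine ⟨cmb_mem hN hb hf.1 hN.empty_mem, fun u hu => ?_⟩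
  obtain ⟨a, c, z, rfl, _, h1, ⟨h2, h3⟩ | ⟨_, h2⟩⟩ := exists_of_mem_cmb hu
  · have h4 := hf.2.2 a c h1
    have h5 := elem_mem_YY hN h1 (h4.sub hN (dl_N hN (h1.left hN)) (mem_comp.2 h3))
    exact YY_mono hN (dl_N hN h1.2) hb h2 h5
  · exact absurd h2 (notMem_empty _)

/-- a pair relevant to a set containing `b` does not cross `b` -/
theorem Rel.cases {t b a c : Z} (hbt : b ∈ t) (hbd : b ∈ dl N) (h : Pr N a c) (hr : Rel t a c) :
    c ⊆ b ∨ b ⊆ a := by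
  rcases hr with ⟨_, _, hx⟩ | hx
  · rcases IsOrdinal.mem_or_subset (dl_ord hN (h.left hN)) (dl_ord hN hbd) with h1 | h1
    · rcases IsOrdinal.mem_or_subset (dl_ord hN hbd) (dl_ord hN h.2) with h2 | h2
      · exact absurd ⟨h1, h2⟩ (hx b hbt)
      · exact Or.inl h2
    · exact Or.inr h1
  · exact Or.inr (hx b hbt)

end Cmb

/-! ## forcing the value of a function -/

/-- `q` forces that the value of `h` at `η` is `ζ` -/
def Fo (N : Set Z) (h q η ζ : Z) : Prop :=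
  ∀ G, Gen N (PP N) (LL N) G → q ∈ G → ap (val G h) η = ζ

theorem Fo.mono {N : Set Z} {h q r η ζ : Z} (hf : Fo N h q η ζ)
    (hr : Le (PP N) (LL N) r q) : Fo N h r η ζ := fun G hG hrG => hf G hG (hG.up r hrG q hr)

section Fo

variable {N : Set Z} (hN : TC N) (hc : N.Countable)

include hN hc

theorem Fo.unique {h q η ζ ζ' : Z} (hq : q ∈ PP N) (h1 : Fo N h q η ζ) (h2 : Fo N h q η ζ') :
    ζ = ζ' := by
  obtain ⟨G, hG, hqG⟩ := exists_gen hc (PO_PP hN) hq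
  rw [← h1 G hG hqG, ← h2 G hG hqG]

omit hN hc in
theorem dAp : D AllTM (fun _ v => ap (v 0) (v 1) = v 2) := D.eq (T.ap T.v0 T.v1) T.v2

omit hc in
theorem fc_iff_fo {h q η ζ : Z} :
    Fc N (PP N) (LL N) (fun _ v => ap (v 0) (v 1) = v 2) q
      (cons h (cons (chk topc η) (fun _ => chk topc ζ))) ↔ Fo N h q η ζ := by
  have hF := PO_PP hN
  refine forall_congr' fun G => forall_congr' fun hG => forall_congr' fun hqG => ?_
  have ho := Gen.top_mem hF hG hqG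
  change ap (val G h) (val G (chk topc η)) = val G (chk topc ζ) ↔ _
  rw [val_chk ho, val_chk ho]

theorem Fo.truth {h η ζ : Z} (hh : h ∈ N) (hη : η ∈ N) (hζ : ζ ∈ N) {G : Set Z}
    (hG : Gen N (PP N) (LL N) G) {p : Z} (hp : p ∈ G) (he : ap (val G h) η = ζ) :
    ∃ q ∈ G, Fo N h q η ζ := by
  have hF := PO_PP hN
  have ho := Gen.top_mem hF hG hp
  have hv : In N (cons h (cons (chk topc η) (fun _ => chk topc ζ))) :=
    In.cons (In.cons (fun _ => chk_mem hN.toTM hF hζ) (chk_mem hN.toTM hF hη)) hh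
  obtain ⟨q, hq, h1⟩ := fc_truth hN.toTM hc hF dAp hG ho hv (by
    change ap (val G h) (val G (chk topc η)) = val G (chk topc ζ)
    rw [val_chk ho, val_chk ho]
    exact he)
  exact ⟨q, hq, (fc_iff_fo hN).1 h1⟩

theorem D.fo {h : Z} (hh : h ∈ N) {s t u : Set Z → (ℕ → Z) → Z} (hs : T {N} s) (ht : T {N} t)
    (hu : T {N} u) : D {N} (fun M v => s M v ∈ PP N ∧ Fo N h (s M v) (t M v) (u M v)) := by
  have _i := hN.sing
  have hF := PO_PP hN
  have h1 := D.fc hN.toTM hc hF dAp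
  have h2 : D4 {N} (fun _ q x y z => q ∈ PP N ∧ Fc N (PP N) (LL N)
      (fun _ v => ap (v 0) (v 1) = v 2) q (cons x (cons y (fun _ => z)))) := by
    refine h1.congr fun M _ v _ => ?_
    exact Iff.rfl
  have hto : ∀ M ∈ ({N} : Set (Set Z)), topc ∈ M := by
    rintro _ rfl; exact o_mem_N hN.toTM hF
  have h3 := D4.app h2 hs (hN.toTM.cst hh) (T.chk hto ht) (T.chk hto hu)
  refine h3.congr fun M _ v _ => ?_
  exact and_congr_right fun _ => (fc_iff_fo hN).symm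

end Fo

/-! ## the recursion -/

/-- `e`, together with the data `p = ((t, l), η)`, gives a condition forcing the value `ζ` at
`η` -/
def Gd (N : Set Z) (b h p e ζ : Z) : Prop :=
  pair (cFst (cFst p)) (cmb N b (cSnd (cFst p)) e) ∈ PP N ∧
    Fo N h (pair (cFst (cFst p)) (cmb N b (cSnd (cFst p)) e)) (cSnd p) ζ

/-- the candidates at stage `ν` -/
noncomputable def Sst (N : Set Z) (b h w ν E : Z) : Z :=
  ZFSet.sep (fun e => IsH N b e ∧ Exh N b e E ∧ ∃ ζ ∈ chi N b, Gd N b h (ap w ν) e ζ)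
    (pw N (VM N (kap N)))

/-- the recursion -/
noncomputable def eS (N : Set Z) (b h c w e0 : Z) : Z → Z :=
  recF (fun x f => (e0 ∪ ⋃₀ (img (ap f) x)) ∪ ap c (Sst N b h w x (e0 ∪ ⋃₀ (img (ap f) x))))

/-- the unions of the earlier stages -/
noncomputable def ES (N : Set Z) (b h c w e0 ν : Z) : Z := e0 ∪ ⋃₀ (img (eS N b h c w e0) ν)

theorem eS_eq (N : Set Z) (b h c w e0 ν : Z) :
    eS N b h c w e0 ν = ES N b h c w e0 ν ∪ ap c (Sst N b h w ν (ES N b h c w e0 ν)) := by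
  have h1 : img (ap (gr (eS N b h c w e0) (tc ν))) ν = img (eS N b h c w e0) ν := by
    ext z
    rw [mem_img, mem_img]
    refine exists_congr fun y => and_congr_right fun hy => ?_
    rw [ap_gr (mem_tc_of_mem hy)]
  have h2 : eS N b h c w e0 ν = (e0 ∪ ⋃₀ (img (ap (gr (eS N b h c w e0) (tc ν))) ν)) ∪
      ap c (Sst N b h w ν (e0 ∪ ⋃₀ (img (ap (gr (eS N b h c w e0) (tc ν))) ν))) := recF_eq _ ν
  rw [h2, h1]
  rfl

section Rcs

variable {N : Set Z} (hN : TC N) (hc : N.Countable) {b h : Z} (hb : b ∈ N) (hh : h ∈ N)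

include hN hc hb hh

theorem D.gd {s t u : Set Z → (ℕ → Z) → Z} (hs : T {N} s) (ht : T {N} t) (hu : T {N} u) :
    D {N} (fun M v => Gd N b h (s M v) (t M v) (u M v)) := by
  have _i := hN.sing
  exact D.fo hN hc hh (T.pair (T.cFst (T.cFst hs))
    (T.cmb (hN.toTM.cst hb) (T.cSnd (T.cFst hs)) ht)) (T.cSnd hs) hu

theorem T.sst {w : Z} (hw : w ∈ N) {s t : Set Z → (ℕ → Z) → Z} (hs : T {N} s) (ht : T {N} t) :
    T {N} (fun M v => Sst N b h w (s M v) (t M v)) := by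
  have _i := hN.sing
  refine T.sep (R := fun M e v => IsH N b e ∧ Exh N b e (t M v) ∧
    ∃ ζ ∈ Ctm.chi N b, Gd N b h (Ctm.ap w (s M v)) e ζ) (T.pwN (T.VMN T.kap)) ?_
  refine (D.isH (hN.toTM.cst hb) T.v0).and ((D.exh (hN.toTM.cst hb) T.v0 ht.tail).and ?_)
  refine D.bex (R := fun M ζ v => Gd N b h (Ctm.ap w (s M (tl v))) (v 0) ζ)
    (T.chi (hN.toTM.cst hb)) ?_
  exact D.gd hN hc hb hh (T.ap (hN.toTM.cst hw) hs.tail.tail) T.v1 T.v0

theorem T.eS {c w e0 : Z} (hcN : c ∈ N) (hw : w ∈ N) (he0 : e0 ∈ N)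
    {s : Set Z → (ℕ → Z) → Z} (hs : T {N} s) :
    T {N} (fun M v => Ctm.eS N b h c w e0 (s M v)) := by
  have _i := hN.sing
  refine T.recur (G := fun _ x f _ => (e0 ∪ ⋃₀ (Ctm.img (Ctm.ap f) x)) ∪
    Ctm.ap c (Sst N b h w x (e0 ∪ ⋃₀ (Ctm.img (Ctm.ap f) x)))) ?_ hs
  have h1 : T {N} (fun _ v => e0 ∪ ⋃₀ (Ctm.img (Ctm.ap (v 1)) (v 0))) := by
    refine T.union (hN.toTM.cst he0) (T.sUnion ?_)
    exact T.img (f := fun _ y v => Ctm.ap (v 1) y) T.v0 (T.ap T.v2 T.v0)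
  exact T.union h1 (T.ap (hN.toTM.cst hcN) (T.sst hN hc hb hh hw T.v0 h1))

theorem sst_mem {w x E : Z} (hw : w ∈ N) (hx : x ∈ N) (hE : E ∈ N) :
    Sst N b h w x E ∈ N := by
  have _i := hN.sing
  exact (T.sst hN hc hb hh hw (hN.toTM.cst hx) (hN.toTM.cst hE)).mem N rfl (fun _ => ∅)
    (fun _ => hN.empty_mem)

theorem eS_mem {c w e0 x : Z} (hcN : c ∈ N) (hw : w ∈ N) (he0 : e0 ∈ N) (hx : x ∈ N) :
    eS N b h c w e0 x ∈ N := by
  have _i := hN.sing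
  exact (T.eS hN hc hb hh hcN hw he0 (hN.toTM.cst hx)).mem N rfl (fun _ => ∅)
    (fun _ => hN.empty_mem)

theorem gr_eS_mem {c w e0 x : Z} (hcN : c ∈ N) (hw : w ∈ N) (he0 : e0 ∈ N) (hx : x ∈ N) :
    gr (eS N b h c w e0) x ∈ N := by
  have _i := hN.sing
  exact hN.toTM.gr_mem' hx (T.eS hN hc hb hh hcN hw he0 T.v0)

/-- one step of the recursion -/
theorem eS_step {c w e0 ν : Z}
    (hc1 : ∀ x ∈ N, x ⊆ pw N (VM N (kap N)) → x ≠ ∅ → ap c x ∈ x) (hc2 : ap c ∅ = ∅)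
    (hw : w ∈ N) (hν : ν ∈ N) (hE : IsH N b (ES N b h c w e0 ν)) :
    IsH N b (eS N b h c w e0 ν) ∧ Exh N b (eS N b h c w e0 ν) (ES N b h c w e0 ν) ∧
      (Sst N b h w ν (ES N b h c w e0 ν) ≠ ∅ →
        eS N b h c w e0 ν ∈ Sst N b h w ν (ES N b h c w e0 ν)) := by
  by_cases h0 : Sst N b h w ν (ES N b h c w e0 ν) = ∅
  · have h1 : eS N b h c w e0 ν = ES N b h c w e0 ν := by
      rw [eS_eq, h0, hc2]
      ext z
      simp
    rw [h1]
    exact ⟨hE, Exh.refl _ _ _, fun h => absurd h0 h⟩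
  · have h1 := hc1 _ (sst_mem hN hc hb hh hw hν hE.1) ZFSet.sep_subset h0
    obtain ⟨_, h2, h3, _⟩ := mem_sep.1 h1
    have h4 : eS N b h c w e0 ν = ap c (Sst N b h w ν (ES N b h c w e0 ν)) := by
      rw [eS_eq]
      ext z
      rw [mem_union]
      exact ⟨fun h => h.elim (fun h => Exh.subset hE h3 h) id, Or.inr⟩
    rw [h4]
    exact ⟨h2, h3, fun _ => h1⟩

end Rcs

section Ind

variable {N : Set Z} (hN : TC N) (hc : N.Countable) {b h : Z} (hb : b ∈ dl N) (hb0 : b ≠ ∅)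
  (hh : h ∈ N) {c w e0 lam : Z} (hcN : c ∈ N)
  (hc1 : ∀ x ∈ N, x ⊆ pw N (VM N (kap N)) → x ≠ ∅ → ap c x ∈ x) (hc2 : ap c ∅ = ∅)
  (hw : w ∈ N) (he0 : IsH N b e0) (hlN : lam ∈ N) (hlo : lam.IsOrdinal)
  (hlX : Cov N (XX N b) lam)

include hN hc hb hb0 hh hcN hc1 hc2 hw he0 hlN hlo hlX

theorem eS_ind (ν : Z) : ν ∈ (insert lam lam : Z) →
    IsH N b (ES N b h c w e0 ν) ∧ Exh N b (ES N b h c w e0 ν) e0 ∧
      ∀ μ ∈ ν, Exh N b (ES N b h c w e0 ν) (eS N b h c w e0 μ) := by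
  have hbN := dl_N hN hb
  induction ν using ZFSet.inductionOn with
  | _ ν ih =>
    intro hν
    have hlo' : (insert lam lam : Z).IsOrdinal := isOrdinal_succ hlo
    have hνN : ν ∈ N := hN.trans _ (hN.insert_mem hlN hlN) _ hν
    have hνo : ν.IsOrdinal := hlo'.mem hν
    have hνl : ν ⊆ lam := by
      rcases mem_insert_iff.1 hν with rfl | h1
      · exact fun _ h => h
      · exact hlo.isTransitive.subset_of_mem h1
    have ih' : ∀ μ ∈ ν, _ := fun μ hμ => ih μ hμ (mem_insert_of_mem _ (hνl hμ))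
    have hst : ∀ μ ∈ ν, IsH N b (eS N b h c w e0 μ) ∧
        Exh N b (eS N b h c w e0 μ) (ES N b h c w e0 μ) := fun μ hμ => by
      have h1 := eS_step hN hc hbN hh hc1 hc2 hw (hN.trans _ hνN _ hμ) (ih' μ hμ).1
      exact ⟨h1.1, h1.2.1⟩
    have hlt : ∀ μ ∈ ν, ∀ ξ ∈ μ, Exh N b (eS N b h c w e0 μ) (eS N b h c w e0 ξ) :=
      fun μ hμ ξ hξ => (hst μ hμ).2.trans ((ih' μ hμ).2.2 ξ hξ)
    have hap : ∀ μ ∈ ν, ap (gr (eS N b h c w e0) ν) μ = eS N b h c w e0 μ := fun μ hμ =>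
      ap_gr hμ
    have him : img (ap (gr (eS N b h c w e0) ν)) ν = img (eS N b h c w e0) ν := by
      ext z
      rw [mem_img, mem_img]
      exact exists_congr fun y => and_congr_right fun hy => by rw [hap y hy]
    have key := chain_union hN hb hb0 he0 hνN (hlX.mono (fun _ h => h) hνl)
      (gr_eS_mem hN hc hbN hh hcN hw he0.1 hνN)
      (fun μ hμ => by rw [hap μ hμ]; exact (hst μ hμ).1)
      (fun μ hμ => by rw [hap μ hμ]; exact (hst μ hμ).2.trans (ih' μ hμ).2.1)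
      (fun μ hμ ξ hξ => by
        rw [hap μ hμ, hap ξ hξ]
        rcases IsOrdinal.mem_trichotomous (hνo.mem hμ) (hνo.mem hξ) with h1 | h1 | h1
        · exact Or.inr (hlt ξ hξ μ h1)
        · subst h1; exact Or.inl (Exh.refl _ _ _)
        · exact Or.inl (hlt μ hμ ξ h1))
    rw [him] at key
    refine ⟨key.1, key.2.1, fun μ hμ => ?_⟩
    have h2 := key.2.2 μ hμ
    rw [hap μ hμ] at h2
    exact h2

end Ind

/-! ## changing the irrelevant components -/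

/-- the high part of `f` at the pairs relevant to `t`, the high part of `e` at the other ones -/
noncomputable def hmx (N : Set Z) (b t f e : Z) : Z :=
  ZFSet.sep (fun u => ∃ i z, u = pair i z ∧ ∃ a c, i = pair a c ∧ (Pr N a c ∧ (b ⊆ a ∧
    ((Rel t a c ∧ pair i z ∈ f) ∨ (¬ Rel t a c ∧ pair i z ∈ e))))) (VM N (kap N))

theorem pair_mem_hmx {N : Set Z} {b t f e a c z : Z} :
    pair (pair a c) z ∈ hmx N b t f e ↔ pair (pair a c) z ∈ VM N (kap N) ∧ Pr N a c ∧ b ⊆ a ∧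
      ((Rel t a c ∧ pair (pair a c) z ∈ f) ∨ (¬ Rel t a c ∧ pair (pair a c) z ∈ e)) := by
  rw [hmx, mem_sep]
  refine and_congr_right fun _ => ?_
  constructor
  · rintro ⟨i, z', h1, a', c', h2, h3⟩
    obtain ⟨rfl, rfl⟩ := pair_inj.1 h1
    obtain ⟨rfl, rfl⟩ := pair_inj.1 h2
    exact h3
  · intro h
    exact ⟨_, _, rfl, _, _, rfl, h⟩

section Hmx

variable {N : Set Z} (hN : TC N)

include hN

theorem hmx_mem {b t f e : Z} (hb : b ∈ N) (ht : t ∈ N) (hf : f ∈ N) (he : e ∈ N) :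
    hmx N b t f e ∈ N := by
  have _i := hN.sing
  refine hN.toTM.sep_memD (hN.toTM.VM_mem (kap_mem hN)) (R := fun u => ∃ i z, u = pair i z ∧
    ∃ a c, i = pair a c ∧ (Pr N a c ∧ (b ⊆ a ∧
    ((Rel t a c ∧ pair i z ∈ f) ∨ (¬ Rel t a c ∧ pair i z ∈ e))))) ?_
  refine D.expair (R := fun _ i z _ => ∃ a c, i = pair a c ∧ (Pr N a c ∧ (b ⊆ a ∧
    ((Rel t a c ∧ pair i z ∈ f) ∨ (¬ Rel t a c ∧ pair i z ∈ e))))) T.v0 ?_
  refine D.expair (R := fun _ a c v => Pr N a c ∧ (b ⊆ a ∧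
    ((Rel t a c ∧ pair (v 1) (v 0) ∈ f) ∨ (¬ Rel t a c ∧ pair (v 1) (v 0) ∈ e)))) T.v1 ?_
  have hr : D {N} (fun _ v => Rel t (v 1) (v 0)) := D.rel (hN.toTM.cst ht) T.v1 T.v0
  exact (D.pr T.v1 T.v0).and ((D.subset (hN.toTM.cst hb) T.v1).and
    ((hr.and (D.mem (T.pair T.v3 T.v2) (hN.toTM.cst hf))).or
      (hr.neg.and (D.mem (T.pair T.v3 T.v2) (hN.toTM.cst he)))))

theorem comp_hmx_rel {b t f e a c : Z} (h : Pr N a c) (hba : b ⊆ a) (hr : Rel t a c)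
    (hc : IsC (chp N a) (YY N c) (comp f (pair a c))) :
    comp (hmx N b t f e) (pair a c) = comp f (pair a c) := by
  ext z
  rw [mem_comp, pair_mem_hmx]
  constructor
  · rintro ⟨_, _, _, ⟨_, h1⟩ | ⟨h1, _⟩⟩
    · exact mem_comp.2 h1
    · exact absurd hr h1
  · intro hz
    exact ⟨hc.code_mem hN h hz, h, hba, Or.inl ⟨hr, mem_comp.1 hz⟩⟩

theorem comp_hmx_irr {b t f e a c : Z} (h : Pr N a c) (hba : b ⊆ a) (hr : ¬ Rel t a c)
    (hc : IsC (chp N a) (YY N c) (comp e (pair a c))) :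
    comp (hmx N b t f e) (pair a c) = comp e (pair a c) := by
  ext z
  rw [mem_comp, pair_mem_hmx]
  constructor
  · rintro ⟨_, _, _, ⟨h1, _⟩ | ⟨_, h1⟩⟩
    · exact absurd h1 hr
    · exact mem_comp.2 h1
  · intro hz
    exact ⟨hc.code_mem hN h hz, h, hba, Or.inr ⟨hr, mem_comp.1 hz⟩⟩

theorem isH_hmx {b t f e : Z} (hb : b ∈ N) (ht : t ∈ N) (hf : IsFp N f) (he : IsH N b e) :
    IsH N b (hmx N b t f e) := by
  refine ⟨hmx_mem hN hb ht hf.1 he.1, ZFSet.sep_subset, ?_, ?_⟩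
  · intro u hu
    obtain ⟨_, i, z, rfl, a, c, rfl, h1, h2, _⟩ := mem_sep.1 hu
    exact ⟨a, c, z, rfl, h1, h2⟩
  · intro a c h hba
    by_cases hr : Rel t a c
    · rw [comp_hmx_rel hN h hba hr (hf.2.2 a c h)]
      exact hf.2.2 a c h
    · rw [comp_hmx_irr hN h hba hr (he.2.2.2 a c h hba)]
      exact he.2.2.2 a c h hba

end Hmx

theorem gd_pair {N : Set Z} {b h t l η e ζ : Z} : Gd N b h (pair (pair t l) η) e ζ ↔
    pair t (cmb N b l e) ∈ PP N ∧ Fo N h (pair t (cmb N b l e)) η ζ := by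
  simp [Gd]

/-- The decision lemma: a condition `(s, f)` with `b ∈ s` can be extended (without changing `s`)
such that the extension forces that the values in `χ(b)` of the function `h` on `θ < χ(b)` lie in a
set `B` of `N` which is covered by `X(b)`. -/
theorem decide_values {N : Set Z} (hN : TC N) (hc : N.Countable) {b : Z} (hb : b ∈ dl N)
    (hb0 : b ≠ ∅) {s f : Z} (hp : pair s f ∈ PP N) (hbs : b ∈ s) {h θ : Z} (hh : h ∈ N)
    (hθ : θ ∈ chi N b) :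
    ∃ f' B, Le (PP N) (LL N) (pair s f') (pair s f) ∧ B ∈ N ∧ Cov N (XX N b) B ∧
      ∀ G, Gen N (PP N) (LL N) G → pair s f' ∈ G →
        ∀ η ∈ θ, ∀ ζ ∈ chi N b, ap (val G h) η = ζ → ζ ∈ B := by
  have _i := hN.sing
  have hT := hN.toTM
  have hbN := dl_N hN hb
  have hsf := mem_PP.1 hp
  have hX := XX_mem hN hbN
  have hXX := XX_sq hN hbN
  have hchN := chi_mem hN hbN
  have hθN : θ ∈ N := hN.trans _ hchN _ hθ
  have he0 : IsH N b (cmb N b ∅ f) := isH_high hN hbN hsf.2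
  -- the set of data
  have hWN : ZFSet.prod (ZFSet.prod (pw N (dl N)) (pw N (YY N b))) θ ∈ N :=
    hT.prod_mem (hT.prod_mem (hT.pw_mem (dl_mem hN)) (hT.pw_mem (YY_mem hN hbN))) hθN
  have hcov1 : Cov N (XX N b) (pw N (dl N)) := by
    refine (Cov.refl hT hX).mono (fun _ h => h) fun z hz => ?_
    rw [mem_pw] at hz
    rw [XX, mem_pw]
    exact ⟨hz.1, fun u hu => FF_subset_YY hN hbN (dl_subset_FF b (hz.2 hu))⟩
  have hcov2 : Cov N (XX N b) (pw N (YY N b)) := Cov.refl hT hX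
  have hcov3 : Cov N (XX N b) θ := ((mem_chi hN hbN).1 hθ).2.2
  have hcovW : Cov N (XX N b) (ZFSet.prod (ZFSet.prod (pw N (dl N)) (pw N (YY N b))) θ) :=
    hXX.trans hT hX (Cov.prod hT hX hX (hXX.trans hT hX (Cov.prod hT hX hX hcov1 hcov2)) hcov3)
  obtain ⟨lam, hlN, hlo, w, hw, hw1, hw2, hw3⟩ := hN.wo hWN
  have hlX : Cov N (XX N b) lam := hcovW.trans hT hX (Cov.of_inj hT hlN hw hw1 hw3)
  obtain ⟨c, hcN, hc1, hc2⟩ := hN.choice (hT.pw_mem (hT.VM_mem (kap_mem hN)))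
  have ind := eS_ind hN hc hb hb0 hh hcN hc1 hc2 hw he0 hlN hlo hlX
  have hinf := ind lam (mem_insert _ _)
  have hinfFp : IsFp N (cmb N b f (ES N b h c w (cmb N b ∅ f) lam)) :=
    isFp_cmb hN hbN hsf.2.1 hinf.1.1 (fun a c h _ => hsf.2.2.2 a c h) hinf.1.2.2.2
  refine ⟨cmb N b f (ES N b h c w (cmb N b ∅ f) lam), ZFSet.sep (fun ζ => ∃ ν ∈ lam,
    Gd N b h (ap w ν) (eS N b h c w (cmb N b ∅ f) ν) ζ) (chi N b), ?_, ?_, ?_, ?_⟩
  · refine le_PP.2 ⟨⟨hsf.1, hinfFp⟩, hsf, EE.refl s, fun a c' hac hr => ?_⟩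
    rcases Rel.cases hN hbs hb hac hr with h1 | h1
    · rw [comp_cmb_low hN hac h1 (hsf.2.2.2 a c' hac)]
      exact Ex.refl _
    · rw [comp_cmb_high hN hac h1 (hinf.1.2.2.2 a c' hac h1)]
      have h2 := hinf.2.1 a c' hac h1
      rw [comp_cmb_high hN hac h1 (hsf.2.2.2 a c' hac)] at h2
      exact h2
  · refine hT.sep_memD hchN (R := fun ζ => ∃ ν ∈ lam,
      Gd N b h (ap w ν) (eS N b h c w (cmb N b ∅ f) ν) ζ) ?_
    refine D.bex (R := fun _ ν v => Gd N b h (ap w ν) (eS N b h c w (cmb N b ∅ f) ν) (v 0))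
      (hT.cst hlN) ?_
    exact D.gd hN hc hbN hh (T.ap (hT.cst hw) T.v0) (T.eS hN hc hbN hh hcN hw he0.1 T.v0) T.v1
  · refine hlX.trans hT hX ?_
    refine Cov.of_gr (f := fun ν => ⋃₀ (ZFSet.sep (fun ζ => Gd N b h (ap w ν)
      (eS N b h c w (cmb N b ∅ f) ν) ζ) (chi N b))) (hT.gr_mem' hlN (T.sUnion (T.sep
        (R := fun _ ζ v => Gd N b h (ap w (v 0)) (eS N b h c w (cmb N b ∅ f) (v 0)) ζ)
        (T.chi (hT.cst hbN)) (D.gd hN hc hbN hh (T.ap (hT.cst hw) T.v1)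
          (T.eS hN hc hbN hh hcN hw he0.1 T.v1) T.v0)))) fun ζ hζ => ?_
    obtain ⟨hζ, ν, hν, hg⟩ := mem_sep.1 hζ
    refine ⟨ν, hν, ?_⟩
    have : ZFSet.sep (fun ζ => Gd N b h (ap w ν) (eS N b h c w (cmb N b ∅ f) ν) ζ)
        (chi N b) = {ζ} := by
      ext ζ'
      rw [mem_sep, mem_singleton]
      constructor
      · rintro ⟨_, hg'⟩
        exact Fo.unique hN hc hg.1 hg'.2 hg.2
      · rintro rfl
        exact ⟨hζ, hg⟩
    rw [this, sUnion_singleton]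
  · intro G hG hpG η hη ζ hζ he
    have hηN := hN.trans _ hθN _ hη
    have hζN := hN.trans _ hchN _ hζ
    obtain ⟨q, hq, hqf⟩ := Fo.truth hN hc hh hηN hζN hG hpG he
    obtain ⟨r, hr, hr1, hr2⟩ := hG.dir q hq _ hpG
    obtain ⟨t, fr, rfl, hts, hfr⟩ := exists_of_mem_PP (hG.sub r hr)
    have hfo : Fo N h (pair t fr) η ζ := hqf.mono hr1
    have hle := (le_PP.1 hr2).2.2
    have hbt : b ∈ t := hle.1.1 hbs
    have hl := low_mem hN hbN hfr
    have hlN' := (mem_pw.1 hl).1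
    have hcl : ∀ a c, Pr N a c → c ⊆ b →
        comp (cmb N b fr ∅) (pair a c) = comp fr (pair a c) := fun a c hac hcb =>
      comp_cmb_low hN hac hcb (hfr.2.2 a c hac)
    have hcl' : ∀ a c, Pr N a c → c ⊆ b →
        IsC (chp N a) (YY N c) (comp (cmb N b fr ∅) (pair a c)) := fun a c hac hcb => by
      rw [hcl a c hac hcb]; exact hfr.2.2 a c hac
    have hpW : pair (pair t (cmb N b fr ∅)) η ∈
        ZFSet.prod (ZFSet.prod (pw N (dl N)) (pw N (YY N b))) θ :=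
      pair_mem_prod.2 ⟨pair_mem_prod.2 ⟨mem_pw.2 ⟨hts.1, hts.2.1⟩, hl⟩, hη⟩
    obtain ⟨ν, hν, hwν⟩ := hw2 _ hpW
    have hνN := hN.trans _ hlN _ hν
    have hH : IsH N b (hmx N b t fr (ES N b h c w (cmb N b ∅ f) lam)) :=
      isH_hmx hN hbN hts.1 hfr hinf.1
    have hE : Exh N b (hmx N b t fr (ES N b h c w (cmb N b ∅ f) lam))
        (ES N b h c w (cmb N b ∅ f) lam) := by
      intro a c' hac hba
      by_cases hrel : Rel t a c'
      · rw [comp_hmx_rel hN hac hba hrel (hfr.2.2 a c' hac)]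
        have h1 := hle.2 a c' hac hrel
        rw [comp_cmb_high hN hac hba (hinf.1.2.2.2 a c' hac hba)] at h1
        exact h1
      · rw [comp_hmx_irr hN hac hba hrel (hinf.1.2.2.2 a c' hac hba)]
        exact Ex.refl _
    have hFp1 : IsFp N (cmb N b (cmb N b fr ∅)
        (hmx N b t fr (ES N b h c w (cmb N b ∅ f) lam))) :=
      isFp_cmb hN hbN hlN' hH.1 hcl' hH.2.2.2
    have hle2 : Le (PP N) (LL N) (pair t (cmb N b (cmb N b fr ∅)
        (hmx N b t fr (ES N b h c w (cmb N b ∅ f) lam)))) (pair t fr) := by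
      refine le_PP.2 ⟨⟨hts, hFp1⟩, ⟨hts, hfr⟩, EE.refl t, fun a c' hac hrel => ?_⟩
      rcases Rel.cases hN hbt hb hac hrel with h1 | h1
      · rw [comp_cmb_low hN hac h1 (hcl' a c' hac h1), hcl a c' hac h1]
        exact Ex.refl _
      · rw [comp_cmb_high hN hac h1 (hH.2.2.2 a c' hac h1),
          comp_hmx_rel hN hac h1 hrel (hfr.2.2 a c' hac)]
        exact Ex.refl _
    have hind := ind ν (mem_insert_of_mem _ hν)
    have hstep := eS_step hN hc hbN hh hc1 hc2 hw hνN hind.1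
    have hmem : hmx N b t fr (ES N b h c w (cmb N b ∅ f) lam) ∈
        Sst N b h w ν (ES N b h c w (cmb N b ∅ f) ν) := by
      refine mem_sep.2 ⟨mem_pw.2 ⟨hH.1, hH.2.1⟩, hH,
        (hE.trans (hinf.2.2 ν hν)).trans hstep.2.1, ζ, hζ, ?_⟩
      rw [hwν, gd_pair]
      exact ⟨hle2.1, hfo.mono hle2⟩
    have hmem2 := hstep.2.2 (fun h0 => notMem_empty _ (h0 ▸ hmem))
    obtain ⟨_, _, _, ζ', _, hg⟩ := mem_sep.1 hmem2
    have hg' := hg
    rw [hwν, gd_pair] at hg'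
    have hFp2 := (mem_PP.1 hg'.1).2
    have hle3 : Le (PP N) (LL N) (pair t (cmb N b (cmb N b fr ∅)
        (hmx N b t fr (ES N b h c w (cmb N b ∅ f) lam))))
        (pair t (cmb N b (cmb N b fr ∅) (eS N b h c w (cmb N b ∅ f) ν))) := by
      refine le_PP.2 ⟨⟨hts, hFp1⟩, ⟨hts, hFp2⟩, EE.refl t, fun a c' hac hrel => ?_⟩
      rcases Rel.cases hN hbt hb hac hrel with h1 | h1
      · rw [comp_cmb_low hN hac h1 (hcl' a c' hac h1), comp_cmb_low hN hac h1 (hcl' a c' hac h1)]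
        exact Ex.refl _
      · rw [comp_cmb_high hN hac h1 (hH.2.2.2 a c' hac h1),
          comp_cmb_high hN hac h1 (hstep.1.2.2.2 a c' hac h1)]
        exact (hE.trans (hinf.2.2 ν hν)) a c' hac h1
    have heq : ζ' = ζ := Fo.unique hN hc hle2.1 (hg'.2.mono hle3) (hfo.mono hle2)
    subst heq
    exact mem_sep.2 ⟨hζ, ν, hν, hg⟩

end Pool.Agent.Lib.Ctm
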