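import Pool.Agent.Lib.Ctm.Basic

/-!
# Uniformly definable relations and functions

`K` is a class of transitive models of ZFC. `D K R`: the relation `R M v` (`M ∈ K`, `v` an
assignment in `M`) is defined by one formula with parameters common to all models of the class.
`T K t`: `t M v` is an element of `M` and its graph is definable.
-/

namespace Pool.Agent.Lib.Ctm

open Pool.Agent.Lib.Forcing ZFSet

protected theorem TM.empty_mem {M : Set Z} (hM : TM M) : (∅ : Z) ∈ M := by
  obtain ⟨x, ⟨e, he, _⟩, _⟩ := hM.zf.infinity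
  have : e.1 = ∅ := by
    rw [ZFSet.eq_empty]
    intro y hy
    exact he ⟨y, hM.trans e.1 e.2 y hy⟩ hy
  rw [← this]; exact e.2

/-- all members of the class are transitive models -/
class MK (K : Set (Set Z)) : Prop where
  tm : ∀ M ∈ K, TM M

/-- values at even places, parameters at odd places -/
def mix (v w : ℕ → Z) (n : ℕ) : Z := if n % 2 = 0 then v (n / 2) else w (n / 2)

protected theorem In.mix {M : Set Z} {v w : ℕ → Z} (hv : In M v) (hw : In M w) : In M (Ctm.mix v w) := by
  intro n; unfold Ctm.mix; split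
  · exact hv _
  · exact hw _

/-- `R` is uniformly definable with parameters -/
def D (K : Set (Set Z)) (R : Set Z → (ℕ → Z) → Prop) : Prop :=
  ∃ (φ : Fml) (w : ℕ → Z), (∀ M ∈ K, In M w) ∧
    ∀ M ∈ K, ∀ v : ℕ → Z, In M v → (R M v ↔ SatC M φ (mix v w))

/-- `t` is uniformly definable with parameters, with values in the models -/
structure T (K : Set (Set Z)) (t : Set Z → (ℕ → Z) → Z) : Prop where
  mem : ∀ M ∈ K, ∀ v, In M v → t M v ∈ M
  gr : D K (fun M v => v 0 = t M (tl v))

variable {K : Set (Set Z)}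

section Basic

variable {R S : Set Z → (ℕ → Z) → Prop}

protected theorem D.congr (h : D K S) (e : ∀ M ∈ K, ∀ v, In M v → (R M v ↔ S M v)) : D K R := by
  obtain ⟨φ, w, hw, h⟩ := h
  exact ⟨φ, w, hw, fun M hM v hv => (e M hM v hv).trans (h M hM v hv)⟩

protected theorem D.neg (h : D K R) : D K (fun M v => ¬ R M v) := by
  obtain ⟨φ, w, hw, h⟩ := h
  exact ⟨.fneg φ, w, hw, fun M hM v hv => not_congr (h M hM v hv)⟩

theorem mix_merge1 (v w1 w2 : ℕ → Z) :
    (fun n => mix v (mix w1 w2) (if n % 2 = 0 then n else 2 * (2 * (n / 2)) + 1)) =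
      mix v w1 := by
  funext n
  by_cases h : n % 2 = 0
  · simp only [h, if_true, mix]
  · have h1 : (2 * (2 * (n / 2)) + 1) % 2 = 1 := by omega
    have h2 : (2 * (2 * (n / 2)) + 1) / 2 = 2 * (n / 2) := by omega
    have h3 : (2 * (n / 2)) % 2 = 0 := by omega
    have h4 : (2 * (n / 2)) / 2 = n / 2 := by omega
    simp [mix, h, h1, h2]

theorem mix_merge2 (v w1 w2 : ℕ → Z) :
    (fun n => mix v (mix w1 w2) (if n % 2 = 0 then n else 2 * (2 * (n / 2) + 1) + 1)) =
      mix v w2 := by
  funext n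
  by_cases h : n % 2 = 0
  · simp only [h, if_true, mix]
  · have h1 : (2 * (2 * (n / 2) + 1) + 1) % 2 = 1 := by omega
    have h2 : (2 * (2 * (n / 2) + 1) + 1) / 2 = 2 * (n / 2) + 1 := by omega
    have h3 : (2 * (n / 2) + 1) % 2 = 1 := by omega
    have h4 : (2 * (n / 2) + 1) / 2 = n / 2 := by omega
    simp [mix, h, h1, h2, h3, h4]

protected theorem D.and (h : D K R) (h' : D K S) : D K (fun M v => R M v ∧ S M v) := by
  obtain ⟨φ, w, hw, h⟩ := h
  obtain ⟨ψ, w', hw', h'⟩ := h'
  refine ⟨.fand (φ.ren fun n => if n % 2 = 0 then n else 2 * (2 * (n / 2)) + 1)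
    (ψ.ren fun n => if n % 2 = 0 then n else 2 * (2 * (n / 2) + 1) + 1), mix w w',
    fun M hM => (hw M hM).mix (hw' M hM), ?_⟩
  intro M hM v hv
  change (R M v ∧ S M v) ↔ SatC M _ _ ∧ SatC M _ _
  rw [satC_ren, satC_ren, mix_merge1, mix_merge2, h M hM v hv, h' M hM v hv]

protected theorem D.or (h : D K R) (h' : D K S) : D K (fun M v => R M v ∨ S M v) :=
  (h.neg.and h'.neg).neg.congr fun M _ v _ => by tauto

protected theorem D.imp (h : D K R) (h' : D K S) : D K (fun M v => R M v → S M v) :=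
  (h.and h'.neg).neg.congr fun M _ v _ => by tauto

protected theorem D.iff (h : D K R) (h' : D K S) : D K (fun M v => R M v ↔ S M v) :=
  ((h.imp h').and (h'.imp h)).congr fun M _ v _ => by tauto

theorem mix_all (x : Z) (v w : ℕ → Z) :
    (fun n => cons x (mix v w) (if n = 0 then 0 else if n % 2 = 0 then n - 1 else n + 1)) =
      mix (cons x v) w := by
  funext n
  rcases n with _ | n
  · rfl
  · by_cases h : (n + 1) % 2 = 0
    · have h1 : n % 2 = 1 := by omega
      obtain ⟨m, rfl⟩ : ∃ m, n = 2 * m + 1 := ⟨n / 2, by omega⟩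
      have h2 : (2 * m + 1 + 1) / 2 = m + 1 := by omega
      have h3 : (2 * m) / 2 = m := by omega
      simp only [mix, h, if_true, h2, Nat.add_sub_cancel]
      simp [mix]
    · have h1 : n % 2 = 0 := by omega
      obtain ⟨m, rfl⟩ : ∃ m, n = 2 * m := ⟨n / 2, by omega⟩
      have h2 : (2 * m + 1) / 2 = m := by omega
      have h3 : (2 * m + 1) % 2 = 1 := by omega
      simp [mix, h2, h3]

protected theorem D.all {R : Set Z → Z → (ℕ → Z) → Prop} (h : D K (fun M v => R M (v 0) (tl v))) :
    D K (fun M v => ∀ x ∈ M, R M x v) := by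
  obtain ⟨φ, w, hw, h⟩ := h
  refine ⟨.fall (φ.ren fun n => if n = 0 then 0 else if n % 2 = 0 then n - 1 else n + 1),
    w, hw, ?_⟩
  intro M hM v hv
  refine forall_congr' fun x => forall_congr' fun hx => ?_
  rw [satC_ren, mix_all]
  exact h M hM (cons x v) (hv.cons hx)

protected theorem D.ex {R : Set Z → Z → (ℕ → Z) → Prop} (h : D K (fun M v => R M (v 0) (tl v))) :
    D K (fun M v => ∃ x ∈ M, R M x v) :=
  (D.all (R := fun M x v => ¬ R M x v) h.neg).neg.congr fun M _ v _ => by
    push Not; rfl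

protected theorem D.ren (f : ℕ → ℕ) (h : D K R) : D K (fun M v => R M (fun i => v (f i))) := by
  obtain ⟨φ, w, hw, h⟩ := h
  refine ⟨φ.ren fun n => if n % 2 = 0 then 2 * f (n / 2) else n, w, hw, ?_⟩
  intro M hM v hv
  change R M (fun i => v (f i)) ↔ _
  rw [satC_ren, h M hM _ fun i => hv _]
  have : (fun i => mix v w (if i % 2 = 0 then 2 * f (i / 2) else i)) =
      mix (fun i => v (f i)) w := by
    funext n
    by_cases hn : n % 2 = 0
    · simp [mix, hn]
    · simp [mix, hn]
  rw [this]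

protected theorem D.tail (h : D K R) : D K (fun M v => R M (tl v)) := h.ren fun i => i + 1

protected theorem D.mem0 [MK K] (i j : ℕ) : D K (fun _ v => v i ∈ v j) := by
  refine ⟨.fmem (2 * i) (2 * j), fun _ => ∅, fun M hM _ => (MK.tm M hM).empty_mem, ?_⟩
  intro M hM v hv
  simp [SatC, mix]

protected theorem D.eq0 [MK K] (i j : ℕ) : D K (fun _ v => v i = v j) := by
  refine ⟨.feq (2 * i) (2 * j), fun _ => ∅, fun M hM _ => (MK.tm M hM).empty_mem, ?_⟩
  intro M hM v hv
  simp [SatC, mix]

protected theorem D.const [MK K] (p : Prop) : D K (fun _ _ => p) := by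
  by_cases hp : p
  · exact (D.eq0 0 0).congr fun _ _ _ _ => by simp [hp]
  · exact (D.eq0 0 0).neg.congr fun _ _ _ _ => by simp [hp]

protected theorem T.var [MK K] (i : ℕ) : T K (fun _ v => v i) :=
  ⟨fun _ _ _ hv => hv i, D.eq0 0 (i + 1)⟩

protected theorem T.v0 [MK K] : T K (fun _ v => v 0) := T.var 0
protected theorem T.v1 [MK K] : T K (fun _ v => v 1) := T.var 1
protected theorem T.v2 [MK K] : T K (fun _ v => v 2) := T.var 2
protected theorem T.v3 [MK K] : T K (fun _ v => v 3) := T.var 3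
protected theorem T.v4 [MK K] : T K (fun _ v => v 4) := T.var 4
protected theorem T.v5 [MK K] : T K (fun _ v => v 5) := T.var 5

protected theorem T.const {a : Z} (ha : ∀ M ∈ K, a ∈ M) : T K (fun _ _ => a) := by
  refine ⟨fun M hM _ _ => ha M hM, ⟨.feq 0 1, fun _ => a, fun M hM _ => ha M hM, ?_⟩⟩
  intro M hM v hv
  simp [SatC, mix]

protected theorem T.tail {t : Set Z → (ℕ → Z) → Z} (h : T K t) : T K (fun M v => t M (tl v)) := by
  refine ⟨fun M hM v hv => h.mem M hM _ hv.tail, ?_⟩
  have := h.gr.ren (fun i => if i = 0 then 0 else i + 1)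
  exact this

protected theorem T.congr {t s : Set Z → (ℕ → Z) → Z} (h : T K s)
    (e : ∀ M ∈ K, ∀ v, In M v → t M v = s M v) : T K t := by
  refine ⟨fun M hM v hv => by rw [e M hM v hv]; exact h.mem M hM v hv, ?_⟩
  exact h.gr.congr fun M hM v hv => by rw [e M hM _ hv.tail]

/-- substitution of a definable term for the variable `0` -/
protected theorem D.subst [MK K] {t : Set Z → (ℕ → Z) → Z} {R : Set Z → Z → (ℕ → Z) → Prop}
    (h : D K (fun M v => R M (v 0) (tl v))) (ht : T K t) :
    D K (fun M v => R M (t M v) v) := by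
  refine (D.ex (R := fun M x v => x = t M v ∧ R M x v) (D.and ht.gr h)).congr ?_
  intro M hM v hv
  constructor
  · intro h; exact ⟨_, ht.mem M hM v hv, rfl, h⟩
  · rintro ⟨x, _, rfl, h⟩; exact h

end Basic

/-! ## relations and functions of several arguments -/

def D1 (K : Set (Set Z)) (R : Set Z → Z → Prop) : Prop := D K (fun M v => R M (v 0))
def D2 (K : Set (Set Z)) (R : Set Z → Z → Z → Prop) : Prop := D K (fun M v => R M (v 0) (v 1))
def D3 (K : Set (Set Z)) (R : Set Z → Z → Z → Z → Prop) : Prop :=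
  D K (fun M v => R M (v 0) (v 1) (v 2))
def D4 (K : Set (Set Z)) (R : Set Z → Z → Z → Z → Z → Prop) : Prop :=
  D K (fun M v => R M (v 0) (v 1) (v 2) (v 3))

def T1 (K : Set (Set Z)) (f : Set Z → Z → Z) : Prop := T K (fun M v => f M (v 0))
def T2 (K : Set (Set Z)) (f : Set Z → Z → Z → Z) : Prop := T K (fun M v => f M (v 0) (v 1))
def T3 (K : Set (Set Z)) (f : Set Z → Z → Z → Z → Z) : Prop :=
  T K (fun M v => f M (v 0) (v 1) (v 2))
def T4 (K : Set (Set Z)) (f : Set Z → Z → Z → Z → Z → Z) : Prop :=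
  T K (fun M v => f M (v 0) (v 1) (v 2) (v 3))

section App

variable [MK K] {s t u q : Set Z → (ℕ → Z) → Z}

theorem D1.app {R : Set Z → Z → Prop} (h : D1 K R) (hs : T K s) :
    D K (fun M v => R M (s M v)) :=
  D.subst (R := fun M x _ => R M x) h hs

theorem D2.app {R : Set Z → Z → Z → Prop} (h : D2 K R) (hs : T K s) (ht : T K t) :
    D K (fun M v => R M (s M v) (t M v)) := by
  refine D.subst (R := fun M x v => R M x (t M v)) ?_ hs
  refine D.subst (t := fun M v => t M (tl v)) (R := fun M y v => R M (v 0) y) ?_ ht.tail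
  exact D.ren (fun i => if i = 0 then 1 else if i = 1 then 0 else i) h

theorem D3.app {R : Set Z → Z → Z → Z → Prop} (h : D3 K R) (hs : T K s) (ht : T K t)
    (hu : T K u) : D K (fun M v => R M (s M v) (t M v) (u M v)) := by
  refine D.subst (R := fun M x v => R M x (t M v) (u M v)) ?_ hs
  refine D.subst (t := fun M v => t M (tl v)) (R := fun M y v => R M (v 0) y (u M (tl v)))
    ?_ ht.tail
  refine D.subst (t := fun M v => u M (tl (tl v))) (R := fun M z v => R M (v 1) (v 0) z)
    ?_ hu.tail.tail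
  exact D.ren (fun i => if i = 0 then 2 else if i = 2 then 0 else i) h

theorem D4.app {R : Set Z → Z → Z → Z → Z → Prop} (h : D4 K R) (hs : T K s) (ht : T K t)
    (hu : T K u) (hq : T K q) : D K (fun M v => R M (s M v) (t M v) (u M v) (q M v)) := by
  refine D.subst (R := fun M x v => R M x (t M v) (u M v) (q M v)) ?_ hs
  refine D.subst (t := fun M v => t M (tl v))
    (R := fun M y v => R M (v 0) y (u M (tl v)) (q M (tl v))) ?_ ht.tail
  refine D.subst (t := fun M v => u M (tl (tl v)))
    (R := fun M z v => R M (v 1) (v 0) z (q M (tl (tl v)))) ?_ hu.tail.tail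
  refine D.subst (t := fun M v => q M (tl (tl (tl v))))
    (R := fun M z v => R M (v 2) (v 1) (v 0) z) ?_ hq.tail.tail.tail
  exact D.ren (fun i => if i = 0 then 3 else if i = 1 then 2 else if i = 2 then 1 else
    if i = 3 then 0 else i) h

protected theorem D.mem (hs : T K s) (ht : T K t) : D K (fun M v => s M v ∈ t M v) :=
  D2.app (R := fun _ x y => x ∈ y) (D.mem0 0 1) hs ht

protected theorem D.eq (hs : T K s) (ht : T K t) : D K (fun M v => s M v = t M v) :=
  D2.app (R := fun _ x y => x = y) (D.eq0 0 1) hs ht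

protected theorem D.ball {R : Set Z → Z → (ℕ → Z) → Prop} (ht : T K t)
    (h : D K (fun M v => R M (v 0) (tl v))) : D K (fun M v => ∀ x ∈ t M v, R M x v) := by
  refine (D.all (R := fun M x v => x ∈ t M v → R M x v) (D.imp (D.mem T.v0 ht.tail) h)).congr ?_
  intro M hM v hv
  exact ⟨fun h x _ hx => h x hx, fun h x hx =>
    h x ((MK.tm M hM).trans _ (ht.mem M hM v hv) _ hx) hx⟩

protected theorem D.bex {R : Set Z → Z → (ℕ → Z) → Prop} (ht : T K t)
    (h : D K (fun M v => R M (v 0) (tl v))) : D K (fun M v => ∃ x ∈ t M v, R M x v) :=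
  (D.ball (R := fun M x v => ¬ R M x v) ht h.neg).neg.congr fun M _ v _ => by
    push Not; rfl

theorem T1.app {f : Set Z → Z → Z} (h : T1 K f) (hs : T K s) : T K (fun M v => f M (s M v)) := by
  refine ⟨fun M hM v hv => h.mem M hM (cons (s M v) v) (hv.cons (hs.mem M hM v hv)), ?_⟩
  exact D2.app (R := fun M y x => y = f M x) h.gr T.v0 hs.tail

theorem T2.app {f : Set Z → Z → Z → Z} (h : T2 K f) (hs : T K s) (ht : T K t) :
    T K (fun M v => f M (s M v) (t M v)) := by
  refine ⟨fun M hM v hv => h.mem M hM (cons (s M v) (cons (t M v) v))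
    ((hv.cons (ht.mem M hM v hv)).cons (hs.mem M hM v hv)), ?_⟩
  exact D3.app (R := fun M y x x' => y = f M x x') h.gr T.v0 hs.tail ht.tail

theorem T3.app {f : Set Z → Z → Z → Z → Z} (h : T3 K f) (hs : T K s) (ht : T K t)
    (hu : T K u) : T K (fun M v => f M (s M v) (t M v) (u M v)) := by
  refine ⟨fun M hM v hv => h.mem M hM (cons (s M v) (cons (t M v) (cons (u M v) v)))
    (((hv.cons (hu.mem M hM v hv)).cons (ht.mem M hM v hv)).cons (hs.mem M hM v hv)), ?_⟩
  exact D4.app (R := fun M y x x' x'' => y = f M x x' x'') h.gr T.v0 hs.tail ht.tail hu.tail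

/-- a term is definable when its elements are -/
protected theorem T.of_mem (hm : ∀ M ∈ K, ∀ v, In M v → t M v ∈ M)
    (h : D K (fun M v => v 0 ∈ t M (tl v))) : T K t := by
  refine ⟨hm, ?_⟩
  have h1 : D K (fun M v => ∀ z ∈ M, z ∈ v 0 ↔ z ∈ t M (tl v)) := by
    refine D.all (R := fun M z v => z ∈ v 0 ↔ z ∈ t M (tl v)) (D.iff (D.mem0 0 1) ?_)
    exact D.ren (fun i => if i = 0 then 0 else i + 1) h
  refine h1.congr fun M hM v hv => ?_
  constructor
  · intro h z _; rw [← h]
  · intro h
    ext z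
    constructor
    · intro hz; exact (h z ((MK.tm M hM).trans _ (hv 0) _ hz)).1 hz
    · intro hz; exact (h z ((MK.tm M hM).trans _ (hm M hM _ hv.tail) _ hz)).2 hz

end App

/-! ## separation and replacement for definable relations -/

protected theorem D.sep_mem [MK K] {R : Set Z → Z → (ℕ → Z) → Prop}
    (h : D K (fun M v => R M (v 0) (tl v))) {M : Set Z} (hM : M ∈ K) {v : ℕ → Z}
    (hv : In M v) {x : Z} (hx : x ∈ M) : ZFSet.sep (fun z => R M z v) x ∈ M := by
  obtain ⟨φ, w, hw, h⟩ := h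
  have tm := MK.tm M hM
  have h1 := tm.sep_mem' (φ.ren fun n => if n = 0 then 0 else if n % 2 = 0 then n - 1 else n + 1)
    (hv.mix (hw M hM)) hx
  convert h1 using 1
  ext z
  rw [ZFSet.mem_sep, ZFSet.mem_sep]
  refine and_congr_right fun hz => ?_
  rw [satC_ren, mix_all]
  exact h M hM (cons z v) (hv.cons (tm.trans _ hx _ hz))

protected theorem D.repl [MK K] {R : Set Z → Z → Z → (ℕ → Z) → Prop}
    (h : D K (fun M v => R M (v 0) (v 1) (tl (tl v)))) {M : Set Z} (hM : M ∈ K)
    {v : ℕ → Z} (hv : In M v) {x : Z} (hx : x ∈ M) (hf : ∀ y ∈ x, ∃! z, z ∈ M ∧ R M y z v) :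
    ∃ w ∈ M, ∀ z, z ∈ w ↔ ∃ y ∈ x, z ∈ M ∧ R M y z v := by
  obtain ⟨φ, w, hw, h⟩ := h
  have tm := MK.tm M hM
  let f : ℕ → ℕ := fun n => if n = 0 then 0 else if n % 2 = 0 then n - 1 else n + 1
  let φ' : Fml := φ.ren (fun n => if n = 0 then 0 else if n % 2 = 0 then (f (n - 2)) + 1
    else f n + 1)
  have e : ∀ y z : Z, SatC M φ' (cons y (cons z (mix v w))) ↔
      SatC M φ (mix (cons y (cons z v)) w) := by
    intro y z
    rw [satC_ren]
    have : (fun n => cons y (cons z (mix v w)) (if n = 0 then 0 else if n % 2 = 0 then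
        (f (n - 2)) + 1 else f n + 1)) = mix (cons y (cons z v)) w := by
      funext n
      rcases n with _ | n
      · rfl
      · by_cases hn : (n + 1) % 2 = 0
        · obtain ⟨m, rfl⟩ : ∃ m, n = 2 * m + 1 := ⟨n / 2, by omega⟩
          have h1 : (2 * m + 1 + 1) / 2 = m + 1 := by omega
          have h2 : 2 * m + 1 + 1 - 2 = 2 * m := by omega
          have h3 := congrFun (mix_all z v w) (2 * m)
          simp only [mix, hn, if_true, h1, h2, Nat.add_eq_zero_iff, one_ne_zero, and_false,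
            if_false, cons_succ]
          have h4 : (2 * m) % 2 = 0 := by omega
          have h5 : (2 * m) / 2 = m := by omega
          simp only [mix, h4, h5, if_true] at h3
          simp only [f, h4, if_true]
          exact h3
        · obtain ⟨m, rfl⟩ : ∃ m, n = 2 * m := ⟨n / 2, by omega⟩
          have h1 : (2 * m + 1) / 2 = m := by omega
          have h3 := congrFun (mix_all z v w) (2 * m + 1)
          simp only [mix, hn, h1, if_false, Nat.add_eq_zero_iff, one_ne_zero, and_false,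
            cons_succ]
          simp only [mix, hn, h1, if_false] at h3
          simp only [f, hn, if_false]
          exact h3
    rw [this]
  have e' : ∀ y ∈ x, ∀ z ∈ M, (R M y z v ↔ SatC M φ' (cons y (cons z (mix v w)))) := by
    intro y hy z hz
    rw [e]
    exact h M hM (cons y (cons z v)) ((hv.cons hz).cons (tm.trans _ hx _ hy))
  obtain ⟨b, hb, h2⟩ := tm.repl' φ' (hv.mix (hw M hM)) hx (by
    intro y hy
    obtain ⟨z, ⟨hz, h1⟩, h2⟩ := hf y hy
    exact ⟨z, ⟨hz, (e' y hy z hz).1 h1⟩, fun z' h3 => h2 z' ⟨h3.1, (e' y hy z' h3.1).2 h3.2⟩⟩)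
  refine ⟨b, hb, fun z => ?_⟩
  rw [h2 z]
  constructor
  · rintro ⟨y, hy, hz, h3⟩; exact ⟨y, hy, hz, (e' y hy z hz).2 h3⟩
  · rintro ⟨y, hy, hz, h3⟩; exact ⟨y, hy, hz, (e' y hy z hz).1 h3⟩

/-- the image of the set `x` under `f` -/
noncomputable def img (f : Z → Z) (x : Z) : Z := ZFSet.range (fun y : x => f y.1)

@[simp] theorem mem_img {f : Z → Z} {x z : Z} : z ∈ img f x ↔ ∃ y ∈ x, z = f y := by
  unfold img
  rw [ZFSet.mem_range]
  constructor
  · rintro ⟨y, hy⟩; exact ⟨y.1, y.2, hy.symm⟩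
  · rintro ⟨y, hy, h⟩; exact ⟨⟨y, hy⟩, h.symm⟩

section Constr

variable [MK K] {s t u : Set Z → (ℕ → Z) → Z}

protected theorem T.sep {R : Set Z → Z → (ℕ → Z) → Prop} (ht : T K t)
    (h : D K (fun M v => R M (v 0) (tl v))) :
    T K (fun M v => ZFSet.sep (fun z => R M z v) (t M v)) := by
  refine T.of_mem (fun M hM v hv => h.sep_mem hM hv (ht.mem M hM v hv)) ?_
  exact (D.and (D.mem T.v0 ht.tail) h).congr fun M _ v _ => by rw [ZFSet.mem_sep]

protected theorem T.img {f : Set Z → Z → (ℕ → Z) → Z} (ht : T K t)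
    (h : T K (fun M v => f M (v 0) (tl v))) :
    T K (fun M v => Ctm.img (fun z => f M z v) (t M v)) := by
  have hD : D K (fun M v => v 1 = f M (v 0) (tl (tl v))) := by
    have := h.gr.ren (fun i => if i = 0 then 1 else if i = 1 then 0 else i)
    exact this
  refine T.of_mem ?_ ?_
  · intro M hM v hv
    have tm := MK.tm M hM
    obtain ⟨w, hw, h1⟩ := D.repl (R := fun M y z v => z = f M y v) hD hM hv
      (ht.mem M hM v hv) (by
        intro y hy
        have hy' := tm.trans _ (ht.mem M hM v hv) _ hy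
        exact ⟨f M y v, ⟨h.mem M hM (cons y v) (hv.cons hy'), rfl⟩, fun z hz => hz.2⟩)
    convert hw using 1
    ext z
    rw [h1, mem_img]
    refine exists_congr fun y => and_congr_right fun hy => ?_
    have hy' := tm.trans _ (ht.mem M hM v hv) _ hy
    constructor
    · rintro rfl; exact ⟨h.mem M hM (cons y v) (hv.cons hy'), rfl⟩
    · exact fun h => h.2
  · refine (D.bex (R := fun M y v => v 0 = f M y (tl v)) ht.tail ?_).congr
      fun M _ v _ => mem_img
    have := h.gr.ren (fun i => if i = 0 then 1 else if i = 1 then 0 else i)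
    exact this

protected theorem T.empty : T K (fun _ _ => (∅ : Z)) := T.const fun M hM => (MK.tm M hM).empty_mem

protected theorem T.upair (hs : T K s) (ht : T K t) : T K (fun M v => ({s M v, t M v} : Z)) := by
  refine T.of_mem (fun M hM v hv =>
    (MK.tm M hM).upair_mem (hs.mem M hM v hv) (ht.mem M hM v hv)) ?_
  exact (D.or (D.eq T.v0 hs.tail) (D.eq T.v0 ht.tail)).congr fun M _ v _ => by
    rw [ZFSet.mem_pair]

protected theorem T.singleton (hs : T K s) : T K (fun M v => ({s M v} : Z)) :=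
  (T.upair hs hs).congr fun M _ v _ => by rw [ZFSet.pair_eq_singleton]

protected theorem T.pair (hs : T K s) (ht : T K t) : T K (fun M v => ZFSet.pair (s M v) (t M v)) :=
  (T.upair hs.singleton (hs.upair ht))

protected theorem T.sUnion (hs : T K s) : T K (fun M v => (⋃₀ (s M v) : Z)) := by
  refine T.of_mem (fun M hM v hv => (MK.tm M hM).sUnion_mem (hs.mem M hM v hv)) ?_
  exact (D.bex (R := fun M y v => v 0 ∈ y) hs.tail (D.mem0 1 0)).congr fun M _ v _ => by
    rw [ZFSet.mem_sUnion]

protected theorem T.union (hs : T K s) (ht : T K t) : T K (fun M v => s M v ∪ t M v) :=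
  (T.sUnion (hs.upair ht)).congr fun M _ v _ => by rw [ZFSet.sUnion_pair]

protected theorem T.insert (hs : T K s) (ht : T K t) : T K (fun M v => insert (s M v) (t M v)) :=
  (hs.singleton.union ht).congr fun M _ v _ => by rw [ZFSet.insert_eq]

/-- power set inside the model -/
noncomputable def pw (M : Set Z) (x : Z) : Z := ZFSet.sep (fun z => z ∈ M) (powerset x)

@[simp] theorem mem_pw {M : Set Z} {x z : Z} : z ∈ pw M x ↔ z ∈ M ∧ z ⊆ x := by
  rw [pw, ZFSet.mem_sep, ZFSet.mem_powerset, and_comm]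

protected theorem D.subset (hs : T K s) (ht : T K t) : D K (fun M v => s M v ⊆ t M v) :=
  (D.ball (R := fun M y v => y ∈ t M v) hs (D.mem T.v0 ht.tail)).congr fun M _ v _ => Iff.rfl

protected theorem T.pw (hs : T K s) : T K (fun M v => Ctm.pw M (s M v)) := by
  refine T.of_mem (fun M hM v hv => (MK.tm M hM).powerset_mem (hs.mem M hM v hv)) ?_
  exact (D.subset T.v0 hs.tail).congr fun M _ v hv => by
    rw [mem_pw]; exact and_iff_right (hv 0)

protected theorem T.prod (hs : T K s) (ht : T K t) : T K (fun M v => ZFSet.prod (s M v) (t M v)) := by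
  have h : T K (fun M v => (⋃₀ (Ctm.img (fun a => Ctm.img (fun b => ZFSet.pair a b) (t M v))
      (s M v)) : Z)) := by
    refine T.sUnion (T.img (f := fun M a v => Ctm.img (fun b => ZFSet.pair a b) (t M v)) hs ?_)
    exact T.img (f := fun M b v => ZFSet.pair (v 0) b) ht.tail (T.pair T.v1 T.v0)
  refine h.congr fun M _ v _ => ?_
  ext z
  rw [ZFSet.mem_prod, ZFSet.mem_sUnion]
  constructor
  · rintro ⟨a, ha, b, hb, rfl⟩
    exact ⟨_, mem_img.2 ⟨a, ha, rfl⟩, mem_img.2 ⟨b, hb, rfl⟩⟩
  · rintro ⟨w, hw, hz⟩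
    obtain ⟨a, ha, rfl⟩ := mem_img.1 hw
    obtain ⟨b, hb, rfl⟩ := mem_img.1 hz
    exact ⟨a, ha, b, hb, rfl⟩

protected theorem T.inter (hs : T K s) (ht : T K t) : T K (fun M v => s M v ∩ t M v) := by
  refine (T.sep (R := fun M z v => z ∈ t M v) hs (D.mem T.v0 ht.tail)).congr ?_
  intro M _ v _
  ext z; simp

protected theorem T.sdiff (hs : T K s) (ht : T K t) : T K (fun M v => s M v \ t M v) := by
  refine (T.sep (R := fun M z v => z ∉ t M v) hs (D.mem T.v0 ht.tail).neg).congr ?_
  intro M _ v _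
  ext z; simp

end Constr

end Pool.Agent.Lib.Ctm
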