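import Pool.Agent.Lib.Ctm.Gen
import Pool.Agent.Lib.Ctm.Choice

/-!
# The generic extension is a transitive model of ZFC with the same ordinals
-/

namespace Pool.Agent.Lib.Ctm

open Pool.Agent.Lib.Forcing ZFSet

/-! ## values of some names -/

theorem rank_val_le (G : Set Z) (x : Z) : rank (val G x) ≤ rank x := by
  have key : ∀ o : Ordinal, ∀ x : Z, rank x = o → rank (val G x) ≤ rank x := by
    intro o
    induction o using WellFoundedLT.induction with
    | _ o ih =>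
      intro x hx
      rw [rank_le_iff]
      intro z hz
      obtain ⟨y, p, _, h, rfl⟩ := mem_val.1 hz
      exact (ih (rank y) (hx ▸ rank_lt_of_pair h) y rfl).trans_lt (rank_lt_of_pair h)
  exact key _ x rfl

theorem val_prod {G : Set Z} {o : Z} (ho : o ∈ G) {a z : Z} :
    z ∈ val G (ZFSet.prod a {o}) ↔ ∃ y ∈ a, z = val G y := by
  rw [mem_val]
  constructor
  · rintro ⟨y, p, _, h, rfl⟩
    exact ⟨y, (pair_mem_prod.1 h).1, rfl⟩
  · rintro ⟨y, hy, rfl⟩
    exact ⟨y, o, ho, pair_mem_prod.2 ⟨hy, mem_singleton.2 rfl⟩, rfl⟩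

/-- the name of the unordered pair -/
noncomputable def upn (o x y : Z) : Z := {pair x o, pair y o}

theorem val_upn {G : Set Z} {o : Z} (ho : o ∈ G) (x y : Z) :
    val G (upn o x y) = {val G x, val G y} := by
  ext z
  rw [mem_val, ZFSet.mem_pair]
  constructor
  · rintro ⟨u, p, _, h, rfl⟩
    rcases ZFSet.mem_pair.1 h with h | h
    · exact Or.inl (by rw [(pair_inj.1 h).1])
    · exact Or.inr (by rw [(pair_inj.1 h).1])
  · rintro (rfl | rfl)
    · exact ⟨x, o, ho, ZFSet.mem_pair.2 (Or.inl rfl), rfl⟩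
    · exact ⟨y, o, ho, ZFSet.mem_pair.2 (Or.inr rfl), rfl⟩

/-- the name of the ordered pair -/
noncomputable def opn (o x y : Z) : Z := upn o (upn o x x) (upn o x y)

theorem val_opn {G : Set Z} {o : Z} (ho : o ∈ G) (x y : Z) :
    val G (opn o x y) = pair (val G x) (val G y) := by
  rw [opn, val_upn ho, val_upn ho, val_upn ho, pair, ZFSet.pair_eq_singleton]

/-- check names -/
noncomputable def chk (o x : Z) : Z := recF (fun x f => img (fun y => pair (ap f y) o) x) x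

theorem chk_eq (o x : Z) : chk o x = img (fun y => pair (chk o y) o) x := by
  rw [chk, recF_eq]
  ext z
  rw [mem_img, mem_img]
  refine exists_congr fun y => and_congr_right fun hy => ?_
  rw [ap_gr (mem_tc_of_mem hy)]
  exact Iff.rfl

theorem val_chk {G : Set Z} {o : Z} (ho : o ∈ G) (x : Z) : val G (chk o x) = x := by
  induction x using ZFSet.inductionOn with
  | _ x ih =>
    ext z
    rw [mem_val, chk_eq]
    constructor
    · rintro ⟨u, p, _, h, rfl⟩
      obtain ⟨y, hy, h⟩ := mem_img.1 h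
      rw [(pair_inj.1 h).1, ih y hy]
      exact hy
    · intro hz
      exact ⟨chk o z, o, ho, mem_img.2 ⟨z, hz, rfl⟩, (ih z hz).symm⟩

protected theorem T.chk {K : Set (Set Z)} [MK K] {o : Z} (ho : ∀ M ∈ K, o ∈ M)
    {s : Set Z → (ℕ → Z) → Z} (hs : T K s) : T K (fun M v => Ctm.chk o (s M v)) := by
  refine T.recur (G := fun _ x f _ => img (fun y => ZFSet.pair (ap f y) o) x) ?_ hs
  exact T.img (f := fun _ y v => ZFSet.pair (ap (v 1) y) o) T.v0
    (T.pair (T.ap T.v2 T.v0) (T.const ho))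

protected theorem T.upn {K : Set (Set Z)} [MK K] {o : Z} (ho : ∀ M ∈ K, o ∈ M)
    {s t : Set Z → (ℕ → Z) → Z} (hs : T K s) (ht : T K t) :
    T K (fun M v => Ctm.upn o (s M v) (t M v)) :=
  T.upair (T.pair hs (T.const ho)) (T.pair ht (T.const ho))

protected theorem T.opn {K : Set (Set Z)} [MK K] {o : Z} (ho : ∀ M ∈ K, o ∈ M)
    {s t : Set Z → (ℕ → Z) → Z} (hs : T K s) (ht : T K t) :
    T K (fun M v => Ctm.opn o (s M v) (t M v)) :=
  T.upn ho (T.upn ho hs hs) (T.upn ho hs ht)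

section Ext

variable {N : Set Z} {P L o : Z} (hN : TM N) (hF : PO N P L o) {G : Set Z} (hG : Gen N P L G)
  (ho : o ∈ G)

include hN

theorem NG_trans : ∀ x ∈ NG N G, ∀ y ∈ x, y ∈ NG N G := by
  rintro _ ⟨x, hx, rfl⟩ y hy
  obtain ⟨u, p, _, h, rfl⟩ := mem_val.1 hy
  exact ⟨u, (hN.of_pair_mem_mem hx h).1, rfl⟩

include hF

theorem o_mem_N : o ∈ N := hN.trans _ hF.P_mem _ hF.top

theorem chk_mem {x : Z} (hx : x ∈ N) : chk o x ∈ N := by
  have _i := hN.sing
  exact (T.chk (K := {N}) (by rintro _ rfl; exact o_mem_N hN hF) T.v0).mem N rfl (fun _ => x)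
    (fun _ => hx)

include ho

theorem N_sub_NG : N ⊆ NG N G := fun x hx => ⟨chk o x, chk_mem hN hF hx, val_chk ho x⟩

include hG

omit ho in
/-- subsets defined by formulas, with a name which is a subset of `a × P` -/
theorem sub_name (φ : Fml) {v : ℕ → Z} (hv : In N v) {a : Z} (ha : a ∈ N) :
    ∃ S ∈ N, S ⊆ ZFSet.prod a P ∧ ∀ z, z ∈ val G S ↔ ∃ y ∈ a, z = val G y ∧
      SatC (NG N G) φ (cons z (fun i => val G (v i))) := by
  have _i := hN.sing
  have e : ∀ y : Z, cons (val G y) (fun i => val G (v i)) = fun i => val G (cons y v i) := by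
    intro y; funext i; cases i <;> rfl
  have hD : D {N} (fun M v => ∃ y p, v 0 = ZFSet.pair y p ∧
      (p ∈ P ∧ NF M P L φ (cons y (tl v)) p)) := by
    have h := D.nf hF.P_mem hF.L_mem φ
    have h1 : D {N} (fun M v => ∃ y ∈ M, ∃ p ∈ M, v 0 = ZFSet.pair y p ∧
        (p ∈ P ∧ NF M P L φ (cons y (tl v)) p)) := by
      refine D.ex (R := fun M y v => ∃ p ∈ M, v 0 = ZFSet.pair y p ∧
        (p ∈ P ∧ NF M P L φ (cons y (tl v)) p)) ?_
      refine D.ex (R := fun M p v => v 1 = ZFSet.pair (v 0) p ∧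
        (p ∈ P ∧ NF M P L φ (cons (v 0) (tl (tl v))) p)) ?_
      refine (D.eq T.v2 (T.pair T.v1 T.v0)).and ?_
      refine (h.ren (fun i => if i = 0 then 0 else if i = 1 then 1 else i + 1)).congr
        fun M _ v _ => ?_
      have e : tl (fun i => v (if i = 0 then 0 else if i = 1 then 1 else i + 1)) =
          cons (v 1) (tl (tl (tl v))) := by
        funext i
        match i with
        | 0 => rfl
        | n + 1 => simp [tl]
      rw [e]; exact Iff.rfl
    refine h1.congr fun M hM v hv => ?_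
    constructor
    · rintro ⟨y, p, h2, h3⟩
      have := (MK.tm M hM).of_pair_mem (h2 ▸ hv 0)
      exact ⟨y, this.1, p, this.2, h2, h3⟩
    · rintro ⟨y, _, p, _, h2, h3⟩; exact ⟨y, p, h2, h3⟩
  have hap : ZFSet.prod a P ∈ N :=
    (T.prod (K := {N}) (T.var 0) (T.var 1)).mem N rfl (cons a (fun _ => P))
      (In.cons (fun _ => hF.P_mem) ha)
  refine ⟨_, D.sep_mem (K := {N}) (R := fun M z v => ∃ y p, z = ZFSet.pair y p ∧
      (p ∈ P ∧ NF M P L φ (cons y v) p)) hD rfl hv hap, ZFSet.sep_subset, fun z => ?_⟩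
  rw [mem_val]
  constructor
  · rintro ⟨y, p, hp, h, rfl⟩
    rw [mem_sep, pair_mem_prod] at h
    obtain ⟨⟨hy, _⟩, y', p', h2, h3⟩ := h
    obtain ⟨rfl, rfl⟩ := pair_inj.1 h2
    refine ⟨y, hy, rfl, ?_⟩
    rw [e, truth hN hF hG φ (cons y v) (hv.cons (hN.trans _ ha _ hy))]
    exact ⟨p, hp, h3.2⟩
  · rintro ⟨y, hy, rfl, h⟩
    rw [e, truth hN hF hG φ (cons y v) (hv.cons (hN.trans _ ha _ hy))] at h
    obtain ⟨p, hp, h⟩ := h
    exact ⟨y, p, hp, mem_sep.2 ⟨pair_mem_prod.2 ⟨hy, hG.sub p hp⟩, y, p, rfl, hG.sub p hp, h⟩,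
      rfl⟩

omit hF hG ho in
theorem prod_mem_N {a b : Z} (ha : a ∈ N) (hb : b ∈ N) : ZFSet.prod a b ∈ N := by
  have _i := hN.sing
  exact (T.prod (K := {N}) (T.var 0) (T.var 1)).mem N rfl (cons a (fun _ => b))
      (In.cons (fun _ => hb) ha)

omit ho in
/-- separation in the extension, in terms of classes -/
theorem NG_sep (φ : Fml) {w : ℕ → Z} (hw : In (NG N G) w) {x : Z} (hx : x ∈ NG N G) :
    ZFSet.sep (fun z => SatC (NG N G) φ (cons z w)) x ∈ NG N G := by
  choose v hv using hw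
  obtain ⟨a, ha, rfl⟩ := hx
  have hw' : w = fun i => val G (v i) := by funext i; exact ((hv i).2).symm
  subst hw'
  -- formula `z ∈ x ∧ φ` with the variable `1` for `x`
  obtain ⟨S, hS, _, h⟩ := sub_name hN hF hG
    (.fand (.fmem 0 1) (φ.ren (fun n => if n = 0 then 0 else n + 1)))
    (v := cons a v) (In.cons (fun i => (hv i).1) ha) (hN.tc_mem ha)
  refine ⟨S, hS, ?_⟩
  ext z
  rw [h, mem_sep]
  have e : ∀ z, SatC (NG N G) (.fand (.fmem 0 1) (φ.ren (fun n => if n = 0 then 0 else n + 1)))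
      (cons z (fun i => val G (cons a v i))) ↔ z ∈ val G a ∧
        SatC (NG N G) φ (cons z (fun i => val G (v i))) := by
    intro z
    change _ ∧ SatC _ _ _ ↔ _
    rw [satC_ren]
    have : (fun i => cons z (fun i => val G (cons a v i)) (if i = 0 then 0 else i + 1)) =
        cons z (fun i => val G (v i)) := by
      funext i; cases i <;> rfl
    rw [this]; exact Iff.rfl
  constructor
  · rintro ⟨y, hy, rfl, h1⟩
    exact (e _).1 h1
  · rintro ⟨hz, h1⟩
    obtain ⟨u, p, _, h2, rfl⟩ := mem_val.1 hz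
    exact ⟨u, mem_tc_of_pair h2, rfl, (e _).2 ⟨hz, h1⟩⟩

/-- the extension satisfies ZF -/
theorem NG_zf : IsZF (NG N G) (fun x y => x.1 ∈ y.1) := by
  have _i := hN.sing
  have htr := NG_trans (G := G) hN
  have hsep : ∀ (φ : Fml) (w : ℕ → Z) (_ : In (NG N G) w) (x : Z) (_ : x ∈ NG N G),
      ∃ S ∈ NG N G, ∀ z, z ∈ S ↔ z ∈ x ∧ SatC (NG N G) φ (cons z w) :=
    fun φ w hw x hx => ⟨_, NG_sep hN hF hG φ hw hx, fun z => mem_sep⟩
  refine ⟨?_, ?_, ?_, ?_, ?_, ?_, ?_, ?_⟩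
  · -- extensionality
    rintro ⟨x, hx⟩ ⟨y, hy⟩ h
    refine Subtype.ext (ZFSet.ext fun z => ⟨fun hz => ?_, fun hz => ?_⟩)
    · exact (h ⟨z, htr x hx z hz⟩).1 hz
    · exact (h ⟨z, htr y hy z hz⟩).2 hz
  · -- foundation
    rintro ⟨x, hx⟩ ⟨⟨y, hy⟩, hyx⟩
    obtain ⟨m, hm, h⟩ := exists_min (fun u => u ∈ x) hyx
    exact ⟨⟨m, htr x hx m hm⟩, hm, fun z hz hzx => h z.1 hz hzx⟩
  · -- pairing
    rintro ⟨_, x, hx, rfl⟩ ⟨_, y, hy, rfl⟩
    have hoN := o_mem_N hN hF
    refine ⟨⟨_, upn o x y, hN.upair_mem (hN.pair_mem hx hoN) (hN.pair_mem hy hoN), rfl⟩, ?_⟩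
    intro w
    have hw : w.1 ∈ val G (upn o x y) ↔ w.1 = val G x ∨ w.1 = val G y := by
      rw [val_upn ho, ZFSet.mem_pair]
    refine hw.trans ?_
    exact ⟨fun h => h.imp (fun h => Subtype.ext h) (fun h => Subtype.ext h),
      fun h => h.imp (fun h => congrArg Subtype.val h) (fun h => congrArg Subtype.val h)⟩
  · -- union
    rintro ⟨_, x, hx, rfl⟩
    have hB : val G (ZFSet.prod (tc x) {o}) ∈ NG N G :=
      ⟨_, prod_mem_N hN (hN.tc_mem hx) (hN.singleton_mem (o_mem_N hN hF)), rfl⟩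
    obtain ⟨S, hS, hSm⟩ := hsep (.fneg (.fall (.fneg (.fand (.fmem 0 2) (.fmem 1 0)))))
      (fun _ => val G x) (fun _ => val_mem_NG hx) _ hB
    refine ⟨⟨S, hS⟩, ?_⟩
    intro z
    refine (hSm z.1).trans ?_
    rw [val_prod ho]
    constructor
    · rintro ⟨_, h2⟩
      simp only [SatC, cons_zero, cons_succ, not_forall, not_not] at h2
      obtain ⟨w, hw, h3, h4⟩ := h2
      exact ⟨⟨w, hw⟩, h3, h4⟩
    · rintro ⟨w, h3, h4⟩
      refine ⟨?_, ?_⟩
      · obtain ⟨u, p, _, h5, h6⟩ := mem_val.1 h3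
        change w.1 = _ at h6
        change z.1 ∈ w.1 at h4
        rw [h6] at h4
        obtain ⟨u', p', _, h7, h8⟩ := mem_val.1 h4
        exact ⟨u', tc_subset_of_mem (mem_tc_of_pair h5) (mem_tc_of_pair h7), h8⟩
      · simp only [SatC, cons_zero, cons_succ, not_forall, not_not]
        exact ⟨w.1, w.2, h3, h4⟩
  · -- power set
    rintro ⟨_, x, hx, rfl⟩
    have hpw : pw N (ZFSet.prod (tc x) P) ∈ N :=
      hN.powerset_mem (prod_mem_N hN (hN.tc_mem hx) hF.P_mem)
    have hB : val G (ZFSet.prod (pw N (ZFSet.prod (tc x) P)) {o}) ∈ NG N G :=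
      ⟨_, prod_mem_N hN hpw (hN.singleton_mem (o_mem_N hN hF)), rfl⟩
    obtain ⟨S, hS, hSm⟩ := hsep (.fall (.fneg (.fand (.fmem 0 1) (.fneg (.fmem 0 2)))))
      (fun _ => val G x) (fun _ => val_mem_NG hx) _ hB
    refine ⟨⟨S, hS⟩, ?_⟩
    intro z
    refine (hSm z.1).trans ?_
    rw [val_prod ho]
    constructor
    · rintro ⟨_, h2⟩ w hw
      simp only [SatC, cons_zero, cons_succ, not_and, not_not] at h2
      exact h2 w.1 w.2 hw
    · intro h2
      obtain ⟨y, hy, hyz⟩ := z.2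
      have hsub : z.1 ⊆ val G x := fun w hw => h2 ⟨w, htr z.1 z.2 w hw⟩ hw
      refine ⟨?_, ?_⟩
      · obtain ⟨S, hS, hSs, hSv⟩ := sub_name hN hF hG (.fmem 0 1) (v := fun _ => y)
          (fun _ => hy) (hN.tc_mem hx)
        refine ⟨S, mem_pw.2 ⟨hS, hSs⟩, ?_⟩
        rw [← hyz]
        ext w
        rw [hSv]
        constructor
        · intro hw
          obtain ⟨u, p, _, h5, h6⟩ := mem_val.1 (hsub (hyz ▸ hw))
          exact ⟨u, mem_tc_of_pair h5, h6, hw⟩
        · rintro ⟨_, _, _, hw⟩; exact hw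
      · simp only [SatC, cons_zero, cons_succ, not_and, not_not]
        intro w _ hw
        exact hsub hw
  · -- infinity
    have hom : om ∈ NG N G := N_sub_NG hN hF ho hN.om_mem
    refine ⟨⟨om, hom⟩, ⟨⟨∅, htr _ hom _ empty_mem_om⟩, fun z => notMem_empty z.1,
      empty_mem_om⟩, ?_⟩
    rintro ⟨y, hy⟩ (hyo : y ∈ om)
    refine ⟨⟨insert y y, htr _ hom _ (succ_mem_om hyo)⟩, succ_mem_om hyo, ?_⟩
    intro w
    change w.1 ∈ (insert y y : Z) ↔ _
    rw [mem_insert_iff, or_comm]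
    exact ⟨fun h => h.imp id (fun h => Subtype.ext h),
      fun h => h.imp id (fun h => congrArg Subtype.val h)⟩
  · -- separation
    rintro φ w ⟨x, hx⟩
    obtain ⟨S, hS, hSm⟩ := hsep φ (fun i => (w i).1) (fun i => (w i).2) x hx
    refine ⟨⟨S, hS⟩, ?_⟩
    intro z
    refine (hSm z.1).trans ?_
    refine and_congr_right fun _ => ?_
    rw [satC_iff]
    have : (fun i => (cons z w i).1) = cons z.1 (fun i => (w i).1) := by
      funext i; cases i <;> rfl
    rw [this]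
  · -- replacement
    rintro φ w ⟨x0, x, hx, rfl⟩ hf
    have hw : ∀ i, ∃ v ∈ N, val G v = (w i).1 := fun i => (w i).2
    choose v hv hvw using hw
    have hvN : In N v := hv
    -- collection in `N`
    have hD : D {N} (fun M v => ∃ y p, v 0 = ZFSet.pair y p ∧
        ((p ∈ P ∧ NF M P L φ (cons y (cons (v 1) (tl (tl v)))) p) ∨
          ¬ ∃ z ∈ M, (p ∈ P ∧ NF M P L φ (cons y (cons z (tl (tl v)))) p))) := by
      have h := D.nf hF.P_mem hF.L_mem φ
      have h1 : D {N} (fun M v => ∃ y ∈ M, ∃ p ∈ M, v 0 = ZFSet.pair y p ∧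
          ((p ∈ P ∧ NF M P L φ (cons y (cons (v 1) (tl (tl v)))) p) ∨
            ¬ ∃ z ∈ M, (p ∈ P ∧ NF M P L φ (cons y (cons z (tl (tl v)))) p))) := by
        refine D.ex (R := fun M y v => ∃ p ∈ M, v 0 = ZFSet.pair y p ∧
          ((p ∈ P ∧ NF M P L φ (cons y (cons (v 1) (tl (tl v)))) p) ∨
            ¬ ∃ z ∈ M, (p ∈ P ∧ NF M P L φ (cons y (cons z (tl (tl v)))) p))) ?_
        refine D.ex (R := fun M p v => v 1 = ZFSet.pair (v 0) p ∧
          ((p ∈ P ∧ NF M P L φ (cons (v 0) (cons (v 2) (tl (tl (tl v))))) p) ∨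
            ¬ ∃ z ∈ M, (p ∈ P ∧ NF M P L φ (cons (v 0) (cons z (tl (tl (tl v))))) p))) ?_
        refine (D.eq T.v2 (T.pair T.v1 T.v0)).and (D.or ?_ (D.neg ?_))
        · refine (h.ren (fun i => if i = 0 then 0 else if i = 1 then 1 else
            if i = 2 then 3 else i + 1)).congr fun M _ v _ => ?_
          have e : tl (fun i => v (if i = 0 then 0 else if i = 1 then 1 else
            if i = 2 then 3 else i + 1)) = cons (v 1) (cons (v 3) (tl (tl (tl (tl v))))) := by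
            funext i
            match i with
            | 0 => rfl
            | 1 => rfl
            | n + 2 => simp [tl]
          rw [e]; exact Iff.rfl
        · refine D.ex (R := fun M z v => v 0 ∈ P ∧ NF M P L φ (cons (v 1)
            (cons z (tl (tl (tl (tl v)))))) (v 0)) ?_
          refine (h.ren (fun i => if i = 0 then 1 else if i = 1 then 2 else
            if i = 2 then 0 else i + 2)).congr fun M _ v _ => ?_
          have e : tl (fun i => v (if i = 0 then 1 else if i = 1 then 2 else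
            if i = 2 then 0 else i + 2)) = cons (v 2) (cons (v 0)
              (tl (tl (tl (tl (tl v)))))) := by
            funext i
            match i with
            | 0 => rfl
            | 1 => rfl
            | n + 2 => simp [tl]
          rw [e]; exact Iff.rfl
      refine h1.congr fun M hM v hv => ?_
      constructor
      · rintro ⟨y, p, h2, h3⟩
        have := (MK.tm M hM).of_pair_mem (h2 ▸ hv 0)
        exact ⟨y, this.1, p, this.2, h2, h3⟩
      · rintro ⟨y, _, p, _, h2, h3⟩; exact ⟨y, p, h2, h3⟩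
    obtain ⟨b, hb, hbo, hb1⟩ := D.coll (K := {N}) (R := fun M u z v => ∃ y p,
      u = ZFSet.pair y p ∧ ((p ∈ P ∧ NF M P L φ (cons y (cons z v)) p) ∨
          ¬ ∃ z ∈ M, (p ∈ P ∧ NF M P L φ (cons y (cons z v)) p))) hD rfl hvN
      (prod_mem_N hN (hN.tc_mem hx) hF.P_mem) (by
        intro u hu
        obtain ⟨y, hy, p, hp, rfl⟩ := mem_prod.1 hu
        by_cases h : ∃ z ∈ N, (p ∈ P ∧ NF N P L φ (cons y (cons z v)) p)
        · obtain ⟨z, hz, h⟩ := h
          exact ⟨z, hz, y, p, rfl, Or.inl h⟩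
        · exact ⟨∅, hN.empty_mem, y, p, rfl, Or.inr h⟩)
    have hB : val G (ZFSet.prod (VM N b) {o}) ∈ NG N G :=
      ⟨_, prod_mem_N hN (hN.VM_mem hb) (hN.singleton_mem (o_mem_N hN hF)), rfl⟩
    -- separation: `∃ y ∈ x, φ (y, z, w)`
    obtain ⟨S, hS, hSm⟩ := hsep (.fneg (.fall (.fneg (.fand (.fmem 0 2)
      (φ.ren (fun n => if n = 0 then 0 else if n = 1 then 1 else n + 1))))))
      (cons (val G x) (fun i => (w i).1)) (In.cons (fun i => (w i).2) (val_mem_NG hx)) _ hB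
    refine ⟨⟨S, hS⟩, ?_⟩
    intro z
    refine (hSm z.1).trans ?_
    rw [val_prod ho]
    have e1 : ∀ y : Z, SatC (NG N G) (φ.ren (fun n => if n = 0 then 0 else if n = 1 then 1 else
        n + 1)) (cons y (cons z.1 (cons (val G x) (fun i => (w i).1)))) ↔
        SatC (NG N G) φ (cons y (cons z.1 (fun i => (w i).1))) := by
      intro y
      rw [satC_ren]
      have : (fun i => cons y (cons z.1 (cons (val G x) (fun i => (w i).1)))
          (if i = 0 then 0 else if i = 1 then 1 else i + 1)) =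
          cons y (cons z.1 (fun i => (w i).1)) := by
        funext i
        match i with
        | 0 => rfl
        | 1 => rfl
        | n + 2 => rfl
      rw [this]
    have e2 : ∀ y : NG N G, Sat (fun x y : NG N G => x.1 ∈ y.1) φ (cons y (cons z w)) ↔
        SatC (NG N G) φ (cons y.1 (cons z.1 (fun i => (w i).1))) := by
      intro y
      rw [satC_iff]
      have : (fun i => (cons y (cons z w) i).1) = cons y.1 (cons z.1 (fun i => (w i).1)) := by
        funext i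
        match i with
        | 0 => rfl
        | 1 => rfl
        | n + 2 => rfl
      rw [this]
    constructor
    · rintro ⟨_, h2⟩
      simp only [SatC, cons_zero, cons_succ, not_forall, not_not] at h2
      obtain ⟨y, hy, h3, h4⟩ := h2
      exact ⟨⟨y, hy⟩, h3, (e2 _).2 ((e1 y).1 h4)⟩
    · rintro ⟨y, h3, h4⟩
      refine ⟨?_, ?_⟩
      · obtain ⟨u, p, hp, h5, h6⟩ := mem_val.1 h3
        have huN := (hN.of_pair_mem_mem hx h5).1
        obtain ⟨z', hz', hzz⟩ := z.2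
        have h7 := (e2 y).1 h4
        have ev : ∀ z'' : Z, cons y.1 (cons (val G z'') (fun i => (w i).1)) =
            fun i => val G (cons u (cons z'' v) i) := by
          intro z''
          funext i
          match i with
          | 0 => exact h6
          | 1 => rfl
          | n + 2 => exact (hvw n).symm
        rw [← hzz, ev z', truth hN hF hG φ _ ((hvN.cons hz').cons huN)] at h7
        obtain ⟨q, hq, h7⟩ := h7
        obtain ⟨z1, hz1, y1, p1, h8, h9⟩ := hb1 (pair u q)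
          (pair_mem_prod.2 ⟨mem_tc_of_pair h5, hG.sub q hq⟩)
        obtain ⟨rfl, rfl⟩ := pair_inj.1 h8
        have hz1N : z1 ∈ N := hN.trans _ (hN.VM_mem hb) _ hz1
        rcases h9 with h9 | h9
        · refine ⟨z1, hz1, ?_⟩
          have h10 : SatC (NG N G) φ (cons y.1 (cons (val G z1) (fun i => (w i).1))) := by
            rw [ev z1, truth hN hF hG φ _ ((hvN.cons hz1N).cons huN)]
            exact ⟨q, hq, h9.2⟩
          obtain ⟨z2, _, hu⟩ := hf y h3
          have h11 := hu z h4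
          have h12 := hu ⟨val G z1, val_mem_NG hz1N⟩ (by
            beta_reduce
            rw [satC_iff]
            have : (fun i => (cons y (cons (⟨val G z1, val_mem_NG hz1N⟩ : NG N G) w) i).1) =
                cons y.1 (cons (val G z1) (fun i => (w i).1)) := by
              funext i
              match i with
              | 0 => rfl
              | 1 => rfl
              | n + 2 => rfl
            rw [this]; exact h10)
          exact congrArg Subtype.val (h11.trans h12.symm)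
        · exact absurd ⟨z', hz', hG.sub q hq, h7⟩ h9
      · simp only [SatC, cons_zero, cons_succ, not_forall, not_not]
        exact ⟨y.1, y.2, h3, (e1 _).2 ((e2 y).1 h4)⟩

theorem NG_tm : TM (NG N G) := ⟨NG_trans hN, NG_zf hN hF hG ho⟩

omit hG in
/-- the extension has the same ordinals -/
theorem NG_ord {a : Z} (ha : a.IsOrdinal) : a ∈ NG N G ↔ a ∈ N := by
  constructor
  · rintro ⟨x, hx, rfl⟩
    exact hN.ord_mem ha hx (rank_val_le G x)
  · exact fun h => N_sub_NG hN hF ho h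

/-- the generic filter as a set of the extension -/
noncomputable def gset (P o : Z) : Z := img (fun p => pair (chk o p) p) P

omit hN hF in
theorem mem_val_gset {z : Z} : z ∈ val G (gset P o) ↔ z ∈ G := by
  rw [mem_val]
  constructor
  · rintro ⟨y, p, hp, h, rfl⟩
    obtain ⟨q, hq, h⟩ := mem_img.1 h
    obtain ⟨rfl, rfl⟩ := pair_inj.1 h
    rw [val_chk ho]; exact hp
  · intro hz
    exact ⟨chk o z, z, hz, mem_img.2 ⟨z, hG.sub z hz, rfl⟩, (val_chk ho z).symm⟩

omit hG ho in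
theorem gset_mem : val G (gset P o) ∈ NG N G := by
  have _i := hN.sing
  refine ⟨_, ?_, rfl⟩
  have hoN : ∀ M ∈ ({N} : Set (Set Z)), o ∈ M := by rintro _ rfl; exact o_mem_N hN hF
  exact (T.img (K := {N}) (f := fun _ p _ => ZFSet.pair (Ctm.chk o p) p) T.v0
    (T.pair (T.chk hoN T.v0) T.v0)).mem N rfl (fun _ => P) (fun _ => hF.P_mem)

end Ext

/-- the extension satisfies the axiom of choice -/
theorem NG_ac {N : Set Z} {P L o : Z} (hN : TC N) (hF : PO N P L o) {G : Set Z}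
    (hG : Gen N P L G) (ho : o ∈ G) : HasAC (NG N G) (fun x y => x.1 ∈ y.1) := by
  have hNt := hN.toTM
  have hE := NG_tm hNt hF hG ho
  have _i := hNt.sing
  have _j := hE.sing
  rintro ⟨_, x, hx, rfl⟩ hne hdis
  obtain ⟨b, hb, hbo, w, hw, hw1, hw2, hw3⟩ := hN.wo (hNt.tc_mem hx)
  -- the relation between indices and values
  have hoN : ∀ M ∈ ({N} : Set (Set Z)), o ∈ M := by rintro _ rfl; exact o_mem_N hNt hF
  have hbc : ∀ M ∈ ({N} : Set (Set Z)), b ∈ M := by rintro _ rfl; exact hb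
  have hwc : ∀ M ∈ ({N} : Set (Set Z)), w ∈ M := by rintro _ rfl; exact hw
  have hH : img (fun i => opn o (ap w i) (chk o i)) b ∈ N :=
    (T.img (K := {N}) (f := fun _ i _ => Ctm.opn o (Ctm.ap w i) (Ctm.chk o i)) (T.const hbc)
      (T.opn hoN (T.ap (T.const hwc) T.v0) (T.chk hoN T.v0))).mem N rfl (fun _ => ∅)
      (fun _ => hNt.empty_mem)
  have hHG : val G (ZFSet.prod (img (fun i => opn o (ap w i) (chk o i)) b) {o}) ∈ NG N G :=
    val_mem_NG (prod_mem_N hNt hH (hNt.singleton_mem (o_mem_N hNt hF)))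
  set H := val G (ZFSet.prod (img (fun i => opn o (ap w i) (chk o i)) b) {o}) with hHdef
  have hHm : ∀ z i, pair z i ∈ H ↔ i ∈ b ∧ z = val G (ap w i) := by
    intro z i
    rw [hHdef, val_prod ho]
    constructor
    · rintro ⟨y, hy, h⟩
      obtain ⟨j, hj, rfl⟩ := mem_img.1 hy
      rw [val_opn ho, val_chk ho] at h
      obtain ⟨rfl, rfl⟩ := pair_inj.1 h
      exact ⟨hj, rfl⟩
    · rintro ⟨hi, rfl⟩
      exact ⟨_, mem_img.2 ⟨i, hi, rfl⟩, by rw [val_opn ho, val_chk ho]⟩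
  have hxG := val_mem_NG (G := G) hx
  have hC : ZFSet.sep (fun z => ∃ y ∈ val G x, z ∈ y ∧ ∃ z' i, pair z' i ∈ H ∧ z' = z ∧
      ∀ z'' i', pair z'' i' ∈ H → z'' ∈ y → i ⊆ i') (⋃₀ (val G x) : Z) ∈ NG N G := by
    have xc : T {NG N G} (fun _ _ => val G x) := T.const (by rintro _ rfl; exact hxG)
    have Hc : T {NG N G} (fun _ _ => H) := T.const (by rintro _ rfl; exact hHG)
    refine D.sep_mem (K := {NG N G}) (R := fun _ z _ => ∃ y ∈ val G x, z ∈ y ∧
      ∃ z' i, pair z' i ∈ H ∧ z' = z ∧ ∀ z'' i', pair z'' i' ∈ H → z'' ∈ y → i ⊆ i') ?_ rfl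
      (v := fun _ => ∅) (fun _ => hE.empty_mem) (hE.sUnion_mem hxG)
    refine D.bex (R := fun _ y v => v 0 ∈ y ∧ ∃ z' i, ZFSet.pair z' i ∈ H ∧ z' = v 0 ∧
      ∀ z'' i', ZFSet.pair z'' i' ∈ H → z'' ∈ y → i ⊆ i') xc ?_
    refine (D.mem T.v1 T.v0).and ?_
    refine D.exp (R := fun _ z' i v => z' = v 1 ∧
      ∀ z'' i', ZFSet.pair z'' i' ∈ H → z'' ∈ v 0 → i ⊆ i') Hc ?_
    refine (D.eq T.v0 T.v3).and ?_
    refine D.allp (R := fun _ z'' i' v => z'' ∈ v 2 → v 1 ⊆ i') Hc ?_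
    exact (D.mem T.v0 T.v4).imp (D.subset T.v3 T.v1)
  obtain ⟨C, hC, hCm⟩ : ∃ C ∈ NG N G, ∀ z, z ∈ C ↔ z ∈ (⋃₀ (val G x) : Z) ∧
      ∃ y ∈ val G x, z ∈ y ∧ ∃ z' i, pair z' i ∈ H ∧ z' = z ∧
      ∀ z'' i', pair z'' i' ∈ H → z'' ∈ y → i ⊆ i' := ⟨_, hC, fun z => mem_sep⟩
  refine ⟨⟨C, hC⟩, ?_⟩
  rintro ⟨y, hyN⟩ (hy : y ∈ val G x)
  have htr := NG_trans (G := G) hNt
  -- the set of indices of elements of `y`
  have hex : ∃ i, i ∈ b ∧ val G (ap w i) ∈ y := by
    obtain ⟨z, hz⟩ := hne ⟨y, hyN⟩ hy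
    obtain ⟨u, p, _, h1, h2⟩ := mem_val.1 hy
    change z.1 ∈ y at hz
    rw [h2] at hz
    obtain ⟨u', p', _, h3, h4⟩ := mem_val.1 hz
    obtain ⟨i, hi, h5⟩ := hw2 u' (tc_subset_of_mem (mem_tc_of_pair h1) (mem_tc_of_pair h3))
    refine ⟨i, hi, ?_⟩
    rw [h5, ← h4, h2]; exact hz
  obtain ⟨i, ⟨hi, hiy⟩, hmin⟩ := exists_min (fun i => i ∈ b ∧ val G (ap w i) ∈ y) hex.choose_spec
  have hmin' : ∀ z'' i', pair z'' i' ∈ H → z'' ∈ y → i ⊆ i' := by
    intro z'' i' h1 h2
    obtain ⟨h3, rfl⟩ := (hHm _ _).1 h1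
    rcases IsOrdinal.mem_or_subset (hbo.mem h3) (hbo.mem hi) with h | h
    · exact absurd ⟨h3, h2⟩ (hmin i' h)
    · exact h
  refine ⟨⟨val G (ap w i), htr y hyN _ hiy⟩, ⟨?_, hiy⟩, ?_⟩
  · exact (hCm _).2 ⟨mem_sUnion.2 ⟨y, hy, hiy⟩, y, hy, hiy, _, i, (hHm _ _).2 ⟨hi, rfl⟩, rfl,
      hmin'⟩
  · rintro ⟨z, hzN⟩ ⟨h1, h2⟩
    replace h1 := (hCm _).1 h1
    change z ∈ y at h2
    obtain ⟨_, y', hy', hzy', z', i', h3, rfl, h4⟩ := h1
    have hyy : y' = y := by
      by_contra hne'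
      exact hdis ⟨y', htr _ hxG _ hy'⟩ ⟨y, hyN⟩ hy' hy (fun h => hne' (congrArg Subtype.val h))
        ⟨z', hzN⟩ ⟨hzy', h2⟩
    subst hyy
    obtain ⟨h5, h6⟩ := (hHm _ _).1 h3
    have h7 : i ⊆ i' := hmin' _ _ h3 h2
    have h8 : i' ⊆ i := h4 _ i ((hHm _ _).2 ⟨hi, rfl⟩) hiy
    have h9 : i' = i := subset_antisymm h8 h7
    exact Subtype.ext (by change z' = _; rw [h6, h9])

theorem NG_tc {N : Set Z} {P L o : Z} (hN : TC N) (hF : PO N P L o) {G : Set Z}
    (hG : Gen N P L G) (ho : o ∈ G) : TC (NG N G) :=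
  ⟨NG_tm hN.toTM hF hG ho, NG_ac hN hF hG ho⟩

end Pool.Agent.Lib.Ctm
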