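import Pool.Agent.Lib.Ctm.Ord
import Pool.Agent.Lib.Forcing.Countable

/-!
# Countable transitive models of minimal height
-/

namespace Pool.Agent.Lib.Ctm

open Pool.Agent.Lib.Forcing ZFSet

/-- the height of a set of sets -/
noncomputable def ht (M : Set Z) : Ordinal.{0} := sInf {o | ∀ x ∈ M, rank x < o}

/-- the universe of sets satisfies ZFC -/
theorem isZFC_univ : IsZFC Z (fun x y => x ∈ y) := by
  classical
  refine ⟨?_, ?_, ?_, ?_, ?_, ?_, ?_, ?_, ?_⟩
  · intro x y h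
    exact ZFSet.ext h
  · rintro x ⟨y, hy⟩
    have hx : x ≠ ∅ := by
      rintro rfl
      exact ZFSet.notMem_empty _ hy
    obtain ⟨w, hw, h0⟩ := ZFSet.regularity x hx
    refine ⟨w, hw, fun z hz hzx => ?_⟩
    have : z ∈ x ∩ w := ZFSet.mem_inter.2 ⟨hzx, hz⟩
    rw [h0] at this
    exact ZFSet.notMem_empty _ this
  · intro x y
    exact ⟨{x, y}, fun w => ZFSet.mem_pair⟩
  · intro x
    refine ⟨⋃₀ x, fun z => ?_⟩
    exact ZFSet.mem_sUnion
  · intro x
    refine ⟨powerset x, fun z => ?_⟩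
    rw [ZFSet.mem_powerset]
    exact Iff.rfl
  · refine ⟨omega, ⟨∅, fun z => ZFSet.notMem_empty z, ZFSet.omega_zero⟩, fun y hy => ?_⟩
    refine ⟨insert y y, ZFSet.omega_succ hy, fun w => ?_⟩
    rw [ZFSet.mem_insert_iff]
    exact or_comm
  · intro φ v x
    refine ⟨ZFSet.sep (fun z => Sat (fun x y : Z => x ∈ y) φ (Forcing.cons z v)) x, fun z => ?_⟩
    exact ZFSet.mem_sep
  · intro φ v x hx
    let F : {y // y ∈ x} → Z := fun y => (hx y.1 y.2).choose
    refine ⟨ZFSet.range F, fun z => ?_⟩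
    rw [ZFSet.mem_range]
    constructor
    · rintro ⟨y, rfl⟩
      exact ⟨y.1, y.2, (hx y.1 y.2).choose_spec.1⟩
    · rintro ⟨y, hy, h⟩
      exact ⟨⟨y, hy⟩, ((hx y hy).choose_spec.2 z h).symm⟩
  · intro x h1 h2
    let F : {y // y ∈ x} → Z := fun y => (h1 y.1 y.2).choose
    refine ⟨ZFSet.range F, fun y hy => ?_⟩
    refine ⟨F ⟨y, hy⟩, ⟨ZFSet.mem_range.2 ⟨_, rfl⟩, (h1 y hy).choose_spec⟩, ?_⟩
    rintro z ⟨hz, hzy⟩
    obtain ⟨⟨y', hy'⟩, rfl⟩ := ZFSet.mem_range.1 hz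
    by_cases e : y = y'
    · subst e; rfl
    · exact absurd ⟨hzy, (h1 y' hy').choose_spec⟩ (h2 y y' hy hy' e _)

/-- the collapsing function of a class of sets -/
noncomputable def col (A : Set Z) (x : Z) : Z :=
  ZFSet.range (fun y : {y // y ∈ ZFSet.sep (fun z => z ∈ A) x} => col A y.1)
termination_by x
decreasing_by exact (ZFSet.mem_sep.1 y.2).1

theorem mem_col {A : Set Z} {x z : Z} : z ∈ col A x ↔ ∃ y ∈ x, y ∈ A ∧ col A y = z := by
  rw [col, ZFSet.mem_range]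
  constructor
  · rintro ⟨⟨y, h⟩, rfl⟩
    obtain ⟨h1, h2⟩ := ZFSet.mem_sep.1 h
    exact ⟨y, h1, h2, rfl⟩
  · rintro ⟨y, h1, h2, rfl⟩
    exact ⟨⟨y, ZFSet.mem_sep.2 ⟨h1, h2⟩⟩, rfl⟩

theorem rank_col (A : Set Z) (x : Z) : rank (col A x) ≤ rank x := by
  induction x using ZFSet.inductionOn with
  | _ x ih =>
    rw [ZFSet.rank_le_iff]
    intro z hz
    obtain ⟨y, h1, _, rfl⟩ := mem_col.1 hz
    exact lt_of_le_of_lt (ih y h1) (ZFSet.rank_lt_of_mem h1)

theorem col_inj {A : Set Z}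
    (hA : ∀ x ∈ A, ∀ y ∈ A, (∀ z ∈ A, z ∈ x ↔ z ∈ y) → x = y) :
    ∀ x ∈ A, ∀ y ∈ A, col A x = col A y → x = y := by
  intro x
  induction x using ZFSet.inductionOn with
  | _ x ih =>
    intro hx y hy h
    refine hA x hx y hy fun z hz => ⟨fun hzx => ?_, fun hzy => ?_⟩
    · have h1 : col A z ∈ col A y := by
        rw [← h]; exact mem_col.2 ⟨z, hzx, hz, rfl⟩
      obtain ⟨z', h2, h3, h4⟩ := mem_col.1 h1
      rw [ih z hzx hz z' h3 h4.symm]
      exact h2
    · have h1 : col A z ∈ col A x := by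
        rw [h]; exact mem_col.2 ⟨z, hzy, hz, rfl⟩
      obtain ⟨z', h2, h3, h4⟩ := mem_col.1 h1
      rw [← ih z' h2 h3 z hz h4]
      exact h2

/-- satisfaction is invariant under isomorphism -/
theorem sat_equiv {M : Type*} {N : Type*} {E : M → M → Prop} {F : N → N → Prop} (e : M ≃ N)
    (h : ∀ x y, E x y ↔ F (e x) (e y)) (φ : Fml) :
    ∀ v : ℕ → M, Sat E φ v ↔ Sat F φ (fun i => e (v i)) := by
  induction φ with
  | fmem i j => intro v; exact h _ _
  | feq i j => intro v; exact e.injective.eq_iff.symm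
  | fneg φ ih => intro v; exact not_congr (ih v)
  | fand φ ψ ih1 ih2 => intro v; exact and_congr (ih1 v) (ih2 v)
  | fall φ ih =>
    intro v
    constructor
    · intro h' y
      have h1 := (ih _).1 (h' (e.symm y))
      rw [j_cons, Equiv.apply_symm_apply] at h1
      exact h1
    · intro h' x
      rw [ih, j_cons]
      exact h' (e x)

/-- Mostowski collapse of a well-founded model inside the sets: `(A, ∈)` with `A` a countable
(or small) set of sets satisfying ZFC is isomorphic to a transitive model whose elements have no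
larger rank -/
theorem exists_collapse {A : Set Z} [Small.{0} A] (hA : IsZFC A (fun x y => x.1 ∈ y.1)) :
    ∃ (M : Set Z) (f : A ≃ M), TC M ∧ (∀ x y : A, x.1 ∈ y.1 ↔ (f x).1 ∈ (f y).1) ∧
      ∀ x : A, rank (f x).1 ≤ rank x.1 := by
  have hext : ∀ x ∈ A, ∀ y ∈ A, (∀ z ∈ A, z ∈ x ↔ z ∈ y) → x = y := by
    intro x hx y hy h
    have := hA.extensionality ⟨x, hx⟩ ⟨y, hy⟩ (fun z => h z.1 z.2)
    exact congrArg Subtype.val this
  have hinj := col_inj hext
  have hinj' : Set.InjOn (col A) A := fun x hx y hy h => hinj x hx y hy h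
  let f : A ≃ (col A '' A) := Equiv.Set.imageOfInjOn (col A) A hinj'
  have hf : ∀ x : A, (f x).1 = col A x.1 := fun x => rfl
  have hmem : ∀ x y : A, x.1 ∈ y.1 ↔ (f x).1 ∈ (f y).1 := by
    intro x y
    rw [hf, hf, mem_col]
    constructor
    · intro h
      exact ⟨x.1, h, x.2, rfl⟩
    · rintro ⟨z, h1, h2, h3⟩
      rw [← hinj z h2 x.1 x.2 h3]
      exact h1
  refine ⟨col A '' A, f, ?_, hmem, fun x => rank_col A x.1⟩
  refine TC.of ?_ ?_
  · rintro _ ⟨a, ha, rfl⟩ y hy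
    obtain ⟨b, _, hb, rfl⟩ := mem_col.1 hy
    exact ⟨b, hb, rfl⟩
  · obtain ⟨a, _⟩ := hA.infinity
    refine Elem.isZFC (j := f.symm) (E := fun x y : A => x.1 ∈ y.1) ?_ (f a) hA
    intro φ v
    refine sat_equiv f.symm (fun x y => ?_) φ v
    rw [hmem (f.symm x) (f.symm y), Equiv.apply_symm_apply, Equiv.apply_symm_apply]

theorem exists_ctm : ∃ M : Set Z, M.Countable ∧ TC M := by
  have hc := hull_countable (fun x y : Z => x ∈ y) ∅
  have hA : IsZFC (hull (fun x y : Z => x ∈ y) ∅) (fun x y => x.1 ∈ y.1) := by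
    refine Elem.isZFC (j := fun x => x.1) (E := fun x y : Z => x ∈ y) ?_
      ⟨∅, mem_hull_k _ _⟩ isZFC_univ
    intro φ v
    exact hull_elem (fun x y : Z => x ∈ y) ∅ φ v
  have hc' : Countable (hull (fun x y : Z => x ∈ y) ∅) := hc
  obtain ⟨M, f, hM, _, _⟩ := exists_collapse hA
  exact ⟨M, Set.countable_coe_iff.1 (f.symm.injective.countable), hM⟩

theorem exists_min_ctm : ∃ N : Set Z, N.Countable ∧ TC N ∧
    ∀ M : Set Z, M.Countable → TC M → ht N ≤ ht M := by
  let S : Set (Set Z) := {M | M.Countable ∧ TC M}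
  obtain ⟨M, hM⟩ := exists_ctm
  have hS : S.Nonempty := ⟨M, hM⟩
  have hwf : WellFounded (fun a b : Set Z => ht a < ht b) := InvImage.wf ht wellFounded_lt
  refine ⟨hwf.min S hS, (hwf.min_mem S hS).1, (hwf.min_mem S hS).2, fun M' h1 h2 => ?_⟩
  exact not_lt.1 (hwf.not_lt_min S ⟨h1, h2⟩)

theorem rank_lt_ht {M : Set Z} (hc : M.Countable) {a : Z} (ha : a ∈ M) : rank a < ht M := by
  have hc' : Countable M := hc
  have hb : BddAbove (Set.range fun x : M => Order.succ (rank x.1)) :=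
    Ordinal.bddAbove_of_small
  obtain ⟨o, ho⟩ := hb
  have hne : {o | ∀ x ∈ M, rank x < o}.Nonempty := by
    refine ⟨o, fun x hx => ?_⟩
    exact lt_of_lt_of_le (Order.lt_succ _) (ho ⟨⟨x, hx⟩, rfl⟩)
  exact csInf_mem hne a ha

theorem no_set_model {M : Set Z} (hM : TC M) (hc : M.Countable)
    (hmin : ∀ M' : Set Z, M'.Countable → TC M' → ht M ≤ ht M') :
    ∀ a ∈ M, ¬ IsZFC {x // x ∈ a} (fun x y => x.1 ∈ y.1) := by
  intro a ha hz
  let A : Set Z := {x | x ∈ a}
  have hAM : A ⊆ M := fun x hx => hM.trans a ha x hx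
  have hAc : Countable A := hc.mono hAM
  have hz' : IsZFC A (fun x y => x.1 ∈ y.1) := hz
  obtain ⟨M', f, hM', _, hr⟩ := exists_collapse hz'
  have hc' : M'.Countable := Set.countable_coe_iff.1 (f.symm.injective.countable)
  have h1 : ht M' ≤ rank a := by
    refine csInf_le' ?_
    intro x hx
    have h2 := hr (f.symm ⟨x, hx⟩)
    rw [Equiv.apply_symm_apply] at h2
    exact lt_of_le_of_lt h2 (ZFSet.rank_lt_of_mem (f.symm ⟨x, hx⟩).2)
  exact absurd (rank_lt_ht hc ha) (not_lt.2 ((hmin M' hc' hM').trans h1))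

end Pool.Agent.Lib.Ctm
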