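import Pool.Agent.Lib.Ctm0.Ord

/-!
# No elementary embeddings of models without set models
-/

namespace Pool.Agent.Lib.Ctm

open Pool.Agent.Lib.Forcing ZFSet

/-- satisfaction in an element of the model is definable in the model -/
private theorem noEmb_sat {K : Set (Set Z)} [MK K] (φ : Fml) :
    Ctm0.D K (fun _ v => SatC {z | z ∈ v 0} φ (tl v)) := by
  induction φ with
  | fmem i j => exact Ctm0.D.mem0 (i + 1) (j + 1)
  | feq i j => exact Ctm0.D.eq0 (i + 1) (j + 1)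
  | fneg φ ih => exact ih.neg
  | fand φ ψ ih1 ih2 => exact ih1.and ih2
  | fall φ ih =>
    refine Ctm0.D.ball (R := fun _ x v => SatC {z | z ∈ v 0} φ (cons x (tl v))) Ctm0.T.v0 ?_
    have h := ih.ren (fun i => if i = 0 then 1 else if i = 1 then 0 else i)
    refine h.congr fun M hM v hv => ?_
    have e : tl (fun i => v (if i = 0 then 1 else if i = 1 then 0 else i)) =
        cons (v 0) (tl (tl v)) := by
      funext i
      rcases i with _ | i
      · rfl
      · simp [tl]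
    rw [e]
    rfl

private theorem rk_ord {x k : Z} (hk : k.IsOrdinal) : rk x ∈ k ↔ rank x < rank k :=
  rk_mem_iff hk

section Strong

variable {W : Set Z} (hW : TC W) {k : Z} (hkW : k ∈ W) (hk : k.IsOrdinal)
  (hom : om ∈ k) (hsucc : ∀ a ∈ k, (insert a a : Z) ∈ k)
  (hreg : ∀ a ∈ W, rk a ∈ k → ∀ f ∈ W, (∀ u ∈ a, ap f u ∈ k) → ∃ b ∈ k, ∀ u ∈ a, ap f u ∈ b)

include hk hsucc in
private theorem succ_lt {x : Z} (h : rank x < rank k) : Order.succ (rank x) < rank k := by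
  have h1 := hsucc _ ((rk_ord hk).2 h)
  have h2 := rank_lt_of_mem h1
  have h3 : rank (rk x) = rank x := Ordinal.rank_toZFSet _
  rw [rank_insert, h3, max_eq_left (Order.le_succ _)] at h2
  exact h2

include hW hkW hk hom hsucc hreg in
private theorem noEmb_zfc : IsZFC {x // x ∈ VM W k} (fun x y => x.1 ∈ y.1) := by
  have tm := hW.toTM
  have _i := tm.sing
  have memA : ∀ {z : Z}, z ∈ VM W k ↔ z ∈ W ∧ rank z < rank k := by
    intro z
    rw [tm.mem_VM hk hkW, rk_ord hk]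
  have hAW : VM W k ∈ W := tm.VM_mem hkW
  have tr : ∀ {x y : Z}, x ∈ VM W k → y ∈ x → y ∈ VM W k := by
    intro x y hx hy
    rw [memA] at hx ⊢
    exact ⟨tm.trans _ hx.1 _ hy, (rank_lt_of_mem hy).trans hx.2⟩
  have emp : (∅ : Z) ∈ VM W k := by
    rw [memA]
    refine ⟨tm.empty_mem, ?_⟩
    rw [rank_empty]
    exact lt_of_le_of_lt zero_le (rank_lt_of_mem hom)
  have satE : ∀ (φ : Fml) (v : ℕ → {x // x ∈ VM W k}),
      Sat (fun x y : {x // x ∈ VM W k} => x.1 ∈ y.1) φ v ↔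
        SatC {z | z ∈ VM W k} φ (fun i => (v i).1) := fun φ v =>
    satC_iff (M := {z | z ∈ VM W k}) φ v
  refine ⟨?_, ?_, ?_, ?_, ?_, ?_, ?_, ?_, ?_⟩
  · -- extensionality
    rintro ⟨x, hx⟩ ⟨y, hy⟩ h
    apply Subtype.ext
    show x = y
    ext z
    constructor
    · intro hz; exact (h ⟨z, tr hx hz⟩).1 hz
    · intro hz; exact (h ⟨z, tr hy hz⟩).2 hz
  · -- foundation
    rintro ⟨x, hx⟩ ⟨⟨y, hy⟩, hyx⟩
    obtain ⟨m, hm, h⟩ := exists_min (fun z => z ∈ x) (x := y) hyx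
    exact ⟨⟨m, tr hx hm⟩, hm, fun z hz => h z.1 hz⟩
  · -- pairing
    rintro ⟨x, hx⟩ ⟨y, hy⟩
    have hx' := memA.1 hx
    have hy' := memA.1 hy
    refine ⟨⟨{x, y}, memA.2 ⟨tm.upair_mem hx'.1 hy'.1, ?_⟩⟩, ?_⟩
    · rw [rank_pair]
      exact max_lt (succ_lt hk hsucc hx'.2) (succ_lt hk hsucc hy'.2)
    · rintro ⟨w, hw⟩
      show w ∈ ({x, y} : Z) ↔ _
      rw [ZFSet.mem_pair]
      simp only [Subtype.mk.injEq]
  · -- union
    rintro ⟨x, hx⟩
    have hx' := memA.1 hx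
    refine ⟨⟨⋃₀ x, memA.2 ⟨tm.sUnion_mem hx'.1, (rank_sUnion_le x).trans_lt hx'.2⟩⟩, ?_⟩
    rintro ⟨z, hz⟩
    show z ∈ (⋃₀ x : Z) ↔ _
    rw [mem_sUnion]
    constructor
    · rintro ⟨w, hw, hzw⟩
      exact ⟨⟨w, tr hx hw⟩, hw, hzw⟩
    · rintro ⟨w, hw, hzw⟩
      exact ⟨w.1, hw, hzw⟩
  · -- power set
    rintro ⟨x, hx⟩
    have hx' := memA.1 hx
    refine ⟨⟨ZFSet.sep (fun z => z ∈ W) (powerset x), memA.2 ⟨tm.powerset_mem hx'.1, ?_⟩⟩, ?_⟩
    · refine lt_of_le_of_lt ?_ (succ_lt hk hsucc hx'.2)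
      rw [← rank_powerset]
      exact rank_mono (fun u hu => (ZFSet.mem_sep.1 hu).1)
    · rintro ⟨z, hz⟩
      show z ∈ ZFSet.sep (fun z => z ∈ W) (powerset x) ↔ _
      rw [ZFSet.mem_sep, ZFSet.mem_powerset]
      constructor
      · rintro ⟨h1, _⟩ w hw
        exact h1 hw
      · intro h
        exact ⟨fun u hu => h ⟨u, tr hz hu⟩ hu, (memA.1 hz).1⟩
  · -- infinity
    have homA : om ∈ VM W k := memA.2 ⟨tm.om_mem, rank_lt_of_mem hom⟩
    refine ⟨⟨om, homA⟩, ⟨⟨∅, emp⟩, fun z hz => notMem_empty _ hz, empty_mem_om⟩, ?_⟩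
    rintro ⟨y, hy⟩ hyo
    refine ⟨⟨insert y y, tr homA (succ_mem_om hyo)⟩, succ_mem_om hyo, ?_⟩
    rintro ⟨w, hw⟩
    show w ∈ (insert y y : Z) ↔ _
    rw [mem_insert_iff]
    simp only [Subtype.mk.injEq]
    exact or_comm
  · -- separation
    rintro φ v ⟨x, hx⟩
    have hx' := memA.1 hx
    have hD : Ctm0.D {W} (fun _ u => SatC {z | z ∈ u 1} φ (cons (u 0) (tl (tl u)))) := by
      have h := (noEmb_sat (K := {W}) φ).ren (fun i => if i = 0 then 1 else if i = 1 then 0 else i)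
      refine h.congr fun M hM u hu => ?_
      have e : tl (fun i => u (if i = 0 then 1 else if i = 1 then 0 else i)) =
          cons (u 0) (tl (tl u)) := by
        funext i
        rcases i with _ | i
        · rfl
        · simp [tl]
      rw [e]
      rfl
    have hin : In W (cons (VM W k) (fun i => (v i).1)) :=
      In.cons (fun i => (memA.1 (v i).2).1) hAW
    have hmem := Ctm0.D.sep_mem (R := fun _ z u => SatC {z | z ∈ u 0} φ (cons z (tl u)))
      hD (M := W) rfl hin hx'.1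
    refine ⟨⟨_, memA.2 ⟨hmem, lt_of_le_of_lt (rank_mono fun u hu => (ZFSet.mem_sep.1 hu).1)
      hx'.2⟩⟩, ?_⟩
    rintro ⟨z, hz⟩
    change z ∈ ZFSet.sep (fun z => SatC {z | z ∈ VM W k} φ (cons z (fun i => (v i).1))) x ↔
      z ∈ x ∧ _
    rw [ZFSet.mem_sep, satE]
    have e : (fun i => (cons (⟨z, hz⟩ : {x // x ∈ VM W k}) v i).1) =
        cons z (fun i => (v i).1) := by
      funext i; cases i <;> rfl
    rw [e]
  · -- replacement
    rintro φ v ⟨x, hx⟩ hfun
    have hx' := memA.1 hx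
    set u0 : ℕ → Z := cons (VM W k) (fun i => (v i).1) with hu0
    have hin : In W u0 := In.cons (fun i => (memA.1 (v i).2).1) hAW
    -- the relation
    let R : Set Z → Z → Z → (ℕ → Z) → Prop := fun _ y z u =>
      z ∈ u 0 ∧ SatC {z | z ∈ u 0} φ (cons y (cons z (tl u)))
    have hD : Ctm0.D {W} (fun M u => R M (u 0) (u 1) (tl (tl u))) := by
      refine (Ctm0.D.mem0 1 2).and ?_
      have h := (noEmb_sat (K := {W}) φ).ren
        (fun i => if i = 0 then 2 else if i = 1 then 0 else if i = 2 then 1 else i)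
      refine h.congr fun M hM u hu => ?_
      have e : tl (fun i => u (if i = 0 then 2 else if i = 1 then 0 else if i = 2 then 1 else i)) =
          cons (u 0) (cons (u 1) (tl (tl (tl u)))) := by
        funext i
        rcases i with _ | _ | i
        · rfl
        · rfl
        · simp [tl]
      rw [e]
      rfl
    have hsat : ∀ y z : {x // x ∈ VM W k},
        Sat (fun x y : {x // x ∈ VM W k} => x.1 ∈ y.1) φ (cons y (cons z v)) ↔
          R W y.1 z.1 u0 := by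
      intro y z
      rw [satE]
      have e : (fun i => (cons y (cons z v) i).1) = cons y.1 (cons z.1 (fun i => (v i).1)) := by
        funext i
        rcases i with _ | _ | i <;> rfl
      rw [e]
      exact (and_iff_right z.2).symm
    have hex : ∀ y ∈ x, ∃ z, z ∈ W ∧ R W y z u0 ∧ ∀ z', R W y z' u0 → z' = z := by
      intro y hy
      obtain ⟨z, hz, huniq⟩ := hfun ⟨y, tr hx hy⟩ hy
      refine ⟨z.1, (memA.1 z.2).1, (hsat _ _).1 hz, ?_⟩
      intro z' hz'
      have h1 := huniq ⟨z', hz'.1⟩ ((hsat ⟨y, tr hx hy⟩ ⟨z', hz'.1⟩).2 hz')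
      exact congrArg Subtype.val h1
    obtain ⟨w, hwW, hw⟩ := Ctm0.D.repl hD (M := W) rfl hin hx'.1 (by
      intro y hy
      obtain ⟨z, hz, hR, hu⟩ := hex y hy
      exact ⟨z, ⟨hz, hR⟩, fun z' h => hu z' h.2⟩)
    -- the function giving the ranks
    have hD' : Ctm0.D {W} (fun M u => ∃ z ∈ M, R M (u 0) z (tl (tl u)) ∧
        u 1 = ZFSet.pair (u 0) (rk z)) := by
      refine Ctm0.D.ex (R := fun M z u => R M (u 0) z (tl (tl u)) ∧
        u 1 = ZFSet.pair (u 0) (rk z)) (Ctm0.D.and ?_ ?_)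
      · exact hD.ren (fun i => if i = 0 then 1 else if i = 1 then 0 else i + 1)
      · exact Ctm0.D.eq Ctm0.T.v2 (Ctm0.T.pair Ctm0.T.v1 Ctm0.T.v0.rk)
    obtain ⟨F, hFW, hF⟩ := Ctm0.D.repl (R := fun M y p u => ∃ z ∈ M, R M y z u ∧
        p = ZFSet.pair y (rk z)) hD' (M := W) rfl hin hx'.1 (by
      intro y hy
      obtain ⟨z, hz, hR, hu⟩ := hex y hy
      refine ⟨ZFSet.pair y (rk z), ⟨tm.pair_mem (tm.trans _ hx'.1 _ hy) (tm.rk_mem hz), z, hz, hR,
        rfl⟩, ?_⟩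
      rintro p ⟨_, z', _, hR', rfl⟩
      rw [hu z' hR'])
    have hapF : ∀ y ∈ x, ∀ z, R W y z u0 → ap F y = rk z := by
      intro y hy z hz
      obtain ⟨z0, hz0, hR, hu⟩ := hex y hy
      have hzz : z = z0 := hu z hz
      subst hzz
      refine ap_eq ((hF _).2 ⟨y, hy, tm.pair_mem (tm.trans _ hx'.1 _ hy) (tm.rk_mem hz0), z, hz0,
        hR, rfl⟩) ?_
      intro z' hz'
      obtain ⟨y', hy', _, z'', _, hR'', hp⟩ := (hF _).1 hz'
      obtain ⟨rfl, rfl⟩ := pair_inj.1 hp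
      rw [hu z'' hR'']
    obtain ⟨b, hbk, hb⟩ := hreg x hx'.1 ((rk_ord hk).2 hx'.2) F hFW (by
      intro y hy
      obtain ⟨z0, hz0, hR, hu⟩ := hex y hy
      rw [hapF y hy z0 hR]
      exact (rk_ord hk).2 (memA.1 hR.1).2)
    have hwA : w ∈ VM W k := by
      refine memA.2 ⟨hwW, lt_of_le_of_lt ?_ (rank_lt_of_mem hbk)⟩
      rw [rank_le_iff]
      intro z hz
      obtain ⟨y, hy, _, hR⟩ := (hw z).1 hz
      have h1 := hb y hy
      rw [hapF y hy z hR] at h1
      exact (rk_ord (hk.mem hbk)).1 h1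
    refine ⟨⟨w, hwA⟩, ?_⟩
    rintro ⟨z, hz⟩
    show z ∈ w ↔ _
    rw [hw]
    constructor
    · rintro ⟨y, hy, _, hR⟩
      exact ⟨⟨y, tr hx hy⟩, hy, (hsat _ _).2 hR⟩
    · rintro ⟨y, hy, hS⟩
      exact ⟨y.1, hy, (memA.1 hz).1, (hsat _ _).1 hS⟩
  · -- choice
    rintro ⟨x, hx⟩ hne hdis
    have hx' := memA.1 hx
    obtain ⟨c, hc⟩ := hW.ac ⟨x, hx'.1⟩ (by
      rintro ⟨y, hyW⟩ hy
      obtain ⟨z, hz⟩ := hne ⟨y, tr hx hy⟩ hy
      exact ⟨⟨z.1, (memA.1 z.2).1⟩, hz⟩) (by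
      rintro ⟨y, hyW⟩ ⟨y', hyW'⟩ hy hy' hneq ⟨z, hz⟩ h
      exact hdis ⟨y, tr hx hy⟩ ⟨y', tr hx hy'⟩ hy hy' (fun h => hneq (by
        simpa using h)) ⟨z, tr (tr hx hy) h.1⟩ h)
    have hcW : c.1 ∩ (⋃₀ x : Z) ∈ W := by
      have h := (Ctm0.T.inter (K := {W}) Ctm0.T.v0 Ctm0.T.v1).mem W rfl
        (cons c.1 (fun _ => (⋃₀ x : Z))) (In.cons (fun _ => tm.sUnion_mem hx'.1) c.2)
      exact h
    refine ⟨⟨c.1 ∩ (⋃₀ x : Z), memA.2 ⟨hcW, lt_of_le_of_lt
      ((rank_mono fun u hu => (mem_inter.1 hu).2).trans (rank_sUnion_le x)) hx'.2⟩⟩, ?_⟩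
    rintro ⟨y, hyA⟩ hy
    obtain ⟨z, hz, huniq⟩ := hc ⟨y, tm.trans _ hx'.1 _ hy⟩ hy
    refine ⟨⟨z.1, tr hyA hz.2⟩, ⟨?_, hz.2⟩, ?_⟩
    · exact mem_inter.2 ⟨hz.1, mem_sUnion.2 ⟨y, hy, hz.2⟩⟩
    · rintro ⟨z', hz'A⟩ ⟨h1, h2⟩
      have h3 := huniq ⟨z', (memA.1 hz'A).1⟩ ⟨(mem_inter.1 h1).1, h2⟩
      exact Subtype.ext (show z' = z.1 from congrArg Subtype.val h3)

end Strong

/-- If no element of `W` is a model of ZFC then the only elementary embedding of `W` into itself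
is the identity. -/
theorem no_embedding {W : Set Z} (hW : TC W)
    (hno : ∀ a ∈ W, ¬ IsZFC {x // x ∈ a} (fun x y => x.1 ∈ y.1)) (j : Z → Z)
    (hj : ∀ x ∈ W, j x ∈ W)
    (hel : ∀ (φ : Fml) (v : ℕ → Z), In W v → (SatC W φ v ↔ SatC W φ (fun i => j (v i)))) :
    ∀ x ∈ W, j x = x := by
  have tm := hW.toTM
  have _i := tm.sing
  have hj0 : j ∅ = ∅ := by
    have h := hel (.fall (.fneg (.fmem 0 1))) (fun _ => ∅) (fun _ => tm.empty_mem)
    have h1 : SatC W (.fall (.fneg (.fmem 0 1))) (fun _ => (∅ : Z)) := fun x _ hx =>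
      notMem_empty x hx
    have h2 := h.1 h1
    rw [ZFSet.eq_empty]
    intro y hy
    exact h2 y (tm.trans _ (hj _ tm.empty_mem) _ hy) hy
  have pres : ∀ {R : Set Z → (ℕ → Z) → Prop}, Ctm0.D {W} R → ∀ {v : ℕ → Z}, In W v →
      (R W v ↔ R W (fun i => j (v i))) := fun h _ hv => Ctm0.elem_D tm hj hj0 hel h hv
  have tpres : ∀ {t : Set Z → (ℕ → Z) → Z}, Ctm0.T {W} t → ∀ {v : ℕ → Z}, In W v →
      j (t W v) = t W (fun i => j (v i)) := by
    intro t ht v hv
    have h := pres ht.gr (v := cons (t W v) v) (hv.cons (ht.mem W rfl v hv))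
    exact h.1 rfl
  have hmem : ∀ {x y : Z}, x ∈ W → y ∈ W → (x ∈ y ↔ j x ∈ j y) := by
    intro x y hx hy
    exact pres (Ctm0.D.mem0 (K := {W}) 0 1) (v := cons x (fun _ => y)) (In.cons (fun _ => hy) hx)
  have hord : ∀ {x : Z}, x ∈ W → x.IsOrdinal → (j x).IsOrdinal := by
    intro x hx ho
    exact (pres (Ctm0.D.isOrdinal (K := {W}) Ctm0.T.v0) (v := fun _ => x) (fun _ => hx)).1 ho
  have hrk : ∀ {x : Z}, x ∈ W → j (rk x) = rk (j x) := by
    intro x hx
    exact tpres (Ctm0.T.rk (K := {W}) Ctm0.T.v0) (v := fun _ => x) (fun _ => hx)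
  have hsuc : ∀ {x : Z}, x ∈ W → j (insert x x) = insert (j x) (j x) := by
    intro x hx
    exact tpres (Ctm0.T.succ (K := {W}) Ctm0.T.v0) (v := fun _ => x) (fun _ => hx)
  have hjom : j om = om :=
    tpres (Ctm0.T.om (K := {W})) (v := fun _ => ∅) (fun _ => tm.empty_mem)
  have hap : ∀ {f x : Z}, f ∈ W → x ∈ W → j (ap f x) = ap (j f) (j x) := by
    intro f x hf hx
    exact tpres (Ctm0.T.ap (K := {W}) Ctm0.T.v0 Ctm0.T.v1) (v := cons f (fun _ => x))
      (In.cons (fun _ => hx) hf)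
  -- sets whose ranks are fixed are fixed
  have fixed : ∀ o : Ordinal, ∀ x ∈ W, rank x = o →
      (∀ b ∈ (insert (rk x) (rk x) : Z), j b = b) → j x = x := by
    intro o
    induction o using WellFoundedLT.induction with
    | _ o ih =>
      intro x hx hxo hb
      have hrx : j (rk x) = rk x := hb _ (mem_insert _ _)
      have key : ∀ z ∈ W, rank z < rank x → j z = z := by
        intro z hz hlt
        refine ih (rank z) (hxo ▸ hlt) z hz rfl ?_
        intro b hbz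
        refine hb b (mem_insert_of_mem _ ?_)
        rcases mem_insert_iff.1 hbz with rfl | hbz
        · exact rk_mem_rk.2 hlt
        · exact (isOrdinal_rk x).mem_trans hbz (rk_mem_rk.2 hlt)
      ext z
      constructor
      · intro hz
        have hzW : z ∈ W := tm.trans _ (hj _ hx) _ hz
        have hlt : rank z < rank x := by
          rw [← rk_mem_rk, ← hrx, hrk hx]
          exact rk_mem_rk.2 (rank_lt_of_mem hz)
        have h1 := key z hzW hlt
        rw [← h1] at hz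
        exact (hmem hzW hx).2 hz
      · intro hz
        have hzW : z ∈ W := tm.trans _ hx _ hz
        have h1 := key z hzW (rank_lt_of_mem hz)
        have h2 := (hmem hzW hx).1 hz
        rwa [h1] at h2
  by_contra hcon
  -- the critical point
  have hmoved : ∃ a, a ∈ W ∧ a.IsOrdinal ∧ j a ≠ a := by
    by_contra hall
    push Not at hall
    apply hcon
    intro x hx
    refine fixed _ x hx rfl ?_
    intro b hb
    have hsW : (insert (rk x) (rk x) : Z) ∈ W := tm.insert_mem (tm.rk_mem hx) (tm.rk_mem hx)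
    exact hall b (tm.trans _ hsW _ hb) ((isOrdinal_succ (isOrdinal_rk x)).mem hb)
  obtain ⟨a0, ha0⟩ := hmoved
  obtain ⟨k, ⟨hkW, hk, hkne⟩, hkmin⟩ := exists_min (fun a => a ∈ W ∧ a.IsOrdinal ∧ j a ≠ a) ha0
  have hfix : ∀ b ∈ k, j b = b := by
    intro b hb
    by_contra h
    exact hkmin b hb ⟨tm.trans _ hkW _ hb, hk.mem hb, h⟩
  have hjk : k ∈ j k := by
    rcases IsOrdinal.mem_trichotomous hk (hord hkW hk) with h | h | h
    · exact h
    · exact absurd h.symm hkne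
    · exfalso
      have h1 := hfix _ h
      have h2 := (hmem (hj _ hkW) hkW).1 h
      rw [h1] at h2
      exact mem_irrefl _ h2
  have hsucc : ∀ a ∈ k, (insert a a : Z) ∈ k := by
    intro a ha
    have haW := tm.trans _ hkW _ ha
    have ho := isOrdinal_succ (hk.mem ha)
    rcases IsOrdinal.mem_trichotomous ho hk with h | h | h
    · exact h
    · exfalso
      apply hkne
      rw [← h, hsuc haW, hfix a ha]
    · exfalso
      rcases mem_insert_iff.1 h with h | h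
      · rw [h] at ha; exact mem_irrefl _ ha
      · exact mem_irrefl _ (hk.mem_trans h ha)
  have hk0 : (∅ : Z) ∈ k := by
    rcases IsOrdinal.mem_trichotomous isOrdinal_empty hk with h | h | h
    · exact h
    · exfalso; apply hkne; rw [← h, hj0]
    · exact absurd h (notMem_empty _)
  have hom : om ∈ k := by
    have hsub : om ⊆ k := om_induction hk0 fun x _ hx => hsucc x hx
    rcases IsOrdinal.eq_or_mem_of_subset isOrdinal_om hk hsub with h | h
    · exfalso; apply hkne; rw [← h, hjom]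
    · exact h
  have hreg : ∀ a ∈ W, rk a ∈ k → ∀ f ∈ W, (∀ u ∈ a, ap f u ∈ k) →
      ∃ b ∈ k, ∀ u ∈ a, ap f u ∈ b := by
    intro a ha hra f hf hfk
    have haf : j a = a := by
      refine fixed _ a ha rfl ?_
      intro b hb
      exact hfix b (hk.mem_trans hb (hsucc _ hra))
    have hD : Ctm0.D {W} (fun _ v => ∃ b ∈ v 0, ∀ u ∈ v 1, ap (v 2) u ∈ b) := by
      refine Ctm0.D.bex (R := fun _ b v => ∀ u ∈ v 1, ap (v 2) u ∈ b) Ctm0.T.v0 ?_
      refine Ctm0.D.ball (R := fun _ u v => ap (v 3) u ∈ v 0) Ctm0.T.v2 ?_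
      exact Ctm0.D.mem (Ctm0.T.ap Ctm0.T.v4 Ctm0.T.v0) Ctm0.T.v1
    have h := pres hD (v := cons k (cons a (fun _ => f))) ((In.cons (In.cons (fun _ => hf) ha)) hkW)
    refine h.2 ⟨k, hjk, ?_⟩
    intro u hu
    have hu' : u ∈ a := by
      have : u ∈ j a := hu
      rwa [haf] at this
    have huW := tm.trans _ ha _ hu'
    have hufix : j u = u := by
      refine fixed _ u huW rfl ?_
      intro b hb
      refine hfix b ?_
      have h1 : rk u ∈ k := hk.mem_trans (rk_mem_rk.2 (rank_lt_of_mem hu')) hra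
      exact hk.mem_trans hb (hsucc _ h1)
    show ap (j f) u ∈ k
    rw [← hufix, ← hap hf huW, hfix _ (hfk u hu')]
    exact hfk u hu'
  exact hno _ (tm.VM_mem hkW) (noEmb_zfc hW hkW hk hom hsucc hreg)

end Pool.Agent.Lib.Ctm
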