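import Pool.Agent.Lib.Ctm.Alephs
import Pool.Agent.Lib.Ctm.Absorb
import Pool.Agent.Lib.Ctm.MinH
import Pool.Agent.Lib.Ctm.NoEmb

/-!
# The main theorem
-/

namespace Pool.Agent.Lib.Ctm

open Pool.Agent.Lib.Forcing ZFSet

/-- the relation `Uni` of the codes is forced -/
def FoU (N : Set Z) (U : Set Z → Z → Z → Z → Prop) (p c a z : Z) : Prop :=
  ∀ G, Gen N (PP N) (LL N) G → p ∈ G → U (NG N G) (val G c) (val G a) (val G z)

theorem D.foU {N : Set Z} (hN : TC N) (hc : N.Countable) {U : Set Z → Z → Z → Z → Prop}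
    (hU : D AllTM (fun M v => U M (v 0) (v 1) (v 2))) :
    D4 {N} (fun _ p c a z => p ∈ PP N ∧ FoU N U p c a z) :=
  D.fc hN.toTM hc (PO_PP hN) hU

/-- `m` bounds the first component of `p` -/
def Bd (p m : Z) : Prop := ∀ s f, p = pair s f → ∀ x ∈ s, x ∈ m

/-- the property of the bound for the code `c` -/
def Good (N : Set Z) (U : Set Z → Z → Z → Z → Prop) (c m : Z) : Prop :=
  (∃ a ∈ kap N, ∃ a' ∈ kap N, a ≠ a' ∧ ∃ p ∈ PP N, ∃ p' ∈ PP N, (Bd p m ∧ Bd p' m) ∧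
    (p ∈ PP N ∧ FoU N U p (chk topc c) (chk topc a) (chk topc (kap N))) ∧
    (p' ∈ PP N ∧ FoU N U p' (chk topc c) (chk topc a') (chk topc (kap N)))) ∨
  ∀ a ∈ kap N, ∀ p ∈ PP N, (p ∈ PP N ∧ FoU N U p (chk topc c) (chk topc a) (chk topc (kap N))) →
    a ∈ chi N m

section

variable {N : Set Z} (hN : TC N) (hc : N.Countable) {U : Set Z → Z → Z → Z → Prop}
  (hU : D AllTM (fun M v => U M (v 0) (v 1) (v 2)))

include hN

theorem topc_mem : (topc : Z) ∈ N :=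
  hN.pair_mem (hN.singleton_mem hN.empty_mem) hN.empty_mem

include hc hU

theorem D.good : D {N} (fun _ v => Good N U (v 0) (v 1)) := by
  have _i := hN.sing
  have ho : ∀ M ∈ ({N} : Set (Set Z)), topc ∈ M := by rintro _ rfl; exact topc_mem hN
  have hbd : ∀ {s t : Set Z → (ℕ → Z) → Z}, T {N} s → T {N} t →
      D {N} (fun M v => Bd (s M v) (t M v)) := by
    intro s t hs ht
    have h : D {N} (fun M v => ¬ ∃ a b, s M v = ZFSet.pair a b ∧ ¬ ∀ x ∈ a, x ∈ t M v) := by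
      refine (D.expair (R := fun M a b v => ¬ ∀ x ∈ a, x ∈ t M v) hs ?_).neg
      exact (D.ball (R := fun M x v => x ∈ t M (tl (tl v))) T.v1
        (D.mem T.v0 ht.tail.tail.tail)).neg
    refine h.congr fun M _ v _ => ?_
    rw [Bd]; push Not; rfl
  have hfo : ∀ {p c a : Set Z → (ℕ → Z) → Z}, T {N} p → T {N} c → T {N} a →
      D {N} (fun M v => p M v ∈ PP N ∧ FoU N U (p M v) (chk topc (c M v)) (chk topc (a M v))
        (chk topc (kap N))) := fun hp hc' ha =>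
    D4.app (D.foU hN hc hU) hp (T.chk ho hc') (T.chk ho ha) (T.chk ho T.kap)
  refine D.or ?_ ?_
  · refine D.bex (R := fun _ a v => ∃ a' ∈ kap N, a ≠ a' ∧ ∃ p ∈ PP N, ∃ p' ∈ PP N,
      (Bd p (v 1) ∧ Bd p' (v 1)) ∧
      (p ∈ PP N ∧ FoU N U p (chk topc (v 0)) (chk topc a) (chk topc (kap N))) ∧
      (p' ∈ PP N ∧ FoU N U p' (chk topc (v 0)) (chk topc a') (chk topc (kap N)))) T.kap ?_
    refine D.bex (R := fun _ a' v => v 0 ≠ a' ∧ ∃ p ∈ PP N, ∃ p' ∈ PP N,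
      (Bd p (v 2) ∧ Bd p' (v 2)) ∧
      (p ∈ PP N ∧ FoU N U p (chk topc (v 1)) (chk topc (v 0)) (chk topc (kap N))) ∧
      (p' ∈ PP N ∧ FoU N U p' (chk topc (v 1)) (chk topc a') (chk topc (kap N)))) T.kap ?_
    refine (D.eq T.v1 T.v0).neg.and ?_
    refine D.bex (R := fun _ p v => ∃ p' ∈ PP N, (Bd p (v 3) ∧ Bd p' (v 3)) ∧
      (p ∈ PP N ∧ FoU N U p (chk topc (v 2)) (chk topc (v 1)) (chk topc (kap N))) ∧
      (p' ∈ PP N ∧ FoU N U p' (chk topc (v 2)) (chk topc (v 0)) (chk topc (kap N)))) T.PP ?_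
    refine D.bex (R := fun _ p' v => (Bd (v 0) (v 4) ∧ Bd p' (v 4)) ∧
      (v 0 ∈ PP N ∧ FoU N U (v 0) (chk topc (v 3)) (chk topc (v 2)) (chk topc (kap N))) ∧
      (p' ∈ PP N ∧ FoU N U p' (chk topc (v 3)) (chk topc (v 1)) (chk topc (kap N)))) T.PP ?_
    exact ((hbd T.v1 T.v5).and (hbd T.v0 T.v5)).and ((hfo T.v1 T.v4 T.v3).and
      (hfo T.v0 T.v4 T.v2))
  · refine D.ball (R := fun _ a v => ∀ p ∈ PP N, (p ∈ PP N ∧ FoU N U p (chk topc (v 0))
      (chk topc a) (chk topc (kap N))) → a ∈ chi N (v 1)) T.kap ?_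
    refine D.ball (R := fun _ p v => (p ∈ PP N ∧ FoU N U p (chk topc (v 1))
      (chk topc (v 0)) (chk topc (kap N))) → v 0 ∈ chi N (v 2)) T.PP ?_
    exact (hfo T.v0 T.v2 T.v1).imp (D.mem T.v1 (T.chi T.v3))

omit hc hU in
theorem Good.mono {c m m' : Z} (h : Good N U c m) (hm : m ∈ dl N) (hm' : m' ∈ dl N)
    (hmm : m ⊆ m') : Good N U c m' := by
  rcases h with ⟨a, ha, a', ha', hne, p, hp, p', hp', ⟨h1, h2⟩, h3⟩ | h
  · exact Or.inl ⟨a, ha, a', ha', hne, p, hp, p', hp',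
      ⟨fun s f e x hx => hmm (h1 s f e x hx), fun s f e x hx => hmm (h2 s f e x hx)⟩, h3⟩
  · exact Or.inr fun a ha p hp h1 => chi_mono hN (dl_N hN hm) (dl_N hN hm') hmm (h a ha p hp h1)

omit hc hU in
theorem exists_good (c : Z) : ∃ m ∈ dl N, Good N U c m := by
  by_cases h : ∃ a ∈ kap N, ∃ a' ∈ kap N, a ≠ a' ∧ ∃ p ∈ PP N, ∃ p' ∈ PP N,
      (p ∈ PP N ∧ FoU N U p (chk topc c) (chk topc a) (chk topc (kap N))) ∧
      (p' ∈ PP N ∧ FoU N U p' (chk topc c) (chk topc a') (chk topc (kap N)))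
  · obtain ⟨a, ha, a', ha', hne, p, hp, p', hp', h1⟩ := h
    obtain ⟨s, f, rfl, hs, hf⟩ := exists_of_mem_PP hp
    obtain ⟨s', f', rfl, hs', hf'⟩ := exists_of_mem_PP hp'
    obtain ⟨b, hb, _, hb1, _⟩ := exists_ext hN hs hf (empty_mem_dl hN)
    obtain ⟨b', hb', _, hb1', _⟩ := exists_ext hN hs' hf' (empty_mem_dl hN)
    obtain ⟨m, hm, h2, h3⟩ : ∃ m ∈ dl N, b ⊆ m ∧ b' ⊆ m := by
      rcases IsOrdinal.subset_total (dl_ord hN hb) (dl_ord hN hb') with h | h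
      · exact ⟨b', hb', h, fun _ h => h⟩
      · exact ⟨b, hb, fun _ h => h, h⟩
    refine ⟨m, hm, Or.inl ⟨a, ha, a', ha', hne, _, hp, _, hp', ⟨?_, ?_⟩, h1⟩⟩
    · intro t g e x hx
      obtain ⟨rfl, rfl⟩ := pair_inj.1 e
      exact h2 (hb1 x hx)
    · intro t g e x hx
      obtain ⟨rfl, rfl⟩ := pair_inj.1 e
      exact h3 (hb1' x hx)
  · by_cases h' : ∃ a ∈ kap N, ∃ p ∈ PP N,
        (p ∈ PP N ∧ FoU N U p (chk topc c) (chk topc a) (chk topc (kap N)))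
    · obtain ⟨a, ha, p, hp, h1⟩ := h'
      obtain ⟨b, hb, hab⟩ := mem_kap.1 ha
      refine ⟨b, hb, Or.inr fun a' ha' p' hp' h2 => ?_⟩
      have : a = a' := by
        by_contra hne
        exact h ⟨a, ha, a', ha', hne, p, hp, p', hp', h1, h2⟩
      exact this ▸ hab
    · exact ⟨∅, empty_mem_dl hN, Or.inr fun a ha p hp h1 => absurd ⟨a, ha, p, hp, h1⟩ h'⟩

/-- a common bound for all codes -/
theorem exists_bound : ∃ m ∈ dl N, m ≠ ∅ ∧ ∀ c ∈ VM N om, Good N U c m := by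
  have _i := hN.sing
  have hCN := hN.VM_mem hN.om_mem
  have hD : D {N} (fun _ v => ∃ m ∈ dl N, v 1 = ZFSet.pair (v 0) m ∧ Good N U (v 0) m ∧
      ∀ n ∈ m, ¬ Good N U (v 0) n) := by
    have hg := D.good hN hc hU
    have hg' : D2 {N} (fun _ c m => Good N U c m) := hg
    refine D.bex (R := fun _ m v => v 1 = ZFSet.pair (v 0) m ∧ Good N U (v 0) m ∧
      ∀ n ∈ m, ¬ Good N U (v 0) n) T.dl ?_
    refine (D.eq T.v2 (T.pair T.v1 T.v0)).and ((D2.app hg' T.v1 T.v0).and ?_)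
    exact D.ball (R := fun _ n v => ¬ Good N U (v 1) n) T.v0 (D2.app hg' T.v2 T.v0).neg
  have hex : ∀ c, ∃ m ∈ dl N, Good N U c m ∧ ∀ n ∈ m, ¬ Good N U c n := by
    intro c
    obtain ⟨m, hm, hg⟩ := exists_good hN (U := U) c
    obtain ⟨m', ⟨h1, h2⟩, h3⟩ := exists_min (fun m => m ∈ dl N ∧ Good N U c m) ⟨hm, hg⟩
    exact ⟨m', h1, h2, fun n hn h => h3 n hn ⟨(isOrdinal_dl hN).mem_trans hn h1, h⟩⟩
  have huniq : ∀ c m m', m ∈ dl N → m' ∈ dl N → Good N U c m → Good N U c m' →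
      (∀ n ∈ m, ¬ Good N U c n) → (∀ n ∈ m', ¬ Good N U c n) → m = m' := by
    intro c m m' hm hm' h1 h2 h3 h4
    rcases IsOrdinal.mem_trichotomous (dl_ord hN hm) (dl_ord hN hm') with h | h | h
    · exact absurd h1 (h4 _ h)
    · exact h
    · exact absurd h2 (h3 _ h)
  obtain ⟨g, hg, h1⟩ := D.repl (K := {N}) (R := fun _ c z _ => ∃ m ∈ dl N,
    z = ZFSet.pair c m ∧ Good N U c m ∧ ∀ n ∈ m, ¬ Good N U c n) hD rfl
    (v := fun _ => ∅) (fun _ => hN.empty_mem) hCN (by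
      intro c hc'
      obtain ⟨m, hm, h2, h3⟩ := hex c
      refine ⟨pair c m, ⟨hN.pair_mem (hN.trans _ hCN _ hc') (dl_N hN hm), m, hm, rfl, h2, h3⟩, ?_⟩
      rintro z ⟨_, m', hm', rfl, h4, h5⟩
      rw [huniq c m m' hm hm' h2 h4 h3 h5])
  have h2 : ∀ c ∈ VM N om, ap g c ∈ dl N ∧ Good N U c (ap g c) := by
    intro c hc'
    obtain ⟨m, hm, h2, h3⟩ := hex c
    have h4 : ap g c = m := by
      refine ap_eq ((h1 _).2 ⟨c, hc', hN.pair_mem (hN.trans _ hCN _ hc') (dl_N hN hm), m, hm,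
        rfl, h2, h3⟩) ?_
      intro z hz
      obtain ⟨c', _, _, m', hm', e, h5, h6⟩ := (h1 _).1 hz
      obtain ⟨rfl, rfl⟩ := pair_inj.1 e
      exact huniq _ _ _ hm' hm h5 h2 h6 h3
    rw [h4]; exact ⟨hm, h2⟩
  have h3 := dl_sup hN hg fun c hc' => (h2 c hc').1
  refine ⟨_, dl_limit hN _ h3, fun h => ?_, fun c hc' => ?_⟩
  · have : (⋃₀ (img (ap g) (VM N om)) : Z) ∈ (∅ : Z) := by
      nth_rw 1 [← h]; exact mem_insert _ _
    exact notMem_empty _ this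
  · refine Good.mono hN (h2 c hc').2 (h2 c hc').1 (dl_limit hN _ h3) ?_
    intro x hx
    exact mem_insert_of_mem _ (mem_sUnion.2 ⟨_, mem_img.2 ⟨c, hc', rfl⟩, hx⟩)

end

/-- the least uncountable limit cardinal is unique -/
theorem isAlephOmega_unique {M : Set Z} (hM : TM M) {k k' : M}
    (h : IsAlephOmega (fun x y : M => x.1 ∈ y.1) k)
    (h' : IsAlephOmega (fun x y : M => x.1 ∈ y.1) k') : k = k' := by
  have h1 := (isOrdinal_iff hM k).1 h.1.1.1
  have h2 := (isOrdinal_iff hM k').1 h'.1.1.1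
  rcases IsOrdinal.mem_trichotomous h1 h2 with h3 | h3 | h3
  · exact absurd ⟨h.1, h.2.1⟩ (h'.2.2 k h3)
  · exact Subtype.ext h3
  · exact absurd ⟨h'.1, h'.2.1⟩ (h.2.2 k' h3)

theorem isS_pair {N : Set Z} (hN : TC N) {m : Z} (hm : m ∈ dl N) : IsS N {∅, m} := by
  have h := isS_insert hN (isS_top hN) hm (fun x hx => by
    rw [mem_singleton.1 hx]; exact ZFSet.empty_subset _)
  have e : ({∅, m} : Z) = insert m {∅} := by
    ext z
    rw [ZFSet.mem_pair, mem_insert_iff, mem_singleton, or_comm]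
  rw [e]; exact h

/-- the main theorem, in terms of classes -/
theorem main : ∃ M : Set Z, M.Countable ∧ TC M ∧
    (∃ k : M, IsAlephOmega (fun x y : M => x.1 ∈ y.1) k ∧
      ∀ φ : Fml, Sigma1 φ → ∀ a ∈ k.1, ZFSet.IsOrdinal a → ¬ Cov M om a →
        ¬ ∀ y ∈ M, SatC M φ (cons y (fun _ => k.1)) ↔ y = a) ∧
    (∀ a ∈ M, ¬ IsZFC {x // x ∈ a} (fun x y => x.1 ∈ y.1)) := by
  obtain ⟨N, hc, hN, hmin⟩ := exists_min_ctm
  obtain ⟨U, hU, hU1, hU2⟩ := exists_uni'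
  obtain ⟨m, hm, hm0, hgood⟩ := exists_bound hN hc hU
  have hPO := PO_PP hN
  have hS : IsS N {∅, m} := isS_pair hN hm
  have hq : pair {∅, m} ∅ ∈ PP N := mem_PP.2 ⟨hS, isFp_empty hN⟩
  obtain ⟨G, hG, hqG⟩ := exists_gen hc hPO hq
  have ho : topc ∈ G := Gen.top_mem hPO hG hqG
  have hM := NG_tc hN hPO hG ho
  have hNM := N_sub_NG hN.toTM hPO ho
  have hcM : (NG N G).Countable := hc.image _
  have hk : kap N ∈ NG N G := hNM (kap_mem hN)
  have hNx : Nx G ∅ m := by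
    refine ⟨⟨_, _, hqG, by simp⟩, ⟨_, _, hqG, by simp⟩, ?_, ?_⟩
    · rcases IsOrdinal.mem_trichotomous isOrdinal_empty (dl_ord hN hm) with h | h | h
      · exact h
      · exact absurd h.symm hm0
      · exact absurd h (notMem_empty _)
    · rintro x hx ⟨h1, h2⟩
      have h3 := hx.mem_of_mem hG hqG (b := m) (by simp) h2
      rcases ZFSet.mem_pair.1 h3 with rfl | rfl
      · exact notMem_empty _ h1
      · exact ZFSet.mem_irrefl _ h2
  refine ⟨NG N G, hcM, hM, ⟨⟨kap N, hk⟩, isAlephOmega_kap hN hc hG ⟨_, hqG⟩ hk, ?_⟩, ?_⟩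
  · rintro φ ⟨ψ, hψ, rfl⟩ a hak hao hunc hdef
    have haM : a ∈ NG N G := hM.trans _ hk _ hak
    have haN : a ∈ N := hN.trans _ (kap_mem hN) _ hak
    have hcode : code ψ ∈ VM N om :=
      (hN.mem_VM isOrdinal_om hN.om_mem).2 ⟨hN.toTM.code_mem ψ, rk_code ψ⟩
    -- `a` is the only element satisfying the universal relation
    have hdef' : ∀ y ∈ NG N G, U (NG N G) (code ψ) y (kap N) ↔ y = a := by
      intro y hy
      rw [hU1 _ hM.toTM ψ hψ y hy _ hk, ← hdef y hy]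
      simp only [SatC, not_forall, not_not, exists_prop]
    rcases hgood _ hcode with ⟨a1, ha1, a2, ha2, hne, p, hp, p', hp', ⟨hb, hb'⟩, h1, h2⟩ | h
    · -- two different elements
      have key : ∀ b p, b ∈ kap N → p ∈ PP N → Bd p m →
          FoU N U p (chk topc (code ψ)) (chk topc b) (chk topc (kap N)) → b = a := by
        intro b p hb hp hbd hfo
        obtain ⟨s, f, rfl, _⟩ := exists_of_mem_PP hp
        obtain ⟨H, hH, hpH, hsub⟩ := absorb hN hp hm (hbd s f rfl) hG hqG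
        have h3 := hfo H hH hpH
        have hoH : topc ∈ H := Gen.top_mem hPO hH hpH
        rw [val_chk hoH, val_chk hoH, val_chk hoH] at h3
        have hMH := NG_tm hN.toTM hPO hH hoH
        have hNH := N_sub_NG hN.toTM hPO hoH
        have hkN := kap_mem hN
        have h4 := hU2 _ _ hMH hM.toTM hsub ψ b (hNH (hN.trans _ hkN _ hb)) _ (hNH hkN) h3
        exact (hdef' b (hNM (hN.trans _ hkN _ hb))).1 h4
      exact hne ((key a1 p ha1 hp hb h1.2).trans (key a2 p' ha2 hp' hb' h2.2).symm)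
    · -- all are below `χ(m)`
      have h3 : U (NG N G) (code ψ) a (kap N) := (hdef' a haM).2 rfl
      have hcN := hN.toTM.code_mem ψ
      have hkN := kap_mem hN
      obtain ⟨p, hp, h4⟩ := fc_truth hN.toTM hc hPO hU hG ho
        (v := cons (chk topc (code ψ)) (cons (chk topc a) (fun _ => chk topc (kap N))))
        (((In.cons (fun _ => chk_mem hN.toTM hPO hkN) (chk_mem hN.toTM hPO haN))).cons
          (chk_mem hN.toTM hPO hcN)) (by
          change U (NG N G) (val G (chk topc (code ψ))) (val G (chk topc a))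
            (val G (chk topc (kap N)))
          rw [val_chk ho, val_chk ho, val_chk ho]; exact h3)
      have h5 := h a hak p (hG.sub p hp) ⟨hG.sub p hp, fun G' hG' hpG' => h4 G' hG' hpG'⟩
      exact hunc (cov_om hN hG hNx h5)
  · refine no_set_model hM hcM fun M' hM'c hM' => ?_
    refine le_trans ?_ (hmin M' hM'c hM')
    refine csInf_le' ?_
    rintro _ ⟨x, hx, rfl⟩
    exact (rank_val_le G x).trans_lt (rank_lt_ht hc hx)

end Pool.Agent.Lib.Ctm
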