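import Pool.Agent.Lib.Ctm.Ord

/-!
# The forcing relation over a transitive model and its definability
-/

namespace Pool.Agent.Lib.Ctm

open Pool.Agent.Lib.Forcing ZFSet

variable {K : Set (Set Z)} [MK K]

/-- the extension relation of the poset, with membership included -/
def Le (P L p q : Z) : Prop := p ∈ P ∧ q ∈ P ∧ pair p q ∈ L

/-- forcing data in `N`: a set `P`, a reflexive transitive relation `L`, a greatest element `o` -/
structure PO (N : Set Z) (P L o : Z) : Prop where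
  P_mem : P ∈ N
  L_mem : L ∈ N
  top : o ∈ P
  refl : ∀ p ∈ P, pair p p ∈ L
  trans : ∀ p ∈ P, ∀ q ∈ P, ∀ r ∈ P, pair p q ∈ L → pair q r ∈ L → pair p r ∈ L
  le_top : ∀ p ∈ P, pair p o ∈ L

theorem PO.le_refl {N : Set Z} {P L o : Z} (h : PO N P L o) {p : Z} (hp : p ∈ P) : Le P L p p :=
  ⟨hp, hp, h.refl p hp⟩

theorem PO.le_trans {N : Set Z} {P L o : Z} (h : PO N P L o) {p q r : Z} (h1 : Le P L p q)
    (h2 : Le P L q r) : Le P L p r :=
  ⟨h1.1, h2.2.1, h.trans p h1.1 q h1.2.1 r h2.2.1 h1.2.2 h2.2.2⟩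

theorem mem_tc_of_pair {x y p : Z} (h : pair y p ∈ x) : y ∈ tc x := by
  have h1 : pair y p ∈ tc x := mem_tc_of_mem h
  have h2 : ({y, p} : Z) ∈ tc x := tc_trans x _ h1 (by simp [pair])
  exact tc_trans x _ h2 (by simp)

theorem mem_tc_of_pair' {x y p : Z} (h : pair y p ∈ x) : p ∈ tc x := by
  have h1 : pair y p ∈ tc x := mem_tc_of_mem h
  have h2 : ({y, p} : Z) ∈ tc x := tc_trans x _ h1 (by simp [pair])
  exact tc_trans x _ h2 (by simp)

theorem rank_lt_of_pair {x y p : Z} (h : pair y p ∈ x) : rank y < rank x :=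
  rank_lt_of_mem_tc (mem_tc_of_pair h)

/-- `p` forces `x = y` -/
def EqF (P L : Z) (x : Z) : Z → Z → Prop := fun y p =>
  (∀ x' q, (_h : pair x' q ∈ x) → ∀ r, Le P L r p → Le P L r q →
    ∃ s, Le P L s r ∧ ∃ y' t, pair y' t ∈ y ∧ Le P L s t ∧ EqF P L x' y' s) ∧
  (∀ y' t, pair y' t ∈ y → ∀ r, Le P L r p → Le P L r t →
    ∃ s, Le P L s r ∧ ∃ x' q, ∃ _h : pair x' q ∈ x, Le P L s q ∧ EqF P L x' y' s)
termination_by rank x
decreasing_by
  · exact rank_lt_of_pair _h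
  · exact rank_lt_of_pair _h

/-- the clause in the definition of forcing `x = y`, relative to a relation `E` -/
def EqCl (P L : Z) (E : Z → Z → Z → Prop) (x y p : Z) : Prop :=
  (∀ x' q, pair x' q ∈ x → ∀ r, Le P L r p → Le P L r q →
    ∃ s, Le P L s r ∧ ∃ y' t, pair y' t ∈ y ∧ Le P L s t ∧ E x' y' s) ∧
  (∀ y' t, pair y' t ∈ y → ∀ r, Le P L r p → Le P L r t →
    ∃ s, Le P L s r ∧ ∃ x' q, pair x' q ∈ x ∧ Le P L s q ∧ E x' y' s)

theorem eqF_iff {P L x y p : Z} : EqF P L x y p ↔ EqCl P L (EqF P L) x y p := by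
  rw [EqF, EqCl]
  simp only [exists_prop]

/-- `p` forces `x ∈ y` -/
def MemF (P L x y p : Z) : Prop :=
  ∀ r, Le P L r p → ∃ s, Le P L s r ∧ ∃ y' t, pair y' t ∈ y ∧ Le P L s t ∧ EqF P L x y' s

/-! ## definability -/

section Def

variable {s t u q : Set Z → (ℕ → Z) → Z}

protected theorem D.allp {R : Set Z → Z → Z → (ℕ → Z) → Prop} (hs : T K s)
    (h : D K (fun M v => R M (v 0) (v 1) (tl (tl v)))) :
    D K (fun M v => ∀ a b, ZFSet.pair a b ∈ s M v → R M a b v) := by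
  refine (D.all (R := fun M b v => ∀ a ∈ M, ZFSet.pair a b ∈ s M v → R M a b v)
    (D.all (R := fun M a v => ZFSet.pair a (v 0) ∈ s M (tl v) → R M a (v 0) (tl v))
      ((D.mem (T.pair T.v0 T.v1) hs.tail.tail).imp h))).congr fun M hM v hv => ?_
  constructor
  · intro h b _ a _ hab; exact h a b hab
  · intro h a b hab
    have := (MK.tm M hM).of_pair_mem_mem (hs.mem M hM v hv) hab
    exact h b this.2 a this.1 hab

protected theorem D.exp {R : Set Z → Z → Z → (ℕ → Z) → Prop} (hs : T K s)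
    (h : D K (fun M v => R M (v 0) (v 1) (tl (tl v)))) :
    D K (fun M v => ∃ a b, ZFSet.pair a b ∈ s M v ∧ R M a b v) :=
  (D.allp (R := fun M a b v => ¬ R M a b v) hs h.neg).neg.congr fun M _ v _ => by
    push Not; rfl

variable {P L : Z}

protected theorem D.le (hP : ∀ M ∈ K, P ∈ M) (hL : ∀ M ∈ K, L ∈ M) (hs : T K s) (ht : T K t) :
    D K (fun M v => Le P L (s M v) (t M v)) :=
  (D.mem hs (T.const hP)).and ((D.mem ht (T.const hP)).and (D.mem (T.pair hs ht) (T.const hL)))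

protected theorem D.allle (hP : ∀ M ∈ K, P ∈ M) (hL : ∀ M ∈ K, L ∈ M)
    {R : Set Z → Z → (ℕ → Z) → Prop} (hs : T K s)
    (h : D K (fun M v => R M (v 0) (tl v))) :
    D K (fun M v => ∀ r, Le P L r (s M v) → R M r v) := by
  refine (D.all (R := fun M r v => Le P L r (s M v) → R M r v)
    ((D.le hP hL T.v0 hs.tail).imp h)).congr fun M hM v hv => ?_
  exact ⟨fun h r _ hr => h r hr, fun h r hr => h r
    ((MK.tm M hM).trans _ (hP M hM) _ hr.1) hr⟩

protected theorem D.exle (hP : ∀ M ∈ K, P ∈ M) (hL : ∀ M ∈ K, L ∈ M)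
    {R : Set Z → Z → (ℕ → Z) → Prop} (hs : T K s)
    (h : D K (fun M v => R M (v 0) (tl v))) :
    D K (fun M v => ∃ r, Le P L r (s M v) ∧ R M r v) :=
  (D.allle hP hL (R := fun M r v => ¬ R M r v) hs h.neg).neg.congr fun M _ v _ => by
    push Not; rfl

/-- the clause is definable; the relation `E` is coded by the variable `f` -/
theorem D.eqCl (hP : ∀ M ∈ K, P ∈ M) (hL : ∀ M ∈ K, L ∈ M)
    (hs : T K s) (ht : T K t) (hu : T K u) (hq : T K q) :
    D K (fun M v => EqCl P L (fun x' y' r => ZFSet.pair r y' ∈ ap (q M v) x')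
      (s M v) (t M v) (u M v)) := by
  refine D.and ?_ ?_
  · refine D.allp (R := fun M x' q' v => ∀ r, Le P L r (u M v) → Le P L r q' →
      ∃ s, Le P L s r ∧ ∃ y' t', ZFSet.pair y' t' ∈ t M v ∧ Le P L s t' ∧
        ZFSet.pair s y' ∈ ap (q M v) x') hs ?_
    refine D.allle hP hL (R := fun M r v => Le P L r (v 1) →
      ∃ s, Le P L s r ∧ ∃ y' t', ZFSet.pair y' t' ∈ t M (tl (tl v)) ∧ Le P L s t' ∧
        ZFSet.pair s y' ∈ ap (q M (tl (tl v))) (v 0)) hu.tail.tail ?_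
    refine (D.le hP hL T.v0 T.v2).imp ?_
    refine D.exle hP hL (R := fun M s v => ∃ y' t', ZFSet.pair y' t' ∈ t M (tl (tl (tl v))) ∧
      Le P L s t' ∧ ZFSet.pair s y' ∈ ap (q M (tl (tl (tl v)))) (v 1)) T.v0 ?_
    refine D.exp (R := fun M y' t' v => Le P L (v 0) t' ∧
      ZFSet.pair (v 0) y' ∈ ap (q M (tl (tl (tl (tl v))))) (v 2)) ht.tail.tail.tail.tail ?_
    exact (D.le hP hL T.v2 T.v1).and (D.mem (T.pair T.v2 T.v0)
      (T.ap hq.tail.tail.tail.tail.tail.tail T.v4))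
  · refine D.allp (R := fun M y' t' v => ∀ r, Le P L r (u M v) → Le P L r t' →
      ∃ r', Le P L r' r ∧ ∃ x' q', ZFSet.pair x' q' ∈ s M v ∧ Le P L r' q' ∧
        ZFSet.pair r' y' ∈ ap (q M v) x') ht ?_
    refine D.allle hP hL (R := fun M r v => Le P L r (v 1) →
      ∃ r', Le P L r' r ∧ ∃ x' q', ZFSet.pair x' q' ∈ s M (tl (tl v)) ∧ Le P L r' q' ∧
        ZFSet.pair r' (v 0) ∈ ap (q M (tl (tl v))) x') hu.tail.tail ?_
    refine (D.le hP hL T.v0 T.v2).imp ?_
    refine D.exle hP hL (R := fun M r' v => ∃ x' q', ZFSet.pair x' q' ∈ s M (tl (tl (tl v))) ∧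
      Le P L r' q' ∧ ZFSet.pair r' (v 1) ∈ ap (q M (tl (tl (tl v)))) x') T.v0 ?_
    refine D.exp (R := fun M x' q' v => Le P L (v 0) q' ∧
      ZFSet.pair (v 0) (v 2) ∈ ap (q M (tl (tl (tl (tl v))))) x') hs.tail.tail.tail.tail ?_
    exact (D.le hP hL T.v2 T.v1).and (D.mem (T.pair T.v2 T.v4)
      (T.ap hq.tail.tail.tail.tail.tail.tail T.v0))

/-- the set of `(p, y)` in `P × t` with `p` forcing `x = y` -/
noncomputable def KF (P L t x : Z) : Z :=
  recF (fun x f => ZFSet.sep (fun z => ∃ p ∈ P, ∃ y ∈ t, z = pair p y ∧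
    EqCl P L (fun x' y' r => pair r y' ∈ ap f x') x y p) (prod P t)) x

theorem mem_KF {t : Z} (ht : t.IsTransitive) {x p y : Z} :
    pair p y ∈ KF P L t x ↔ p ∈ P ∧ y ∈ t ∧ EqF P L x y p := by
  have key : ∀ o : Ordinal, ∀ x : Z, rank x = o → ∀ p y, pair p y ∈ KF P L t x ↔
      p ∈ P ∧ y ∈ t ∧ EqF P L x y p := by
    intro o
    induction o using WellFoundedLT.induction with
    | _ o ih =>
      intro x hx p y
      rw [KF, recF_eq, mem_sep, pair_mem_prod]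
      have e : ∀ x' q, pair x' q ∈ x → ∀ y' ∈ t, ∀ r,
          (pair r y' ∈ ap (gr (recF (fun x f => ZFSet.sep (fun z => ∃ p ∈ P, ∃ y ∈ t,
            z = pair p y ∧ EqCl P L (fun x' y' r => pair r y' ∈ ap f x') x y p) (prod P t)))
            (tc x)) x' ↔ r ∈ P ∧ EqF P L x' y' r) := by
        intro x' q hq y' hy' r
        rw [ap_gr (mem_tc_of_pair hq)]
        have := ih (rank x') (hx ▸ rank_lt_of_pair hq) x' rfl r y'
        rw [KF] at this
        rw [this]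
        exact ⟨fun h => ⟨h.1, h.2.2⟩, fun h => ⟨h.1, hy', h.2⟩⟩
      have ht' : ∀ y' t', pair y' t' ∈ y → y ∈ t → y' ∈ t := by
        intro y' t' h hy
        have h1 := ht _ hy h
        have h2 : ({y', t'} : Z) ∈ t := ht _ h1 (by simp [pair])
        exact ht _ h2 (by simp)
      constructor
      · rintro ⟨⟨hp, hy⟩, p', hp', y1, hy1, h1, h2⟩
        obtain ⟨rfl, rfl⟩ := pair_inj.1 h1
        refine ⟨hp, hy, ?_⟩
        rw [eqF_iff]
        constructor
        · intro x' q hq r hr1 hr2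
          obtain ⟨s, hs, y', t', h3, h4, h5⟩ := h2.1 x' q hq r hr1 hr2
          exact ⟨s, hs, y', t', h3, h4, ((e x' q hq y' (ht' _ _ h3 hy) s).1 h5).2⟩
        · intro y' t' h3 r hr1 hr2
          obtain ⟨s, hs, x', q, hq, h4, h5⟩ := h2.2 y' t' h3 r hr1 hr2
          exact ⟨s, hs, x', q, hq, h4, ((e x' q hq y' (ht' _ _ h3 hy) s).1 h5).2⟩
      · rintro ⟨hp, hy, h2⟩
        refine ⟨⟨hp, hy⟩, p, hp, y, hy, rfl, ?_⟩
        rw [eqF_iff] at h2
        constructor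
        · intro x' q hq r hr1 hr2
          obtain ⟨s, hs, y', t', h3, h4, h5⟩ := h2.1 x' q hq r hr1 hr2
          exact ⟨s, hs, y', t', h3, h4, (e x' q hq y' (ht' _ _ h3 hy) s).2 ⟨hs.1, h5⟩⟩
        · intro y' t' h3 r hr1 hr2
          obtain ⟨s, hs, x', q, hq, h4, h5⟩ := h2.2 y' t' h3 r hr1 hr2
          exact ⟨s, hs, x', q, hq, h4, (e x' q hq y' (ht' _ _ h3 hy) s).2 ⟨hs.1, h5⟩⟩
  exact key _ x rfl p y

protected theorem T.KF (hP : ∀ M ∈ K, P ∈ M) (hL : ∀ M ∈ K, L ∈ M) (hs : T K s) (ht : T K t) :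
    T K (fun M v => Ctm.KF P L (s M v) (t M v)) := by
  refine T.recur (G := fun M x f v => ZFSet.sep (fun z => ∃ p ∈ P, ∃ y ∈ s M v,
    z = ZFSet.pair p y ∧ EqCl P L (fun x' y' r => ZFSet.pair r y' ∈ ap f x') x y p)
    (ZFSet.prod P (s M v))) ?_ ht
  refine T.sep (R := fun M z v => ∃ p ∈ P, ∃ y ∈ s M (tl (tl v)),
    z = ZFSet.pair p y ∧ EqCl P L (fun x' y' r => ZFSet.pair r y' ∈ ap (v 1) x') (v 0) y p)
    (T.prod (T.const hP) hs.tail.tail) ?_
  refine D.bex (R := fun M p v => ∃ y ∈ s M (tl (tl (tl v))),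
    v 0 = ZFSet.pair p y ∧ EqCl P L (fun x' y' r => ZFSet.pair r y' ∈ ap (v 2) x') (v 1) y p)
    (T.const hP) ?_
  refine D.bex (R := fun M y v => v 1 = ZFSet.pair (v 0) y ∧
    EqCl P L (fun x' y' r => ZFSet.pair r y' ∈ ap (v 3) x') (v 2) y (v 0))
    hs.tail.tail.tail.tail ?_
  exact (D.eq T.v2 (T.pair T.v1 T.v0)).and (D.eqCl hP hL T.v3 T.v0 T.v1 T.v4)

protected theorem D.eqF (hP : ∀ M ∈ K, P ∈ M) (hL : ∀ M ∈ K, L ∈ M)
    (hs : T K s) (ht : T K t) (hu : T K u) :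
    D K (fun M v => u M v ∈ P ∧ EqF P L (s M v) (t M v) (u M v)) := by
  refine (D.mem (T.pair hu ht) (T.KF hP hL (T.insert ht ht.tc) hs)).congr fun M _ v _ => ?_
  rw [mem_KF (insert_tc_trans _)]
  exact ⟨fun h => ⟨h.1, mem_insert _ _, h.2⟩, fun h => ⟨h.1, h.2.2⟩⟩

protected theorem D.memF (hP : ∀ M ∈ K, P ∈ M) (hL : ∀ M ∈ K, L ∈ M)
    (hs : T K s) (ht : T K t) (hu : T K u) :
    D K (fun M v => MemF P L (s M v) (t M v) (u M v)) := by
  have h : D K (fun M v => ∀ r, Le P L r (u M v) → ∃ r', Le P L r' r ∧ ∃ y' t',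
      ZFSet.pair y' t' ∈ t M v ∧ Le P L r' t' ∧ r' ∈ P ∧ EqF P L (s M v) y' r') := by
    refine D.allle hP hL (R := fun M r v => ∃ r', Le P L r' r ∧ ∃ y' t',
      ZFSet.pair y' t' ∈ t M v ∧ Le P L r' t' ∧ r' ∈ P ∧ EqF P L (s M v) y' r') hu ?_
    refine D.exle hP hL (R := fun M r' v => ∃ y' t',
      ZFSet.pair y' t' ∈ t M (tl v) ∧ Le P L r' t' ∧ r' ∈ P ∧ EqF P L (s M (tl v)) y' r')
      T.v0 ?_
    refine D.exp (R := fun M y' t' v => Le P L (v 0) t' ∧ v 0 ∈ P ∧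
      EqF P L (s M (tl (tl v))) y' (v 0)) ht.tail.tail ?_
    exact (D.le hP hL T.v2 T.v1).and (D.eqF hP hL hs.tail.tail.tail.tail T.v0 T.v2)
  refine h.congr fun M _ v _ => ?_
  refine forall_congr' fun r => imp_congr_right fun _ => exists_congr fun r' =>
    and_congr_right fun h1 => exists_congr fun y' => exists_congr fun t' =>
    and_congr_right fun _ => and_congr_right fun _ => ?_
  exact ⟨fun h => ⟨h1.1, h⟩, fun h => h.2⟩

end Def

/-! ## monotonicity and density for the atomic relations -/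

section Mono

variable {N : Set Z} {P L o : Z} (hF : PO N P L o)

include hF

theorem EqF.mono {x y p q : Z} (h : EqF P L x y p) (hq : Le P L q p) : EqF P L x y q := by
  rw [eqF_iff] at h ⊢
  exact ⟨fun x' q' h1 r hr => h.1 x' q' h1 r (hF.le_trans hr hq),
    fun y' t h1 r hr => h.2 y' t h1 r (hF.le_trans hr hq)⟩

theorem EqF.dense {x y p : Z} (h : ∀ q, Le P L q p → ∃ r, Le P L r q ∧ EqF P L x y r) :
    EqF P L x y p := by
  rw [eqF_iff]
  constructor
  · intro x' q' h1 r hr1 hr2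
    obtain ⟨r', h2, h3⟩ := h r hr1
    rw [eqF_iff] at h3
    obtain ⟨s, hs, h4⟩ := h3.1 x' q' h1 r' (hF.le_refl h2.1) (hF.le_trans h2 hr2)
    exact ⟨s, hF.le_trans hs h2, h4⟩
  · intro y' t h1 r hr1 hr2
    obtain ⟨r', h2, h3⟩ := h r hr1
    rw [eqF_iff] at h3
    obtain ⟨s, hs, h4⟩ := h3.2 y' t h1 r' (hF.le_refl h2.1) (hF.le_trans h2 hr2)
    exact ⟨s, hF.le_trans hs h2, h4⟩

theorem MemF.mono {x y p q : Z} (h : MemF P L x y p) (hq : Le P L q p) : MemF P L x y q :=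
  fun r hr => h r (hF.le_trans hr hq)

theorem MemF.dense {x y p : Z} (h : ∀ q, Le P L q p → ∃ r, Le P L r q ∧ MemF P L x y r) :
    MemF P L x y p := by
  intro r hr
  obtain ⟨r', h2, h3⟩ := h r hr
  obtain ⟨s, hs, h4⟩ := h3 r' (hF.le_refl h2.1)
  exact ⟨s, hF.le_trans hs h2, h4⟩

end Mono

/-! ## forcing of formulas -/

/-- the forcing relation for formulas -/
def NF (N : Set Z) (P L : Z) : Fml → (ℕ → Z) → Z → Prop
  | .fmem i j, v, p => MemF P L (v i) (v j) p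
  | .feq i j, v, p => EqF P L (v i) (v j) p
  | .fneg φ, v, p => ∀ q, Le P L q p → ¬ NF N P L φ v q
  | .fand φ ψ, v, p => NF N P L φ v p ∧ NF N P L ψ v p
  | .fall φ, v, p => ∀ x ∈ N, NF N P L φ (cons x v) p

theorem NF.mono {N : Set Z} {P L o : Z} (hF : PO N P L o) (φ : Fml) :
    ∀ {v : ℕ → Z} {p q : Z}, NF N P L φ v p → Le P L q p → NF N P L φ v q := by
  induction φ with
  | fmem i j => intro v p q h hq; exact MemF.mono hF h hq
  | feq i j => intro v p q h hq; exact EqF.mono hF h hq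
  | fneg φ ih => intro v p q h hq r hr; exact h r (hF.le_trans hr hq)
  | fand φ ψ ih1 ih2 => intro v p q h hq; exact ⟨ih1 h.1 hq, ih2 h.2 hq⟩
  | fall φ ih => intro v p q h hq x hx; exact ih (h x hx) hq

theorem NF.dense {N : Set Z} {P L o : Z} (hF : PO N P L o) (φ : Fml) :
    ∀ {v : ℕ → Z} {p : Z}, (∀ q, Le P L q p → ∃ r, Le P L r q ∧ NF N P L φ v r) →
      NF N P L φ v p := by
  induction φ with
  | fmem i j => intro v p h; exact MemF.dense hF h
  | feq i j => intro v p h; exact EqF.dense hF h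
  | fneg φ ih =>
    intro v p h q hq hn
    obtain ⟨r, hr, h1⟩ := h q hq
    exact h1 r (hF.le_refl hr.1) (NF.mono hF φ hn hr)
  | fand φ ψ ih1 ih2 =>
    intro v p h
    exact ⟨ih1 fun q hq => (h q hq).imp fun r hr => ⟨hr.1, hr.2.1⟩,
      ih2 fun q hq => (h q hq).imp fun r hr => ⟨hr.1, hr.2.2⟩⟩
  | fall φ ih =>
    intro v p h x hx
    exact ih fun q hq => (h q hq).imp fun r hr => ⟨hr.1, hr.2 x hx⟩

/-- definability of the forcing relation -/
theorem D.nf {N : Set Z} [MK ({N} : Set (Set Z))] {P L : Z} (hP : P ∈ N) (hL : L ∈ N)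
    (φ : Fml) : D {N} (fun M v => v 0 ∈ P ∧ NF M P L φ (tl v) (v 0)) := by
  have hP' : ∀ M ∈ ({N} : Set (Set Z)), P ∈ M := by rintro _ rfl; exact hP
  have hL' : ∀ M ∈ ({N} : Set (Set Z)), L ∈ M := by rintro _ rfl; exact hL
  induction φ with
  | fmem i j =>
    exact (D.mem T.v0 (T.const hP')).and (D.memF hP' hL' (T.var (i + 1)) (T.var (j + 1)) T.v0)
  | feq i j => exact D.eqF hP' hL' (T.var (i + 1)) (T.var (j + 1)) T.v0
  | fneg φ ih =>
    have h : D {N} (fun M v => v 0 ∈ P ∧ ∀ q, Le P L q (v 0) →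
        ¬ (q ∈ P ∧ NF M P L φ (tl v) q)) := by
      refine (D.mem T.v0 (T.const hP')).and (D.allle hP' hL'
        (R := fun M q v => ¬ (q ∈ P ∧ NF M P L φ (tl v) q)) T.v0 ?_)
      exact (ih.ren (fun i => if i = 0 then 0 else i + 1)).neg
    refine h.congr fun M _ v _ => ?_
    refine and_congr_right fun _ => forall_congr' fun q => imp_congr_right fun hq => ?_
    exact not_congr ⟨fun h => ⟨hq.1, h⟩, fun h => h.2⟩
  | fand φ ψ ih1 ih2 =>
    exact (ih1.and ih2).congr fun M _ v _ => by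
      change _ ∧ (_ ∧ _) ↔ _
      tauto
  | fall φ ih =>
    have h : D {N} (fun M v => v 0 ∈ P ∧ ∀ x ∈ M,
        (v 0 ∈ P ∧ NF M P L φ (cons x (tl v)) (v 0))) := by
      refine (D.mem T.v0 (T.const hP')).and (D.all
        (R := fun M x v => v 0 ∈ P ∧ NF M P L φ (cons x (tl v)) (v 0)) ?_)
      have := ih.ren (fun i => if i = 0 then 1 else if i = 1 then 0 else i)
      refine this.congr fun M _ v _ => ?_
      have e : tl (fun i => v (if i = 0 then 1 else if i = 1 then 0 else i)) =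
          cons (v 0) (tl (tl v)) := by
        funext i; cases i <;> rfl
      rw [e]; exact Iff.rfl
    refine h.congr fun M _ v _ => ?_
    refine and_congr_right fun h0 => forall_congr' fun x => imp_congr_right fun _ => ?_
    exact ⟨fun h => ⟨h0, h⟩, fun h => h.2⟩

end Pool.Agent.Lib.Ctm
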