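import Pool.Agent.Lib.Ctm.Force

/-!
# Generic filters, the generic extension, the truth lemma
-/

namespace Pool.Agent.Lib.Ctm

open Pool.Agent.Lib.Forcing ZFSet

/-- `G` is a `P`-generic filter over `N` -/
structure Gen (N : Set Z) (P L : Z) (G : Set Z) : Prop where
  sub : ∀ p ∈ G, p ∈ P
  up : ∀ p ∈ G, ∀ q, Le P L p q → q ∈ G
  dir : ∀ p ∈ G, ∀ q ∈ G, ∃ r ∈ G, Le P L r p ∧ Le P L r q
  gen : ∀ D ∈ N, (∀ p ∈ P, ∃ q, Le P L q p ∧ q ∈ D) → ∃ p ∈ G, p ∈ D

/-- the value of a name -/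
noncomputable def val (G : Set Z) (x : Z) : Z :=
  ZFSet.range (fun y : (ZFSet.sep (fun y => ∃ p ∈ G, pair y p ∈ x) (tc x) : Z) => val G y.1)
termination_by rank x
decreasing_by exact rank_lt_of_mem_tc (mem_sep.1 y.2).1

theorem mem_val {G : Set Z} {x z : Z} : z ∈ val G x ↔ ∃ y, ∃ p ∈ G, pair y p ∈ x ∧ z = val G y := by
  rw [val, mem_range]
  constructor
  · rintro ⟨y, rfl⟩
    obtain ⟨_, p, hp, h⟩ := mem_sep.1 y.2
    exact ⟨y.1, p, hp, h, rfl⟩
  · rintro ⟨y, p, hp, h, rfl⟩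
    exact ⟨⟨y, mem_sep.2 ⟨mem_tc_of_pair h, p, hp, h⟩⟩, rfl⟩

theorem val_mem_val {G : Set Z} {x y p : Z} (hp : p ∈ G) (h : pair y p ∈ x) :
    val G y ∈ val G x := mem_val.2 ⟨y, p, hp, h, rfl⟩

/-- the generic extension -/
def NG (N : Set Z) (G : Set Z) : Set Z := val G '' N

theorem val_mem_NG {N G : Set Z} {x : Z} (hx : x ∈ N) : val G x ∈ NG N G := ⟨x, hx, rfl⟩

section Truth

variable {N : Set Z} {P L o : Z} (hN : TM N) (hF : PO N P L o) {G : Set Z} (hG : Gen N P L G)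

include hN hF hG

/-- genericity below a condition -/
theorem Gen.below {S : Z} (hS : S ∈ N) {p : Z} (hp : p ∈ G)
    (h : ∀ q, Le P L q p → ∃ r, Le P L r q ∧ r ∈ S) : ∃ r ∈ G, Le P L r p ∧ r ∈ S := by
  have _i := hN.sing
  have hP' : ∀ M ∈ ({N} : Set (Set Z)), P ∈ M := by rintro _ rfl; exact hF.P_mem
  have hL' : ∀ M ∈ ({N} : Set (Set Z)), L ∈ M := by rintro _ rfl; exact hF.L_mem
  have hpN : p ∈ N := hN.trans _ hF.P_mem _ (hG.sub p hp)
  have h1 : ZFSet.sep (fun r => (Le P L r p ∧ r ∈ S) ∨ ∀ s, Le P L s r → ¬ Le P L s p) P ∈ N := by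
    refine D.sep_mem (K := {N}) (R := fun _ r _ => (Le P L r p ∧ r ∈ S) ∨
      ∀ s, Le P L s r → ¬ Le P L s p) ?_ rfl (v := fun _ => ∅) (fun _ => hN.empty_mem) hF.P_mem
    have hp' : T {N} (fun _ _ => p) := T.const (by rintro _ rfl; exact hpN)
    have hS' : T {N} (fun _ _ => S) := T.const (by rintro _ rfl; exact hS)
    exact ((D.le hP' hL' T.v0 hp').and (D.mem T.v0 hS')).or
      (D.allle hP' hL' (R := fun _ s _ => ¬ Le P L s p) T.v0 (D.le hP' hL' T.v0 hp').neg)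
  obtain ⟨r, hr, hr1⟩ := hG.gen _ h1 (by
    intro q hq
    by_cases hc : ∃ s, Le P L s q ∧ Le P L s p
    · obtain ⟨s, hs1, hs2⟩ := hc
      obtain ⟨r, hr1, hr2⟩ := h s hs2
      exact ⟨r, hF.le_trans hr1 hs1, mem_sep.2 ⟨hr1.1, Or.inl ⟨hF.le_trans hr1 hs2, hr2⟩⟩⟩
    · push Not at hc
      exact ⟨q, hF.le_refl hq, mem_sep.2 ⟨hq, Or.inr hc⟩⟩)
  rw [mem_sep] at hr1
  rcases hr1.2 with h2 | h2
  · exact ⟨r, hr, h2⟩
  · obtain ⟨s, hs, h3, h4⟩ := hG.dir r hr p hp
    exact absurd h4 (h2 s h3)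

/-- genericity below a condition, for definable sets -/
theorem Gen.belowD {R : Z → Prop} (hR : ZFSet.sep R P ∈ N) {p : Z} (hp : p ∈ G)
    (h : ∀ q, Le P L q p → ∃ r, Le P L r q ∧ R r) : ∃ r ∈ G, Le P L r p ∧ R r := by
  obtain ⟨r, h1, h2, h3⟩ := Gen.below hN hF hG hR hp (fun q hq => by
    obtain ⟨r, h1, h2⟩ := h q hq
    exact ⟨r, h1, mem_sep.2 ⟨h1.1, h2⟩⟩)
  exact ⟨r, h1, h2, (mem_sep.1 h3).2⟩

omit hN in
theorem Gen.top_mem {p : Z} (hp : p ∈ G) : o ∈ G :=
  hG.up p hp o ⟨hG.sub p hp, hF.top, hF.le_top p (hG.sub p hp)⟩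

theorem truth_eq : ∀ x ∈ N, ∀ y ∈ N, val G x = val G y ↔ ∃ p ∈ G, EqF P L x y p := by
  have _i := hN.sing
  have hP' : ∀ M ∈ ({N} : Set (Set Z)), P ∈ M := by rintro _ rfl; exact hF.P_mem
  have hL' : ∀ M ∈ ({N} : Set (Set Z)), L ∈ M := by rintro _ rfl; exact hF.L_mem
  have key : ∀ o : Ordinal, ∀ x : Z, rank x = o → x ∈ N → ∀ y ∈ N,
      (val G x = val G y ↔ ∃ p ∈ G, EqF P L x y p) := by
    intro o
    induction o using WellFoundedLT.induction with
    | _ o ih =>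
      intro x hxo hx y hy
      have ih' : ∀ x' q, pair x' q ∈ x → ∀ y' t, pair y' t ∈ y →
          (val G x' = val G y' ↔ ∃ p ∈ G, EqF P L x' y' p) := fun x' q h y' t h' =>
        ih (rank x') (hxo ▸ rank_lt_of_pair h) x' rfl (hN.of_pair_mem_mem hx h).1 y'
          (hN.of_pair_mem_mem hy h').1
      have xc : T {N} (fun _ _ => x) := T.const (by rintro _ rfl; exact hx)
      have yc : T {N} (fun _ _ => y) := T.const (by rintro _ rfl; exact hy)
      constructor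
      · intro he
        -- the dense set
        let A : Z → Prop := fun r => ∃ x' q, pair x' q ∈ x ∧ Le P L r q ∧
          ∀ s, Le P L s r → ∀ y' t, pair y' t ∈ y → Le P L s t → ¬ (s ∈ P ∧ EqF P L x' y' s)
        let B : Z → Prop := fun r => ∃ y' t, pair y' t ∈ y ∧ Le P L r t ∧
          ∀ s, Le P L s r → ∀ x' q, pair x' q ∈ x → Le P L s q → ¬ (s ∈ P ∧ EqF P L x' y' s)
        have hA : D {N} (fun _ v => A (v 0)) := by
          refine D.exp (R := fun _ x' q v => Le P L (v 0) q ∧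
            ∀ s, Le P L s (v 0) → ∀ y' t, ZFSet.pair y' t ∈ y → Le P L s t →
              ¬ (s ∈ P ∧ EqF P L x' y' s)) xc ?_
          refine (D.le hP' hL' T.v2 T.v1).and ?_
          refine D.allle hP' hL' (R := fun _ s v => ∀ y' t, ZFSet.pair y' t ∈ y → Le P L s t →
              ¬ (s ∈ P ∧ EqF P L (v 0) y' s)) T.v2 ?_
          refine D.allp (R := fun _ y' t v => Le P L (v 0) t →
              ¬ (v 0 ∈ P ∧ EqF P L (v 1) y' (v 0))) yc ?_
          exact (D.le hP' hL' T.v2 T.v1).imp (D.eqF hP' hL' T.v3 T.v0 T.v2).neg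
        have hB : D {N} (fun _ v => B (v 0)) := by
          refine D.exp (R := fun _ y' t v => Le P L (v 0) t ∧
            ∀ s, Le P L s (v 0) → ∀ x' q, ZFSet.pair x' q ∈ x → Le P L s q →
              ¬ (s ∈ P ∧ EqF P L x' y' s)) yc ?_
          refine (D.le hP' hL' T.v2 T.v1).and ?_
          refine D.allle hP' hL' (R := fun _ s v => ∀ x' q, ZFSet.pair x' q ∈ x → Le P L s q →
              ¬ (s ∈ P ∧ EqF P L x' (v 0) s)) T.v2 ?_
          refine D.allp (R := fun _ x' q v => Le P L (v 0) q →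
              ¬ (v 0 ∈ P ∧ EqF P L x' (v 1) (v 0))) xc ?_
          exact (D.le hP' hL' T.v2 T.v1).imp (D.eqF hP' hL' T.v0 T.v3 T.v2).neg
        have hS : ZFSet.sep (fun r => (r ∈ P ∧ EqF P L x y r) ∨ A r ∨ B r) P ∈ N := by
          refine D.sep_mem (K := {N}) (R := fun _ r _ => (r ∈ P ∧ EqF P L x y r) ∨ A r ∨ B r) ?_
            rfl (v := fun _ => ∅) (fun _ => hN.empty_mem) hF.P_mem
          exact (D.eqF hP' hL' xc yc T.v0).or (hA.or hB)
        obtain ⟨p, hp, h1⟩ := hG.gen _ hS (by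
          intro p hp
          by_cases h1 : EqF P L x y p
          · exact ⟨p, hF.le_refl hp, mem_sep.2 ⟨hp, Or.inl ⟨hp, h1⟩⟩⟩
          · rw [eqF_iff, EqCl, not_and_or] at h1
            rcases h1 with h1 | h1
            · push Not at h1
              obtain ⟨x', q, hq, r, hr1, hr2, h3⟩ := h1
              refine ⟨r, hr1, mem_sep.2 ⟨hr1.1, Or.inr (Or.inl ⟨x', q, hq, hr2, ?_⟩)⟩⟩
              exact fun s hs y' t ht hst h => h3 s hs y' t ht hst h.2
            · push Not at h1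
              obtain ⟨y', t, ht, r, hr1, hr2, h3⟩ := h1
              refine ⟨r, hr1, mem_sep.2 ⟨hr1.1, Or.inr (Or.inr ⟨y', t, ht, hr2, ?_⟩)⟩⟩
              exact fun s hs x' q hq hsq h => h3 s hs x' q hq hsq h.2)
        rw [mem_sep] at h1
        rcases h1.2 with h2 | ⟨x', q, hq, hpq, h3⟩ | ⟨y', t, ht, hpt, h3⟩
        · exact ⟨p, hp, h2.2⟩
        · exfalso
          have hq' : q ∈ G := hG.up p hp q hpq
          have h4 : val G x' ∈ val G y := he ▸ val_mem_val hq' hq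
          obtain ⟨y', t, ht', hy', h5⟩ := mem_val.1 h4
          obtain ⟨p', hp', h6⟩ := (ih' x' q hq y' t hy').1 h5
          obtain ⟨r, hr, hr1, hr2⟩ := hG.dir p hp p' hp'
          obtain ⟨s, hs, hs1, hs2⟩ := hG.dir r hr t ht'
          exact h3 s (hF.le_trans hs1 hr1) y' t hy' hs2
            ⟨hs1.1, EqF.mono hF h6 (hF.le_trans hs1 hr2)⟩
        · exfalso
          have ht' : t ∈ G := hG.up p hp t hpt
          have h4 : val G y' ∈ val G x := he ▸ val_mem_val ht' ht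
          obtain ⟨x', q, hq', hx', h5⟩ := mem_val.1 h4
          obtain ⟨p', hp', h6⟩ := (ih' x' q hx' y' t ht).1 h5.symm
          obtain ⟨r, hr, hr1, hr2⟩ := hG.dir p hp p' hp'
          obtain ⟨s, hs, hs1, hs2⟩ := hG.dir r hr q hq'
          exact h3 s (hF.le_trans hs1 hr1) x' q hx' hs2
            ⟨hs1.1, EqF.mono hF h6 (hF.le_trans hs1 hr2)⟩
      · rintro ⟨p, hp, h1⟩
        rw [eqF_iff] at h1
        ext z
        constructor
        · intro hz
          obtain ⟨x', q, hq', hx', rfl⟩ := mem_val.1 hz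
          have xc' : T {N} (fun _ _ => x') :=
            T.const (by rintro _ rfl; exact (hN.of_pair_mem_mem hx hx').1)
          obtain ⟨r, hr, hr1, hr2⟩ := hG.dir p hp q hq'
          obtain ⟨s, hs, hs1, y', t, h2, h3, h4⟩ := Gen.belowD hN hF hG
            (R := fun s => ∃ y' t, pair y' t ∈ y ∧ Le P L s t ∧ (s ∈ P ∧ EqF P L x' y' s)) (by
            refine D.sep_mem (K := {N}) (R := fun _ s _ => ∃ y' t, pair y' t ∈ y ∧ Le P L s t ∧
              (s ∈ P ∧ EqF P L x' y' s)) ?_ rfl (v := fun _ => ∅) (fun _ => hN.empty_mem) hF.P_mem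
            refine D.exp (R := fun _ y' t v => Le P L (v 0) t ∧
              (v 0 ∈ P ∧ EqF P L x' y' (v 0))) yc ?_
            exact (D.le hP' hL' T.v2 T.v1).and (D.eqF hP' hL' xc' T.v0 T.v2)) hr (by
              intro r' hr'
              obtain ⟨s, hs, y', t, h2, h3, h4⟩ := h1.1 x' q hx' r' (hF.le_trans hr' hr1)
                (hF.le_trans hr' hr2)
              exact ⟨s, hs, y', t, h2, h3, hs.1, h4⟩)
          rw [(ih' x' q hx' y' t h2).2 ⟨s, hs, h4.2⟩]
          exact val_mem_val (hG.up s hs t h3) h2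
        · intro hz
          obtain ⟨y', t, ht', hy', rfl⟩ := mem_val.1 hz
          have yc' : T {N} (fun _ _ => y') :=
            T.const (by rintro _ rfl; exact (hN.of_pair_mem_mem hy hy').1)
          obtain ⟨r, hr, hr1, hr2⟩ := hG.dir p hp t ht'
          obtain ⟨s, hs, hs1, x', q, h2, h3, h4⟩ := Gen.belowD hN hF hG
            (R := fun s => ∃ x' q, pair x' q ∈ x ∧ Le P L s q ∧ (s ∈ P ∧ EqF P L x' y' s)) (by
            refine D.sep_mem (K := {N}) (R := fun _ s _ => ∃ x' q, pair x' q ∈ x ∧ Le P L s q ∧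
              (s ∈ P ∧ EqF P L x' y' s)) ?_ rfl (v := fun _ => ∅) (fun _ => hN.empty_mem) hF.P_mem
            refine D.exp (R := fun _ x' q v => Le P L (v 0) q ∧
              (v 0 ∈ P ∧ EqF P L x' y' (v 0))) xc ?_
            exact (D.le hP' hL' T.v2 T.v1).and (D.eqF hP' hL' T.v0 yc' T.v2)) hr (by
              intro r' hr'
              obtain ⟨s, hs, x', q, h2, h3, h4⟩ := h1.2 y' t hy' r' (hF.le_trans hr' hr1)
                (hF.le_trans hr' hr2)
              exact ⟨s, hs, x', q, h2, h3, hs.1, h4⟩)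
          rw [← (ih' x' q h2 y' t hy').2 ⟨s, hs, h4.2⟩]
          exact val_mem_val (hG.up s hs q h3) h2
  exact fun x hx => key _ x rfl hx

theorem truth_mem {x y : Z} (hx : x ∈ N) (hy : y ∈ N) :
    val G x ∈ val G y ↔ ∃ p ∈ G, MemF P L x y p := by
  have _i := hN.sing
  have hP' : ∀ M ∈ ({N} : Set (Set Z)), P ∈ M := by rintro _ rfl; exact hF.P_mem
  have hL' : ∀ M ∈ ({N} : Set (Set Z)), L ∈ M := by rintro _ rfl; exact hF.L_mem
  have xc : T {N} (fun _ _ => x) := T.const (by rintro _ rfl; exact hx)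
  have yc : T {N} (fun _ _ => y) := T.const (by rintro _ rfl; exact hy)
  constructor
  · intro h
    obtain ⟨y', t, ht', hy', h5⟩ := mem_val.1 h
    obtain ⟨p', hp', h6⟩ := (truth_eq hN hF hG x hx y' (hN.of_pair_mem_mem hy hy').1).1 h5
    obtain ⟨r, hr, hr1, hr2⟩ := hG.dir p' hp' t ht'
    refine ⟨r, hr, fun q hq => ⟨q, hF.le_refl hq.1, y', t, hy', hF.le_trans hq hr2,
      EqF.mono hF h6 (hF.le_trans hq hr1)⟩⟩
  · rintro ⟨p, hp, h1⟩
    obtain ⟨s, hs, hs1, y', t, h2, h3, h4⟩ := Gen.belowD hN hF hG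
      (R := fun s => ∃ y' t, pair y' t ∈ y ∧ Le P L s t ∧ (s ∈ P ∧ EqF P L x y' s)) (by
      refine D.sep_mem (K := {N}) (R := fun _ s _ => ∃ y' t, pair y' t ∈ y ∧ Le P L s t ∧
        (s ∈ P ∧ EqF P L x y' s)) ?_ rfl (v := fun _ => ∅) (fun _ => hN.empty_mem) hF.P_mem
      refine D.exp (R := fun _ y' t v => Le P L (v 0) t ∧
        (v 0 ∈ P ∧ EqF P L x y' (v 0))) yc ?_
      exact (D.le hP' hL' T.v2 T.v1).and (D.eqF hP' hL' xc T.v0 T.v2)) hp (by
        intro r' hr'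
        obtain ⟨s, hs, y', t, h2, h3, h4⟩ := h1 r' hr'
        exact ⟨s, hs, y', t, h2, h3, hs.1, h4⟩)
    rw [(truth_eq hN hF hG x hx y' (hN.of_pair_mem_mem hy h2).1).2 ⟨s, hs, h4.2⟩]
    exact val_mem_val (hG.up s hs t h3) h2

omit hG in
theorem NF.sep_mem (φ : Fml) {v : ℕ → Z} (hv : In N v) :
    ZFSet.sep (fun p => NF N P L φ v p) P ∈ N := by
  have _i := hN.sing
  have h := D.sep_mem (K := {N}) (R := fun M p v => p ∈ P ∧ NF M P L φ v p)
    (D.nf hF.P_mem hF.L_mem φ) rfl hv hF.P_mem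
  convert h using 1
  ext z
  rw [mem_sep, mem_sep]
  tauto

/-- the truth lemma -/
theorem truth (φ : Fml) : ∀ v : ℕ → Z, In N v →
    (SatC (NG N G) φ (fun i => val G (v i)) ↔ ∃ p ∈ G, NF N P L φ v p) := by
  have _i := hN.sing
  induction φ with
  | fmem i j => intro v hv; exact truth_mem hN hF hG (hv i) (hv j)
  | feq i j => intro v hv; exact truth_eq hN hF hG _ (hv i) _ (hv j)
  | fneg φ ih =>
    intro v hv
    change ¬ SatC _ _ _ ↔ _
    rw [ih v hv]
    constructor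
    · intro h
      have h1 : ZFSet.sep (fun p => NF N P L φ v p ∨ NF N P L φ.fneg v p) P ∈ N := by
        have h2 := D.sep_mem (K := {N}) (R := fun M p v => (p ∈ P ∧ NF M P L φ v p) ∨
          (p ∈ P ∧ NF M P L φ.fneg v p))
          ((D.nf hF.P_mem hF.L_mem φ).or (D.nf hF.P_mem hF.L_mem φ.fneg)) rfl hv hF.P_mem
        convert h2 using 1
        ext z
        rw [mem_sep, mem_sep]
        tauto
      obtain ⟨p, hp, h2⟩ := hG.gen _ h1 (by
        intro p hp
        by_cases h3 : ∃ q, Le P L q p ∧ NF N P L φ v q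
        · obtain ⟨q, hq, h3⟩ := h3
          exact ⟨q, hq, mem_sep.2 ⟨hq.1, Or.inl h3⟩⟩
        · push Not at h3
          exact ⟨p, hF.le_refl hp, mem_sep.2 ⟨hp, Or.inr h3⟩⟩)
      rw [mem_sep] at h2
      rcases h2.2 with h3 | h3
      · exact absurd ⟨p, hp, h3⟩ h
      · exact ⟨p, hp, h3⟩
    · rintro ⟨p, hp, h1⟩ ⟨q, hq, h2⟩
      obtain ⟨r, hr, hr1, hr2⟩ := hG.dir p hp q hq
      exact h1 r hr1 (NF.mono hF φ h2 hr2)
  | fand φ ψ ih1 ih2 =>
    intro v hv
    change _ ∧ _ ↔ _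
    rw [ih1 v hv, ih2 v hv]
    constructor
    · rintro ⟨⟨p, hp, h1⟩, q, hq, h2⟩
      obtain ⟨r, hr, hr1, hr2⟩ := hG.dir p hp q hq
      exact ⟨r, hr, NF.mono hF φ h1 hr1, NF.mono hF ψ h2 hr2⟩
    · rintro ⟨p, hp, h1, h2⟩
      exact ⟨⟨p, hp, h1⟩, p, hp, h2⟩
  | fall φ ih =>
    intro v hv
    have ih' : ∀ x ∈ N, (SatC (NG N G) φ (cons (val G x) (fun i => val G (v i))) ↔
        ∃ p ∈ G, NF N P L φ (cons x v) p) := by
      intro x hx
      rw [← ih (cons x v) (hv.cons hx)]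
      have : cons (val G x) (fun i => val G (v i)) = fun i => val G (cons x v i) := by
        funext i; cases i <;> rfl
      rw [this]
    constructor
    · intro h
      have hDx : D {N} (fun M v => ∃ x ∈ M, ∀ q, Le P L q (v 0) →
          ¬ (q ∈ P ∧ NF M P L φ (cons x (tl v)) q)) := by
        have hP' : ∀ M ∈ ({N} : Set (Set Z)), P ∈ M := by rintro _ rfl; exact hF.P_mem
        have hL' : ∀ M ∈ ({N} : Set (Set Z)), L ∈ M := by rintro _ rfl; exact hF.L_mem
        refine D.ex (R := fun M x v => ∀ q, Le P L q (v 0) →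
          ¬ (q ∈ P ∧ NF M P L φ (cons x (tl v)) q)) ?_
        refine D.allle hP' hL' (R := fun M q v => ¬ (q ∈ P ∧ NF M P L φ
          (cons (v 0) (tl (tl v))) q)) T.v1 ?_
        have := ((D.nf hF.P_mem hF.L_mem φ).ren (fun i => if i = 0 then 0 else
          if i = 1 then 1 else i + 1)).neg
        refine this.congr fun M _ v _ => ?_
        have e : tl (fun i => v (if i = 0 then 0 else if i = 1 then 1 else i + 1)) =
            cons (v 1) (tl (tl (tl v))) := by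
          funext i
          match i with
          | 0 => rfl
          | n + 1 => simp [tl]
        rw [e]; exact Iff.rfl
      have h1 : ZFSet.sep (fun p => NF N P L φ.fall v p ∨ ∃ x ∈ N, ∀ q, Le P L q p →
          ¬ (q ∈ P ∧ NF N P L φ (cons x v) q)) P ∈ N := by
        have h2 := D.sep_mem (K := {N}) (R := fun M p v => (p ∈ P ∧ NF M P L φ.fall v p) ∨
          ∃ x ∈ M, ∀ q, Le P L q p → ¬ (q ∈ P ∧ NF M P L φ (cons x v) q))
          ((D.nf hF.P_mem hF.L_mem φ.fall).or hDx) rfl hv hF.P_mem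
        convert h2 using 1
        ext z
        rw [mem_sep, mem_sep]
        tauto
      obtain ⟨p, hp, h2⟩ := hG.gen _ h1 (by
        intro p hp
        by_cases h3 : NF N P L φ.fall v p
        · exact ⟨p, hF.le_refl hp, mem_sep.2 ⟨hp, Or.inl h3⟩⟩
        · have h4 : ∃ x ∈ N, ¬ NF N P L φ (cons x v) p := by
            by_contra h4
            push Not at h4
            exact h3 h4
          obtain ⟨x, hx, h4⟩ := h4
          have h5 : ∃ q, Le P L q p ∧ ∀ r, Le P L r q → ¬ NF N P L φ (cons x v) r := by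
            by_contra h5
            push Not at h5
            exact h4 (NF.dense hF φ h5)
          obtain ⟨q, hq, h5⟩ := h5
          exact ⟨q, hq, mem_sep.2 ⟨hq.1, Or.inr ⟨x, hx, fun r hr h6 => h5 r hr h6.2⟩⟩⟩)
      rw [mem_sep] at h2
      rcases h2.2 with h3 | ⟨x, hx, h3⟩
      · exact ⟨p, hp, h3⟩
      · exfalso
        obtain ⟨q, hq, h4⟩ := (ih' x hx).1 (h _ (val_mem_NG hx))
        obtain ⟨r, hr, hr1, hr2⟩ := hG.dir p hp q hq
        exact h3 r hr1 ⟨hr1.1, NF.mono hF φ h4 hr2⟩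
    · rintro ⟨p, hp, h1⟩ _ ⟨x, hx, rfl⟩
      exact (ih' x hx).2 ⟨p, hp, h1 x hx⟩

end Truth

end Pool.Agent.Lib.Ctm
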