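import Pool.Agent.Lib.Ctm.Card

/-!
# The levels used in the definition of the poset
-/

namespace Pool.Agent.Lib.Ctm

open Pool.Agent.Lib.Forcing ZFSet

/-- the ordinal `δ` -/
noncomputable def dl (N : Set Z) : Z := hart N (pw N (VM N om))

/-- the cardinals `χ(b)` -/
noncomputable def chi (N : Set Z) (b : Z) : Z :=
  recF (fun x f => hart N (pw N (VM N (dl N ∪ ⋃₀ (img (fun y => ap f y) x))))) b

/-- the ordinals `F(b)` -/
noncomputable def FF (N : Set Z) (b : Z) : Z := dl N ∪ ⋃₀ (img (fun y => chi N y) b)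

/-- the transitive sets `Y(b)` -/
noncomputable def YY (N : Set Z) (b : Z) : Z := VM N (FF N b)

/-- their power sets in `N` -/
noncomputable def XX (N : Set Z) (b : Z) : Z := pw N (YY N b)

/-- `χ(b)` for `b ≠ 0`, and `ω` for `b = 0` -/
noncomputable def chp (N : Set Z) (b : Z) : Z :=
  ZFSet.sep (fun z => (b = ∅ ∧ z ∈ om) ∨ (b ≠ ∅ ∧ z ∈ chi N b)) (om ∪ chi N b)

/-- the supremum `κ` of the `χ(b)`, `b < δ` -/
noncomputable def kap (N : Set Z) : Z := ⋃₀ (img (fun y => chi N y) (dl N))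

theorem chi_eq (N : Set Z) (b : Z) : chi N b = hart N (XX N b) := by
  have h : img (fun y => ap (gr (chi N) (tc b)) y) b = img (fun y => chi N y) b := by
    ext z
    rw [mem_img, mem_img]
    exact exists_congr fun y => and_congr_right fun hy => by rw [ap_gr (mem_tc_of_mem hy)]
  have h2 : chi N b = hart N (pw N (VM N (dl N ∪ ⋃₀ (img (fun y => ap (gr (chi N) (tc b)) y)
      b)))) := recF_eq _ b
  rw [h2, h]
  rfl

theorem chp_empty (N : Set Z) : chp N ∅ = om := by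
  ext z
  rw [chp, mem_sep, mem_union]
  constructor
  · rintro ⟨_, ⟨_, h⟩ | ⟨h, _⟩⟩
    · exact h
    · exact absurd rfl h
  · intro h; exact ⟨Or.inl h, Or.inl ⟨rfl, h⟩⟩

theorem chp_of_ne (N : Set Z) {b : Z} (hb : b ≠ ∅) : chp N b = chi N b := by
  ext z
  rw [chp, mem_sep, mem_union]
  constructor
  · rintro ⟨_, ⟨h, _⟩ | ⟨_, h⟩⟩
    · exact absurd h hb
    · exact h
  · intro h; exact ⟨Or.inr h, Or.inr ⟨hb, h⟩⟩

theorem mem_kap {N : Set Z} {z : Z} : z ∈ kap N ↔ ∃ b ∈ dl N, z ∈ chi N b := by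
  rw [kap, mem_sUnion]
  constructor
  · rintro ⟨w, hw, hz⟩
    obtain ⟨b, hb, rfl⟩ := mem_img.1 hw
    exact ⟨b, hb, hz⟩
  · rintro ⟨b, hb, hz⟩; exact ⟨_, mem_img.2 ⟨b, hb, rfl⟩, hz⟩

theorem mem_FF {N : Set Z} {b z : Z} : z ∈ FF N b ↔ z ∈ dl N ∨ ∃ a ∈ b, z ∈ chi N a := by
  rw [FF, mem_union, mem_sUnion]
  refine or_congr Iff.rfl ?_
  constructor
  · rintro ⟨w, hw, hz⟩
    obtain ⟨b, hb, rfl⟩ := mem_img.1 hw
    exact ⟨b, hb, hz⟩
  · rintro ⟨b, hb, hz⟩; exact ⟨_, mem_img.2 ⟨b, hb, rfl⟩, hz⟩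

/-! ## definability -/

section Def

variable {N : Set Z} [MK ({N} : Set (Set Z))] {s : Set Z → (ℕ → Z) → Z}

theorem T.pwN (hs : T {N} s) : T {N} (fun M v => Ctm.pw N (s M v)) :=
  (T.pw hs).congr (by rintro _ rfl v _; rfl)

theorem T.VMN (hs : T {N} s) : T {N} (fun M v => Ctm.VM N (s M v)) :=
  (T.VM hs).congr (by rintro _ rfl v _; rfl)

theorem T.hartN (hs : T {N} s) : T {N} (fun M v => Ctm.hart N (s M v)) :=
  (T.hart hs).congr (by rintro _ rfl v _; rfl)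

theorem T.dl : T {N} (fun _ _ => Ctm.dl N) := T.hartN (T.pwN (T.VMN T.om))

theorem T.chi (hs : T {N} s) : T {N} (fun M v => Ctm.chi N (s M v)) := by
  refine T.recur (G := fun _ x f _ => Ctm.hart N (Ctm.pw N (Ctm.VM N (Ctm.dl N ∪
    ⋃₀ (Ctm.img (fun y => Ctm.ap f y) x))))) ?_ hs
  refine T.hartN (T.pwN (T.VMN (T.union T.dl (T.sUnion ?_))))
  exact T.img (f := fun _ y v => Ctm.ap (v 1) y) T.v0 (T.ap T.v2 T.v0)

theorem T.FF (hs : T {N} s) : T {N} (fun M v => Ctm.FF N (s M v)) :=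
  T.union T.dl (T.sUnion (T.img (f := fun _ y _ => Ctm.chi N y) hs (T.chi T.v0)))

theorem T.YY (hs : T {N} s) : T {N} (fun M v => Ctm.YY N (s M v)) := T.VMN (T.FF hs)

theorem T.XX (hs : T {N} s) : T {N} (fun M v => Ctm.XX N (s M v)) := T.pwN (T.YY hs)

theorem T.chp (hs : T {N} s) : T {N} (fun M v => Ctm.chp N (s M v)) := by
  refine T.sep (R := fun M z v => (s M v = ∅ ∧ z ∈ Ctm.om) ∨ (s M v ≠ ∅ ∧ z ∈ Ctm.chi N (s M v)))
    (T.union T.om (T.chi hs)) ?_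
  exact ((D.eq hs.tail T.empty).and (D.mem T.v0 T.om)).or
    ((D.eq hs.tail T.empty).neg.and (D.mem T.v0 (T.chi hs.tail)))

theorem T.kap : T {N} (fun _ _ => Ctm.kap N) :=
  T.sUnion (T.img (f := fun _ y _ => Ctm.chi N y) T.dl (T.chi T.v0))

end Def

/-! ## basic facts -/

section Facts

variable {N : Set Z} (hN : TC N)

include hN

theorem dl_mem : dl N ∈ N := by
  have _i := hN.sing
  exact (T.dl (N := N)).mem N rfl (fun _ => ∅) (fun _ => hN.empty_mem)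

theorem chi_mem {b : Z} (hb : b ∈ N) : chi N b ∈ N := by
  have _i := hN.sing
  exact (T.chi (N := N) T.v0).mem N rfl (fun _ => b) (fun _ => hb)

theorem FF_mem {b : Z} (hb : b ∈ N) : FF N b ∈ N := by
  have _i := hN.sing
  exact (T.FF (N := N) T.v0).mem N rfl (fun _ => b) (fun _ => hb)

theorem YY_mem {b : Z} (hb : b ∈ N) : YY N b ∈ N := by
  have _i := hN.sing
  exact (T.YY (N := N) T.v0).mem N rfl (fun _ => b) (fun _ => hb)

theorem XX_mem {b : Z} (hb : b ∈ N) : XX N b ∈ N := by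
  have _i := hN.sing
  exact (T.XX (N := N) T.v0).mem N rfl (fun _ => b) (fun _ => hb)

theorem chp_mem {b : Z} (hb : b ∈ N) : chp N b ∈ N := by
  have _i := hN.sing
  exact (T.chp (N := N) T.v0).mem N rfl (fun _ => b) (fun _ => hb)

theorem kap_mem : kap N ∈ N := by
  have _i := hN.sing
  exact (T.kap (N := N)).mem N rfl (fun _ => ∅) (fun _ => hN.empty_mem)

theorem isOrdinal_dl : (dl N).IsOrdinal :=
  isOrdinal_hart hN.toTM (hN.pw_mem (hN.VM_mem hN.om_mem))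

theorem isOrdinal_chi {b : Z} (hb : b ∈ N) : (chi N b).IsOrdinal := by
  rw [chi_eq]; exact isOrdinal_hart hN.toTM (XX_mem hN hb)

omit hN in
theorem isOrdinal_sUnion {x : Z} (h : ∀ y ∈ x, y.IsOrdinal) : (⋃₀ x : Z).IsOrdinal := by
  rw [isOrdinal_iff_forall_mem_isOrdinal]
  refine ⟨IsTransitive.sUnion' fun y hy => (h y hy).isTransitive, fun y hy => ?_⟩
  obtain ⟨z, hz, hyz⟩ := mem_sUnion.1 hy
  exact (h z hz).mem hyz

omit hN in
theorem isOrdinal_union {x y : Z} (hx : x.IsOrdinal) (hy : y.IsOrdinal) : (x ∪ y).IsOrdinal := by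
  rw [← sUnion_pair]
  refine isOrdinal_sUnion fun z hz => ?_
  rcases ZFSet.mem_pair.1 hz with rfl | rfl
  · exact hx
  · exact hy

theorem isOrdinal_FF {b : Z} (hb : b ∈ N) : (FF N b).IsOrdinal := by
  refine isOrdinal_union (isOrdinal_dl hN) (isOrdinal_sUnion fun y hy => ?_)
  obtain ⟨a, ha, rfl⟩ := mem_img.1 hy
  exact isOrdinal_chi hN (hN.trans _ hb _ ha)

theorem isOrdinal_kap : (kap N).IsOrdinal := by
  refine isOrdinal_sUnion fun y hy => ?_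
  obtain ⟨a, ha, rfl⟩ := mem_img.1 hy
  exact isOrdinal_chi hN (hN.trans _ (dl_mem hN) _ ha)

theorem isOrdinal_chp {b : Z} (hb : b ∈ N) : (chp N b).IsOrdinal := by
  by_cases h : b = ∅
  · rw [h, chp_empty]; exact isOrdinal_om
  · rw [chp_of_ne N h]; exact isOrdinal_chi hN hb

/-! rank computations -/

omit hN in
theorem rank_lt_succ_of_mem_limit {a x : Z} (ha : a.IsOrdinal)
    (hl : ∀ y ∈ a, (insert y y : Z) ∈ a) (h : rank x < rank a) : Order.succ (rank x) < rank a := by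
  have h1 : rk x ∈ a := (rk_mem_iff ha).2 h
  have h2 := rank_lt_of_mem (hl _ h1)
  rw [ZFSet.rank_insert, rk, Ordinal.rank_toZFSet] at h2
  exact (le_max_left _ _).trans_lt h2

omit hN in
theorem rank_pair_lt_lim {a x y : Z} (ha : a.IsOrdinal)
    (hl : ∀ y ∈ a, (insert y y : Z) ∈ a) (hx : rank x < rank a) (hy : rank y < rank a) :
    rank (pair x y) < rank a := by
  have h0 : ∀ o, o < rank a → Order.succ o < rank a := by
    intro o ho
    have : rank o.toZFSet < rank a := by rwa [Ordinal.rank_toZFSet]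
    have h1 := rank_lt_succ_of_mem_limit ha hl this
    rwa [Ordinal.rank_toZFSet] at h1
  rw [pair, ZFSet.rank_pair, ZFSet.rank_singleton, ZFSet.rank_pair]
  exact max_lt (h0 _ (h0 _ hx)) (h0 _ (max_lt (h0 _ hx) (h0 _ hy)))

/-- closure properties of `V_a` for a limit ordinal `a` -/
theorem VM_pair {a : Z} (ha : a.IsOrdinal) (haN : a ∈ N)
    (hl : ∀ y ∈ a, (insert y y : Z) ∈ a) {x y : Z} (hx : x ∈ VM N a) (hy : y ∈ VM N a) :
    pair x y ∈ VM N a := by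
  rw [hN.mem_VM ha haN] at hx hy ⊢
  refine ⟨hN.pair_mem hx.1 hy.1, ?_⟩
  rw [rk_mem_iff ha] at hx hy ⊢
  exact rank_pair_lt_lim ha hl hx.2 hy.2

theorem VM_singleton {a : Z} (ha : a.IsOrdinal) (haN : a ∈ N)
    (hl : ∀ y ∈ a, (insert y y : Z) ∈ a) {x : Z} (hx : x ∈ VM N a) : ({x} : Z) ∈ VM N a := by
  rw [hN.mem_VM ha haN] at hx ⊢
  refine ⟨hN.singleton_mem hx.1, ?_⟩
  rw [rk_mem_iff ha] at hx ⊢
  rw [ZFSet.rank_singleton]
  exact rank_lt_succ_of_mem_limit ha hl hx.2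

theorem VM_ord {a : Z} (ha : a.IsOrdinal) (haN : a ∈ N) : a ⊆ VM N a := by
  intro x hx
  rw [hN.mem_VM ha haN]
  refine ⟨hN.trans _ haN _ hx, ?_⟩
  rw [rk_of_ord (ha.mem hx)]; exact hx

/-- power sets of the `V_a` cover their square -/
theorem cov_sq {a : Z} (ha : a.IsOrdinal) (haN : a ∈ N) (h0 : (∅ : Z) ∈ a)
    (hl : ∀ y ∈ a, (insert y y : Z) ∈ a) :
    Cov N (pw N (VM N a)) (ZFSet.prod (pw N (VM N a)) (pw N (VM N a))) := by
  have h1 : (∅ : Z) ∈ VM N a := VM_ord hN ha haN h0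
  exact Cov.pw_sq hN.toTM (hN.VM_mem haN) h1 (VM_singleton hN ha haN hl h1)
    fun x hx y hy => VM_pair hN ha haN hl hx hy

/-- properties of the Hartogs number of the power set of `V_a` -/
theorem hart_limit {a : Z} (ha : a.IsOrdinal) (haN : a ∈ N) (h0 : (∅ : Z) ∈ a)
    (hl : ∀ y ∈ a, (insert y y : Z) ∈ a) {x : Z} (hx : x ∈ hart N (pw N (VM N a))) :
    insert x x ∈ hart N (pw N (VM N a)) := by
  refine succ_mem_hart hN.toTM (hN.pw_mem (hN.VM_mem haN)) (cov_sq hN ha haN h0 hl) ?_ hx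
  have h1 : (∅ : Z) ∈ VM N a := VM_ord hN ha haN h0
  refine ⟨∅, mem_pw.2 ⟨hN.empty_mem, ZFSet.empty_subset _⟩, {∅}, mem_pw.2
    ⟨hN.singleton_mem hN.empty_mem, ?_⟩, ?_⟩
  · intro z hz
    rw [mem_singleton.1 hz]; exact h1
  · intro h
    have : (∅ : Z) ∈ ({∅} : Z) := mem_singleton.2 rfl
    rw [← h] at this
    exact notMem_empty _ this

theorem mem_hart_self {a : Z} (ha : a.IsOrdinal) (haN : a ∈ N) : a ∈ hart N (pw N (VM N a)) := by
  rw [mem_hart hN.toTM (hN.pw_mem (hN.VM_mem haN))]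
  exact ⟨haN, ha, (Cov.pw_self hN.toTM (hN.VM_mem haN)).mono (fun _ h => h)
    (VM_ord hN ha haN)⟩

omit hN in
theorem om_limit : ∀ y ∈ om, (insert y y : Z) ∈ om := fun _ h => succ_mem_om h

theorem om_mem_dl : om ∈ dl N := mem_hart_self hN isOrdinal_om hN.om_mem

theorem dl_limit : ∀ y ∈ dl N, (insert y y : Z) ∈ dl N := fun _ h =>
  hart_limit hN isOrdinal_om hN.om_mem empty_mem_om om_limit h

omit hN in
theorem dl_subset_FF (b : Z) : dl N ⊆ FF N b := fun _ hz => mem_FF.2 (Or.inl hz)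

theorem empty_mem_dl : (∅ : Z) ∈ dl N := (isOrdinal_dl hN).mem_trans empty_mem_om (om_mem_dl hN)

theorem empty_mem_FF (b : Z) : (∅ : Z) ∈ FF N b := dl_subset_FF b (empty_mem_dl hN)

/-- `F(b)` and `χ(b)` are limit ordinals -/
theorem limits : ∀ b ∈ N, (∀ y ∈ FF N b, (insert y y : Z) ∈ FF N b) ∧
    ∀ y ∈ chi N b, (insert y y : Z) ∈ chi N b := by
  intro b
  induction b using ZFSet.inductionOn with
  | _ b ih =>
    intro hb
    have h1 : ∀ y ∈ FF N b, (insert y y : Z) ∈ FF N b := by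
      intro y hy
      rw [mem_FF] at hy ⊢
      rcases hy with hy | ⟨a, ha, hy⟩
      · exact Or.inl (dl_limit hN y hy)
      · exact Or.inr ⟨a, ha, (ih a ha (hN.trans _ hb _ ha)).2 y hy⟩
    refine ⟨h1, fun y hy => ?_⟩
    rw [chi_eq] at hy ⊢
    exact hart_limit hN (isOrdinal_FF hN hb) (FF_mem hN hb) (empty_mem_FF hN b) h1 hy

theorem FF_limit {b : Z} (hb : b ∈ N) : ∀ y ∈ FF N b, (insert y y : Z) ∈ FF N b :=
  (limits hN b hb).1

theorem chi_limit {b : Z} (hb : b ∈ N) : ∀ y ∈ chi N b, (insert y y : Z) ∈ chi N b :=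
  (limits hN b hb).2

theorem YY_pair {b x y : Z} (hb : b ∈ N) (hx : x ∈ YY N b) (hy : y ∈ YY N b) :
    pair x y ∈ YY N b :=
  VM_pair hN (isOrdinal_FF hN hb) (FF_mem hN hb) (FF_limit hN hb) hx hy

theorem YY_singleton {b x : Z} (hb : b ∈ N) (hx : x ∈ YY N b) : ({x} : Z) ∈ YY N b :=
  VM_singleton hN (isOrdinal_FF hN hb) (FF_mem hN hb) (FF_limit hN hb) hx

theorem YY_trans {b : Z} (hb : b ∈ N) : (YY N b).IsTransitive :=
  hN.VM_trans (isOrdinal_FF hN hb) (FF_mem hN hb)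

theorem FF_subset_YY {b : Z} (hb : b ∈ N) : FF N b ⊆ YY N b :=
  VM_ord hN (isOrdinal_FF hN hb) (FF_mem hN hb)

theorem empty_mem_YY {b : Z} (hb : b ∈ N) : (∅ : Z) ∈ YY N b :=
  FF_subset_YY hN hb (empty_mem_FF hN b)

theorem XX_sq {b : Z} (hb : b ∈ N) : Cov N (XX N b) (ZFSet.prod (XX N b) (XX N b)) :=
  cov_sq hN (isOrdinal_FF hN hb) (FF_mem hN hb) (empty_mem_FF hN b) (FF_limit hN hb)

theorem FF_mem_chi {b : Z} (hb : b ∈ N) : FF N b ∈ chi N b := by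
  rw [chi_eq]; exact mem_hart_self hN (isOrdinal_FF hN hb) (FF_mem hN hb)

theorem dl_mem_chi {b : Z} (hb : b ∈ N) : dl N ∈ chi N b :=
  IsOrdinal.mem_of_subset_of_mem (isOrdinal_dl hN) (isOrdinal_chi hN hb) (dl_subset_FF b)
    (FF_mem_chi hN hb)

theorem om_mem_chi {b : Z} (hb : b ∈ N) : om ∈ chi N b :=
  (isOrdinal_chi hN hb).mem_trans (om_mem_dl hN) (dl_mem_chi hN hb)

omit hN in
theorem chi_subset_FF {a b : Z} (h : a ∈ b) : chi N a ⊆ FF N b :=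
  fun _ hz => mem_FF.2 (Or.inr ⟨a, h, hz⟩)

theorem chi_mem_chi {a b : Z} (hb : b ∈ N) (h : a ∈ b) : chi N a ∈ chi N b :=
  IsOrdinal.mem_of_subset_of_mem (isOrdinal_chi hN (hN.trans _ hb _ h)) (isOrdinal_chi hN hb)
    (chi_subset_FF h) (FF_mem_chi hN hb)

omit hN in
theorem FF_mono {a b : Z} (h : a ⊆ b) : FF N a ⊆ FF N b := by
  intro z hz
  rw [mem_FF] at hz ⊢
  exact hz.imp id fun ⟨c, hc, h1⟩ => ⟨c, h hc, h1⟩

theorem YY_mono {a b : Z} (ha : a ∈ N) (hb : b ∈ N) (h : a ⊆ b) : YY N a ⊆ YY N b := by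
  intro z hz
  rw [YY, hN.mem_VM (isOrdinal_FF hN ha) (FF_mem hN ha)] at hz
  rw [YY, hN.mem_VM (isOrdinal_FF hN hb) (FF_mem hN hb)]
  exact ⟨hz.1, FF_mono h hz.2⟩

theorem XX_mono {a b : Z} (ha : a ∈ N) (hb : b ∈ N) (h : a ⊆ b) : XX N a ⊆ XX N b := by
  intro z hz
  rw [XX, mem_pw] at hz ⊢
  exact ⟨hz.1, fun u hu => YY_mono hN ha hb h (hz.2 hu)⟩

theorem chi_mono {a b : Z} (ha : a ∈ N) (hb : b ∈ N) (h : a ⊆ b) : chi N a ⊆ chi N b := by
  rw [chi_eq, chi_eq]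
  exact hart_mono hN.toTM (XX_mem hN hb) (XX_mem hN ha)
    ((Cov.refl hN.toTM (XX_mem hN hb)).mono (fun _ h => h) (XX_mono hN ha hb h))

theorem om_subset_chp {b : Z} (hb : b ∈ N) : om ⊆ chp N b := by
  by_cases h : b = ∅
  · rw [h, chp_empty]
  · rw [chp_of_ne N h]; exact (isOrdinal_chi hN hb).subset_of_mem (om_mem_chi hN hb)

theorem empty_mem_chp {b : Z} (hb : b ∈ N) : (∅ : Z) ∈ chp N b :=
  om_subset_chp hN hb empty_mem_om

theorem chp_limit {b : Z} (hb : b ∈ N) : ∀ y ∈ chp N b, (insert y y : Z) ∈ chp N b := by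
  by_cases h : b = ∅
  · rw [h, chp_empty]; exact om_limit
  · rw [chp_of_ne N h]; exact chi_limit hN hb

theorem chp_subset_chi {b : Z} (hb : b ∈ N) : chp N b ⊆ chi N b := by
  by_cases h : b = ∅
  · rw [h, chp_empty]
    exact (isOrdinal_chi hN hN.empty_mem).subset_of_mem (om_mem_chi hN hN.empty_mem)
  · rw [chp_of_ne N h]

theorem chp_subset_YY {a b : Z} (hb : b ∈ N) (h : a ∈ b) : chp N a ⊆ YY N b := fun _ hz =>
  FF_subset_YY hN hb (chi_subset_FF h (chp_subset_chi hN (hN.trans _ hb _ h) hz))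

/-- elements of `χ(b)` -/
theorem mem_chi {a b : Z} (hb : b ∈ N) :
    a ∈ chi N b ↔ a ∈ N ∧ a.IsOrdinal ∧ Cov N (XX N b) a := by
  rw [chi_eq, mem_hart hN.toTM (XX_mem hN hb)]

theorem not_cov_chi {b : Z} (hb : b ∈ N) : ¬ Cov N (XX N b) (chi N b) := by
  rw [chi_eq]; exact not_cov_hart hN.toTM (XX_mem hN hb)

/-- regularity of `χ(b)` -/
theorem chi_sup {b : Z} (hb : b ∈ N) {I g : Z} (hI : I ∈ N) (hIX : Cov N (XX N b) I)
    (hg : g ∈ N) (h : ∀ i ∈ I, ap g i ∈ chi N b) : (⋃₀ (img (ap g) I) : Z) ∈ chi N b := by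
  rw [chi_eq] at h ⊢
  exact hN.hart_sup (XX_mem hN hb) (XX_sq hN hb) hI hIX hg h

/-- regularity of `δ` -/
theorem dl_sup {g : Z} (hg : g ∈ N) (h : ∀ i ∈ VM N om, ap g i ∈ dl N) :
    (⋃₀ (img (ap g) (VM N om)) : Z) ∈ dl N :=
  hN.hart_sup (hN.pw_mem (hN.VM_mem hN.om_mem))
    (cov_sq hN isOrdinal_om hN.om_mem empty_mem_om om_limit) (hN.VM_mem hN.om_mem)
    (Cov.pw_self hN.toTM (hN.VM_mem hN.om_mem)) hg h

/-! `κ` -/

omit hN in
theorem chi_subset_kap {b : Z} (hb : b ∈ dl N) : chi N b ⊆ kap N :=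
  fun _ hz => mem_kap.2 ⟨b, hb, hz⟩

theorem dl_N {b : Z} (hb : b ∈ dl N) : b ∈ N := hN.trans _ (dl_mem hN) _ hb

theorem dl_ord {b : Z} (hb : b ∈ dl N) : b.IsOrdinal := (isOrdinal_dl hN).mem hb

theorem chi_mem_kap {b : Z} (hb : b ∈ dl N) : chi N b ∈ kap N :=
  mem_kap.2 ⟨insert b b, dl_limit hN b hb,
    chi_mem_chi hN (dl_N hN (dl_limit hN b hb)) (mem_insert _ _)⟩

theorem YY_subset_V {b : Z} (hb : b ∈ dl N) : YY N b ⊆ VM N (kap N) := by
  intro z hz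
  rw [YY, hN.mem_VM (isOrdinal_FF hN (dl_N hN hb)) (FF_mem hN (dl_N hN hb))] at hz
  rw [hN.mem_VM (isOrdinal_kap hN) (kap_mem hN)]
  refine ⟨hz.1, (isOrdinal_kap hN).mem_trans hz.2 ?_⟩
  exact mem_kap.2 ⟨b, hb, FF_mem_chi hN (dl_N hN hb)⟩

end Facts

end Pool.Agent.Lib.Ctm
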