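import Pool.Agent.Lib.Ctm.Poset

/-!
# Overwriting an initial segment of a component
-/

namespace Pool.Agent.Lib.Ctm

open Pool.Agent.Lib.Forcing ZFSet

/-- the component `c` overwritten by `c0` on the domain of `c0` -/
noncomputable def ow (c0 c : Z) : Z :=
  c0 ∪ ZFSet.sep (fun u => ∃ m y, u = pair m y ∧ m ∉ dm c0) c

protected theorem T.ow {K : Set (Set Z)} [MK K] {s t : Set Z → (ℕ → Z) → Z} (hs : T K s)
    (ht : T K t) : T K (fun M v => Ctm.ow (s M v) (t M v)) := by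
  refine T.union hs (T.sep (R := fun M u v => ∃ m y, u = ZFSet.pair m y ∧ m ∉ Ctm.dm (s M v))
    ht ?_)
  exact D.expair (R := fun M m y v => m ∉ Ctm.dm (s M (tl v))) T.v0
    (D.mem T.v1 hs.tail.tail.tail.dm).neg

theorem pair_mem_ow {c0 c m y : Z} :
    pair m y ∈ ow c0 c ↔ pair m y ∈ c0 ∨ (pair m y ∈ c ∧ m ∉ dm c0) := by
  rw [ow, mem_union, mem_sep]
  refine or_congr Iff.rfl (and_congr_right fun _ => ?_)
  constructor
  · rintro ⟨m', y', h, h1⟩
    rw [(pair_inj.1 h).1]; exact h1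
  · intro h; exact ⟨m, y, rfl, h⟩

theorem mem_dm_ow {c0 c m : Z} : m ∈ dm (ow c0 c) ↔ m ∈ dm c0 ∨ m ∈ dm c := by
  rw [mem_dm, pair_mem_ow, mem_dm, mem_dm]
  by_cases h : pair m ∅ ∈ c0
  · simp [h]
  · simp only [h, false_or, not_false_eq_true, and_true]

/-- elements of a component are pairs -/
theorem IsC.exists_pair {l Y c u : Z} (h : IsC l Y c) (hu : u ∈ c) :
    ∃ m ∈ dm c, ∃ y ∈ Y, u = pair m y := mem_prod.1 (h.2 hu)

theorem IsC.ow {l Y c0 c : Z} (hl : l.IsOrdinal) (h0 : IsC l Y c0) (h : IsC l Y c) :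
    IsC l Y (ow c0 c) := by
  have e : dm (Ctm.ow c0 c) = dm c0 ∪ dm c := by
    ext z; rw [mem_dm_ow, mem_union]
  refine ⟨?_, ?_⟩
  · rw [e]
    rcases IsOrdinal.subset_total (hl.mem h0.1) (hl.mem h.1) with h1 | h1
    · have : dm c0 ∪ dm c = dm c := by
        ext z; rw [mem_union]; exact ⟨fun h => h.elim (fun h => h1 h) id, Or.inr⟩
      rw [this]; exact h.1
    · have : dm c0 ∪ dm c = dm c0 := by
        ext z; rw [mem_union]; exact ⟨fun h => h.elim id (fun h => h1 h), Or.inl⟩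
      rw [this]; exact h0.1
  · intro u hu
    rw [Ctm.ow, mem_union, mem_sep] at hu
    rcases hu with hu | ⟨hu, _⟩
    · obtain ⟨m, hm, y, hy, rfl⟩ := h0.exists_pair hu
      exact pair_mem_prod.2 ⟨by rw [e, mem_union]; exact Or.inl hm, hy⟩
    · obtain ⟨m, hm, y, hy, rfl⟩ := h.exists_pair hu
      exact pair_mem_prod.2 ⟨by rw [e, mem_union]; exact Or.inr hm, hy⟩

theorem Ex.ow_left {l Y c0 : Z} (_h0 : IsC l Y c0) (c : Z) : Ex (ow c0 c) c0 := by
  refine ⟨fun u hu => by rw [ow, mem_union]; exact Or.inl hu, fun m hm y hy => ?_⟩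
  rcases pair_mem_ow.1 hy with h | ⟨_, h⟩
  · exact h
  · exact absurd hm h

theorem Ex.ow_mono {l Y c0 c c' : Z} (_h0 : IsC l Y c0) (_h : IsC l Y c) (_h' : IsC l Y c')
    (hex : Ex c' c) : Ex (ow c0 c') (ow c0 c) := by
  constructor
  · intro u hu
    rw [ow, mem_union, mem_sep] at hu ⊢
    exact hu.imp id fun h => ⟨hex.1 h.1, h.2⟩
  · intro m hm y hy
    rw [pair_mem_ow] at hy ⊢
    rcases hy with h | ⟨h, h1⟩
    · exact Or.inl h
    · refine Or.inr ⟨?_, h1⟩
      rcases mem_dm_ow.1 hm with h2 | h2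
      · exact absurd h2 h1
      · exact hex.2 m h2 y h

/-- lifting: an extension `r` of `ow c0 c` is `ow c0 (ow c r)` -/
theorem ow_lift {l Y c0 c r : Z} (_hl : l.IsOrdinal) (h0 : IsC l Y c0) (h : IsC l Y c)
    (hr : IsC l Y r) (hex : Ex r (ow c0 c)) : ow c0 (ow c r) = r := by
  ext u
  constructor
  · intro hu
    rw [ow, mem_union, mem_sep] at hu
    rcases hu with hu | ⟨hu, m, y, rfl, hm⟩
    · exact hex.1 (by rw [ow, mem_union]; exact Or.inl hu)
    · rcases pair_mem_ow.1 hu with h1 | ⟨h1, _⟩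
      · exact hex.1 (pair_mem_ow.2 (Or.inr ⟨h1, hm⟩))
      · exact h1
  · intro hu
    obtain ⟨m, hm, y, hy, rfl⟩ := hr.exists_pair hu
    rw [pair_mem_ow, pair_mem_ow]
    by_cases h1 : m ∈ dm c0
    · left
      rcases pair_mem_ow.1 (hex.2 m (mem_dm_ow.2 (Or.inl h1)) y hu) with h2 | ⟨_, h2⟩
      · exact h2
      · exact absurd h1 h2
    · right
      refine ⟨?_, h1⟩
      by_cases h2 : m ∈ dm c
      · left
        rcases pair_mem_ow.1 (hex.2 m (mem_dm_ow.2 (Or.inr h2)) y hu) with h3 | ⟨h3, _⟩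
        · obtain ⟨m', hm', y', _, e⟩ := h0.exists_pair h3
          exact absurd (by rw [(pair_inj.1 e).1]; exact hm') h1
        · exact h3
      · exact Or.inr ⟨hu, h2⟩

end Pool.Agent.Lib.Ctm
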