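import Pool.Agent.Lib.Ctm.Rec

/-!
# Ordinals, ranks, the cumulative hierarchy of a transitive model, Collection
-/

namespace Pool.Agent.Lib.Ctm

open Pool.Agent.Lib.Forcing ZFSet

variable {K : Set (Set Z)} [MK K]

protected theorem D.isOrdinal {s : Set Z → (ℕ → Z) → Z} (hs : T K s) :
    D K (fun M v => (s M v).IsOrdinal) := by
  refine ((D.isTransitive hs).and (D.ball (R := fun _ y _ => y.IsTransitive) hs
    (D.isTransitive T.v0))).congr fun M _ v _ => ?_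
  exact isOrdinal_iff_forall_mem_isTransitive

/-- least element for membership -/
theorem exists_min (p : Z → Prop) {x : Z} (h : p x) : ∃ m, p m ∧ ∀ y ∈ m, ¬ p y := by
  induction x using ZFSet.inductionOn with
  | _ x ih =>
    by_cases hy : ∃ y ∈ x, p y
    · obtain ⟨y, hy, h1⟩ := hy; exact ih y hy h1
    · push Not at hy; exact ⟨x, h, hy⟩

/-! ## rank -/

/-- the rank, as a set -/
noncomputable def rk (x : Z) : Z := (rank x).toZFSet

theorem isOrdinal_rk (x : Z) : (rk x).IsOrdinal := isOrdinal_toZFSet _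

theorem rk_of_ord {x : Z} (h : x.IsOrdinal) : rk x = x := h.toZFSet_rank_eq

theorem rk_mem_rk {x y : Z} : rk x ∈ rk y ↔ rank x < rank y := Ordinal.toZFSet_mem_toZFSet_iff

theorem rk_subset_rk {x y : Z} : rk x ⊆ rk y ↔ rank x ≤ rank y :=
  Ordinal.toZFSet_subset_toZFSet_iff

theorem rk_mem_iff {x a : Z} (h : a.IsOrdinal) : rk x ∈ a ↔ rank x < rank a := by
  rw [← rk_mem_rk, rk_of_ord h]

theorem rk_subset_iff {x a : Z} (h : a.IsOrdinal) : rk x ⊆ a ↔ rank x ≤ rank a := by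
  rw [← rk_subset_rk, rk_of_ord h]

theorem rk_eq (x : Z) : rk x = ⋃₀ (img (fun y => insert (rk y) (rk y)) x) := by
  ext z
  rw [mem_sUnion]
  constructor
  · intro h
    obtain ⟨a, ha, rfl⟩ := Ordinal.mem_toZFSet_iff.1 h
    obtain ⟨y, hy, hay⟩ := lt_rank_iff.1 ha
    refine ⟨_, mem_img.2 ⟨y, hy, rfl⟩, ?_⟩
    rw [mem_insert_iff]
    rcases hay.eq_or_lt with rfl | h1
    · exact Or.inl rfl
    · exact Or.inr (Ordinal.toZFSet_mem_toZFSet_iff.2 h1)
  · rintro ⟨w, hw, hz⟩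
    obtain ⟨y, hy, rfl⟩ := mem_img.1 hw
    rw [mem_insert_iff] at hz
    have h1 : rk y ∈ rk x := rk_mem_rk.2 (rank_lt_of_mem hy)
    rcases hz with rfl | hz
    · exact h1
    · exact (isOrdinal_rk x).mem_trans hz h1

theorem rk_rec (x : Z) :
    rk x = recF (fun x f => ⋃₀ (img (fun y => insert (ap f y) (ap f y)) x)) x := by
  have key : ∀ o : Ordinal, ∀ x : Z, rank x = o →
      rk x = recF (fun x f => ⋃₀ (img (fun y => insert (ap f y) (ap f y)) x)) x := by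
    intro o
    induction o using WellFoundedLT.induction with
    | _ o ih =>
      intro x hx
      rw [recF_eq, rk_eq]
      congr 1
      ext z
      rw [mem_img, mem_img]
      refine exists_congr fun y => and_congr_right fun hy => ?_
      rw [ap_gr (mem_tc_of_mem hy), ← ih (rank y) (hx ▸ rank_lt_of_mem hy) y rfl]
  exact key _ x rfl

protected theorem T.rk {s : Set Z → (ℕ → Z) → Z} (hs : T K s) : T K (fun M v => Ctm.rk (s M v)) := by
  have h : T K (fun M v => recF (fun x f => ⋃₀ (Ctm.img (fun y =>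
      insert (Ctm.ap f y) (Ctm.ap f y)) x)) (s M v)) := by
    refine T.recur (G := fun _ x f _ => ⋃₀ (Ctm.img (fun y =>
      insert (Ctm.ap f y) (Ctm.ap f y)) x)) ?_ hs
    refine T.sUnion (T.img (f := fun _ y v => insert (Ctm.ap (v 1) y) (Ctm.ap (v 1) y)) T.v0 ?_)
    exact T.insert (T.ap T.v2 T.v0) (T.ap T.v2 T.v0)
  exact h.congr fun M _ v _ => rk_rec _

protected theorem TM.sing {M : Set Z} (hM : TM M) : MK ({M} : Set (Set Z)) := ⟨by rintro _ rfl; exact hM⟩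

protected theorem TM.rk_mem {M : Set Z} (hM : TM M) {x : Z} (hx : x ∈ M) : rk x ∈ M := by
  have := hM.sing
  exact (T.rk (K := {M}) T.v0).mem M rfl (fun _ => x) (fun _ => hx)

protected theorem TM.tc_mem {M : Set Z} (hM : TM M) {x : Z} (hx : x ∈ M) : tc x ∈ M := by
  have := hM.sing
  exact Ctm.tc_mem (K := {M}) rfl hx

theorem isOrdinal_empty' : (∅ : Z).IsOrdinal := isOrdinal_empty

/-- ordinals of rank at most the rank of an element of `M` are in `M` -/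
protected theorem TM.ord_mem {M : Set Z} (hM : TM M) {a x : Z} (ha : a.IsOrdinal) (hx : x ∈ M)
    (h : rank a ≤ rank x) : a ∈ M := by
  have h1 := hM.rk_mem hx
  rcases h.eq_or_lt with h | h
  · rw [← rk_of_ord ha, rk, h]; exact h1
  · refine hM.trans _ h1 _ ?_
    rw [← rk_of_ord ha]; exact rk_mem_rk.2 h

/-! ## the ordinal `ω` -/

/-- the set of natural numbers -/
noncomputable def om : Z := Ordinal.omega0.toZFSet

theorem isOrdinal_om : om.IsOrdinal := isOrdinal_toZFSet _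

theorem mem_om {x : Z} : x ∈ om ↔ ∃ n : ℕ, x = (n : Ordinal).toZFSet := by
  rw [om, Ordinal.mem_toZFSet_iff]
  constructor
  · rintro ⟨a, ha, rfl⟩
    obtain ⟨n, rfl⟩ := Ordinal.lt_omega0.1 ha
    exact ⟨n, rfl⟩
  · rintro ⟨n, rfl⟩; exact ⟨n, Ordinal.natCast_lt_omega0 n, rfl⟩

theorem empty_mem_om : (∅ : Z) ∈ om := mem_om.2 ⟨0, by simp⟩

theorem succ_mem_om {x : Z} (h : x ∈ om) : insert x x ∈ om := by
  obtain ⟨n, rfl⟩ := mem_om.1 h
  refine mem_om.2 ⟨n + 1, ?_⟩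
  rw [Nat.cast_add, Nat.cast_one, Ordinal.toZFSet_add_one]

theorem om_induction {p : Z → Prop} (h0 : p ∅) (hs : ∀ x ∈ om, p x → p (insert x x)) :
    ∀ x ∈ om, p x := by
  intro x hx
  obtain ⟨n, rfl⟩ := mem_om.1 hx
  clear hx
  induction n with
  | zero => simpa using h0
  | succ n ih =>
    have := hs _ (mem_om.2 ⟨n, rfl⟩) ih
    rwa [Nat.cast_add, Nat.cast_one, Ordinal.toZFSet_add_one]

protected theorem TM.om_mem {M : Set Z} (hM : TM M) : om ∈ M := by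
  obtain ⟨x, ⟨e, he, hex⟩, hs⟩ := hM.zf.infinity
  have h0 : (∅ : Z) ∈ x.1 := by
    have : e.1 = ∅ := by
      rw [ZFSet.eq_empty]
      intro y hy
      exact he ⟨y, hM.trans e.1 e.2 y hy⟩ hy
    rw [← this]; exact hex
  have h1 : ∀ y ∈ x.1, (insert y y : Z) ∈ x.1 := by
    intro y hy
    obtain ⟨z, hz, h2⟩ := hs ⟨y, hM.trans x.1 x.2 y hy⟩ hy
    have : (insert y y : Z) = z.1 := by
      ext w
      rw [mem_insert_iff]
      constructor
      · rintro (rfl | h)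
        · exact (h2 ⟨w, hM.trans x.1 x.2 w hy⟩).2 (Or.inr rfl)
        · exact (h2 ⟨w, hM.trans _ (hM.trans x.1 x.2 y hy) w h⟩).2 (Or.inl h)
      · intro h
        rcases (h2 ⟨w, hM.trans _ z.2 w h⟩).1 h with h | h
        · exact Or.inr h
        · exact Or.inl (congrArg Subtype.val h)
    rw [this]; exact hz
  have h2 : ∀ y ∈ om, y ∈ x.1 := om_induction h0 fun y _ => h1 y
  refine hM.ord_mem isOrdinal_om x.2 (rank_mono h2)

protected theorem T.om : T K (fun _ _ => Ctm.om) := T.const fun M hM => (MK.tm M hM).om_mem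

protected theorem T.succ {s : Set Z → (ℕ → Z) → Z} (hs : T K s) :
    T K (fun M v => (insert (s M v) (s M v) : Z)) := T.insert hs hs

/-! ## the cumulative hierarchy -/

/-- `V_a` in the sense of `M` -/
noncomputable def VM (M : Set Z) (a : Z) : Z :=
  recF (fun x f => ⋃₀ (img (fun y => pw M (ap f y)) x)) a

protected theorem T.VM {s : Set Z → (ℕ → Z) → Z} (hs : T K s) : T K (fun M v => Ctm.VM M (s M v)) := by
  refine T.recur (G := fun M x f _ => ⋃₀ (Ctm.img (fun y => Ctm.pw M (Ctm.ap f y)) x)) ?_ hs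
  exact T.sUnion (T.img (f := fun M y v => Ctm.pw M (Ctm.ap (v 1) y)) T.v0
    (T.pw (T.ap T.v2 T.v0)))

protected theorem TM.VM_mem {M : Set Z} (hM : TM M) {a : Z} (ha : a ∈ M) : VM M a ∈ M := by
  have := hM.sing
  exact (T.VM (K := {M}) T.v0).mem M rfl (fun _ => a) (fun _ => ha)

protected theorem TM.mem_VM {M : Set Z} (hM : TM M) {a : Z} (ho : a.IsOrdinal) (ha : a ∈ M) {z : Z} :
    z ∈ VM M a ↔ z ∈ M ∧ rk z ∈ a := by
  induction a using ZFSet.inductionOn generalizing z with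
  | _ a ih =>
    rw [VM, recF_eq, mem_sUnion]
    have e : ∀ y ∈ a, ap (gr (recF (fun x f => ⋃₀ (img (fun y => pw M (ap f y)) x))) (tc a)) y =
        VM M y := fun y hy => ap_gr (mem_tc_of_mem hy)
    constructor
    · rintro ⟨w, hw, hz⟩
      obtain ⟨y, hy, rfl⟩ := mem_img.1 hw
      rw [e y hy, mem_pw] at hz
      refine ⟨hz.1, ?_⟩
      have h1 : rk z ⊆ y := by
        rw [rk_subset_iff (ho.mem hy), rank_le_iff]
        intro u hu
        exact (rk_mem_iff (ho.mem hy)).1 ((ih y hy (ho.mem hy) (hM.trans _ ha _ hy)).1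
          (hz.2 hu)).2
      exact IsOrdinal.mem_of_subset_of_mem (isOrdinal_rk z) ho h1 hy
    · rintro ⟨hz, h⟩
      refine ⟨_, mem_img.2 ⟨rk z, h, rfl⟩, ?_⟩
      rw [e _ h, mem_pw]
      refine ⟨hz, fun u hu => ?_⟩
      exact (ih _ h (ho.mem h) (hM.trans _ ha _ h)).2
        ⟨hM.trans _ hz _ hu, rk_mem_rk.2 (rank_lt_of_mem hu)⟩

protected theorem TM.VM_trans {M : Set Z} (hM : TM M) {a : Z} (ho : a.IsOrdinal) (ha : a ∈ M) :
    (VM M a).IsTransitive := by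
  intro y hy z hz
  rw [hM.mem_VM ho ha] at hy ⊢
  exact ⟨hM.trans _ hy.1 _ hz, ho.mem_trans (rk_mem_rk.2 (rank_lt_of_mem hz)) hy.2⟩

/-! ## Collection -/

protected theorem D.coll {R : Set Z → Z → Z → (ℕ → Z) → Prop}
    (h : D K (fun M v => R M (v 0) (v 1) (tl (tl v)))) {M : Set Z} (hM : M ∈ K)
    {v : ℕ → Z} (hv : In M v) {x : Z} (hx : x ∈ M) (hf : ∀ y ∈ x, ∃ z ∈ M, R M y z v) :
    ∃ b ∈ M, b.IsOrdinal ∧ ∀ y ∈ x, ∃ z ∈ VM M b, R M y z v := by
  have tm := MK.tm M hM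
  have hD1 : D K (fun M v => ∃ z ∈ Ctm.VM M (v 1), R M (v 0) z (tl (tl v))) := by
    refine D.bex (R := fun M z v => R M (v 0) z (tl (tl v))) T.v1.VM ?_
    exact h.ren (fun i => if i = 0 then 1 else if i = 1 then 0 else i + 1)
  have hD : D K (fun M v => (v 1).IsOrdinal ∧ (∃ z ∈ Ctm.VM M (v 1), R M (v 0) z (tl (tl v))) ∧
      ∀ b ∈ v 1, ¬ ∃ z ∈ Ctm.VM M b, R M (v 0) z (tl (tl v))) := by
    refine (D.isOrdinal T.v1).and (hD1.and ?_)
    refine D.ball (R := fun M b v => ¬ ∃ z ∈ Ctm.VM M b, R M (v 0) z (tl (tl v))) T.v1 ?_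
    exact (hD1.ren (fun i => if i = 0 then 1 else if i = 1 then 0 else i + 1)).neg
  obtain ⟨w, hw, h1⟩ := D.repl (R := fun M y a v => a.IsOrdinal ∧
    (∃ z ∈ Ctm.VM M a, R M y z v) ∧ ∀ b ∈ a, ¬ ∃ z ∈ Ctm.VM M b, R M y z v) hD hM hv hx (by
      intro y hy
      obtain ⟨z, hz, hR⟩ := hf y hy
      have h2 : (insert (rk z) (rk z) : Z).IsOrdinal := isOrdinal_succ (isOrdinal_rk z)
      have h3 : (insert (rk z) (rk z) : Z) ∈ M := tm.insert_mem (tm.rk_mem hz) (tm.rk_mem hz)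
      have h4 : z ∈ VM M (insert (rk z) (rk z) : Z) :=
        (tm.mem_VM h2 h3).2 ⟨hz, mem_insert _ _⟩
      obtain ⟨a, ⟨ha1, ha2, ha3⟩, ha4⟩ := exists_min (fun a => a ∈ M ∧ a.IsOrdinal ∧
        ∃ z ∈ VM M a, R M y z v) ⟨h3, h2, z, h4, hR⟩
      refine ⟨a, ⟨ha1, ha2, ha3, fun b hb hz => ha4 b hb
        ⟨tm.trans _ ha1 _ hb, ha2.mem hb, hz⟩⟩, ?_⟩
      rintro a' ⟨hb1, hb2, hb3, hb4⟩
      rcases IsOrdinal.mem_trichotomous hb2 ha2 with h | h | h
      · exact absurd ⟨hb1, hb2, hb3⟩ (ha4 _ h)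
      · exact h
      · exact absurd ha3 (hb4 _ h))
  refine ⟨⋃₀ w, tm.sUnion_mem hw, ?_, ?_⟩
  · rw [isOrdinal_iff_forall_mem_isOrdinal]
    constructor
    · refine IsTransitive.sUnion' fun a ha => ?_
      obtain ⟨y, _, _, h2, _⟩ := (h1 a).1 ha
      exact h2.isTransitive
    · intro b hb
      obtain ⟨a, ha, hba⟩ := mem_sUnion.1 hb
      obtain ⟨y, _, _, h2, _⟩ := (h1 a).1 ha
      exact h2.mem hba
  · intro y hy
    have ho : (⋃₀ w : Z).IsOrdinal := by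
      rw [isOrdinal_iff_forall_mem_isOrdinal]
      constructor
      · refine IsTransitive.sUnion' fun a ha => ?_
        obtain ⟨y, _, _, h2, _⟩ := (h1 a).1 ha
        exact h2.isTransitive
      · intro b hb
        obtain ⟨a, ha, hba⟩ := mem_sUnion.1 hb
        obtain ⟨y, _, _, h2, _⟩ := (h1 a).1 ha
        exact h2.mem hba
    obtain ⟨z, hz, hR⟩ := hf y hy
    have h2 : (insert (rk z) (rk z) : Z).IsOrdinal := isOrdinal_succ (isOrdinal_rk z)
    have h3 : (insert (rk z) (rk z) : Z) ∈ M := tm.insert_mem (tm.rk_mem hz) (tm.rk_mem hz)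
    have h4 : z ∈ VM M (insert (rk z) (rk z) : Z) :=
      (tm.mem_VM h2 h3).2 ⟨hz, mem_insert _ _⟩
    obtain ⟨a, ⟨ha1, ha2, ha3⟩, ha4⟩ := exists_min (fun a => a ∈ M ∧ a.IsOrdinal ∧
      ∃ z ∈ VM M a, R M y z v) ⟨h3, h2, z, h4, hR⟩
    obtain ⟨z', hz', hR'⟩ := ha3
    refine ⟨z', ?_, hR'⟩
    rw [tm.mem_VM ho (tm.sUnion_mem hw)]
    rw [tm.mem_VM ha2 ha1] at hz'
    refine ⟨hz'.1, mem_sUnion.2 ⟨a, (h1 a).2 ⟨y, hy, ha1, ha2, ⟨z', ?_, hR'⟩, fun b hb hz =>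
      ha4 b hb ⟨tm.trans _ ha1 _ hb, ha2.mem hb, hz⟩⟩, hz'.2⟩⟩
    exact (tm.mem_VM ha2 ha1).2 hz'

end Pool.Agent.Lib.Ctm
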