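import Pool.Agent.Lib.Ctm.Levels
import Pool.Agent.Lib.Ctm.Force

/-!
# The poset
-/

namespace Pool.Agent.Lib.Ctm

open Pool.Agent.Lib.Forcing ZFSet

/-! ## definition by cases -/

open Classical in
protected theorem T.ite {K : Set (Set Z)} [MK K] {R : Set Z → (ℕ → Z) → Prop}
    {s t : Set Z → (ℕ → Z) → Z} (hR : D K R) (hs : T K s) (ht : T K t) :
    T K (fun M v => if R M v then s M v else t M v) := by
  refine ⟨fun M hM v hv => ?_, ?_⟩
  · split
    · exact hs.mem M hM v hv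
    · exact ht.mem M hM v hv
  · refine ((hR.tail.and (D.eq T.v0 hs.tail)).or (hR.tail.neg.and (D.eq T.v0 ht.tail))).congr ?_
    intro M hM v hv
    by_cases h : R M (tl v)
    · simp [h]
    · simp [h]

/-! ## components -/

/-- the component of `f` at the index `i` -/
noncomputable def comp (f i : Z) : Z := ZFSet.sep (fun z => pair i z ∈ f) (⋃₀ (⋃₀ f : Z))

@[simp] theorem mem_comp {f i z : Z} : z ∈ comp f i ↔ pair i z ∈ f := by
  rw [comp, mem_sep]
  exact ⟨fun h => h.2, fun h => ⟨mem_sUnion2_of_pair h, h⟩⟩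

/-- the domain of a component -/
noncomputable def dm (c : Z) : Z := ZFSet.sep (fun m => pair m ∅ ∈ c) (⋃₀ (⋃₀ c : Z))

@[simp] theorem mem_dm {c m : Z} : m ∈ dm c ↔ pair m ∅ ∈ c := by
  rw [dm, mem_sep]
  exact ⟨fun h => h.2, fun h => ⟨mem_sUnion2_of_pair' h, h⟩⟩

/-- `c'` extends `c` -/
def Ex (c' c : Z) : Prop := c ⊆ c' ∧ ∀ m ∈ dm c, ∀ y, pair m y ∈ c' → pair m y ∈ c

theorem Ex.refl (c : Z) : Ex c c := ⟨fun _ h => h, fun _ _ _ h => h⟩

theorem dm_mono {c c' : Z} (h : c ⊆ c') : dm c ⊆ dm c' := fun _ hm =>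
  mem_dm.2 (h (mem_dm.1 hm))

theorem Ex.trans {c c' c'' : Z} (h : Ex c'' c') (h' : Ex c' c) : Ex c'' c :=
  ⟨fun _ hz => h.1 (h'.1 hz), fun m hm y hy => h'.2 m hm y (h.2 m (dm_mono h'.1 hm) y hy)⟩

theorem Ex.empty (c : Z) : Ex c ∅ :=
  ⟨ZFSet.empty_subset _, fun _ hm => absurd (mem_dm.1 hm) (notMem_empty _)⟩

/-- `c` is a condition for adding a function from `l` to the subsets of `Y` containing `∅` -/
def IsC (l Y c : Z) : Prop := dm c ∈ l ∧ c ⊆ ZFSet.prod (dm c) Y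

theorem dm_empty : dm ∅ = ∅ := by
  rw [ZFSet.eq_empty]; intro y hy
  exact notMem_empty _ (mem_dm.1 hy)

theorem IsC.empty {l Y : Z} (h : (∅ : Z) ∈ l) : IsC l Y ∅ :=
  ⟨by rw [dm_empty]; exact h, ZFSet.empty_subset _⟩

/-- index pairs -/
def Pr (N : Set Z) (a b : Z) : Prop := a ∈ b ∧ b ∈ dl N

/-- every nonempty subset of `s` in `N` has a greatest element -/
def FinS (N : Set Z) (s : Z) : Prop := ∀ t ∈ N, t ⊆ s → t ≠ ∅ → ∃ m ∈ t, ∀ x ∈ t, x ⊆ m

/-- end extension -/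
def EE (s' s : Z) : Prop := s ⊆ s' ∧ ∀ x ∈ s', x ∉ s → ∀ y ∈ s, y ∈ x

/-- relevant pairs -/
def Rel (s a b : Z) : Prop :=
  (a ∈ s ∧ b ∈ s ∧ ∀ x ∈ s, ¬ (a ∈ x ∧ x ∈ b)) ∨ ∀ x ∈ s, x ⊆ a

/-- first components of conditions -/
def IsS (N : Set Z) (s : Z) : Prop := s ∈ N ∧ s ⊆ dl N ∧ ∅ ∈ s ∧ FinS N s

/-- second components of conditions -/
def IsFp (N : Set Z) (f : Z) : Prop := f ∈ N ∧ f ⊆ VM N (kap N) ∧
  ∀ a b, Pr N a b → IsC (chp N a) (YY N b) (comp f (pair a b))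

/-- the order -/
def LeP (N : Set Z) (s' f' s f : Z) : Prop := EE s' s ∧
  ∀ a b, Pr N a b → Rel s' a b → Ex (comp f' (pair a b)) (comp f (pair a b))

/-- the set of conditions -/
noncomputable def PP (N : Set Z) : Z :=
  ZFSet.sep (fun p => ∃ s f, p = pair s f ∧ IsS N s ∧ IsFp N f)
    (ZFSet.prod (pw N (dl N)) (pw N (VM N (kap N))))

/-- the order relation -/
noncomputable def LL (N : Set Z) : Z :=
  ZFSet.sep (fun q => ∃ p' p, q = pair p' p ∧ ∃ s' f', p' = pair s' f' ∧ ∃ s f, p = pair s f ∧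
    LeP N s' f' s f) (ZFSet.prod (PP N) (PP N))

theorem mem_PP {N : Set Z} {s f : Z} : pair s f ∈ PP N ↔ IsS N s ∧ IsFp N f := by
  rw [PP, mem_sep, pair_mem_prod, mem_pw, mem_pw]
  constructor
  · rintro ⟨_, s', f', h, h1⟩
    obtain ⟨rfl, rfl⟩ := pair_inj.1 h
    exact h1
  · intro h
    exact ⟨⟨⟨h.1.1, h.1.2.1⟩, h.2.1, h.2.2.1⟩, s, f, rfl, h⟩

theorem exists_of_mem_PP {N : Set Z} {p : Z} (h : p ∈ PP N) :
    ∃ s f, p = pair s f ∧ IsS N s ∧ IsFp N f := (mem_sep.1 h).2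

theorem le_PP {N : Set Z} {s' f' s f : Z} : Le (PP N) (LL N) (pair s' f') (pair s f) ↔
    (IsS N s' ∧ IsFp N f') ∧ (IsS N s ∧ IsFp N f) ∧ LeP N s' f' s f := by
  rw [Le, mem_PP, mem_PP, LL, mem_sep, pair_mem_prod, mem_PP, mem_PP]
  constructor
  · rintro ⟨h1, h2, _, p', p, h, s1, f1, rfl, s2, f2, rfl, h3⟩
    obtain ⟨h4, h5⟩ := pair_inj.1 h
    obtain ⟨rfl, rfl⟩ := pair_inj.1 h4
    obtain ⟨rfl, rfl⟩ := pair_inj.1 h5
    exact ⟨h1, h2, h3⟩
  · rintro ⟨h1, h2, h3⟩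
    exact ⟨h1, h2, ⟨h1, h2⟩, _, _, rfl, _, _, rfl, _, _, rfl, h3⟩

/-! ## definability -/

section Def

variable {K : Set (Set Z)} [MK K] {s t u q : Set Z → (ℕ → Z) → Z}

protected theorem T.comp (hs : T K s) (ht : T K t) : T K (fun M v => Ctm.comp (s M v) (t M v)) :=
  T.sep (R := fun M z v => ZFSet.pair (t M v) z ∈ s M v) hs.sUnion.sUnion
    (D.mem (T.pair ht.tail T.v0) hs.tail)

protected theorem T.dm (hs : T K s) : T K (fun M v => Ctm.dm (s M v)) :=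
  T.sep (R := fun M z v => ZFSet.pair z ∅ ∈ s M v) hs.sUnion.sUnion
    (D.mem (T.pair T.v0 T.empty) hs.tail)

theorem D.isEx (hs : T K s) (ht : T K t) : D K (fun M v => Ex (s M v) (t M v)) := by
  refine (D.subset ht hs).and ?_
  refine D.ball (R := fun M m v => ∀ y, ZFSet.pair m y ∈ s M v → ZFSet.pair m y ∈ t M v)
    ht.dm ?_
  have h : D K (fun M v => ∀ m y, ZFSet.pair m y ∈ s M (tl v) → m = v 0 →
      ZFSet.pair m y ∈ t M (tl v)) :=
    D.allp (R := fun M m y v => m = v 0 → ZFSet.pair m y ∈ t M (tl v)) hs.tail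
      ((D.eq T.v0 T.v2).imp (D.mem (T.pair T.v0 T.v1) ht.tail.tail.tail))
  refine h.congr fun M _ v _ => ?_
  constructor
  · rintro h m y hm rfl; exact h y hm
  · intro h y hy; exact h _ y hy rfl

theorem D.isC (hs : T K s) (ht : T K t) (hu : T K u) :
    D K (fun M v => IsC (s M v) (t M v) (u M v)) :=
  (D.mem hu.dm hs).and (D.subset hu (T.prod hu.dm ht))

theorem D.ee (hs : T K s) (ht : T K t) : D K (fun M v => EE (s M v) (t M v)) := by
  refine (D.subset ht hs).and (D.ball (R := fun M x v => x ∉ t M v → ∀ y ∈ t M v, y ∈ x) hs ?_)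
  exact (D.mem T.v0 ht.tail).neg.imp (D.ball (R := fun M y v => y ∈ v 0) ht.tail
    (D.mem T.v0 T.v1))

theorem D.rel (hs : T K s) (ht : T K t) (hu : T K u) :
    D K (fun M v => Rel (s M v) (t M v) (u M v)) := by
  refine ((D.mem ht hs).and ((D.mem hu hs).and ?_)).or ?_
  · exact D.ball (R := fun M x v => ¬ (t M v ∈ x ∧ x ∈ u M v)) hs
      ((D.mem ht.tail T.v0).and (D.mem T.v0 hu.tail)).neg
  · exact D.ball (R := fun M x v => x ⊆ t M v) hs (D.subset T.v0 ht.tail)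

variable {N : Set Z} [MK ({N} : Set (Set Z))] {s t u q : Set Z → (ℕ → Z) → Z}

theorem D.pr (hs : T {N} s) (ht : T {N} t) : D {N} (fun M v => Pr N (s M v) (t M v)) :=
  (D.mem hs ht).and (D.mem ht T.dl)

theorem D.finS (hs : T {N} s) : D {N} (fun M v => FinS N (s M v)) := by
  refine (D.all (R := fun M t v => t ⊆ s M v → t ≠ ∅ → ∃ m ∈ t, ∀ x ∈ t, x ⊆ m) ?_).congr
    (by rintro _ rfl v _; rfl)
  refine (D.subset T.v0 hs.tail).imp ((D.eq T.v0 T.empty).neg.imp ?_)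
  exact D.bex (R := fun M m v => ∀ x ∈ v 0, x ⊆ m) T.v0
    (D.ball (R := fun M x v => x ⊆ v 0) T.v1 (D.subset T.v0 T.v1))

theorem D.isS (hs : T {N} s) : D {N} (fun M v => IsS N (s M v)) := by
  refine (D.and (D.subset hs T.dl) ((D.mem T.empty hs).and (D.finS hs))).congr ?_
  intro M hM v hv
  have : s M v ∈ N := by
    have h1 := Set.mem_singleton_iff.1 hM
    subst h1
    exact hs.mem M rfl v hv
  exact and_iff_right this

theorem D.isFp (hs : T {N} s) : D {N} (fun M v => IsFp N (s M v)) := by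
  have h : D {N} (fun M v => s M v ⊆ VM N (Ctm.kap N) ∧ ∀ b ∈ Ctm.dl N, ∀ a ∈ b,
      IsC (Ctm.chp N a) (Ctm.YY N b) (Ctm.comp (s M v) (ZFSet.pair a b))) := by
    refine (D.subset hs (T.VMN T.kap)).and ?_
    refine D.ball (R := fun M b v => ∀ a ∈ b, IsC (Ctm.chp N a) (Ctm.YY N b)
      (Ctm.comp (s M v) (ZFSet.pair a b))) T.dl ?_
    refine D.ball (R := fun M a v => IsC (Ctm.chp N a) (Ctm.YY N (v 0))
      (Ctm.comp (s M (tl v)) (ZFSet.pair a (v 0)))) T.v0 ?_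
    exact D.isC (T.chp T.v0) (T.YY T.v1) (T.comp hs.tail.tail (T.pair T.v0 T.v1))
  refine h.congr ?_
  intro M hM v hv
  have : s M v ∈ N := by
    have h1 := Set.mem_singleton_iff.1 hM
    subst h1
    exact hs.mem M rfl v hv
  constructor
  · rintro ⟨_, h1, h2⟩; exact ⟨h1, fun b hb a ha => h2 a b ⟨ha, hb⟩⟩
  · rintro ⟨h1, h2⟩; exact ⟨this, h1, fun a b hab => h2 b hab.2 a hab.1⟩

theorem D.leP (hs : T {N} s) (ht : T {N} t) (hu : T {N} u) (hq : T {N} q) :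
    D {N} (fun M v => LeP N (s M v) (t M v) (u M v) (q M v)) := by
  have h : D {N} (fun M v => EE (s M v) (u M v) ∧ ∀ b ∈ Ctm.dl N, ∀ a ∈ b,
      Rel (s M v) a b → Ex (Ctm.comp (t M v) (ZFSet.pair a b))
        (Ctm.comp (q M v) (ZFSet.pair a b))) := by
    refine (D.ee hs hu).and ?_
    refine D.ball (R := fun M b v => ∀ a ∈ b, Rel (s M v) a b →
      Ex (Ctm.comp (t M v) (ZFSet.pair a b)) (Ctm.comp (q M v) (ZFSet.pair a b))) T.dl ?_
    refine D.ball (R := fun M a v => Rel (s M (tl v)) a (v 0) →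
      Ex (Ctm.comp (t M (tl v)) (ZFSet.pair a (v 0)))
        (Ctm.comp (q M (tl v)) (ZFSet.pair a (v 0)))) T.v0 ?_
    exact (D.rel hs.tail.tail T.v0 T.v1).imp (D.isEx (T.comp ht.tail.tail (T.pair T.v0 T.v1))
      (T.comp hq.tail.tail (T.pair T.v0 T.v1)))
  refine h.congr ?_
  intro M hM v hv
  constructor
  · rintro ⟨h1, h2⟩; exact ⟨h1, fun b hb a ha => h2 a b ⟨ha, hb⟩⟩
  · rintro ⟨h1, h2⟩; exact ⟨h1, fun a b hab => h2 b hab.2 a hab.1⟩

/-- existential quantification over decompositions `t = (a, b)` -/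
theorem D.expair {K : Set (Set Z)} [MK K] {t : Set Z → (ℕ → Z) → Z}
    {R : Set Z → Z → Z → (ℕ → Z) → Prop} (ht : T K t)
    (h : D K (fun M v => R M (v 1) (v 0) (tl (tl v)))) :
    D K (fun M v => ∃ a b, t M v = ZFSet.pair a b ∧ R M a b v) := by
  have h1 : D K (fun M v => ∃ a ∈ M, ∃ b ∈ M, t M v = ZFSet.pair a b ∧ R M a b v) := by
    refine D.ex (R := fun M a v => ∃ b ∈ M, t M v = ZFSet.pair a b ∧ R M a b v) ?_
    refine D.ex (R := fun M b v => t M (tl v) = ZFSet.pair (v 0) b ∧ R M (v 0) b (tl v)) ?_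
    exact (D.eq ht.tail.tail (T.pair T.v1 T.v0)).and h
  refine h1.congr fun M hM v hv => ?_
  constructor
  · rintro ⟨a, b, h2, h3⟩
    have := (MK.tm M hM).of_pair_mem (h2 ▸ ht.mem M hM v hv)
    exact ⟨a, this.1, b, this.2, h2, h3⟩
  · rintro ⟨a, _, b, _, h2⟩; exact ⟨a, b, h2⟩

theorem T.PP : T {N} (fun _ _ => Ctm.PP N) := by
  refine T.sep (R := fun M p v => ∃ s f, p = ZFSet.pair s f ∧ IsS N s ∧ IsFp N f)
    (T.prod (T.pwN T.dl) (T.pwN (T.VMN T.kap))) ?_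
  exact D.expair (R := fun M s f v => IsS N s ∧ IsFp N f) T.v0 ((D.isS T.v1).and (D.isFp T.v0))

theorem T.LL : T {N} (fun _ _ => Ctm.LL N) := by
  refine T.sep (R := fun M q v => ∃ p' p, q = ZFSet.pair p' p ∧ ∃ s' f', p' = ZFSet.pair s' f' ∧
    ∃ s f, p = ZFSet.pair s f ∧ LeP N s' f' s f) (T.prod T.PP T.PP) ?_
  refine D.expair (R := fun M p' p v => ∃ s' f', p' = ZFSet.pair s' f' ∧
    ∃ s f, p = ZFSet.pair s f ∧ LeP N s' f' s f) T.v0 ?_
  refine D.expair (R := fun M s' f' v => ∃ s f, v 0 = ZFSet.pair s f ∧ LeP N s' f' s f) T.v1 ?_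
  refine D.expair (R := fun M s f v => LeP N (v 1) (v 0) s f) T.v2 ?_
  exact D.leP T.v3 T.v2 T.v1 T.v0

end Def

/-! ## building second components from families of components -/

/-- the second component with given components `c (a, b)` -/
noncomputable def mkf (N : Set Z) (c : Z → Z) : Z :=
  ZFSet.sep (fun u => ∃ i z, u = pair i z ∧ (∃ a b, i = pair a b ∧ Pr N a b) ∧ z ∈ c i)
    (VM N (kap N))

theorem T.mkf {N : Set Z} [MK ({N} : Set (Set Z))] {c : Set Z → Z → (ℕ → Z) → Z}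
    (hc : T {N} (fun M v => c M (v 0) (tl v))) :
    T {N} (fun M v => Ctm.mkf N (fun i => c M i v)) := by
  refine T.sep (R := fun M u v => ∃ i z, u = ZFSet.pair i z ∧
    (∃ a b, i = ZFSet.pair a b ∧ Pr N a b) ∧ z ∈ c M i v) (T.VMN T.kap) ?_
  refine D.expair (R := fun M i z v => (∃ a b, i = ZFSet.pair a b ∧ Pr N a b) ∧
    z ∈ c M i (tl v)) T.v0 ?_
  refine D.and (D.expair (R := fun M a b v => Pr N a b) T.v1 (D.pr T.v1 T.v0)) ?_
  have h : T {N} (fun M v => c M (v 1) (tl (tl (tl v)))) := by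
    have h1 : T {N} (fun M v => c M (v 0) (tl (tl (tl (tl v))))) := by
      refine ⟨fun M hM v hv => hc.mem M hM (cons (v 0) (tl (tl (tl (tl v)))))
        (hv.tail.tail.tail.tail.cons (hv 0)), ?_⟩
      exact hc.gr.ren (fun i => if i = 0 then 0 else if i = 1 then 1 else i + 3)
    exact T.subst (f := fun M x v => c M x (tl (tl (tl v)))) h1 T.v1
  exact D.mem T.v0 h

section Facts

variable {N : Set Z} (hN : TC N)

include hN

theorem Pr.left {a b : Z} (h : Pr N a b) : a ∈ dl N := (isOrdinal_dl hN).mem_trans h.1 h.2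

theorem IsC.sub {a b c : Z} (ha : a ∈ N) (h : IsC (chp N a) (YY N b) c) :
    c ⊆ ZFSet.prod (chp N a) (YY N b) := by
  intro z hz
  obtain ⟨m, hm, y, hy, rfl⟩ := mem_prod.1 (h.2 hz)
  exact pair_mem_prod.2 ⟨(isOrdinal_chp hN ha).mem_trans hm h.1, hy⟩

/-- coded elements of components are in `Y(b)` -/
theorem elem_mem_YY {a b z : Z} (h : Pr N a b) (hz : z ∈ ZFSet.prod (chp N a) (YY N b)) :
    pair (pair a b) z ∈ YY N b := by
  have hb := dl_N hN h.2
  obtain ⟨m, hm, y, hy, rfl⟩ := mem_prod.1 hz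
  have ha' : a ∈ YY N b := FF_subset_YY hN hb (dl_subset_FF b (h.left hN))
  have hb' : b ∈ YY N b := FF_subset_YY hN hb (dl_subset_FF b h.2)
  exact YY_pair hN hb (YY_pair hN hb ha' hb')
    (YY_pair hN hb (chp_subset_YY hN hb h.1 hm) hy)

theorem comp_mkf {c : Z → Z} {a b : Z} (h : Pr N a b)
    (hc : IsC (chp N a) (YY N b) (c (pair a b))) : comp (mkf N c) (pair a b) = c (pair a b) := by
  ext z
  rw [mem_comp, mkf, mem_sep]
  constructor
  · rintro ⟨_, i, z', h1, _, h3⟩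
    obtain ⟨rfl, rfl⟩ := pair_inj.1 h1
    exact h3
  · intro hz
    refine ⟨YY_subset_V hN h.2 (elem_mem_YY hN h (hc.sub hN (dl_N hN (h.left hN)) hz)), _, z, rfl,
      ⟨a, b, rfl, h⟩, hz⟩

theorem isFp_mkf {c : Z → Z} (hcN : mkf N c ∈ N)
    (hc : ∀ a b, Pr N a b → IsC (chp N a) (YY N b) (c (pair a b))) : IsFp N (mkf N c) :=
  ⟨hcN, ZFSet.sep_subset, fun a b h => by rw [comp_mkf hN h (hc a b h)]; exact hc a b h⟩

theorem PP_mem : PP N ∈ N := by
  have _i := hN.sing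
  exact (T.PP (N := N)).mem N rfl (fun _ => ∅) (fun _ => hN.empty_mem)

theorem LL_mem : LL N ∈ N := by
  have _i := hN.sing
  exact (T.LL (N := N)).mem N rfl (fun _ => ∅) (fun _ => hN.empty_mem)

omit hN in
theorem EE.refl (s : Z) : EE s s := ⟨fun _ h => h, fun _ h h' => absurd h h'⟩

omit hN in
theorem EE.trans {s s' s'' : Z} (h : EE s'' s') (h' : EE s' s) : EE s'' s := by
  refine ⟨fun _ hx => h.1 (h'.1 hx), fun x hx hxs y hy => ?_⟩
  by_cases hx' : x ∈ s'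
  · exact h'.2 x hx' hxs y hy
  · exact h.2 x hx hx' y (h'.1 hy)

/-- relevant pairs of an end extension are relevant -/
theorem Rel.mono {s s' a b : Z} (hs' : IsS N s') (hab : Pr N a b) (h : EE s' s)
    (hr : Rel s' a b) : Rel s a b := by
  rcases hr with ⟨ha, hb, hc⟩ | hr
  · by_cases hbs : b ∈ s
    · by_cases has : a ∈ s
      · exact Or.inl ⟨has, hbs, fun x hx => hc x (h.1 hx)⟩
      · exact absurd hab.1 (ZFSet.mem_asymm (h.2 a ha has b hbs))
    · refine Or.inr fun x hx => ?_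
      have h1 := h.2 b hb hbs x hx
      rcases IsOrdinal.mem_or_subset (dl_ord hN (hab.left hN)) (dl_ord hN (hs'.2.1 (h.1 hx))) with
        h2 | h2
      · exact absurd ⟨h2, h1⟩ (hc x (h.1 hx))
      · exact h2
  · exact Or.inr fun x hx => hr x (h.1 hx)

omit hN in
theorem LeP.refl (s f : Z) : LeP N s f s f := ⟨EE.refl s, fun _ _ _ _ => Ex.refl _⟩

theorem LeP.trans {s f s' f' s'' f'' : Z} (hs : IsS N s'') (h : LeP N s'' f'' s' f')
    (h' : LeP N s' f' s f) : LeP N s'' f'' s f :=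
  ⟨EE.trans h.1 h'.1, fun a b hab hr => (h.2 a b hab hr).trans
    (h'.2 a b hab (Rel.mono hN hs hab h.1 hr))⟩

omit hN in
theorem finS_insert {s b : Z} (h : FinS N s) (hb : ∀ x ∈ s, x ⊆ b) :
    FinS N (insert b s) := by
  intro t ht hts hne
  by_cases hbt : b ∈ t
  · refine ⟨b, hbt, fun x hx => ?_⟩
    rcases mem_insert_iff.1 (hts hx) with rfl | hx
    · exact fun _ h => h
    · exact hb x hx
  · refine h t ht (fun x hx => ?_) hne
    rcases mem_insert_iff.1 (hts hx) with rfl | hx'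
    · exact absurd hx hbt
    · exact hx'

theorem isS_top : IsS N {∅} := by
  refine ⟨hN.singleton_mem hN.empty_mem, ?_, mem_singleton.2 rfl, ?_⟩
  · intro x hx
    rw [mem_singleton.1 hx]; exact empty_mem_dl hN
  · intro t ht hts hne
    obtain ⟨x, hx⟩ : t.Nonempty := by
      rcases ZFSet.eq_empty_or_nonempty t with h | h
      · exact absurd h hne
      · exact h
    refine ⟨x, hx, fun y hy => ?_⟩
    rw [mem_singleton.1 (hts hy)]; exact ZFSet.empty_subset _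

theorem isS_insert {s b : Z} (h : IsS N s) (hb : b ∈ dl N) (hbs : ∀ x ∈ s, x ⊆ b) :
    IsS N (insert b s) := by
  refine ⟨hN.insert_mem (dl_N hN hb) h.1, ?_, mem_insert_of_mem _ h.2.2.1,
    finS_insert h.2.2.2 hbs⟩
  intro x hx
  rcases mem_insert_iff.1 hx with rfl | hx
  · exact hb
  · exact h.2.1 hx

theorem isFp_empty : IsFp N ∅ := by
  refine ⟨hN.empty_mem, ZFSet.empty_subset _, fun a b h => ?_⟩
  have : comp ∅ (pair a b) = ∅ := by
    rw [ZFSet.eq_empty]; intro y hy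
    exact notMem_empty _ (mem_comp.1 hy)
  rw [this]
  exact IsC.empty (empty_mem_chp hN (dl_N hN (h.left hN)))

omit hN in
theorem comp_empty (i : Z) : comp ∅ i = ∅ := by
  rw [ZFSet.eq_empty]; intro y hy
  exact notMem_empty _ (mem_comp.1 hy)

/-- the greatest condition -/
noncomputable def topc : Z := pair {∅} ∅

theorem PO_PP : PO N (PP N) (LL N) topc := by
  refine ⟨PP_mem hN, LL_mem hN, mem_PP.2 ⟨isS_top hN, isFp_empty hN⟩, ?_, ?_, ?_⟩
  · intro p hp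
    obtain ⟨s, f, rfl, h1, h2⟩ := exists_of_mem_PP hp
    exact (le_PP.2 ⟨⟨h1, h2⟩, ⟨h1, h2⟩, LeP.refl s f⟩).2.2
  · intro p hp q hq r hr h1 h2
    obtain ⟨s, f, rfl, h3, h4⟩ := exists_of_mem_PP hp
    obtain ⟨s', f', rfl, h5, h6⟩ := exists_of_mem_PP hq
    obtain ⟨s'', f'', rfl, h7, h8⟩ := exists_of_mem_PP hr
    have h9 := (le_PP.1 ⟨hp, hq, h1⟩).2.2
    have h10 := (le_PP.1 ⟨hq, hr, h2⟩).2.2
    exact (le_PP.2 ⟨⟨h3, h4⟩, ⟨h7, h8⟩, LeP.trans hN h3 h9 h10⟩).2.2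
  · intro p hp
    obtain ⟨s, f, rfl, h1, h2⟩ := exists_of_mem_PP hp
    refine (le_PP.2 ⟨⟨h1, h2⟩, ⟨isS_top hN, isFp_empty hN⟩, ⟨?_, ?_⟩, ?_⟩).2.2
    · intro x hx
      rw [mem_singleton.1 hx]; exact h1.2.2.1
    · intro x hx hx' y hy
      rw [mem_singleton.1 hy]
      have h3 : x ≠ ∅ := fun h => hx' (mem_singleton.2 h)
      rcases IsOrdinal.mem_trichotomous isOrdinal_empty (dl_ord hN (h1.2.1 hx)) with h | h | h
      · exact h
      · exact absurd h.symm h3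
      · exact absurd h (notMem_empty _)
    · intro a b _ _
      rw [comp_empty]; exact Ex.empty _

/-- extending the first component above a given ordinal -/
theorem exists_ext {s f x : Z} (hs : IsS N s) (hf : IsFp N f) (hx : x ∈ dl N) :
    ∃ b ∈ dl N, x ∈ b ∧ (∀ y ∈ s, y ∈ b) ∧ IsS N (insert b s) ∧
      Le (PP N) (LL N) (pair (insert b s) f) (pair s f) := by
  obtain ⟨m, hm, hmax⟩ := hs.2.2.2 s hs.1 (fun _ h => h) (fun h => notMem_empty _ (h ▸ hs.2.2.1))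
  have hmd := hs.2.1 hm
  obtain ⟨c, hc, h1, h2⟩ : ∃ c ∈ dl N, x ⊆ c ∧ m ⊆ c := by
    rcases IsOrdinal.subset_total (dl_ord hN hx) (dl_ord hN hmd) with h | h
    · exact ⟨m, hmd, h, fun _ h => h⟩
    · exact ⟨x, hx, fun _ h => h, h⟩
  have hcb := dl_limit hN c hc
  have key : ∀ y ∈ dl N, y ⊆ c → y ∈ (insert c c : Z) := fun y hy hyc =>
    IsOrdinal.mem_of_subset_of_mem (dl_ord hN hy) (dl_ord hN hcb) hyc (mem_insert _ _)
  have h3 : ∀ y ∈ s, y ∈ (insert c c : Z) := fun y hy =>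
    key y (hs.2.1 hy) (fun z hz => h2 (hmax y hy hz))
  have h4 : IsS N (insert (insert c c) s) := isS_insert hN hs hcb fun y hy =>
    (dl_ord hN hcb).subset_of_mem (h3 y hy)
  refine ⟨insert c c, hcb, key x hx h1, h3, h4, le_PP.2 ⟨⟨h4, hf⟩, ⟨hs, hf⟩, ⟨?_, ?_⟩, ?_⟩⟩
  · exact fun y hy => mem_insert_of_mem _ hy
  · intro y hy hy' z hz
    rcases mem_insert_iff.1 hy with rfl | hy
    · exact h3 z hz
    · exact absurd hy hy'
  · exact fun a b _ _ => Ex.refl _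

end Facts

end Pool.Agent.Lib.Ctm
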