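import Pool.Agent.Lib.Ctm.Basic

/-!
# Definitions for the final statement: cardinals and `ω_ω` inside a model `(M, E)`
-/

namespace Pool.Agent.Lib.Ctm

open Pool.Agent.Lib.Forcing

section Inside

variable {M : Type*} (E : M → M → Prop)

/-- `k` is a cardinal of `(M, E)`: an ordinal without an injection into a smaller ordinal -/
def IsCard (k : M) : Prop := Forcing.IsOrdinal E k ∧ ∀ m, E m k → ¬ HasInj E k m

/-- `k` is a limit cardinal of `(M, E)`: a cardinal with no greatest cardinal below it -/
def IsLimitCard (k : M) : Prop :=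
  IsCard E k ∧ ∀ m, E m k → ∃ c, E c k ∧ E m c ∧ IsCard E c

/-- `w` is the least nonzero limit ordinal of `(M, E)` -/
def IsOmega (w : M) : Prop := IsLimitOrd E w ∧ ∀ x, E x w → ¬ IsLimitOrd E x

/-- `x` is uncountable in `(M, E)` -/
def IsUncountable (x : M) : Prop := ∀ w, IsOmega E w → ¬ HasInj E x w

/-- `k` is `ω_ω` in the sense of `(M, E)`: the least uncountable limit cardinal -/
def IsAlephOmega (k : M) : Prop :=
  IsLimitCard E k ∧ IsUncountable E k ∧ ∀ k', E k' k → ¬ (IsLimitCard E k' ∧ IsUncountable E k')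

end Inside

end Pool.Agent.Lib.Ctm
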